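import Pool.Agent.Lib.KP.SpecW

/-!
# KP (MP_64edc4_ag), W/Cusp: two walls with the same slopes are not both Levi flat
-/

set_option autoImplicit false

open Set Filter Topology Metric

namespace KP

namespace CuspAux

open Asymptotics

/-- Bounded functions which agree up to `O(w)`. -/
def Cl (l : Filter ℝ) (w f g : ℝ → ℝ) : Prop :=
  f =O[l] (fun _ => (1 : ℝ)) ∧ g =O[l] (fun _ => (1 : ℝ)) ∧ (fun s => f s - g s) =O[l] w

theorem mul_bb {l : Filter ℝ} {f g : ℝ → ℝ} (h : f =O[l] (fun _ => (1 : ℝ)))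
    (h' : g =O[l] (fun _ => (1 : ℝ))) : (fun s => f s * g s) =O[l] (fun _ => (1 : ℝ)) := by
  simpa using h.mul h'

theorem mul_bw {l : Filter ℝ} {f g w : ℝ → ℝ} (h : f =O[l] (fun _ => (1 : ℝ)))
    (h' : g =O[l] w) : (fun s => f s * g s) =O[l] w := by
  simpa using h.mul h'

theorem Cl.add {l : Filter ℝ} {w f g f' g' : ℝ → ℝ} (h : Cl l w f g) (h' : Cl l w f' g') :
    Cl l w (fun s => f s + f' s) (fun s => g s + g' s) :=
  ⟨h.1.add h'.1, h.2.1.add h'.2.1, (h.2.2.add h'.2.2).congr_left fun s => by ring⟩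

theorem Cl.sub {l : Filter ℝ} {w f g f' g' : ℝ → ℝ} (h : Cl l w f g) (h' : Cl l w f' g') :
    Cl l w (fun s => f s - f' s) (fun s => g s - g' s) :=
  ⟨h.1.sub h'.1, h.2.1.sub h'.2.1, (h.2.2.sub h'.2.2).congr_left fun s => by ring⟩

theorem Cl.mul {l : Filter ℝ} {w f g f' g' : ℝ → ℝ} (h : Cl l w f g) (h' : Cl l w f' g') :
    Cl l w (fun s => f s * f' s) (fun s => g s * g' s) :=
  ⟨mul_bb h.1 h'.1, mul_bb h.2.1 h'.2.1,
    ((mul_bw h.1 h'.2.2).add (mul_bw h'.2.1 h.2.2)).congr_left fun s => by ring⟩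

theorem inv_le (x : ℝ) : ‖(1 + x ^ 2)⁻¹‖ ≤ 1 * ‖(1 : ℝ)‖ := by
  have h : 1 ≤ 1 + x ^ 2 := by nlinarith [sq_nonneg x]
  rw [norm_inv, Real.norm_of_nonneg (by linarith), norm_one, mul_one]
  exact inv_le_one_of_one_le₀ h

theorem Cl.inv {l : Filter ℝ} {w f g : ℝ → ℝ} (h : Cl l w f g) :
    Cl l w (fun s => (1 + f s ^ 2)⁻¹) (fun s => (1 + g s ^ 2)⁻¹) := by
  have h1 : (fun s => (1 + f s ^ 2)⁻¹) =O[l] (fun _ => (1 : ℝ)) :=
    IsBigO.of_bound 1 (Eventually.of_forall fun s => inv_le _)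
  have h2 : (fun s => (1 + g s ^ 2)⁻¹) =O[l] (fun _ => (1 : ℝ)) :=
    IsBigO.of_bound 1 (Eventually.of_forall fun s => inv_le _)
  refine ⟨h1, h2, ?_⟩
  have h3 := mul_bw (mul_bb (mul_bb h1 h2) (h.1.add h.2.1)) h.2.2
  refine h3.neg_left.congr_left fun s => ?_
  have h4 : 1 + f s ^ 2 ≠ 0 := by nlinarith [sq_nonneg (f s)]
  have h5 : 1 + g s ^ 2 ≠ 0 := by nlinarith [sq_nonneg (g s)]
  field_simp
  ring

theorem e3_cont : Continuous fun σ : ℝ => e3 ![0, 0] σ := by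
  unfold e3
  refine continuous_pi fun i => ?_
  fin_cases i
  · simpa using continuous_const
  · simpa using continuous_const
  · simpa using Complex.continuous_ofReal

theorem e3_zero : e3 ![0, 0] 0 = 0 := by
  unfold e3
  ext i
  fin_cases i <;> simp

theorem tend {N : ℕ} (hN : 1 ≤ N) {G : Cn 3 → ℂ} {ε : ℝ} (hε : 0 < ε)
    (hG : DifferentiableOn ℂ G (ball 0 ε)) :
    Tendsto (fun s : ℝ => (G (e3 ![0, 0] (s ^ ((1 : ℝ) / (N : ℝ))))).re) (𝓝[>] 0)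
      (𝓝 (G 0).re) := by
  have hN0 : (0 : ℝ) < N := by exact_mod_cast hN
  have h1 : Tendsto (fun s : ℝ => s ^ ((1 : ℝ) / (N : ℝ))) (𝓝 0) (𝓝 0) := by
    have := (Real.continuousAt_rpow_const 0 ((1 : ℝ) / (N : ℝ)) (Or.inr (by positivity))).tendsto
    rwa [Real.zero_rpow (by positivity)] at this
  have h2 : Tendsto (fun σ : ℝ => e3 ![0, 0] σ) (𝓝 0) (𝓝 0) := by
    have := e3_cont.tendsto 0
    rwa [e3_zero] at this
  have h3 : ContinuousAt G 0 := (hG.continuousOn).continuousAt (ball_mem_nhds 0 hε)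
  have h4 : Tendsto (fun z : ℂ => z.re) (𝓝 (G 0)) (𝓝 (G 0).re) :=
    Complex.continuous_re.tendsto _
  exact (h4.comp (h3.tendsto.comp (h2.comp h1))).mono_left nhdsWithin_le_nhds

theorem qf_pt (b : ℝ) (N : ℕ) (G : Cn 3 → ℂ) (s : ℝ) :
    qf b N G ![0, 0, s] = s ^ b * (G (e3 ![0, 0] (s ^ ((1 : ℝ) / (N : ℝ))))).re := by
  simp [qf]

theorem bnd {N : ℕ} (hN : 1 ≤ N) {G : Cn 3 → ℂ} {ε : ℝ} (hε : 0 < ε)
    (hG : DifferentiableOn ℂ G (ball 0 ε)) (b : ℝ) :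
    (fun s : ℝ => qf b N G ![0, 0, s]) =O[𝓝[>] 0] (fun s => s ^ b) := by
  have h1 := (isBigO_refl (fun s : ℝ => s ^ b) (𝓝[>] 0)).mul
    ((tend hN hε hG).isBigO_one ℝ)
  simp only [qf_pt]
  simpa using h1

theorem pow_le {a b : ℝ} (h : b ≤ a) :
    (fun s : ℝ => s ^ a) =O[𝓝[>] 0] (fun s : ℝ => s ^ b) := by
  refine IsBigO.of_bound 1 ?_
  filter_upwards [self_mem_nhdsWithin, mem_nhdsWithin_of_mem_nhds (Iio_mem_nhds one_pos)]
    with s hs hs1
  have hs : 0 < s := hs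
  have hs1 : s < 1 := hs1
  rw [Real.norm_of_nonneg (Real.rpow_nonneg hs.le _), Real.norm_of_nonneg
    (Real.rpow_nonneg hs.le _), one_mul]
  exact Real.rpow_le_rpow_of_exponent_ge hs hs1.le h

/-- The domain. -/
def Om (N : ℕ) (ε : ℝ) : Set (Fin 3 → ℝ) := {p | |p 0| < ε ∧ |p 1| < ε ∧ 0 < p 2 ∧ p 2 < ε ^ N}

theorem Om_open (N : ℕ) (ε : ℝ) : IsOpen (Om N ε) := by
  have h0 : Continuous fun p : Fin 3 → ℝ => |p 0| := by fun_prop
  have h1 : Continuous fun p : Fin 3 → ℝ => |p 1| := by fun_prop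
  have h2 : Continuous fun p : Fin 3 → ℝ => p 2 := by fun_prop
  exact (isOpen_lt h0 continuous_const).inter ((isOpen_lt h1 continuous_const).inter
    ((isOpen_lt continuous_const h2).inter (isOpen_lt h2 continuous_const)))

theorem ev_Om {N : ℕ} {ε : ℝ} (hε : 0 < ε) :
    ∀ᶠ s : ℝ in 𝓝[>] 0, (![0, 0, s] : Fin 3 → ℝ) ∈ Om N ε := by
  filter_upwards [self_mem_nhdsWithin, mem_nhdsWithin_of_mem_nhds (Iio_mem_nhds (pow_pos hε N))]
    with s hs hs1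
  refine ⟨?_, ?_, hs, hs1⟩ <;> simpa using hε

theorem first (h1 : S_QD) {N : ℕ} (hN : 1 ≤ N) {G : Cn 3 → ℂ} {ε : ℝ} (hε : 0 < ε)
    (hG : DifferentiableOn ℂ G (ball 0 ε)) (a : ℝ) (i : Fin 3) :
    (fun s : ℝ => fderiv ℝ (qf a N G) ![0, 0, s] (Pi.single i 1)) =O[𝓝[>] 0]
      (fun s => s ^ (a - 1)) := by
  obtain ⟨hd, ht, hf⟩ := h1 a N G ε hN hε hG
  have hev : ∀ᶠ s : ℝ in 𝓝[>] 0, ∀ v : Fin 3 → ℝ, fderiv ℝ (qf a N G) ![0, 0, s] v =
      v 0 * qf a N (dG 0 G) ![0, 0, s] + v 1 * qf a N (dG 1 G) ![0, 0, s] +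
        v 2 * qf (a - 1) N (tG a N G) ![0, 0, s] := by
    filter_upwards [ev_Om (N := N) hε] with s hs
    exact (hf _ hs.1 hs.2.1 hs.2.2.1 hs.2.2.2).2
  have hle : a - 1 ≤ a := by linarith
  fin_cases i
  · refine ((bnd hN hε (hd 0) a).trans (pow_le hle)).congr' ?_ EventuallyEq.rfl
    filter_upwards [hev] with s hs
    rw [hs]
    simp
  · refine ((bnd hN hε (hd 1) a).trans (pow_le hle)).congr' ?_ EventuallyEq.rfl
    filter_upwards [hev] with s hs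
    rw [hs]
    simp
  · refine (bnd hN hε ht (a - 1)).congr' ?_ EventuallyEq.rfl
    filter_upwards [hev] with s hs
    rw [hs]
    simp

theorem second (h1 : S_QD) (h2 : S_LLq) {N : ℕ} (hN : 1 ≤ N) {G : Cn 3 → ℂ} {ε : ℝ} (hε : 0 < ε)
    (hG : DifferentiableOn ℂ G (ball 0 ε)) (a : ℝ) (i j : Fin 3) (hij : ¬ (i = 2 ∧ j = 2)) :
    (fun s : ℝ => fderiv ℝ (fderiv ℝ (qf a N G)) ![0, 0, s] (Pi.single i 1) (Pi.single j 1))
      =O[𝓝[>] 0] (fun s => s ^ (a - 1)) := by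
  obtain ⟨hd, ht, -⟩ := h1 a N G ε hN hε hG
  have hdd := fun i => (h1 a N (dG i G) ε hN hε (hd i)).1
  have htd := fun i => (h1 a N (dG i G) ε hN hε (hd i)).2.1
  have hdt := (h1 a N (tG a N G) ε hN hε ht).1
  have hev : ∀ᶠ s : ℝ in 𝓝[>] 0, (![0, 0, s] : Fin 3 → ℝ) ∈ Om N ε := ev_Om hε
  have hle : a - 1 ≤ a := by linarith
  fin_cases i <;> fin_cases j
  · refine ((bnd hN hε (hdd 0 0) a).trans (pow_le hle)).congr' ?_ EventuallyEq.rfl
    filter_upwards [hev] with s hs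
    rw [(h2 a N G ε hN hε hG _ hs.1 hs.2.1 hs.2.2.1 hs.2.2.2).2]
    simp
  · refine ((bnd hN hε (hdd 1 0) a).trans (pow_le hle)).congr' ?_ EventuallyEq.rfl
    filter_upwards [hev] with s hs
    rw [(h2 a N G ε hN hε hG _ hs.1 hs.2.1 hs.2.2.1 hs.2.2.2).2]
    simp
  · refine (bnd hN hε (hdt 0) (a - 1)).congr' ?_ EventuallyEq.rfl
    filter_upwards [hev] with s hs
    rw [(h2 a N G ε hN hε hG _ hs.1 hs.2.1 hs.2.2.1 hs.2.2.2).2]
    simp
  · refine ((bnd hN hε (hdd 0 1) a).trans (pow_le hle)).congr' ?_ EventuallyEq.rfl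
    filter_upwards [hev] with s hs
    rw [(h2 a N G ε hN hε hG _ hs.1 hs.2.1 hs.2.2.1 hs.2.2.2).2]
    simp
  · refine ((bnd hN hε (hdd 1 1) a).trans (pow_le hle)).congr' ?_ EventuallyEq.rfl
    filter_upwards [hev] with s hs
    rw [(h2 a N G ε hN hε hG _ hs.1 hs.2.1 hs.2.2.1 hs.2.2.2).2]
    simp
  · refine (bnd hN hε (hdt 1) (a - 1)).congr' ?_ EventuallyEq.rfl
    filter_upwards [hev] with s hs
    rw [(h2 a N G ε hN hε hG _ hs.1 hs.2.1 hs.2.2.1 hs.2.2.2).2]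
    simp
  · refine (bnd hN hε (htd 0) (a - 1)).congr' ?_ EventuallyEq.rfl
    filter_upwards [hev] with s hs
    rw [(h2 a N G ε hN hε hG _ hs.1 hs.2.1 hs.2.2.1 hs.2.2.2).2]
    simp
  · refine (bnd hN hε (htd 1) (a - 1)).congr' ?_ EventuallyEq.rfl
    filter_upwards [hev] with s hs
    rw [(h2 a N G ε hN hε hG _ hs.1 hs.2.1 hs.2.2.1 hs.2.2.2).2]
    simp
  · exact absurd ⟨rfl, rfl⟩ hij

/-- The part of the Levi form without the last second derivative. -/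
noncomputable def rest (f0 f1 f2 f00 f01 f10 f11 f12 f21 : ℝ) : ℝ :=
  f00 + (f2 - f0 * f1) * (1 + f1 ^ 2)⁻¹ * (f01 + f10) +
    (f2 - f0 * f1) * (1 + f1 ^ 2)⁻¹ * ((f2 - f0 * f1) * (1 + f1 ^ 2)⁻¹) * f11 +
    (f0 + f1 * f2) * (1 + f1 ^ 2)⁻¹ * ((f0 + f1 * f2) * (1 + f1 ^ 2)⁻¹) * f11 -
    (f0 + f1 * f2) * (1 + f1 ^ 2)⁻¹ * (f12 + f21)

theorem LL_eq (g : (Fin 3 → ℝ) → ℝ) (p : Fin 3 → ℝ) :
    LL g p = rest (fderiv ℝ g p (Pi.single 0 1)) (fderiv ℝ g p (Pi.single 1 1))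
      (fderiv ℝ g p (Pi.single 2 1))
      (fderiv ℝ (fderiv ℝ g) p (Pi.single 0 1) (Pi.single 0 1))
      (fderiv ℝ (fderiv ℝ g) p (Pi.single 0 1) (Pi.single 1 1))
      (fderiv ℝ (fderiv ℝ g) p (Pi.single 1 1) (Pi.single 0 1))
      (fderiv ℝ (fderiv ℝ g) p (Pi.single 1 1) (Pi.single 1 1))
      (fderiv ℝ (fderiv ℝ g) p (Pi.single 1 1) (Pi.single 2 1))
      (fderiv ℝ (fderiv ℝ g) p (Pi.single 2 1) (Pi.single 1 1)) +
      fderiv ℝ (fderiv ℝ g) p (Pi.single 2 1) (Pi.single 2 1) := by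
  have e1 : (![1, k1 g p, 0] : Fin 3 → ℝ) = Pi.single 0 1 + k1 g p • Pi.single 1 1 := by
    ext i
    fin_cases i <;> simp
  have e2 : (![0, -k2 g p, 1] : Fin 3 → ℝ) = -k2 g p • Pi.single 1 1 + Pi.single 2 1 := by
    ext i
    fin_cases i <;> simp
  unfold LL
  rw [e1, e2]
  simp only [map_add, map_smul, ContinuousLinearMap.add_apply, ContinuousLinearMap.smul_apply,
    smul_eq_mul]
  unfold rest k1 k2
  ring

theorem fdiff {N : ℕ} {ga gb D : (Fin 3 → ℝ) → ℝ} {ε : ℝ}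
    (hD : ∀ p ∈ Om N ε, gb p - ga p = D p)
    (ha : ∀ p ∈ Om N ε, ContDiffAt ℝ 2 ga p) (hb : ∀ p ∈ Om N ε, ContDiffAt ℝ 2 gb p) :
    (∀ p ∈ Om N ε, ∀ v, fderiv ℝ gb p v - fderiv ℝ ga p v = fderiv ℝ D p v) ∧
    ∀ p ∈ Om N ε, ∀ u v, fderiv ℝ (fderiv ℝ gb) p u v - fderiv ℝ (fderiv ℝ ga) p u v =
      fderiv ℝ (fderiv ℝ D) p u v := by
  have hev : ∀ p ∈ Om N ε, ∀ᶠ p' in 𝓝 p, p' ∈ Om N ε := fun p hp => (Om_open N ε).mem_nhds hp
  have h1 : ∀ p ∈ Om N ε, fderiv ℝ gb p - fderiv ℝ ga p = fderiv ℝ D p := by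
    intro p hp
    have hda : DifferentiableAt ℝ ga p := (ha p hp).differentiableAt two_ne_zero
    have hdb : DifferentiableAt ℝ gb p := (hb p hp).differentiableAt two_ne_zero
    rw [← fderiv_sub hdb hda]
    refine EventuallyEq.fderiv_eq ?_
    filter_upwards [hev p hp] with p' hp'
    exact hD p' hp'
  refine ⟨fun p hp v => by rw [← h1 p hp]; rfl, fun p hp u v => ?_⟩
  have hda : DifferentiableAt ℝ (fderiv ℝ ga) p :=
    ((ha p hp).fderiv_right (m := 1) (by norm_num)).differentiableAt one_ne_zero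
  have hdb : DifferentiableAt ℝ (fderiv ℝ gb) p :=
    ((hb p hp).fderiv_right (m := 1) (by norm_num)).differentiableAt one_ne_zero
  have h2 : fderiv ℝ (fderiv ℝ gb) p - fderiv ℝ (fderiv ℝ ga) p = fderiv ℝ (fderiv ℝ D) p := by
    rw [← fderiv_sub hdb hda]
    refine EventuallyEq.fderiv_eq ?_
    filter_upwards [hev p hp] with p' hp'
    exact h1 p' hp'
  rw [← h2]
  rfl

theorem e3_mem {N : ℕ} (hN : 1 ≤ N) {ε : ℝ} (hε : 0 < ε) {p : Fin 3 → ℝ} (hp : p ∈ Om N ε) :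
    ‖(![p 0, p 1] : Fin 2 → ℝ)‖ < ε ∧ 0 < p 2 ^ ((1 : ℝ) / (N : ℝ)) ∧
      p 2 ^ ((1 : ℝ) / (N : ℝ)) < ε ∧ e3 ![p 0, p 1] (p 2 ^ ((1 : ℝ) / (N : ℝ))) ∈
        ball (0 : Cn 3) ε := by
  obtain ⟨h0, h1, h2, h3⟩ := hp
  have hN0 : (0 : ℝ) < N := by exact_mod_cast hN
  have h4 : ‖(![p 0, p 1] : Fin 2 → ℝ)‖ < ε := by
    rw [pi_norm_lt_iff hε]
    intro i
    fin_cases i
    · simpa using h0
    · simpa using h1
  have h5 : 0 < p 2 ^ ((1 : ℝ) / (N : ℝ)) := Real.rpow_pos_of_pos h2 _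
  have h6 : p 2 ^ ((1 : ℝ) / (N : ℝ)) < ε := by
    have h7 := Real.rpow_lt_rpow h2.le h3 (z := (1 : ℝ) / (N : ℝ)) (by positivity)
    rwa [← Real.rpow_natCast, ← Real.rpow_mul hε.le, mul_one_div_cancel hN0.ne',
      Real.rpow_one] at h7
  refine ⟨h4, h5, h6, ?_⟩
  rw [mem_ball_zero_iff, pi_norm_lt_iff hε]
  intro i
  unfold e3
  fin_cases i
  · simpa using h0
  · simpa using h1
  · have h8 : |p 2 ^ ((1 : ℝ) / (N : ℝ))| < ε := by rwa [abs_of_pos h5]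
    simpa using h8

end CuspAux

open CuspAux Asymptotics in
theorem tCusp (h1 : S_QD) (h2 : S_LLq) : S_Cusp := by
  intro N q ga gb E ε hN hq hε hga hgb hE hE0 ra rb hd ρ hρ
  by_contra hcon
  push Not at hcon
  have hN0 : (0 : ℝ) < N := by exact_mod_cast hN
  have hq0 : (0 : ℝ) < q := by exact_mod_cast hq
  obtain ⟨P, hP⟩ : ∃ P : ℝ, P = 1 + q / N := ⟨_, rfl⟩
  have hP1 : 1 < P := by
    rw [hP]
    have : 0 < (q : ℝ) / N := by positivity
    linarith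
  -- the difference
  have hD : ∀ p ∈ Om N ε, qf 1 N gb p - qf 1 N ga p = qf P N E p := by
    intro p hp
    obtain ⟨-, h3, -, h4⟩ := e3_mem hN hε hp
    have h5 := hd _ h4
    have h6 : (e3 ![p 0, p 1] (p 2 ^ ((1 : ℝ) / (N : ℝ)))) 2 =
        ((p 2 ^ ((1 : ℝ) / (N : ℝ)) : ℝ) : ℂ) := rfl
    rw [h6, ← Complex.ofReal_pow] at h5
    have h7 := congrArg Complex.re h5
    rw [Complex.re_ofReal_mul, Complex.sub_re] at h7
    unfold qf
    rw [← mul_sub, h7, hP, Real.rpow_add hp.2.2.1, Real.rpow_one, ← Real.rpow_natCast,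
      ← Real.rpow_mul hp.2.2.1.le, one_div_mul_eq_div, mul_assoc]
  obtain ⟨hf1, hf2⟩ := fdiff hD
    (fun p hp => (h2 1 N ga ε hN hε hga p hp.1 hp.2.1 hp.2.2.1 hp.2.2.2).1)
    (fun p hp => (h2 1 N gb ε hN hε hgb p hp.1 hp.2.1 hp.2.2.1 hp.2.2.2).1)
  -- `E 0` is real
  have hEre : (E 0).re ≠ 0 := by
    have him : (E 0).im = 0 := by
      have ht : Tendsto (fun σ : ℝ => (E (e3 ![0, 0] σ)).im) (𝓝[>] 0) (𝓝 (E 0).im) := by
        have h3 : Tendsto (fun σ : ℝ => e3 ![0, 0] σ) (𝓝 0) (𝓝 0) := by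
          have := e3_cont.tendsto 0
          rwa [e3_zero] at this
        have h4 : ContinuousAt E 0 := (hE.continuousOn).continuousAt (ball_mem_nhds 0 hε)
        exact ((Complex.continuous_im.tendsto _).comp (h4.tendsto.comp h3)).mono_left
          nhdsWithin_le_nhds
      have h5 : (fun σ : ℝ => (E (e3 ![0, 0] σ)).im) =ᶠ[𝓝[>] 0] fun _ => 0 := by
        filter_upwards [self_mem_nhdsWithin, mem_nhdsWithin_of_mem_nhds (Iio_mem_nhds hε)]
          with σ hσ hσε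
        have hσ : 0 < σ := hσ
        have hσε : σ < ε := hσε
        have hx : ‖(![0, 0] : Fin 2 → ℝ)‖ < ε := by
          rw [pi_norm_lt_iff hε]
          intro i
          fin_cases i <;> simpa using hε
        have hz : e3 ![0, 0] σ ∈ ball (0 : Cn 3) ε := by
          rw [mem_ball_zero_iff, pi_norm_lt_iff hε]
          intro i
          unfold e3
          fin_cases i
          · simpa using hε
          · simpa using hε
          · simpa [abs_of_pos hσ] using hσε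
        have h6 := congrArg Complex.im (hd _ hz)
        have h7 : (e3 ![0, 0] σ) 2 = (σ : ℂ) := rfl
        rw [h7, ← Complex.ofReal_pow, Complex.im_ofReal_mul, Complex.sub_im,
          ra _ σ hx hσ.le hσε, rb _ σ hx hσ.le hσε, sub_zero] at h6
        exact (mul_eq_zero.mp h6.symm).resolve_left (pow_pos hσ q).ne'
      exact tendsto_nhds_unique (ht.congr' h5) tendsto_const_nhds |>.symm ▸ rfl
    intro h0
    exact hE0 (Complex.ext h0 him)
  -- the pairs of functions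
  obtain ⟨w, hw⟩ : ∃ w : ℝ → ℝ, w = fun s => s ^ (P - 1) := ⟨_, rfl⟩
  have hone : (fun s : ℝ => s ^ ((1 : ℝ) - 1)) = fun _ => (1 : ℝ) := by
    funext s
    rw [sub_self, Real.rpow_zero]
  have hevO : ∀ᶠ s : ℝ in 𝓝[>] 0, (![0, 0, s] : Fin 3 → ℝ) ∈ Om N ε := ev_Om hε
  have c1 : ∀ i, Cl (𝓝[>] 0) w (fun s => fderiv ℝ (qf 1 N gb) ![0, 0, s] (Pi.single i 1))
      (fun s => fderiv ℝ (qf 1 N ga) ![0, 0, s] (Pi.single i 1)) := by
    intro i
    have b1 := first h1 hN hε hgb 1 i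
    have b2 := first h1 hN hε hga 1 i
    rw [hone] at b1 b2
    refine ⟨b1, b2, ?_⟩
    rw [hw]
    refine (first h1 hN hε hE P i).congr' ?_ EventuallyEq.rfl
    filter_upwards [hevO] with s hs
    exact (hf1 _ hs _).symm
  have c2 : ∀ i j : Fin 3, ¬ (i = 2 ∧ j = 2) → Cl (𝓝[>] 0) w
      (fun s => fderiv ℝ (fderiv ℝ (qf 1 N gb)) ![0, 0, s] (Pi.single i 1) (Pi.single j 1))
      (fun s => fderiv ℝ (fderiv ℝ (qf 1 N ga)) ![0, 0, s] (Pi.single i 1) (Pi.single j 1)) := by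
    intro i j hij
    have b1 := second h1 h2 hN hε hgb 1 i j hij
    have b2 := second h1 h2 hN hε hga 1 i j hij
    rw [hone] at b1 b2
    refine ⟨b1, b2, ?_⟩
    rw [hw]
    refine (second h1 h2 hN hε hE P i j hij).congr' ?_ EventuallyEq.rfl
    filter_upwards [hevO] with s hs
    exact (hf2 _ hs _ _).symm
  have k1c := ((c1 2).sub ((c1 0).mul (c1 1))).mul (c1 1).inv
  have k2c := ((c1 0).add ((c1 1).mul (c1 2))).mul (c1 1).inv
  have hrest := (((((c2 0 0 (by decide)).add (k1c.mul ((c2 0 1 (by decide)).add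
    (c2 1 0 (by decide))))).add ((k1c.mul k1c).mul (c2 1 1 (by decide)))).add
    ((k2c.mul k2c).mul (c2 1 1 (by decide)))).sub
    (k2c.mul ((c2 1 2 (by decide)).add (c2 2 1 (by decide))))).2.2
  have h22 : (fun s : ℝ => qf (P - 1 - 1) N (tG (P - 1) N (tG P N E)) ![0, 0, s])
      =O[𝓝[>] 0] w := by
    refine hrest.neg_left.congr' ?_ EventuallyEq.rfl
    filter_upwards [hevO, self_mem_nhdsWithin, mem_nhdsWithin_of_mem_nhds (Iio_mem_nhds hρ)]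
      with s hs hs0 hsρ
    obtain ⟨l1, l2⟩ := hcon s hs0 hsρ
    rw [LL_eq] at l1 l2
    have h3 := hf2 _ hs (Pi.single 2 1) (Pi.single 2 1)
    rw [(h2 P N E ε hN hε hE _ hs.1 hs.2.1 hs.2.2.1 hs.2.2.2).2] at h3
    have h4 : qf (P - 1 - 1) N (tG (P - 1) N (tG P N E)) ![0, 0, s] =
        fderiv ℝ (fderiv ℝ (qf 1 N gb)) ![0, 0, s] (Pi.single 2 1) (Pi.single 2 1) -
        fderiv ℝ (fderiv ℝ (qf 1 N ga)) ![0, 0, s] (Pi.single 2 1) (Pi.single 2 1) := by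
      rw [h3]
      simp
    rw [h4]
    unfold rest at l1 l2
    linarith
  -- the conclusion
  obtain ⟨-, ht, -⟩ := h1 P N E ε hN hε hE
  obtain ⟨-, htt, -⟩ := h1 (P - 1) N (tG P N E) ε hN hε ht
  have hlim := tend hN hε htt
  have hval : (tG (P - 1) N (tG P N E) 0).re = (P - 1) * P * (E 0).re := by
    unfold tG
    simp
    ring
  have hsmall : (fun s : ℝ => (tG (P - 1) N (tG P N E)
      (e3 ![0, 0] (s ^ ((1 : ℝ) / (N : ℝ))))).re) =O[𝓝[>] 0] fun s => s := by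
    have h3 := (isBigO_refl (fun s : ℝ => s ^ (2 - P)) (𝓝[>] 0)).mul h22
    refine h3.congr' ?_ ?_
    · filter_upwards [self_mem_nhdsWithin] with s hs
      have hs : 0 < s := hs
      rw [qf_pt, ← mul_assoc, ← Real.rpow_add hs, show 2 - P + (P - 1 - 1) = 0 by ring,
        Real.rpow_zero, one_mul]
    · filter_upwards [self_mem_nhdsWithin] with s hs
      have hs : 0 < s := hs
      rw [hw]
      simp only
      rw [← Real.rpow_add hs, show 2 - P + (P - 1) = 1 by ring, Real.rpow_one]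
  have hz : Tendsto (fun s : ℝ => (tG (P - 1) N (tG P N E)
      (e3 ![0, 0] (s ^ ((1 : ℝ) / (N : ℝ))))).re) (𝓝[>] 0) (𝓝 0) :=
    hsmall.trans_tendsto (tendsto_id.mono_left nhdsWithin_le_nhds)
  have h5 := tendsto_nhds_unique hlim hz
  rw [hval] at h5
  have h6 : (P - 1) * P ≠ 0 := by
    have : 0 < (P - 1) * P := mul_pos (by linarith) (by linarith)
    exact this.ne'
  exact (mul_ne_zero h6 hEre) h5

end KP
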