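import Pool.Agent.Lib.KP.SpecW

set_option autoImplicit false

open Set Filter Topology Metric

namespace KP

namespace DefEAux

theorem cp_eq (z : Cn 2) : cp (fun i => (z i).re) (fun i => (z i).im) = z := by
  ext i
  exact Complex.re_add_im (z i)

theorem re_le (z : Cn 2) : ‖(fun i => (z i).re : Fin 2 → ℝ)‖ ≤ ‖z‖ := by
  rw [pi_norm_le_iff_of_nonneg (norm_nonneg _)]
  intro i
  exact (Complex.abs_re_le_norm (z i)).trans (norm_le_pi_norm z i)

theorem im_le (z : Cn 2) : ‖(fun i => (z i).im : Fin 2 → ℝ)‖ ≤ ‖z‖ := by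
  rw [pi_norm_le_iff_of_nonneg (norm_nonneg _)]
  intro i
  exact (Complex.abs_im_le_norm (z i)).trans (norm_le_pi_norm z i)

theorem cp_le (x y : Fin 2 → ℝ) : ‖cp x y‖ ≤ ‖x‖ + ‖y‖ := by
  rw [pi_norm_le_iff_of_nonneg (by positivity)]
  intro i
  show ‖(x i : ℂ) + (y i : ℂ) * Complex.I‖ ≤ _
  refine (norm_add_le _ _).trans ?_
  rw [norm_mul, Complex.norm_I, mul_one, Complex.norm_real, Complex.norm_real]
  exact add_le_add (norm_le_pi_norm x i) (norm_le_pi_norm y i)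

/-- the real linear map `(x, y) ↦ x + i y` -/
noncomputable def L : (Fin 4 → ℝ) →ₗ[ℝ] Cn 2 where
  toFun t := cp ![t 0, t 1] ![t 2, t 3]
  map_add' s t := by
    ext i
    fin_cases i <;> simp [cp] <;> ring
  map_smul' a t := by
    ext i
    fin_cases i <;> simp [cp] <;> ring

theorem L_analytic (t : Fin 4 → ℝ) : AnalyticAt ℝ (fun t => L t) t :=
  (LinearMap.toContinuousLinearMap L).analyticAt t

theorem L_em (x y : Fin 2 → ℝ) : L ![x 0, x 1, y 0, y 1] = cp x y := by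
  show cp ![x 0, x 1] ![y 0, y 1] = cp x y
  ext i
  fin_cases i <;> simp [cp]

theorem em_eq (x y : Fin 2 → ℝ) :
    (fun i => (((![x 0, x 1, y 0, y 1] : Fin 4 → ℝ) i : ℝ) : ℂ)) = em x y := by
  ext i
  fin_cases i <;> rfl

theorem vec_lt {x y : Fin 2 → ℝ} {δ : ℝ} (hx : ‖x‖ < δ) (hy : ‖y‖ < δ) :
    (![x 0, x 1, y 0, y 1] : Fin 4 → ℝ) ∈ ball (0 : Fin 4 → ℝ) δ := by
  have hδ : 0 < δ := (norm_nonneg x).trans_lt hx
  rw [mem_ball_zero_iff, pi_norm_lt_iff hδ]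
  have hx' := (pi_norm_lt_iff hδ).1 hx
  have hy' := (pi_norm_lt_iff hδ).1 hy
  intro i
  fin_cases i
  · exact hx' 0
  · exact hx' 1
  · exact hy' 0
  · exact hy' 1

theorem em_lt {x y : Fin 2 → ℝ} {δ : ℝ} (hx : ‖x‖ < δ) (hy : ‖y‖ < δ) :
    em x y ∈ ball (0 : Cn 4) δ := by
  have hδ : 0 < δ := (norm_nonneg x).trans_lt hx
  rw [mem_ball_zero_iff, pi_norm_lt_iff hδ]
  have hx' := (pi_norm_lt_iff hδ).1 hx
  have hy' := (pi_norm_lt_iff hδ).1 hy
  intro i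
  fin_cases i
  · simpa [em] using hx' 0
  · simpa [em] using hx' 1
  · simpa [em] using hy' 0
  · simpa [em] using hy' 1

/-- one function -/
theorem one (h1 : S_Cplx) (f : Cn 2 → ℝ) (hf : AnalyticAt ℝ f 0) :
    ∃ ρ > 0, ∃ F : Cn 4 → ℂ, DifferentiableOn ℂ F (ball 0 ρ) ∧
      ∀ x y : Fin 2 → ℝ, ‖x‖ < ρ → ‖y‖ < ρ → F (em x y) = ((f (cp x y) : ℝ) : ℂ) := by
  have hg : AnalyticAt ℝ (fun (t : Fin 4 → ℝ) (_ : Fin 1) => ((f (L t) : ℝ) : ℂ)) 0 := by
    rw [analyticAt_pi_iff]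
    intro _
    have h2 : AnalyticAt ℝ (fun t : Fin 4 → ℝ => f (L t)) 0 := by
      have h3 : AnalyticAt ℝ f ((fun t => L t) 0) := by
        show AnalyticAt ℝ f (L 0)
        rw [map_zero]
        exact hf
      exact h3.comp (L_analytic 0)
    exact (Complex.ofRealCLM.analyticAt _).comp h2
  obtain ⟨ρ, hρ, F, hF, hFg⟩ := h1 4 1 _ 0 hg
  have h0 : (fun i => (((0 : Fin 4 → ℝ) i : ℝ) : ℂ)) = (0 : Cn 4) := by
    ext i
    simp
  rw [h0] at hF
  refine ⟨ρ, hρ, fun z => F z 0, fun z hz => (differentiableWithinAt_pi.1 (hF z hz)) 0, ?_⟩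
  intro x y hx hy
  have h2 := hFg _ (vec_lt hx hy)
  rw [em_eq] at h2
  show F (em x y) 0 = _
  rw [h2]
  show ((f (L ![x 0, x 1, y 0, y 1]) : ℝ) : ℂ) = _
  rw [L_em]

end DefEAux

open DefEAux in
/-- **DefE** -/
theorem tDefE (h1 : S_Cplx) : S_DefE := by
  classical
  intro A r hr hS
  obtain ⟨m, f, hfa, hfs⟩ := hS
  choose ρ hρ F hF hFf using fun k => one h1 (f k) (hfa k 0 (mem_ball_self hr))
  set J : Finset (Fin m) := Finset.univ.filter (fun k => ¬ ∀ᶠ z in 𝓝 0, f k z = 0) with hJ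
  set g : Fin J.card → Fin m := fun a => ((J.equivFin.symm a : J) : Fin m) with hg
  have hgJ : ∀ a, ¬ ∀ᶠ z in 𝓝 0, f (g a) z = 0 := fun a =>
    (Finset.mem_filter.1 (J.equivFin.symm a).2).2
  have hsurj : ∀ i ∈ J, ∃ a, g a = i := by
    intro i hi
    refine ⟨J.equivFin ⟨i, hi⟩, ?_⟩
    show ((J.equivFin.symm (J.equivFin ⟨i, hi⟩) : J) : Fin m) = i
    rw [Equiv.symm_apply_apply]
  obtain ⟨δ, hδ0, hδr, hδ1, hδρ⟩ : ∃ δ : ℝ, 0 < δ ∧ δ ≤ r / 2 ∧ δ ≤ 1 ∧ ∀ k, δ ≤ ρ k := by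
    have h2 : ∀ᶠ δ in 𝓝[>] (0 : ℝ), 0 < δ ∧ δ ≤ r / 2 ∧ δ ≤ 1 ∧ ∀ k, δ ≤ ρ k := by
      refine (eventually_mem_nhdsWithin).and (Eventually.and ?_ (Eventually.and ?_ ?_))
      · filter_upwards [Ioc_mem_nhdsGT (half_pos hr)] with δ hδ using hδ.2
      · filter_upwards [Ioc_mem_nhdsGT one_pos] with δ hδ using hδ.2
      · rw [eventually_all]
        intro k
        filter_upwards [Ioc_mem_nhdsGT (hρ k)] with δ hδ using hδ.2
    exact h2.exists
  have hcp : ∀ x y : Fin 2 → ℝ, ‖x‖ < δ → ‖y‖ < δ → cp x y ∈ ball (0 : Cn 2) r := by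
    intro x y hx hy
    rw [mem_ball_zero_iff]
    have := cp_le x y
    linarith
  have hval : ∀ k, ∀ x y : Fin 2 → ℝ, ‖x‖ < δ → ‖y‖ < δ →
      F k (em x y) = ((f k (cp x y) : ℝ) : ℂ) := fun k x y hx hy =>
    hFf k x y (hx.trans_le (hδρ k)) (hy.trans_le (hδρ k))
  refine ⟨J.card, fun a => F (g a), δ, by linarith, hδ0, hδ1, ?_, ?_, ?_, ?_⟩
  · intro a
    exact (hF (g a)).mono (ball_subset_ball (hδρ _))
  · intro a x y hx hy
    rw [hval _ x y hx hy, Complex.ofReal_im]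
  · intro a
    by_contra hcon
    push Not at hcon
    apply hgJ a
    filter_upwards [ball_mem_nhds (0 : Cn 2) hδ0] with z hz
    rw [mem_ball_zero_iff] at hz
    have hx := (re_le z).trans_lt hz
    have hy := (im_le z).trans_lt hz
    have h2 := hcon _ (em_lt hx hy)
    rw [hval _ _ _ hx hy, cp_eq] at h2
    exact_mod_cast h2
  · intro x y x' y' hx hy hx' hy' hs
    refine hfs _ (hcp x y hx hy) _ (hcp x' y' hx' hy') fun k => ?_
    by_cases hk : k ∈ J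
    · obtain ⟨a, rfl⟩ := hsurj k hk
      have h2 := hs a
      simp only [hval _ x y hx hy, hval _ x' y' hx' hy', Complex.ofReal_re] at h2
      exact h2
    · have h2 : ∀ᶠ z in 𝓝 0, f k z = 0 := by
        by_contra h3
        exact hk (Finset.mem_filter.2 ⟨Finset.mem_univ _, h3⟩)
      have h3 := (hfa k).eqOn_zero_of_preconnected_of_eventuallyEq_zero
        (convex_ball (0 : Cn 2) r).isPreconnected (mem_ball_self hr) h2
      rw [h3 (hcp x y hx hy), h3 (hcp x' y' hx' hy')]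
      rfl

end KP
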