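import Pool.Agent.Lib.KP.SpecW

set_option autoImplicit false

open Set Filter Topology Metric

namespace KP

namespace DefTAux

theorem T4_norm (c : Fin 2 → ℝ) (σ : ℝ) (z : Cn 4) : ‖T4 c σ z‖ ≤ ‖c‖ + (1 + |σ|) * ‖z‖ := by
  have hz := norm_nonneg z
  have hσ := abs_nonneg σ
  have hc := norm_nonneg c
  have hc0 : ‖(c 0 : ℂ)‖ ≤ ‖c‖ := by
    rw [Complex.norm_real]
    exact norm_le_pi_norm c 0
  have hc1 : ‖(c 1 : ℂ)‖ ≤ ‖c‖ := by
    rw [Complex.norm_real]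
    exact norm_le_pi_norm c 1
  have hz0 := norm_le_pi_norm z 0
  have hz1 := norm_le_pi_norm z 1
  have hz2 := norm_le_pi_norm z 2
  have hz3 := norm_le_pi_norm z 3
  have hm : ∀ i, ‖(σ : ℂ) * z i‖ ≤ |σ| * ‖z‖ := by
    intro i
    rw [norm_mul, Complex.norm_real, Real.norm_eq_abs]
    exact mul_le_mul_of_nonneg_left (norm_le_pi_norm z i) hσ
  have hp : 0 ≤ |σ| * ‖z‖ := mul_nonneg hσ hz
  rw [pi_norm_le_iff_of_nonneg (by positivity)]
  intro i
  fin_cases i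
  · show ‖(c 0 : ℂ) + z 0 + σ * z 1‖ ≤ _
    have h1 := norm_add_le ((c 0 : ℂ) + z 0) (σ * z 1)
    have h2 := norm_add_le (c 0 : ℂ) (z 0)
    have h3 := hm 1
    nlinarith
  · show ‖(c 1 : ℂ) + z 1‖ ≤ _
    have h2 := norm_add_le (c 1 : ℂ) (z 1)
    nlinarith
  · show ‖z 2 + σ * z 3‖ ≤ _
    have h1 := norm_add_le (z 2) (σ * z 3)
    have h3 := hm 3
    nlinarith
  · show ‖z 3‖ ≤ _
    nlinarith

theorem T4_diff (c : Fin 2 → ℝ) (σ : ℝ) : Differentiable ℂ (T4 c σ) := by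
  rw [differentiable_pi]
  intro i
  fin_cases i
  · show Differentiable ℂ (fun z : Cn 4 => (c 0 : ℂ) + z 0 + σ * z 1)
    fun_prop
  · show Differentiable ℂ (fun z : Cn 4 => (c 1 : ℂ) + z 1)
    fun_prop
  · show Differentiable ℂ (fun z : Cn 4 => z 2 + σ * z 3)
    fun_prop
  · show Differentiable ℂ (fun z : Cn 4 => z 3)
    fun_prop

/-- the inverse of `T4` -/
noncomputable def T4i (c : Fin 2 → ℝ) (σ : ℝ) (w : Cn 4) : Cn 4 :=
  ![w 0 - c 0 - σ * (w 1 - c 1), w 1 - c 1, w 2 - σ * w 3, w 3]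

theorem T4i_cont (c : Fin 2 → ℝ) (σ : ℝ) : Continuous (T4i c σ) := by
  refine continuous_pi fun i => ?_
  fin_cases i
  · show Continuous (fun w : Cn 4 => w 0 - c 0 - σ * (w 1 - c 1))
    fun_prop
  · show Continuous (fun w : Cn 4 => w 1 - c 1)
    fun_prop
  · show Continuous (fun w : Cn 4 => w 2 - σ * w 3)
    fun_prop
  · show Continuous (fun w : Cn 4 => w 3)
    fun_prop

theorem T4_T4i (c : Fin 2 → ℝ) (σ : ℝ) (w : Cn 4) : T4 c σ (T4i c σ w) = w := by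
  ext i
  fin_cases i
  · show (c 0 : ℂ) + (w 0 - c 0 - σ * (w 1 - c 1)) + σ * (w 1 - c 1) = w 0
    ring
  · show (c 1 : ℂ) + (w 1 - c 1) = w 1
    ring
  · show w 2 - σ * w 3 + σ * w 3 = w 2
    ring
  · rfl

theorem T4i_T4 (c : Fin 2 → ℝ) (σ : ℝ) (w : Cn 4) : T4i c σ (T4 c σ w) = w := by
  ext i
  fin_cases i
  · show (c 0 : ℂ) + w 0 + σ * w 1 - c 0 - σ * ((c 1 : ℂ) + w 1 - c 1) = w 0
    ring
  · show (c 1 : ℂ) + w 1 - c 1 = w 1
    ring
  · show w 2 + σ * w 3 - σ * w 3 = w 2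
    ring
  · rfl

theorem em_mem {x y : Fin 2 → ℝ} {δ : ℝ} :
    em x y ∈ ball (0 : Cn 4) δ ↔ ‖x‖ < δ ∧ ‖y‖ < δ := by
  constructor
  · intro h
    have hδ : 0 < δ := by
      rw [mem_ball_zero_iff] at h
      exact (norm_nonneg _).trans_lt h
    rw [mem_ball_zero_iff, pi_norm_lt_iff hδ] at h
    constructor
    · rw [pi_norm_lt_iff hδ]
      intro i
      fin_cases i
      · simpa [em] using h 0
      · simpa [em] using h 1
    · rw [pi_norm_lt_iff hδ]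
      intro i
      fin_cases i
      · simpa [em] using h 2
      · simpa [em] using h 3
  · rintro ⟨hx, hy⟩
    have hδ : 0 < δ := (norm_nonneg x).trans_lt hx
    rw [mem_ball_zero_iff, pi_norm_lt_iff hδ]
    have hx' := (pi_norm_lt_iff hδ).1 hx
    have hy' := (pi_norm_lt_iff hδ).1 hy
    intro i
    fin_cases i
    · simpa [em] using hx' 0
    · simpa [em] using hx' 1
    · simpa [em] using hy' 0
    · simpa [em] using hy' 1

theorem T4_em (c : Fin 2 → ℝ) (σ : ℝ) (x y : Fin 2 → ℝ) :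
    T4 c σ (em x y) = em ![c 0 + x 0 + σ * x 1, c 1 + x 1] ![y 0 + σ * y 1, y 1] := by
  ext i
  fin_cases i <;> simp [T4, em]

theorem sh_cp (c : Fin 2 → ℝ) (σ : ℝ) (x y : Fin 2 → ℝ) :
    (sh c σ).psi (cp x y) = cp ![c 0 + x 0 + σ * x 1, c 1 + x 1] ![y 0 + σ * y 1, y 1] := by
  ext i
  fin_cases i
  · simp [sh, cp]
    ring
  · simp [sh, cp]
    ring

end DefTAux

open DefTAux in
/-- **DefT** -/
theorem tDefT : S_DefT := by
  intro A m F δ h c σ hc ρ hρ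
  have hδ := h.hδ
  have hs : 0 < 1 + |σ| := by
    have := abs_nonneg σ
    linarith
  have hη : 0 < (δ - ‖c‖) / (1 + |σ|) := div_pos (by linarith) hs
  set δ' : ℝ := min (min ρ 1) ((δ - ‖c‖) / (1 + |σ|)) with hδ'
  have hδ'0 : 0 < δ' := lt_min (lt_min hρ one_pos) hη
  have hδ'1 : δ' ≤ 1 := (min_le_left _ _).trans (min_le_right _ _)
  have hmap : ∀ z ∈ ball (0 : Cn 4) δ', T4 c σ z ∈ ball (0 : Cn 4) δ := by
    intro z hz
    rw [mem_ball_zero_iff] at hz ⊢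
    have h1 := T4_norm c σ z
    have h2 : ‖z‖ < (δ - ‖c‖) / (1 + |σ|) := hz.trans_le (min_le_right _ _)
    rw [lt_div_iff₀ hs] at h2
    linarith
  refine ⟨δ', hδ'0, (min_le_left _ _).trans (min_le_left _ _), hmap, ?_⟩
  intro δ'' hδ''0 hδ''
  have hsub : ball (0 : Cn 4) δ'' ⊆ ball (0 : Cn 4) δ' := ball_subset_ball hδ''
  have hreal : ∀ x y : Fin 2 → ℝ, ‖x‖ < δ'' → ‖y‖ < δ'' →
      ‖(![c 0 + x 0 + σ * x 1, c 1 + x 1] : Fin 2 → ℝ)‖ < δ ∧
      ‖(![y 0 + σ * y 1, y 1] : Fin 2 → ℝ)‖ < δ := by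
    intro x y hx hy
    have h1 := hmap _ (hsub (em_mem.2 ⟨hx, hy⟩))
    rw [T4_em] at h1
    exact em_mem.1 h1
  refine ⟨hδ''0, hδ''.trans hδ'1, ?_, ?_, ?_, ?_⟩
  · intro k
    exact (h.hol k).comp (T4_diff c σ).differentiableOn (fun z hz => hmap z (hsub hz))
  · intro k x y hx hy
    obtain ⟨h1, h2⟩ := hreal x y hx hy
    show (F k (T4 c σ (em x y))).im = 0
    rw [T4_em]
    exact h.real k _ _ h1 h2
  · intro k
    by_contra hcon
    push Not at hcon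
    have h0 : (0 : Cn 4) ∈ ball (0 : Cn 4) δ'' := mem_ball_self hδ''0
    have h1 : T4 c σ 0 ∈ ball (0 : Cn 4) δ := hmap 0 (hsub h0)
    have h2 : F k =ᶠ[𝓝 (T4 c σ 0)] 0 := by
      have h3 : ∀ᶠ w in 𝓝 (T4 c σ 0), T4i c σ w ∈ ball (0 : Cn 4) δ'' := by
        refine (T4i_cont c σ).continuousAt.eventually_mem ?_
        rw [T4i_T4]
        exact isOpen_ball.mem_nhds h0
      filter_upwards [h3] with w hw
      have h4 := hcon _ hw
      rw [T4_T4i] at h4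
      exact h4
    have h3 := (Pool.Agent.Lib.Osgood.analyticOnNhd isOpen_ball
      (h.hol k)).eqOn_zero_of_preconnected_of_eventuallyEq_zero
      (convex_ball (0 : Cn 4) δ).isPreconnected h1 h2
    obtain ⟨z, hz, hne⟩ := h.nz k
    exact hne (h3 hz)
  · intro x y x' y' hx hy hx' hy' hs
    obtain ⟨h1, h2⟩ := hreal x y hx hy
    obtain ⟨h3, h4⟩ := hreal x' y' hx' hy'
    have key : cp ![c 0 + x 0 + σ * x 1, c 1 + x 1] ![y 0 + σ * y 1, y 1] ∈ A ↔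
        cp ![c 0 + x' 0 + σ * x' 1, c 1 + x' 1] ![y' 0 + σ * y' 1, y' 1] ∈ A := by
      refine h.sgn _ _ _ _ h1 h2 h3 h4 fun k => ?_
      have h5 := hs k
      simp only [T4_em] at h5
      exact h5
    constructor
    · rintro ⟨-, h5⟩
      refine ⟨mem_univ _, ?_⟩
      rw [sh_cp] at h5 ⊢
      exact key.1 h5
    · rintro ⟨-, h5⟩
      refine ⟨mem_univ _, ?_⟩
      rw [sh_cp] at h5 ⊢
      exact key.2 h5

end KP
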