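import Pool.Agent.Lib.KP.SpecW

/-! # KP, block W: choice of a direction -/

set_option autoImplicit false

open Set Filter Topology Metric

namespace KP

theorem tDirS : S_DirS := by
  intro b β hβ
  by_cases hb : b 0 = 0
  · refine ⟨|b 1| / β + 1, |b 1| / β + 2, by linarith, ?_⟩
    intro σ hσ
    rw [hb, zero_mul, zero_add]
    have h1 : |b 1| / β < σ := by linarith [hσ.1]
    have h2 : |b 1| < β * σ := by
      rw [div_lt_iff₀ hβ] at h1
      linarith
    have h3 : σ ≤ max 1 |σ| := (le_abs_self σ).trans (le_max_right _ _)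
    exact h2.trans_le (mul_le_mul_of_nonneg_left h3 hβ.le)
  · have hb0 : 0 < |b 0| := abs_pos.mpr hb
    have hr : 0 < β / |b 0| := div_pos hβ hb0
    refine ⟨-(b 1) / b 0 - β / |b 0|, -(b 1) / b 0 + β / |b 0|, by linarith, ?_⟩
    intro σ hσ
    have h1 : |σ - -(b 1) / b 0| < β / |b 0| := by
      rw [abs_lt]
      exact ⟨by linarith [hσ.1], by linarith [hσ.2]⟩
    have h2 : b 0 * σ + b 1 = b 0 * (σ - -(b 1) / b 0) := by
      field_simp
      ring
    rw [h2, abs_mul]
    have h3 : |b 0| * |σ - -(b 1) / b 0| < β := by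
      have := mul_lt_mul_of_pos_left h1 hb0
      rwa [mul_div_cancel₀ _ hb0.ne'] at this
    have h4 : β * 1 ≤ β * max 1 |σ| := mul_le_mul_of_nonneg_left (le_max_left _ _) hβ.le
    linarith

end KP
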