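import Pool.Agent.Lib.KP.SpecW

/-!
# KP (MP_64edc4_ag), W/Disc: the number of distinct zeros
-/

set_option autoImplicit false

open Set Filter Topology Metric

namespace KP

namespace DiscAux

private theorem prod_diff {ι : Type} (s : Finset ι) {B : Set (Cn 3)} {f : ι → Cn 3 → ℂ}
    (h : ∀ i, DifferentiableOn ℂ (f i) B) : DifferentiableOn ℂ (fun w => ∏ i ∈ s, f i w) B := by
  classical
  induction s using Finset.induction_on with
  | empty => simp only [Finset.prod_empty]; exact differentiableOn_const _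
  | insert a s ha ih =>
    simp only [Finset.prod_insert ha]
    exact (h a).mul ih

private theorem det_diff {s : ℕ} {B : Set (Cn 3)} {M : Fin s → Fin s → Cn 3 → ℂ}
    (h : ∀ i j, DifferentiableOn ℂ (M i j) B) :
    DifferentiableOn ℂ (fun w => (Matrix.of fun i j => M i j w).det) B := by
  simp only [Matrix.det_apply']
  refine DifferentiableOn.fun_sum fun σ _ => ?_
  refine DifferentiableOn.const_mul ?_ _
  exact prod_diff Finset.univ (f := fun i w => Matrix.of (fun i j => M i j w) (σ i) i)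
    fun i => h _ _

private theorem ext_mem {δ : ℝ} {w : Cn 3} {t : ℂ} (hw : ‖w‖ < δ) (ht : ‖t‖ < δ) :
    ext w t ∈ ball (0 : Cn 4) δ := by
  have hδ : 0 < δ := (norm_nonneg _).trans_lt ht
  rw [mem_ball_zero_iff, pi_norm_lt_iff hδ]
  have h := fun i => (norm_le_pi_norm w i).trans_lt hw
  intro i
  fin_cases i
  · exact h 0
  · exact h 1
  · exact h 2
  · exact ht

private theorem ext_diff (w : Cn 3) (t : ℂ) : DifferentiableAt ℂ (fun s => ext w s) t := by
  rw [differentiableAt_pi]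
  intro i
  fin_cases i
  · exact differentiableAt_const _
  · exact differentiableAt_const _
  · exact differentiableAt_const _
  · exact differentiableAt_id

private theorem fdiff {H : Cn 4 → ℂ} {δ : ℝ} (hH : DifferentiableOn ℂ H (ball 0 δ)) {w : Cn 3}
    (hw : ‖w‖ < δ) : DifferentiableOn ℂ (fun t => H (ext w t)) (ball 0 δ) := by
  intro t ht
  have h1 := hH.differentiableAt (isOpen_ball.mem_nhds (ext_mem hw (mem_ball_zero_iff.1 ht)))
  exact (DifferentiableAt.comp t h1 (ext_diff w t)).differentiableWithinAt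

private theorem nz {H : Cn 4 → ℂ} {δ : ℝ} (hδ : 0 < δ) (hδ1 : δ ≤ 1) (hR : Reg H δ) {w : Cn 3}
    (hw : ‖w‖ < δ ^ 2 / 2) {t : ℂ} (ht : δ / 2 ≤ ‖t‖) (ht' : ‖t‖ < δ) : H (ext w t) ≠ 0 := by
  have hwδ : ‖w‖ < δ := by nlinarith
  refine hR.2 _ (ext_mem hwδ ht') ?_ ?_
  · change t ≠ 0
    rintro rfl
    rw [norm_zero] at ht
    linarith
  · change ‖w 2‖ ≤ δ * ‖t‖
    have h1 := (norm_le_pi_norm w 2).trans hw.le
    nlinarith

end DiscAux

theorem tDisc (h1 : S_Fac) (h2 : S_Hank) (h3 : S_PSh) : S_Disc := by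
  classical
  intro H δ hδ hδ1 hR
  have hδ2 : 0 < δ ^ 2 / 2 := by positivity
  have hex : ∀ w : Cn 3, w ∈ ball (0 : Cn 3) (δ ^ 2 / 2) → ∃ Z : Multiset ℂ,
      (∀ a ∈ Z, ‖a‖ < δ / 2) ∧ (∀ t : ℂ, ‖t‖ < δ → (H (ext w t) = 0 ↔ t ∈ Z)) ∧
      ∀ k : ℕ, (2 * Real.pi * Complex.I : ℂ)⁻¹ * (∮ t in C(0, δ / 2),
        t ^ k * (deriv (fun s => H (ext w s)) t / H (ext w t))) =
        (Z.map (fun a => a ^ k)).sum := by
    intro w hw
    rw [mem_ball_zero_iff] at hw
    have hwδ : ‖w‖ < δ := by nlinarith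
    exact h1 (fun t => H (ext w t)) (δ / 2) δ (by positivity) (by linarith)
      (DiscAux.fdiff hR.1 hwδ) (fun t ht ht' => DiscAux.nz hδ hδ1 hR hw ht ht')
  choose! Z hZr hZ hZk using hex
  set P : ℕ → Cn 3 → ℂ := fun k w => (2 * Real.pi * Complex.I : ℂ)⁻¹ * (∮ t in C(0, δ / 2),
        t ^ k * (deriv (fun s => H (ext w s)) t / H (ext w t))) with hP
  have hPd : ∀ k, DifferentiableOn ℂ (P k) (ball 0 (δ ^ 2 / 2)) := by
    intro k w hw
    have hwn := mem_ball_zero_iff.1 hw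
    have hwδ : ‖w‖ < δ := by nlinarith
    have h4 := h3 H (ball 0 δ) isOpen_ball hR.1 w 0 (δ / 2) (by positivity) (by
      intro τ hτ
      rw [zero_add]
      exact ⟨DiscAux.ext_mem hwδ (by rw [hτ]; linarith),
        DiscAux.nz hδ hδ1 hR hwn (by rw [hτ]) (by rw [hτ]; linarith)⟩) k
    simp only [zero_add] at h4
    exact h4.differentiableWithinAt
  have hPZ : ∀ k, ∀ w ∈ ball (0 : Cn 3) (δ ^ 2 / 2), P k w = ((Z w).map (fun a => a ^ k)).sum :=
    fun k w hw => hZk w hw k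
  have hZr' : ∀ w ∈ ball (0 : Cn 3) (δ ^ 2 / 2), Zr H δ w = ((Z w).toFinset : Set ℂ) := by
    intro w hw
    ext t
    simp only [Zr, Set.mem_ofPred_eq, Finset.mem_coe, Multiset.mem_toFinset]
    constructor
    · rintro ⟨ht, h0⟩
      exact (hZ w hw t ht).1 h0
    · intro ht
      have htn : ‖t‖ < δ := (hZr w hw t ht).trans (by linarith)
      exact ⟨htn, (hZ w hw t htn).2 ht⟩
  -- the cardinality is constant
  have hcard : ∀ w ∈ ball (0 : Cn 3) (δ ^ 2 / 2), P 0 w = ((Z w).card : ℂ) := by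
    intro w hw
    rw [hPZ 0 w hw]
    simp
  have hconst : ∀ w ∈ ball (0 : Cn 3) (δ ^ 2 / 2), ∀ w' ∈ ball (0 : Cn 3) (δ ^ 2 / 2),
      (Z w).card ≤ (Z w').card := by
    intro w hw w' hw'
    by_contra hlt
    rw [not_le] at hlt
    have hcont : ContinuousOn (fun w => (P 0 w).re) (ball (0 : Cn 3) (δ ^ 2 / 2)) :=
      Complex.continuous_re.comp_continuousOn (hPd 0).continuousOn
    have hiv := (convex_ball (0 : Cn 3) (δ ^ 2 / 2)).isPreconnected.intermediate_value hw' hw hcont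
    have e1 : (P 0 w').re = ((Z w').card : ℝ) := by rw [hcard w' hw']; simp
    have e2 : (P 0 w).re = ((Z w).card : ℝ) := by rw [hcard w hw]; simp
    have hlt' : ((Z w').card : ℝ) + 1 ≤ ((Z w).card : ℝ) := by exact_mod_cast hlt
    have hmid : ((Z w').card : ℝ) + 1 / 2 ∈ Icc (P 0 w').re (P 0 w).re := by
      rw [e1, e2]
      constructor <;> linarith
    obtain ⟨x, hx, hxe⟩ := hiv hmid
    have e3 : (P 0 x).re = ((Z x).card : ℝ) := by rw [hcard x hx]; simp
    have hxe' : ((Z x).card : ℝ) = ((Z w').card : ℝ) + 1 / 2 := by rw [← e3]; exact hxe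
    have h5 : (2 * (Z x).card : ℝ) = 2 * (Z w').card + 1 := by linarith
    have h6 : 2 * (Z x).card = 2 * (Z w').card + 1 := by exact_mod_cast h5
    omega
  have h0 : (0 : Cn 3) ∈ ball (0 : Cn 3) (δ ^ 2 / 2) := mem_ball_self hδ2
  -- the maximal number of distinct zeros
  set S : Set ℕ := (fun w => (Z w).toFinset.card) '' ball (0 : Cn 3) (δ ^ 2 / 2) with hS
  have hSne : S.Nonempty := ⟨_, 0, h0, rfl⟩
  have hSb : BddAbove S := by
    refine ⟨(Z 0).card, ?_⟩
    rintro _ ⟨w, hw, rfl⟩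
    exact (Multiset.toFinset_card_le _).trans (hconst w hw 0 h0)
  obtain ⟨w₁, hw₁, hmax⟩ := Nat.sSup_mem hSne hSb
  set r := sSup S with hr
  have hle : ∀ w ∈ ball (0 : Cn 3) (δ ^ 2 / 2), (Z w).toFinset.card ≤ r := fun w hw =>
    le_csSup hSb ⟨w, hw, rfl⟩
  refine ⟨r, fun w => (Matrix.of fun (i j : Fin r) => P ((i : ℕ) + (j : ℕ)) w).det, ?_, ?_, ?_⟩
  · exact DiscAux.det_diff fun i j => hPd _
  · refine ⟨w₁, hw₁, ?_⟩
    have h5 := (h2 (Z w₁) r).1 hmax
    simp only [hPZ _ w₁ hw₁]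
    exact h5
  · intro w hw
    rw [hZr' w hw, Set.ncard_coe_finset]
    refine ⟨Finset.finite_toSet _, hle w hw, ?_⟩
    intro hD
    by_contra hne
    have hlt : (Z w).toFinset.card < r := lt_of_le_of_ne (hle w hw) hne
    apply hD
    have h5 := (h2 (Z w) r).2 hlt
    simp only [hPZ _ w hw]
    exact h5

end KP
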