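import Pool.Agent.Lib.KP.SpecW

/-!
# KP, block W, ExA: choice of two walls
-/

set_option autoImplicit false

open Set Filter Topology Metric

namespace KP

private theorem exa_sig {N : ℕ} {y ε : ℝ} (hN : 1 ≤ N) (hε : 0 < ε) (h0 : 0 ≤ y)
    (h1 : y < ε ^ N) : 0 ≤ y ^ ((1 : ℝ) / (N : ℝ)) ∧ y ^ ((1 : ℝ) / (N : ℝ)) < ε ∧
      (y ^ ((1 : ℝ) / (N : ℝ))) ^ N = y := by
  have hp : 0 ≤ y ^ ((1 : ℝ) / (N : ℝ)) := Real.rpow_nonneg h0 _
  have he : (y ^ ((1 : ℝ) / (N : ℝ))) ^ N = y := by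
    rw [one_div]
    exact Real.rpow_inv_natCast_pow h0 (by omega)
  refine ⟨hp, ?_, he⟩
  by_contra hcon
  have := pow_le_pow_left₀ hε.le (not_lt.1 hcon) N
  rw [he] at this
  linarith

/-- the first point above `t0` which is not in the open set `S` -/
private theorem exa_up {S : Set ℝ} (hS : IsOpen S) {t0 T : ℝ} (h0 : t0 ∈ S) (hT : t0 ≤ T)
    (hTS : T ∉ S) : ∃ t1, t0 < t1 ∧ t1 ≤ T ∧ t1 ∉ S ∧ t1 ∈ closure S := by
  let B : Set ℝ := {t | t0 ≤ t ∧ t ∉ S}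
  have hBc : IsClosed B := isClosed_Ici.inter hS.isClosed_compl
  have hBn : B.Nonempty := ⟨T, hT, hTS⟩
  have hBb : BddBelow B := ⟨t0, fun t ht => ht.1⟩
  have hm : sInf B ∈ B := hBc.csInf_mem hBn hBb
  have hlt : t0 < sInf B := by
    refine lt_of_le_of_ne hm.1 ?_
    intro he
    rw [← he] at hm
    exact hm.2 h0
  refine ⟨sInf B, hlt, csInf_le hBb ⟨hT, hTS⟩, hm.2, ?_⟩
  have h1 : Ico t0 (sInf B) ⊆ S := by
    intro t ht
    by_contra hcon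
    exact absurd (csInf_le hBb (show t ∈ B from ⟨ht.1, hcon⟩)) (not_le.2 ht.2)
  have h2 : sInf B ∈ closure (Ico t0 (sInf B)) := by
    rw [closure_Ico hlt.ne]
    exact ⟨hlt.le, le_rfl⟩
  exact closure_mono h1 h2

private theorem exa_dn {S : Set ℝ} (hS : IsOpen S) {t0 T : ℝ} (h0 : t0 ∈ S) (hT : T ≤ t0)
    (hTS : T ∉ S) : ∃ t1, t1 < t0 ∧ T ≤ t1 ∧ t1 ∉ S ∧ t1 ∈ closure S := by
  have hS' : IsOpen ((fun t : ℝ => -t) ⁻¹' S) := hS.preimage continuous_neg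
  obtain ⟨t1, h1, h2, h3, h4⟩ := exa_up (T := -T) hS' (t0 := -t0)
    (by rw [mem_preimage, neg_neg]; exact h0) (by linarith)
    (by rw [mem_preimage, neg_neg]; exact hTS)
  refine ⟨-t1, by linarith, by linarith, h3, ?_⟩
  have h5 := mem_closure_image (f := fun t : ℝ => -t) continuous_neg.continuousAt h4
  refine closure_mono ?_ h5
  rintro _ ⟨t, ht, rfl⟩
  exact ht

private theorem exa_cpc (x : Fin 2 → ℝ) (s : ℝ) : Continuous (fun t : ℝ => cp x ![s, t]) := by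
  refine continuous_pi fun i => ?_
  fin_cases i
  · change Continuous (fun _ : ℝ => ((x 0 : ℝ) : ℂ) + ((s : ℝ) : ℂ) * Complex.I)
    exact continuous_const
  · change Continuous (fun t : ℝ => ((x 1 : ℝ) : ℂ) + ((t : ℝ) : ℂ) * Complex.I)
    fun_prop

private theorem exa_nrm {s t δ : ℝ} (hδ : 0 < δ) (hs : |s| < δ) (ht : |t| < δ) :
    ‖(![s, t] : Fin 2 → ℝ)‖ < δ := by
  rw [pi_norm_lt_iff hδ]
  intro i
  fin_cases i
  · exact hs
  · exact ht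

private theorem exa_vec (y : Fin 2 → ℝ) : (![y 0, y 1] : Fin 2 → ℝ) = y := by
  ext i
  fin_cases i
  · rfl
  · rfl

theorem tExA : S_ExA := by
  classical
  intro A r N G ε δ hW hPos
  have hε := hW.hε
  have hN := hW.hN
  have hδ := hW.hδ
  have hε1 : ε ≤ 1 := hW.hεδ.trans (pow_le_one₀ hW.hδ.le hW.hδ1)
  have hδ2 : δ ^ 2 ≤ δ := by nlinarith [hW.hδ, hW.hδ1]
  have hεδ : ε ≤ δ := hW.hεδ.trans hδ2
  have hεN : ε ^ N ≤ ε := by
    calc ε ^ N ≤ ε ^ 1 := pow_le_pow_of_le_one hε.le hε1 hN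
      _ = ε := pow_one ε
  have hNpos : 0 < ε ^ N := pow_pos hε N
  obtain ⟨x0, y, hx, hy, hy0, hA⟩ := hPos (ε ^ N) hNpos
  have hyi : ∀ i, |y i| < ε ^ N := by
    intro i
    rw [← Real.norm_eq_abs]
    exact lt_of_le_of_lt (norm_le_pi_norm y i) hy
  have hy0' : y 0 < ε ^ N := lt_of_le_of_lt (le_abs_self _) (hyi 0)
  obtain ⟨s1, s2, s3⟩ := exa_sig hN hε hy0.le hy0'
  obtain ⟨σ, hσ⟩ : ∃ σ : ℝ, σ = (y 0) ^ ((1 : ℝ) / (N : ℝ)) := ⟨_, rfl⟩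
  have s4 : 0 < (y 0) ^ ((1 : ℝ) / (N : ℝ)) := Real.rpow_pos_of_pos hy0 _
  rw [← hσ] at s1 s2 s3 s4
  have hxε : ‖x0‖ < ε := lt_of_lt_of_le hx hεN
  have hxδ : ‖x0‖ < δ := lt_of_lt_of_le hxε hεδ
  have hAm : cp x0 ![σ ^ N, y 1] ∈ A := by rw [s3, exa_vec]; exact hA
  have hσN : 0 < σ ^ N := pow_pos s4 N
  have hσlt : σ ^ N < δ ^ 2 := by
    rw [s3]
    exact lt_of_lt_of_le hy0' (hεN.trans hW.hεδ)
  have hσδ : |σ ^ N| < δ := by
    rw [abs_of_pos hσN]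
    exact lt_of_lt_of_le hσlt hδ2
  have hTδ : σ ^ N / δ < δ := by
    rw [div_lt_iff₀ hδ, ← pow_two]
    exact hσlt
  have hTpos : 0 < σ ^ N / δ := div_pos hσN hδ
  have hout : ∀ t, |t| < δ → σ ^ N / δ ≤ |t| → cp x0 ![σ ^ N, t] ∉ A := by
    intro t ht ht2
    refine hW.vx x0 ![σ ^ N, t] hxδ (exa_nrm hδ hσδ ht) ?_ ?_
    · change t ≠ 0
      intro h0
      rw [h0, abs_zero] at ht2
      linarith
    · change |σ ^ N| ≤ δ * |t|
      rw [abs_of_pos hσN]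
      rw [div_le_iff₀ hδ] at ht2
      linarith
  have hy1δ : |y 1| < δ := lt_of_lt_of_le (hyi 1) (hεN.trans hεδ)
  have hy1T : |y 1| < σ ^ N / δ := by
    by_contra hcon
    exact hout (y 1) hy1δ (not_lt.1 hcon) hAm
  obtain ⟨hlo, hhi⟩ := abs_lt.1 hy1T
  have hS : IsOpen ((fun t : ℝ => cp x0 ![σ ^ N, t]) ⁻¹' A) := hW.opn.preimage (exa_cpc x0 _)
  have hfr : ∀ t1, t1 ∉ (fun t : ℝ => cp x0 ![σ ^ N, t]) ⁻¹' A →
      t1 ∈ closure ((fun t : ℝ => cp x0 ![σ ^ N, t]) ⁻¹' A) → |t1| < δ →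
      ∃ i, t1 = σ ^ N * (G i (e3 x0 σ)).re ∧ WDis A N (G i) ε := by
    intro t1 h1 h2 h3
    have h4 : cp x0 ![σ ^ N, t1] ∈ frontier A := by
      rw [hW.opn.frontier_eq]
      refine ⟨?_, h1⟩
      have h5 := mem_closure_image (f := fun t : ℝ => cp x0 ![σ ^ N, t])
        (exa_cpc x0 _).continuousAt h2
      exact closure_mono (image_preimage_subset _ _) h5
    obtain ⟨i, hi⟩ := hW.bd x0 σ t1 hxε s4 s2 h3 h4
    refine ⟨i, hi, ?_⟩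
    rcases hW.wal i with h5 | h5
    · exfalso
      have h6 := h5 x0 σ hxε s4 s2
      rw [← hi] at h6
      exact h1 h6
    · exact h5
  -- the wall above
  obtain ⟨tb, b1, b2, b3, b4⟩ := exa_up (T := σ ^ N / δ) hS hAm hhi.le
    (hout _ (by rw [abs_of_pos hTpos]; exact hTδ) (by rw [abs_of_pos hTpos]))
  obtain ⟨ta, a1, a2, a3, a4⟩ := exa_dn (T := -(σ ^ N / δ)) hS hAm hlo.le
    (hout _ (by rw [abs_neg, abs_of_pos hTpos]; exact hTδ) (by rw [abs_neg, abs_of_pos hTpos]))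
  obtain ⟨ib, hib, hibW⟩ := hfr tb b3 b4 (by rw [abs_lt]; constructor <;> linarith)
  obtain ⟨ia, hia, hiaW⟩ := hfr ta a3 a4 (by rw [abs_lt]; constructor <;> linarith)
  obtain ⟨b, hb, hbm⟩ := Finset.exists_min_image
    (Finset.univ.filter (fun i => WDis A N (G i) ε ∧ y 1 < σ ^ N * (G i (e3 x0 σ)).re))
    (fun i => (G i (e3 x0 σ)).re)
    ⟨ib, Finset.mem_filter.2 ⟨Finset.mem_univ _, hibW, by rw [← hib]; exact b1⟩⟩
  obtain ⟨a, ha, ham⟩ := Finset.exists_max_image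
    (Finset.univ.filter (fun i => WDis A N (G i) ε ∧ σ ^ N * (G i (e3 x0 σ)).re < y 1))
    (fun i => (G i (e3 x0 σ)).re)
    ⟨ia, Finset.mem_filter.2 ⟨Finset.mem_univ _, hiaW, by rw [← hia]; exact a1⟩⟩
  obtain ⟨-, hb1, hb2⟩ := Finset.mem_filter.1 hb
  obtain ⟨-, ha1, ha2⟩ := Finset.mem_filter.1 ha
  refine ⟨a, b, x0, σ, y 1, hxε, s4, s2, hAm, ha2, hb2, ha1, hb1, ?_⟩
  intro i hi
  rcases lt_trichotomy (σ ^ N * (G i (e3 x0 σ)).re) (y 1) with h | h | h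
  · left
    exact ham i (Finset.mem_filter.2 ⟨Finset.mem_univ _, hi, h⟩)
  · exfalso
    have h2 := hi x0 σ hxε s4 s2
    rw [h] at h2
    exact h2 hAm
  · right
    exact hbm i (Finset.mem_filter.2 ⟨Finset.mem_univ _, hi, h⟩)

end KP
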