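import Pool.Agent.Lib.KP.SpecW

/-!
# KP, block W, ExB: the band is contained in `A`
-/

set_option autoImplicit false

open Set Filter Topology Metric

namespace KP

private theorem exb_econt : Continuous (fun p : (Fin 2 → ℝ) × ℝ => e3 p.1 p.2) := by
  unfold e3
  refine continuous_pi fun i => ?_
  fin_cases i
  · simp only [Fin.zero_eta, Matrix.cons_val_zero]
    fun_prop
  · simp only [Fin.mk_one, Matrix.cons_val_one]
    fun_prop
  · simp only [Fin.reduceFinMk, Matrix.cons_val]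
    fun_prop

private theorem exb_ball {x : Fin 2 → ℝ} {σ ε : ℝ} (hε : 0 < ε) (hx : ‖x‖ < ε) (hσ : |σ| < ε) :
    e3 x σ ∈ ball (0 : Cn 3) ε := by
  rw [mem_ball_zero_iff, pi_norm_lt_iff hε]
  intro i
  fin_cases i
  · change ‖((x 0 : ℝ) : ℂ)‖ < ε
    rw [Complex.norm_real]
    exact lt_of_le_of_lt (norm_le_pi_norm x 0) hx
  · change ‖((x 1 : ℝ) : ℂ)‖ < ε
    rw [Complex.norm_real]
    exact lt_of_le_of_lt (norm_le_pi_norm x 1) hx
  · change ‖((σ : ℝ) : ℂ)‖ < ε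
    rw [Complex.norm_real, Real.norm_eq_abs]
    exact hσ

private theorem exb_sig {N : ℕ} {y ε : ℝ} (hN : 1 ≤ N) (hε : 0 < ε) (h0 : 0 ≤ y)
    (h1 : y < ε ^ N) : 0 ≤ y ^ ((1 : ℝ) / (N : ℝ)) ∧ y ^ ((1 : ℝ) / (N : ℝ)) < ε ∧
      (y ^ ((1 : ℝ) / (N : ℝ))) ^ N = y := by
  have hp : 0 ≤ y ^ ((1 : ℝ) / (N : ℝ)) := Real.rpow_nonneg h0 _
  have he : (y ^ ((1 : ℝ) / (N : ℝ))) ^ N = y := by
    rw [one_div]
    exact Real.rpow_inv_natCast_pow h0 (by omega)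
  refine ⟨hp, ?_, he⟩
  by_contra hcon
  have := pow_le_pow_left₀ hε.le (not_lt.1 hcon) N
  rw [he] at this
  linarith

private theorem exb_cp (z : Cn 2) : cp (fun i => (z i).re) ![(z 0).im, (z 1).im] = z := by
  ext i
  fin_cases i
  · change ((z 0).re : ℂ) + ((z 0).im : ℂ) * Complex.I = z 0
    exact Complex.re_add_im _
  · change ((z 1).re : ℂ) + ((z 1).im : ℂ) * Complex.I = z 1
    exact Complex.re_add_im _

private theorem exb_re (x y : Fin 2 → ℝ) (i : Fin 2) : (cp x y i).re = x i := by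
  unfold cp
  simp

private theorem exb_im (x y : Fin 2 → ℝ) (i : Fin 2) : (cp x y i).im = y i := by
  unfold cp
  simp

private theorem exb_w3 {N : ℕ} (hN : 1 ≤ N) (x : Fin 2 → ℝ) (σ t : ℝ) (hσ : 0 ≤ σ) :
    w3 N (cp x ![σ ^ N, t]) = e3 x σ := by
  unfold w3
  have h1 : (fun i => (cp x ![σ ^ N, t] i).re) = x := by
    ext i
    exact exb_re _ _ _
  have h2 : (cp x ![σ ^ N, t] 0).im = σ ^ N := exb_im _ _ _
  rw [h1, h2, one_div, Real.pow_rpow_inv_natCast hσ (by omega)]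

private def exb_T (ε : ℝ) : Set ((Fin 2 → ℝ) × ℝ × ℝ) := ball 0 ε ×ˢ (Ioo 0 ε ×ˢ Ioo 0 1)

private noncomputable def exb_y (N : ℕ) (ga gb : Cn 3 → ℂ) (p : (Fin 2 → ℝ) × ℝ × ℝ) : ℝ :=
  p.2.1 ^ N * ((1 - p.2.2) * (ga (e3 p.1 p.2.1)).re + p.2.2 * (gb (e3 p.1 p.2.1)).re)

private noncomputable def exb_Φ (N : ℕ) (ga gb : Cn 3 → ℂ) (p : (Fin 2 → ℝ) × ℝ × ℝ) : Cn 2 :=
  cp p.1 ![p.2.1 ^ N, exb_y N ga gb p]

private theorem exb_pre (ε : ℝ) : IsPreconnected (exb_T ε) := by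
  have c1 : IsPreconnected (ball (0 : Fin 2 → ℝ) ε) :=
    (convex_ball (0 : Fin 2 → ℝ) ε).isPreconnected
  have c2 : IsPreconnected (Ioo (0 : ℝ) ε ×ˢ Ioo (0 : ℝ) 1) :=
    isPreconnected_Ioo.prod isPreconnected_Ioo
  exact c1.prod c2

private theorem exb_Tm {ε : ℝ} {p : (Fin 2 → ℝ) × ℝ × ℝ} (hp : p ∈ exb_T ε) :
    ‖p.1‖ < ε ∧ 0 < p.2.1 ∧ p.2.1 < ε ∧ 0 < p.2.2 ∧ p.2.2 < 1 := by
  obtain ⟨q1, q2, q3⟩ := hp
  rw [mem_ball_zero_iff] at q1
  exact ⟨q1, q2.1, q2.2, q3.1, q3.2⟩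

private theorem exb_Tb {ε : ℝ} (hε : 0 < ε) {p : (Fin 2 → ℝ) × ℝ × ℝ} (hp : p ∈ exb_T ε) :
    e3 p.1 p.2.1 ∈ ball (0 : Cn 3) ε := by
  obtain ⟨q1, q2, q3, -, -⟩ := exb_Tm hp
  exact exb_ball hε q1 (by rw [abs_of_pos q2]; exact q3)

private theorem exb_Gc {ε : ℝ} (hε : 0 < ε) {g : Cn 3 → ℂ} (hg : ContinuousOn g (ball 0 ε)) :
    ContinuousOn (fun p : (Fin 2 → ℝ) × ℝ × ℝ => (g (e3 p.1 p.2.1)).re) (exb_T ε) := by
  have hc : Continuous (fun p : (Fin 2 → ℝ) × ℝ × ℝ => e3 p.1 p.2.1) :=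
    exb_econt.comp (continuous_fst.prodMk (continuous_fst.comp continuous_snd))
  exact Complex.continuous_re.comp_continuousOn
    (hg.comp hc.continuousOn (fun p hp => exb_Tb hε hp))

private theorem exb_yc {ε : ℝ} (N : ℕ) (hε : 0 < ε) {ga gb : Cn 3 → ℂ}
    (ha : ContinuousOn ga (ball 0 ε)) (hb : ContinuousOn gb (ball 0 ε)) :
    ContinuousOn (exb_y N ga gb) (exb_T ε) := by
  have c1 : ContinuousOn (fun p : (Fin 2 → ℝ) × ℝ × ℝ => p.2.1 ^ N) (exb_T ε) := by fun_prop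
  have c2 : ContinuousOn (fun p : (Fin 2 → ℝ) × ℝ × ℝ => 1 - p.2.2) (exb_T ε) := by fun_prop
  have c3 : ContinuousOn (fun p : (Fin 2 → ℝ) × ℝ × ℝ => p.2.2) (exb_T ε) := by fun_prop
  exact c1.mul ((c2.mul (exb_Gc hε ha)).add (c3.mul (exb_Gc hε hb)))

private theorem exb_cpc {X : Type} [TopologicalSpace X] {T : Set X} {f : X → Fin 2 → ℝ}
    {y0 y1 : X → ℝ} (hf : ContinuousOn f T) (h0 : ContinuousOn y0 T) (h1 : ContinuousOn y1 T) :
    ContinuousOn (fun p => cp (f p) ![y0 p, y1 p]) T := by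
  have c0 : ContinuousOn (fun p => f p 0) T := (continuous_apply 0).comp_continuousOn hf
  have c1 : ContinuousOn (fun p => f p 1) T := (continuous_apply 1).comp_continuousOn hf
  refine continuousOn_pi.2 fun i => ?_
  fin_cases i
  · change ContinuousOn (fun p => ((f p 0 : ℝ) : ℂ) + ((y0 p : ℝ) : ℂ) * Complex.I) T
    exact (Complex.continuous_ofReal.comp_continuousOn c0).add
      ((Complex.continuous_ofReal.comp_continuousOn h0).mul continuousOn_const)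
  · change ContinuousOn (fun p => ((f p 1 : ℝ) : ℂ) + ((y1 p : ℝ) : ℂ) * Complex.I) T
    exact (Complex.continuous_ofReal.comp_continuousOn c1).add
      ((Complex.continuous_ofReal.comp_continuousOn h1).mul continuousOn_const)

private theorem exb_Φc {ε : ℝ} (N : ℕ) (hε : 0 < ε) {ga gb : Cn 3 → ℂ}
    (ha : ContinuousOn ga (ball 0 ε)) (hb : ContinuousOn gb (ball 0 ε)) :
    ContinuousOn (exb_Φ N ga gb) (exb_T ε) := by
  have c1 : ContinuousOn (fun p : (Fin 2 → ℝ) × ℝ × ℝ => p.2.1 ^ N) (exb_T ε) := by fun_prop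
  exact exb_cpc continuous_fst.continuousOn c1 (exb_yc N hε ha hb)

private theorem exb_pt {z : Cn 2} {N : ℕ} {ε : ℝ} (hN : 1 ≤ N) (hε : 0 < ε)
    (h1 : ∀ i, |(z i).re| < ε) (h2 : 0 < (z 0).im) (h3 : (z 0).im < ε ^ N) :
    ∃ (x : Fin 2 → ℝ) (σ : ℝ), ‖x‖ < ε ∧ 0 < σ ∧ σ < ε ∧ σ ^ N = (z 0).im ∧
      w3 N z = e3 x σ ∧ cp x ![σ ^ N, (z 1).im] = z := by
  obtain ⟨s1, s2, s3⟩ := exb_sig hN hε h2.le h3
  have s4 : 0 < (z 0).im ^ ((1 : ℝ) / (N : ℝ)) := Real.rpow_pos_of_pos h2 _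
  have hx : ‖(fun i => (z i).re : Fin 2 → ℝ)‖ < ε := by
    rw [pi_norm_lt_iff hε]
    intro i
    rw [Real.norm_eq_abs]
    exact h1 i
  exact ⟨_, _, hx, s4, s2, s3, rfl, by rw [s3, exb_cp]⟩

private theorem exb_in {N : ℕ} {ga gb : Cn 3 → ℂ} {ε : ℝ} (hN : 1 ≤ N) {x : Fin 2 → ℝ} {σ t : ℝ}
    (hx : ‖x‖ < ε) (h0 : 0 < σ) (h1 : σ < ε) (ha : σ ^ N * (ga (e3 x σ)).re < t)
    (hb : t < σ ^ N * (gb (e3 x σ)).re) : cp x ![σ ^ N, t] ∈ Bd N ga gb ε := by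
  refine ⟨?_, ?_, ?_, ?_, ?_⟩
  · intro i
    rw [exb_re]
    exact lt_of_le_of_lt (by rw [← Real.norm_eq_abs]; exact norm_le_pi_norm x i) hx
  · rw [exb_im]
    exact pow_pos h0 N
  · rw [exb_im]
    exact pow_lt_pow_left₀ h1 h0.le (by omega)
  · rw [exb_im, exb_im, exb_w3 hN _ _ _ h0.le]
    exact ha
  · rw [exb_im, exb_im, exb_w3 hN _ _ _ h0.le]
    exact hb

private theorem exb_conn {N : ℕ} {ga gb : Cn 3 → ℂ} {ε : ℝ} (hN : 1 ≤ N) (hε : 0 < ε)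
    (ha : ContinuousOn ga (ball 0 ε)) (hb : ContinuousOn gb (ball 0 ε))
    (hab : ∀ (x : Fin 2 → ℝ) (σ : ℝ), ‖x‖ < ε → 0 < σ → σ < ε →
      (ga (e3 x σ)).re < (gb (e3 x σ)).re) : IsPreconnected (Bd N ga gb ε) := by
  have hsurj : Bd N ga gb ε ⊆ exb_Φ N ga gb '' exb_T ε := by
    intro z hz
    obtain ⟨hz1, hz2, hz3, hz4, hz5⟩ := hz
    obtain ⟨x, σ, hx, s4, s2, s3, hw, hzz⟩ := exb_pt hN hε hz1 hz2 hz3
    rw [hw] at hz4 hz5
    have hlt := hab x σ hx s4 s2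
    have hd : 0 < (gb (e3 x σ)).re - (ga (e3 x σ)).re := sub_pos.2 hlt
    have hdy : 0 < (z 0).im * ((gb (e3 x σ)).re - (ga (e3 x σ)).re) := mul_pos hz2 hd
    refine ⟨(x, σ, ((z 1).im - (z 0).im * (ga (e3 x σ)).re) /
      ((z 0).im * ((gb (e3 x σ)).re - (ga (e3 x σ)).re))), ⟨?_, ⟨s4, s2⟩, ?_, ?_⟩, ?_⟩
    · rw [mem_ball_zero_iff]
      exact hx
    · exact div_pos (by linarith) hdy
    · rw [div_lt_one hdy]
      linarith [mul_sub (z 0).im (gb (e3 x σ)).re (ga (e3 x σ)).re]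
    · have e1 : exb_y N ga gb (x, σ, ((z 1).im - (z 0).im * (ga (e3 x σ)).re) /
          ((z 0).im * ((gb (e3 x σ)).re - (ga (e3 x σ)).re))) = (z 1).im := by
        unfold exb_y
        simp only
        rw [s3]
        field_simp
        ring
      unfold exb_Φ
      rw [e1]
      exact hzz
  have himg : exb_Φ N ga gb '' exb_T ε ⊆ Bd N ga gb ε := by
    rintro _ ⟨p, hp, rfl⟩
    obtain ⟨q1, q2, q3, q4, q5⟩ := exb_Tm hp
    have hlt := hab _ _ q1 q2 q3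
    have hpN : 0 < p.2.1 ^ N := pow_pos q2 N
    refine exb_in hN q1 q2 q3 ?_ ?_
    · unfold exb_y
      apply mul_lt_mul_of_pos_left _ hpN
      nlinarith
    · unfold exb_y
      apply mul_lt_mul_of_pos_left _ hpN
      nlinarith
  rw [Subset.antisymm hsurj himg]
  exact (exb_pre ε).image _ (exb_Φc N hε ha hb)

theorem tExB (h1 : S_ExO) : S_ExB := by
  intro A r N G ε δ hW a b x0 σ0 t0 hx0 hσ0 hσ0ε hmem0 hat hbt hall
  have hε := hW.hε
  have hN := hW.hN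
  have hσN0 : 0 < σ0 ^ N := pow_pos hσ0 N
  have hab0 : (G a (e3 x0 σ0)).re < (G b (e3 x0 σ0)).re := by
    have := hat.trans hbt
    exact lt_of_mul_lt_mul_left this hσN0.le
  have hne : a ≠ b := by
    intro he
    rw [he] at hab0
    exact lt_irrefl _ hab0
  have hab : ∀ (x : Fin 2 → ℝ) (σ : ℝ), ‖x‖ < ε → 0 < σ → σ < ε →
      (G a (e3 x σ)).re < (G b (e3 x σ)).re := by
    rcases h1 A r N G ε δ hW a b hne with h | h
    · exact h
    · exact absurd (h x0 σ0 hx0 hσ0 hσ0ε) (not_lt.2 hab0.le)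
  have hconn : IsPreconnected (Bd N (G a) (G b) ε) :=
    exb_conn hN hε (hW.hG a).continuousOn (hW.hG b).continuousOn hab
  have hpt : cp x0 ![σ0 ^ N, t0] ∈ Bd N (G a) (G b) ε := exb_in hN hx0 hσ0 hσ0ε hat hbt
  -- no frontier points
  have hfr : ∀ z ∈ Bd N (G a) (G b) ε, z ∉ frontier A := by
    intro z hz hzf
    have hzA : z ∉ A := by
      intro h
      rw [hW.opn.frontier_eq] at hzf
      exact hzf.2 h
    obtain ⟨hz1, hz2, hz3, hz4, hz5⟩ := hz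
    obtain ⟨x, σ, hx, s4, s2, s3, hw, hzz⟩ := exb_pt hN hε hz1 hz2 hz3
    rw [hw, ← s3] at hz4 hz5
    have hbb := exb_ball hε hx (by rw [abs_of_pos s4]; exact s2)
    have habs : ∀ k, |σ ^ N * (G k (e3 x σ)).re| < δ := by
      intro k
      have h2 := hW.bdd k _ hbb
      have h3 : (e3 x σ 2 ^ N * G k (e3 x σ)).re = σ ^ N * (G k (e3 x σ)).re := by
        have h4 : e3 x σ 2 = (σ : ℂ) := rfl
        rw [h4, ← Complex.ofReal_pow, Complex.re_ofReal_mul]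
      rw [← h3]
      exact lt_of_le_of_lt (Complex.abs_re_le_norm _) h2
    have ht : |(z 1).im| < δ := by
      have h2 := abs_lt.1 (habs a)
      have h3 := abs_lt.1 (habs b)
      rw [abs_lt]
      constructor <;> linarith
    obtain ⟨i, hi⟩ := hW.bd x σ (z 1).im hx s4 s2 ht (by rw [hzz]; exact hzf)
    have hσN : 0 < σ ^ N := pow_pos s4 N
    have hWD : WDis A N (G i) ε := by
      rcases hW.wal i with h2 | h2
      · exfalso
        have h3 := h2 x σ hx s4 s2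
        rw [← hi, hzz] at h3
        exact hzA h3
      · exact h2
    rw [hi] at hz4 hz5
    have g1 : (G a (e3 x σ)).re < (G i (e3 x σ)).re := lt_of_mul_lt_mul_left hz4 hσN.le
    have g2 : (G i (e3 x σ)).re < (G b (e3 x σ)).re := lt_of_mul_lt_mul_left hz5 hσN.le
    have hia : i ≠ a := by
      intro he
      rw [he] at g1
      exact lt_irrefl _ g1
    have hib : i ≠ b := by
      intro he
      rw [he] at g2
      exact lt_irrefl _ g2
    rcases hall i hWD with h2 | h2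
    · rcases h1 A r N G ε δ hW i a hia with h3 | h3
      · exact absurd (h3 x σ hx s4 s2) (not_lt.2 g1.le)
      · exact absurd (h3 x0 σ0 hx0 hσ0 hσ0ε) (not_lt.2 h2)
    · rcases h1 A r N G ε δ hW i b hib with h3 | h3
      · exact absurd (h3 x0 σ0 hx0 hσ0 hσ0ε) (not_lt.2 h2)
      · exact absurd (h3 x σ hx s4 s2) (not_lt.2 g2.le)
  refine hconn.subset_of_closure_inter_subset hW.opn ⟨_, hpt, hmem0⟩ ?_
  rintro z ⟨hz1, hz2⟩
  by_contra hcon
  apply hfr z hz2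
  rw [hW.opn.frontier_eq]
  exact ⟨hz1, hcon⟩

end KP
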