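import Pool.Agent.Lib.KP.SpecW

/-!
# KP, block W, ExC: the band is a local component
-/

set_option autoImplicit false

open Set Filter Topology Metric

namespace KP

private theorem exc_econt : Continuous (fun p : (Fin 2 → ℝ) × ℝ => e3 p.1 p.2) := by
  unfold e3
  refine continuous_pi fun i => ?_
  fin_cases i
  · simp only [Fin.zero_eta, Matrix.cons_val_zero]
    fun_prop
  · simp only [Fin.mk_one, Matrix.cons_val_one]
    fun_prop
  · simp only [Fin.reduceFinMk, Matrix.cons_val]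
    fun_prop

private theorem exc_ball {x : Fin 2 → ℝ} {σ ε : ℝ} (hε : 0 < ε) (hx : ‖x‖ < ε) (hσ : |σ| < ε) :
    e3 x σ ∈ ball (0 : Cn 3) ε := by
  rw [mem_ball_zero_iff, pi_norm_lt_iff hε]
  intro i
  fin_cases i
  · change ‖((x 0 : ℝ) : ℂ)‖ < ε
    rw [Complex.norm_real]
    exact lt_of_le_of_lt (norm_le_pi_norm x 0) hx
  · change ‖((x 1 : ℝ) : ℂ)‖ < ε
    rw [Complex.norm_real]
    exact lt_of_le_of_lt (norm_le_pi_norm x 1) hx
  · change ‖((σ : ℝ) : ℂ)‖ < ε
    rw [Complex.norm_real, Real.norm_eq_abs]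
    exact hσ

private theorem exc_wcont {N : ℕ} : Continuous (w3 N) := by
  have h1 : Continuous (fun z : Cn 2 => ((fun i => (z i).re : Fin 2 → ℝ),
      ((z 0).im ^ ((1 : ℝ) / (N : ℝ))))) := by
    refine Continuous.prodMk ?_ ?_
    · exact continuous_pi fun i => Complex.continuous_re.comp (continuous_apply i)
    · refine Continuous.rpow_const (Complex.continuous_im.comp (continuous_apply 0)) ?_
      intro z
      right
      positivity
  exact exc_econt.comp h1

private theorem exc_sig {N : ℕ} {y ε : ℝ} (hN : 1 ≤ N) (hε : 0 < ε) (h0 : 0 ≤ y)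
    (h1 : y < ε ^ N) : 0 ≤ y ^ ((1 : ℝ) / (N : ℝ)) ∧ y ^ ((1 : ℝ) / (N : ℝ)) < ε ∧
      (y ^ ((1 : ℝ) / (N : ℝ))) ^ N = y := by
  have hp : 0 ≤ y ^ ((1 : ℝ) / (N : ℝ)) := Real.rpow_nonneg h0 _
  have he : (y ^ ((1 : ℝ) / (N : ℝ))) ^ N = y := by
    rw [one_div]
    exact Real.rpow_inv_natCast_pow h0 (by omega)
  refine ⟨hp, ?_, he⟩
  by_contra hcon
  have := pow_le_pow_left₀ hε.le (not_lt.1 hcon) N
  rw [he] at this
  linarith

private theorem exc_cp (z : Cn 2) : cp (fun i => (z i).re) ![(z 0).im, (z 1).im] = z := by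
  ext i
  fin_cases i
  · change ((z 0).re : ℂ) + ((z 0).im : ℂ) * Complex.I = z 0
    exact Complex.re_add_im _
  · change ((z 1).re : ℂ) + ((z 1).im : ℂ) * Complex.I = z 1
    exact Complex.re_add_im _

private theorem exc_real {A : Set (Cn 2)} {δ : ℝ} (hA : IsOpen A) (hδ : 0 < δ)
    (vx : ∀ x y : Fin 2 → ℝ, ‖x‖ < δ → ‖y‖ < δ → y 1 ≠ 0 → |y 0| ≤ δ * |y 1| → cp x y ∉ A)
    (x : Fin 2 → ℝ) (hx : ‖x‖ < δ) : cp x ![0, 0] ∉ A := by
  intro hmem
  have hc : Continuous (fun t : ℝ => cp x ![0, t]) := by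
    unfold cp
    refine continuous_pi fun i => ?_
    fin_cases i
    · simp only [Fin.zero_eta, Matrix.cons_val_zero]
      exact continuous_const
    · simp only [Fin.mk_one, Matrix.cons_val_one]
      fun_prop
  have hO : IsOpen ((fun t : ℝ => cp x ![0, t]) ⁻¹' A) := hA.preimage hc
  obtain ⟨η, hη, hb⟩ := Metric.isOpen_iff.1 hO 0 hmem
  have ht : min (η / 2) (δ / 2) ∈ ball (0 : ℝ) η := by
    rw [mem_ball_zero_iff, Real.norm_eq_abs, abs_of_pos (by positivity)]
    exact lt_of_le_of_lt (min_le_left _ _) (by linarith)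
  have hpos : 0 < min (η / 2) (δ / 2) := by positivity
  have hlt : min (η / 2) (δ / 2) < δ := lt_of_le_of_lt (min_le_right _ _) (by linarith)
  refine vx x ![0, min (η / 2) (δ / 2)] hx ?_ ?_ ?_ (hb ht)
  · rw [pi_norm_lt_iff hδ]
    intro i
    fin_cases i
    · change ‖(0 : ℝ)‖ < δ
      rw [norm_zero]
      exact hδ
    · change ‖min (η / 2) (δ / 2)‖ < δ
      rw [Real.norm_eq_abs, abs_of_pos hpos]
      exact hlt
  · change min (η / 2) (δ / 2) ≠ 0
    exact hpos.ne'
  · change |(0 : ℝ)| ≤ δ * |min (η / 2) (δ / 2)|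
    rw [abs_zero]
    positivity

theorem tExC : S_ExC := by
  intro A r N G ε δ hW a b hda hdb
  have hε := hW.hε
  have hN := hW.hN
  have hε1 : ε ≤ 1 := hW.hεδ.trans (pow_le_one₀ hW.hδ.le hW.hδ1)
  have hεδ : ε ≤ δ := by
    have : δ ^ 2 ≤ δ := by nlinarith [hW.hδ, hW.hδ1]
    exact hW.hεδ.trans this
  have hεN : ε ^ N ≤ ε := by
    calc ε ^ N ≤ ε ^ 1 := pow_le_pow_of_le_one hε.le hε1 hN
      _ = ε := pow_one ε
  have hNpos : 0 < ε ^ N := pow_pos hε N
  -- functions
  have hwball : ∀ z : Cn 2, (∀ i, |(z i).re| < ε) → 0 ≤ (z 0).im → (z 0).im < ε ^ N →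
      w3 N z ∈ ball (0 : Cn 3) ε := by
    intro z h1 h2 h3
    obtain ⟨s1, s2, -⟩ := exc_sig hN hε h2 h3
    refine exc_ball hε ?_ (by rw [abs_of_nonneg s1]; exact s2)
    rw [pi_norm_lt_iff hε]
    intro i
    rw [Real.norm_eq_abs]
    exact h1 i
  have hFa : ∀ k, ∀ z : Cn 2, w3 N z ∈ ball (0 : Cn 3) ε →
      ContinuousAt (fun z : Cn 2 => (z 1).im - (z 0).im * (G k (w3 N z)).re) z := by
    intro k z hz
    have h1 : ContinuousAt (G k) (w3 N z) :=
      ((hW.hG k).continuousOn).continuousAt (isOpen_ball.mem_nhds hz)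
    have h2 : ContinuousAt (fun z => G k (w3 N z)) z :=
      ContinuousAt.comp (f := w3 N) h1 exc_wcont.continuousAt
    have h3 : ContinuousAt (fun z => (G k (w3 N z)).re) z :=
      Complex.continuous_re.continuousAt.comp h2
    have h4 : ContinuousAt (fun z : Cn 2 => (z 1).im) z :=
      (Complex.continuous_im.comp (continuous_apply 1)).continuousAt
    have h5 : ContinuousAt (fun z : Cn 2 => (z 0).im) z :=
      (Complex.continuous_im.comp (continuous_apply 0)).continuousAt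
    exact h4.sub (h5.mul h3)
  have hΩ : IsOpen {z : Cn 2 | (∀ i, |(z i).re| < ε) ∧ 0 < (z 0).im ∧ (z 0).im < ε ^ N} := by
    have e1 : {z : Cn 2 | (∀ i, |(z i).re| < ε) ∧ 0 < (z 0).im ∧ (z 0).im < ε ^ N} =
        (⋂ i : Fin 2, {z : Cn 2 | |(z i).re| < ε}) ∩
          ({z : Cn 2 | 0 < (z 0).im} ∩ {z : Cn 2 | (z 0).im < ε ^ N}) := by
      ext z
      simp only [mem_setOf_eq, mem_inter_iff, mem_iInter]
    rw [e1]
    have hc0 : Continuous (fun z : Cn 2 => (z 0).im) :=
      Complex.continuous_im.comp (continuous_apply 0)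
    refine IsOpen.inter (isOpen_iInter_of_finite fun i => ?_)
      (IsOpen.inter (isOpen_lt continuous_const hc0) (isOpen_lt hc0 continuous_const))
    exact isOpen_lt (continuous_abs.comp (Complex.continuous_re.comp (continuous_apply i)))
      continuous_const
  have hopen : IsOpen (Bd N (G a) (G b) ε) := by
    have e1 : Bd N (G a) (G b) ε =
        ({z : Cn 2 | (∀ i, |(z i).re| < ε) ∧ 0 < (z 0).im ∧ (z 0).im < ε ^ N} ∩
          (fun z : Cn 2 => (z 1).im - (z 0).im * (G a (w3 N z)).re) ⁻¹' Ioi 0) ∩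
        ({z : Cn 2 | (∀ i, |(z i).re| < ε) ∧ 0 < (z 0).im ∧ (z 0).im < ε ^ N} ∩
          (fun z : Cn 2 => (z 1).im - (z 0).im * (G b (w3 N z)).re) ⁻¹' Iio 0) := by
      ext z
      simp only [Bd, mem_setOf_eq, mem_inter_iff, mem_preimage, mem_Ioi, mem_Iio, sub_pos, sub_neg]
      tauto
    rw [e1]
    refine IsOpen.inter ?_ ?_
    · refine ContinuousOn.isOpen_inter_preimage ?_ hΩ isOpen_Ioi
      intro z hz
      exact (hFa a z (hwball z hz.1 hz.2.1.le hz.2.2)).continuousWithinAt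
    · refine ContinuousOn.isOpen_inter_preimage ?_ hΩ isOpen_Iio
      intro z hz
      exact (hFa b z (hwball z hz.1 hz.2.1.le hz.2.2)).continuousWithinAt
  refine ⟨hopen, ε ^ N, hNpos, ?_⟩
  -- key
  have key : ∀ z ∈ A, z ∈ ball (0 : Cn 2) (ε ^ N) → z ∈ closure (Bd N (G a) (G b) ε) →
      z ∈ Bd N (G a) (G b) ε := by
    intro z hzA hzb hzc
    rw [mem_ball_zero_iff] at hzb
    have hre : ∀ i, |(z i).re| < ε ^ N := fun i =>
      lt_of_le_of_lt ((Complex.abs_re_le_norm _).trans (norm_le_pi_norm z i)) hzb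
    have hre' : ∀ i, |(z i).re| < ε := fun i => lt_of_lt_of_le (hre i) hεN
    have him : (z 0).im < ε ^ N :=
      lt_of_le_of_lt ((le_abs_self _).trans ((Complex.abs_im_le_norm _).trans
        (norm_le_pi_norm z 0))) hzb
    have him0 : 0 ≤ (z 0).im := by
      have h1 : Bd N (G a) (G b) ε ⊆ {z : Cn 2 | 0 ≤ (z 0).im} := fun w hw => hw.2.1.le
      have h2 : IsClosed {z : Cn 2 | 0 ≤ (z 0).im} :=
        isClosed_le continuous_const (Complex.continuous_im.comp (continuous_apply 0))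
      exact closure_minimal h1 h2 hzc
    have hwb := hwball z hre' him0 him
    have hxε : ‖(fun i => (z i).re : Fin 2 → ℝ)‖ < ε := by
      rw [pi_norm_lt_iff hε]
      intro i
      rw [Real.norm_eq_abs]
      exact hre' i
    have ha : 0 ≤ (z 1).im - (z 0).im * (G a (w3 N z)).re := by
      have h1 := mem_closure_image (hFa a z hwb) hzc
      have h2 : (fun z : Cn 2 => (z 1).im - (z 0).im * (G a (w3 N z)).re) '' Bd N (G a) (G b) ε ⊆
          Ici 0 := by
        rintro _ ⟨w, hw, rfl⟩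
        exact (sub_pos.2 hw.2.2.2.1).le
      exact closure_minimal h2 isClosed_Ici h1
    have hb : (z 1).im - (z 0).im * (G b (w3 N z)).re ≤ 0 := by
      have h1 := mem_closure_image (hFa b z hwb) hzc
      have h2 : (fun z : Cn 2 => (z 1).im - (z 0).im * (G b (w3 N z)).re) '' Bd N (G a) (G b) ε ⊆
          Iic 0 := by
        rintro _ ⟨w, hw, rfl⟩
        exact (sub_neg.2 hw.2.2.2.2).le
      exact closure_minimal h2 isClosed_Iic h1
    rcases him0.eq_or_lt with h0 | h0
    · exfalso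
      rw [← h0] at ha hb
      have h1 : (z 1).im = 0 := by linarith
      have hzz := exc_cp z
      rw [← h0, h1] at hzz
      rw [← hzz] at hzA
      exact exc_real hW.opn hW.hδ hW.vx _ (lt_of_lt_of_le hxε hεδ) hzA
    · obtain ⟨s1, s2, s3⟩ := exc_sig hN hε him0 him
      have s4 : 0 < (z 0).im ^ ((1 : ℝ) / (N : ℝ)) := Real.rpow_pos_of_pos h0 _
      have hna : (z 1).im ≠ (z 0).im * (G a (w3 N z)).re := by
        intro he
        have h1 := hda (fun i => (z i).re) ((z 0).im ^ ((1 : ℝ) / (N : ℝ))) hxε s4 s2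
        rw [s3] at h1
        apply h1
        have h2 : (z 0).im * (G a (e3 (fun i => (z i).re)
          ((z 0).im ^ ((1 : ℝ) / (N : ℝ))))).re = (z 1).im := he.symm
        rw [h2, exc_cp z]
        exact hzA
      have hnb : (z 1).im ≠ (z 0).im * (G b (w3 N z)).re := by
        intro he
        have h1 := hdb (fun i => (z i).re) ((z 0).im ^ ((1 : ℝ) / (N : ℝ))) hxε s4 s2
        rw [s3] at h1
        apply h1
        have h2 : (z 0).im * (G b (e3 (fun i => (z i).re)
          ((z 0).im ^ ((1 : ℝ) / (N : ℝ))))).re = (z 1).im := he.symm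
        rw [h2, exc_cp z]
        exact hzA
      refine ⟨hre', h0, him, ?_, ?_⟩
      · exact lt_of_le_of_ne (by linarith) hna.symm
      · exact lt_of_le_of_ne (by linarith) hnb
  have e2 : (A ∩ ball 0 (ε ^ N)) \ Bd N (G a) (G b) ε =
      (A ∩ ball 0 (ε ^ N)) ∩ (closure (Bd N (G a) (G b) ε))ᶜ := by
    ext z
    constructor
    · rintro ⟨h1, h2⟩
      exact ⟨h1, fun h3 => h2 (key z h1.1 h1.2 h3)⟩
    · rintro ⟨h1, h2⟩
      exact ⟨h1, fun h3 => h2 (subset_closure h3)⟩
  rw [e2]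
  exact (hW.opn.inter isOpen_ball).inter isClosed_closure.isOpen_compl

end KP
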