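import Pool.Agent.Lib.KP.SpecW

/-!
# KP, block W, ExO: the order of the walls is constant
-/

set_option autoImplicit false

open Set Filter Topology Metric

namespace KP

private theorem exo_cont : Continuous (fun p : (Fin 2 → ℝ) × ℝ => e3 p.1 p.2) := by
  unfold e3
  refine continuous_pi fun i => ?_
  fin_cases i
  · simp only [Fin.zero_eta, Matrix.cons_val_zero]
    fun_prop
  · simp only [Fin.mk_one, Matrix.cons_val_one]
    fun_prop
  · simp only [Fin.reduceFinMk, Matrix.cons_val]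
    fun_prop

private theorem exo_ball {x : Fin 2 → ℝ} {σ ε : ℝ} (hε : 0 < ε) (hx : ‖x‖ < ε) (hσ : |σ| < ε) :
    e3 x σ ∈ ball (0 : Cn 3) ε := by
  rw [mem_ball_zero_iff, pi_norm_lt_iff hε]
  intro i
  fin_cases i
  · change ‖((x 0 : ℝ) : ℂ)‖ < ε
    rw [Complex.norm_real]
    exact lt_of_le_of_lt (norm_le_pi_norm x 0) hx
  · change ‖((x 1 : ℝ) : ℂ)‖ < ε
    rw [Complex.norm_real]
    exact lt_of_le_of_lt (norm_le_pi_norm x 1) hx
  · change ‖((σ : ℝ) : ℂ)‖ < ε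
    rw [Complex.norm_real, Real.norm_eq_abs]
    exact hσ

theorem tExO : S_ExO := by
  intro A r N G ε δ hW i j hij
  let S : Set ((Fin 2 → ℝ) × ℝ) := ball 0 ε ×ˢ Ioo 0 ε
  have hS : IsPreconnected S :=
    ((convex_ball (0 : Fin 2 → ℝ) ε).prod (convex_Ioo 0 ε)).isPreconnected
  have hmem : ∀ p ∈ S, ‖p.1‖ < ε ∧ 0 < p.2 ∧ p.2 < ε := by
    intro p hp
    obtain ⟨h1, h2⟩ := hp
    rw [mem_ball_zero_iff] at h1
    exact ⟨h1, h2.1, h2.2⟩
  have hmem' : ∀ x : Fin 2 → ℝ, ∀ σ : ℝ, ‖x‖ < ε → 0 < σ → σ < ε → (x, σ) ∈ S := by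
    intro x σ h1 h2 h3
    exact ⟨by rw [mem_ball_zero_iff]; exact h1, h2, h3⟩
  have hball : ∀ p ∈ S, e3 p.1 p.2 ∈ ball (0 : Cn 3) ε := by
    intro p hp
    obtain ⟨h1, h2, h3⟩ := hmem p hp
    exact exo_ball hW.hε h1 (by rw [abs_of_pos h2]; exact h3)
  have hGc : ∀ k, ContinuousOn (fun p : (Fin 2 → ℝ) × ℝ => (G k (e3 p.1 p.2)).re) S := by
    intro k
    exact Complex.continuous_re.comp_continuousOn
      ((hW.hG k).continuousOn.comp exo_cont.continuousOn hball)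
  have hf : ContinuousOn (fun p : (Fin 2 → ℝ) × ℝ =>
      (G i (e3 p.1 p.2)).re - (G j (e3 p.1 p.2)).re) S := (hGc i).sub (hGc j)
  have hne : ∀ p ∈ S, (G i (e3 p.1 p.2)).re - (G j (e3 p.1 p.2)).re ≠ 0 := by
    intro p hp h0
    obtain ⟨h1, h2, h3⟩ := hmem p hp
    obtain ⟨q, E, -, hE, hGE⟩ := hW.dist i j hij
    have hb := hball p hp
    have e1 := hGE _ hb
    have e2 : G i (e3 p.1 p.2) - G j (e3 p.1 p.2) = 0 := by
      apply Complex.ext
      · rw [Complex.sub_re]; exact h0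
      · rw [Complex.sub_im, hW.real i p.1 p.2 h1 h2.le h3, hW.real j p.1 p.2 h1 h2.le h3]
        simp
    rw [e2] at e1
    have e3' : (e3 p.1 p.2) 2 = (p.2 : ℂ) := rfl
    rw [e3'] at e1
    have e4 : ((p.2 : ℂ)) ^ q ≠ 0 := pow_ne_zero _ (by exact_mod_cast h2.ne')
    exact (mul_ne_zero e4 (hE _ hb)) e1.symm
  by_cases hex : ∃ p ∈ S, (G i (e3 p.1 p.2)).re - (G j (e3 p.1 p.2)).re < 0
  · left
    obtain ⟨p, hp, hpn⟩ := hex
    intro x σ hx h0 h1
    have hq := hmem' x σ hx h0 h1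
    by_contra hcon
    have hge : 0 ≤ (G i (e3 x σ)).re - (G j (e3 x σ)).re := by linarith [not_lt.1 hcon]
    have := hS.intermediate_value hp hq hf
    obtain ⟨c, hc, hc0⟩ := this (show (0 : ℝ) ∈ Icc _ _ from ⟨hpn.le, hge⟩)
    exact hne c hc hc0
  · right
    intro x σ hx h0 h1
    have hq := hmem' x σ hx h0 h1
    push Not at hex
    have h2 := hex (x, σ) hq
    have h3 := hne (x, σ) hq
    have h4 : 0 < (G i (e3 x σ)).re - (G j (e3 x σ)).re := lt_of_le_of_ne h2 (Ne.symm h3)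
    linarith

end KP
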