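import Pool.Agent.Lib.KP.SpecW

/-!
# KP, block W, Ext: extraction of a band
-/

set_option autoImplicit false

open Set Filter Topology Metric

namespace KP

private theorem ext_real {A : Set (Cn 2)} {δ : ℝ} (hA : IsOpen A) (hδ : 0 < δ)
    (vx : ∀ x y : Fin 2 → ℝ, ‖x‖ < δ → ‖y‖ < δ → y 1 ≠ 0 → |y 0| ≤ δ * |y 1| → cp x y ∉ A)
    (x : Fin 2 → ℝ) (hx : ‖x‖ < δ) : cp x ![0, 0] ∉ A := by
  intro hmem
  have hc : Continuous (fun t : ℝ => cp x ![0, t]) := by
    unfold cp
    refine continuous_pi fun i => ?_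
    fin_cases i
    · simp only [Fin.zero_eta, Matrix.cons_val_zero]
      exact continuous_const
    · simp only [Fin.mk_one, Matrix.cons_val_one]
      fun_prop
  have hO : IsOpen ((fun t : ℝ => cp x ![0, t]) ⁻¹' A) := hA.preimage hc
  obtain ⟨η, hη, hb⟩ := Metric.isOpen_iff.1 hO 0 hmem
  have ht : min (η / 2) (δ / 2) ∈ ball (0 : ℝ) η := by
    rw [mem_ball_zero_iff, Real.norm_eq_abs, abs_of_pos (by positivity)]
    exact lt_of_le_of_lt (min_le_left _ _) (by linarith)
  have hpos : 0 < min (η / 2) (δ / 2) := by positivity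
  have hlt : min (η / 2) (δ / 2) < δ := lt_of_le_of_lt (min_le_right _ _) (by linarith)
  refine vx x ![0, min (η / 2) (δ / 2)] hx ?_ ?_ ?_ (hb ht)
  · rw [pi_norm_lt_iff hδ]
    intro i
    fin_cases i
    · change ‖(0 : ℝ)‖ < δ
      rw [norm_zero]
      exact hδ
    · change ‖min (η / 2) (δ / 2)‖ < δ
      rw [Real.norm_eq_abs, abs_of_pos hpos]
      exact hlt
  · change min (η / 2) (δ / 2) ≠ 0
    exact hpos.ne'
  · change |(0 : ℝ)| ≤ δ * |min (η / 2) (δ / 2)|
    rw [abs_zero]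
    positivity

theorem tExt (h1 : S_ExO) (h2 : S_ExA) (h3 : S_ExB) (h4 : S_ExC) : S_Ext := by
  intro A r N G ε δ hW hPos
  have hε1 : ε ≤ 1 := hW.hεδ.trans (pow_le_one₀ hW.hδ.le hW.hδ1)
  obtain ⟨a, b, x0, σ0, t0, hx0, hσ0, hσε, hA0, ha, hb, hWa, hWb, hall⟩ :=
    h2 A r N G ε δ hW hPos
  have hσN0 : 0 < σ0 ^ N := pow_pos hσ0 N
  have hab0 : (G a (e3 x0 σ0)).re < (G b (e3 x0 σ0)).re :=
    lt_of_mul_lt_mul_left (ha.trans hb) hσN0.le
  have hne : a ≠ b := by
    intro he
    rw [he] at hab0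
    exact lt_irrefl _ hab0
  have hab : ∀ (x : Fin 2 → ℝ) (σ : ℝ), ‖x‖ < ε → 0 < σ → σ < ε →
      (G a (e3 x σ)).re < (G b (e3 x σ)).re := by
    rcases h1 A r N G ε δ hW a b hne with h | h
    · exact h
    · exact absurd (h x0 σ0 hx0 hσ0 hσε) (not_lt.2 hab0.le)
  obtain ⟨hop, hcomp⟩ := h4 A r N G ε δ hW a b hWa hWb
  refine ⟨a, b, ?_⟩
  exact
    { opn := hW.opn
      zero := by
        intro h0
        refine ext_real hW.opn hW.hδ hW.vx 0 (by rw [norm_zero]; exact hW.hδ) ?_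
        have : cp 0 ![0, 0] = (0 : Cn 2) := by
          ext i
          unfold cp
          fin_cases i
          · simp
          · simp
        rw [this]
        exact h0
      hN := hW.hN
      hε := hW.hε
      hε1 := hε1
      ha := hW.hG a
      hb := hW.hG b
      ra := hW.real a
      rb := hW.real b
      lt := hab
      dist := hW.dist b a hne.symm
      wa := hWa
      wb := hWb
      sub := h3 A r N G ε δ hW a b x0 σ0 t0 hx0 hσ0 hσε hA0 ha hb hall
      bopn := hop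
      comp := hcomp }

end KP
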