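import Pool.Agent.Lib.KP.SpecW

/-!
# KP (MP_64edc4_ag), W/Fac: zeros and power sums in one variable
-/

set_option autoImplicit false

open Set Filter Topology Metric

namespace KP

namespace FacAux

/-- the zero set is finite -/
private theorem fin {f : ℂ → ℂ} {r R : ℝ} (hr : 0 < r) (hrR : r < R)
    (hf : DifferentiableOn ℂ f (ball 0 R)) (hz : ∀ t : ℂ, r ≤ ‖t‖ → ‖t‖ < R → f t ≠ 0) :
    {t : ℂ | t ∈ ball (0 : ℂ) R ∧ f t = 0}.Finite := by
  by_contra hinf
  have hsub : {t : ℂ | t ∈ ball (0 : ℂ) R ∧ f t = 0} ⊆ closedBall 0 r := by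
    rintro t ⟨ht, hft⟩
    rw [mem_closedBall_zero_iff]
    by_contra h
    exact hz t (le_of_lt (not_le.1 h)) (mem_ball_zero_iff.1 ht) hft
  obtain ⟨x, hx, hacc⟩ := Set.Infinite.exists_accPt_of_subset_isCompact hinf
    (isCompact_closedBall (0 : ℂ) r) hsub
  have hfr := accPt_iff_frequently_nhdsNE.1 hacc
  have han : AnalyticOnNhd ℂ f (ball 0 R) := hf.analyticOnNhd isOpen_ball
  have hxR : x ∈ ball (0 : ℂ) R := by
    rw [mem_closedBall_zero_iff] at hx
    rw [mem_ball_zero_iff]
    linarith
  have h0 := han.eqOn_zero_of_preconnected_of_frequently_eq_zero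
    (convex_ball (0 : ℂ) R).isPreconnected hxR (hfr.mono fun z hz => hz.2)
  have hrn : ‖(r : ℂ)‖ = r := by
    rw [Complex.norm_real, Real.norm_of_nonneg hr.le]
  exact hz (r : ℂ) (by rw [hrn]) (by rw [hrn]; exact hrR)
    (h0 (by rw [mem_ball_zero_iff, hrn]; exact hrR))

/-- powers of linear factors -/
private theorem prod_rep (n : ℕ) (a t : ℂ) :
    ((Multiset.replicate n a).map (fun b => t - b)).prod = (t - a) ^ n := by
  rw [Multiset.map_replicate, Multiset.prod_replicate]

/-- dividing out the zeros -/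
private theorem fac {R : ℝ} : ∀ (n : ℕ) (f : ℂ → ℂ), DifferentiableOn ℂ f (ball 0 R) →
    {t : ℂ | t ∈ ball (0 : ℂ) R ∧ f t = 0}.Finite →
    {t : ℂ | t ∈ ball (0 : ℂ) R ∧ f t = 0}.ncard = n →
    ∃ (Z : Multiset ℂ) (u : ℂ → ℂ), (∀ a, a ∈ Z ↔ a ∈ ball (0 : ℂ) R ∧ f a = 0) ∧
      DifferentiableOn ℂ u (ball 0 R) ∧ (∀ t ∈ ball (0 : ℂ) R, u t ≠ 0) ∧
      ∀ t ∈ ball (0 : ℂ) R, f t = (Z.map (fun b => t - b)).prod * u t := by
  intro n
  induction n with
  | zero =>
    intro f hf hfin hn
    have he := (Set.ncard_eq_zero hfin).1 hn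
    refine ⟨0, f, ?_, hf, ?_, ?_⟩
    · intro a
      constructor
      · intro h
        exact absurd h (Multiset.notMem_zero a)
      · intro h
        have h1 : a ∈ {t : ℂ | t ∈ ball (0 : ℂ) R ∧ f t = 0} := h
        rw [he] at h1
        exact absurd h1 (Set.notMem_empty a)
    · intro t ht h0
      have h1 : t ∈ {t : ℂ | t ∈ ball (0 : ℂ) R ∧ f t = 0} := ⟨ht, h0⟩
      rw [he] at h1
      exact Set.notMem_empty t h1
    · intro t _
      simp
  | succ n ih =>
    intro f hf hfin hn
    obtain ⟨a, ha⟩ : {t : ℂ | t ∈ ball (0 : ℂ) R ∧ f t = 0}.Nonempty := by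
      rw [Set.nonempty_iff_ne_empty]
      intro h0
      rw [h0, Set.ncard_empty] at hn
      omega
    obtain ⟨haR, hfa⟩ := ha
    have han : AnalyticAt ℂ f a := hf.analyticAt (isOpen_ball.mem_nhds haR)
    have hord : analyticOrderAt f a ≠ ⊤ := by
      intro h0
      rw [analyticOrderAt_eq_top] at h0
      have h1 : {t : ℂ | t ∈ ball (0 : ℂ) R ∧ f t = 0} ∈ 𝓝 a :=
        (isOpen_ball.eventually_mem haR).and h0
      exact infinite_of_mem_nhds a h1 hfin
    obtain ⟨g, hg, hga, hfg⟩ := han.analyticOrderAt_ne_top.1 hord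
    set m := analyticOrderNatAt f a with hm
    have hm0 : m ≠ 0 := by
      intro h0
      have h1 : f a = (a - a) ^ m • g a := hfg.self_of_nhds
      rw [h0, pow_zero, one_smul, hfa] at h1
      exact hga h1.symm
    set u₁ : ℂ → ℂ := fun t => if t = a then g a else f t / (t - a) ^ m with hu₁
    have hu₁g : u₁ =ᶠ[𝓝 a] g := by
      filter_upwards [hfg] with t ht
      by_cases hta : t = a
      · simp only [hu₁, hta, if_true]
      · simp only [hu₁, if_neg hta]
        rw [ht, smul_eq_mul]
        have : (t - a) ^ m ≠ 0 := pow_ne_zero _ (sub_ne_zero.2 hta)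
        field_simp
    have hu₁d : DifferentiableOn ℂ u₁ (ball 0 R) := by
      intro t ht
      by_cases hta : t = a
      · rw [hta]
        exact (hg.differentiableAt.congr_of_eventuallyEq hu₁g).differentiableWithinAt
      · have h1 : u₁ =ᶠ[𝓝 t] fun t => f t / (t - a) ^ m := by
          filter_upwards [isOpen_ne.mem_nhds hta] with s hs
          simp only [hu₁, if_neg hs]
        have h2 : DifferentiableAt ℂ (fun t => f t / (t - a) ^ m) t := by
          refine (hf.differentiableAt (isOpen_ball.mem_nhds ht)).div (by fun_prop) ?_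
          exact pow_ne_zero _ (sub_ne_zero.2 hta)
        exact (h2.congr_of_eventuallyEq h1).differentiableWithinAt
    have hu₁a : u₁ a = g a := by simp only [hu₁, if_true]
    have hzero : {t : ℂ | t ∈ ball (0 : ℂ) R ∧ u₁ t = 0} =
        {t : ℂ | t ∈ ball (0 : ℂ) R ∧ f t = 0} \ {a} := by
      ext t
      simp only [mem_setOf_eq, mem_diff, mem_singleton_iff]
      constructor
      · rintro ⟨ht, h0⟩
        have hta : t ≠ a := by
          rintro rfl
          rw [hu₁a] at h0
          exact hga h0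
        simp only [hu₁, if_neg hta] at h0
        rw [div_eq_zero_iff] at h0
        rcases h0 with h0 | h0
        · exact ⟨⟨ht, h0⟩, hta⟩
        · exact absurd h0 (pow_ne_zero _ (sub_ne_zero.2 hta))
      · rintro ⟨⟨ht, h0⟩, hta⟩
        refine ⟨ht, ?_⟩
        simp only [hu₁, if_neg hta, h0, zero_div]
    have hfin' : {t : ℂ | t ∈ ball (0 : ℂ) R ∧ u₁ t = 0}.Finite := by
      rw [hzero]
      exact hfin.diff
    have hcard : {t : ℂ | t ∈ ball (0 : ℂ) R ∧ u₁ t = 0}.ncard = n := by
      rw [hzero]
      have h1 := Set.ncard_diff_singleton_of_mem (s := {t : ℂ | t ∈ ball (0 : ℂ) R ∧ f t = 0})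
        (show a ∈ _ from ⟨haR, hfa⟩)
      omega
    obtain ⟨Z, u, hZ, hud, hu0, hfac⟩ := ih u₁ hu₁d hfin' hcard
    refine ⟨Multiset.replicate m a + Z, u, ?_, hud, hu0, ?_⟩
    · intro b
      rw [Multiset.mem_add, Multiset.mem_replicate, hZ b]
      have h1 : (b ∈ ball (0 : ℂ) R ∧ u₁ b = 0) ↔
          b ∈ {t : ℂ | t ∈ ball (0 : ℂ) R ∧ f t = 0} \ {a} := by
        rw [← hzero]
        exact Iff.rfl
      rw [h1]
      constructor
      · rintro (⟨-, rfl⟩ | ⟨h, -⟩)
        · exact ⟨haR, hfa⟩
        · exact h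
      · intro h
        by_cases hba : b = a
        · exact Or.inl ⟨hm0, hba⟩
        · exact Or.inr ⟨h, hba⟩
    · intro t ht
      rw [Multiset.map_add, Multiset.prod_add, prod_rep, mul_assoc, ← hfac t ht]
      by_cases hta : t = a
      · rw [hta, sub_self, zero_pow hm0, zero_mul, hfa]
      · simp only [hu₁, if_neg hta]
        have : (t - a) ^ m ≠ 0 := pow_ne_zero _ (sub_ne_zero.2 hta)
        field_simp

private theorem diffProd (Z : Multiset ℂ) (t : ℂ) :
    DifferentiableAt ℂ (fun t => (Z.map (fun b => t - b)).prod) t := by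
  induction Z using Multiset.induction_on with
  | empty => simp
  | cons b Z ih =>
    have h1 : (fun t : ℂ => ((b ::ₘ Z).map (fun b => t - b)).prod) =
        fun t => (t - b) * (Z.map (fun b => t - b)).prod := by
      funext t
      rw [Multiset.map_cons, Multiset.prod_cons]
    rw [h1]
    exact (by fun_prop : DifferentiableAt ℂ (fun t : ℂ => t - b) t).mul ih

/-- the integrals -/
private theorem int {r R : ℝ} (hr : 0 < r) (hrR : r < R) {u : ℂ → ℂ}
    (hud : DifferentiableOn ℂ u (ball 0 R)) (hu0 : ∀ t ∈ ball (0 : ℂ) R, u t ≠ 0) (k : ℕ)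
    (Z : Multiset ℂ) (hZ : ∀ a ∈ Z, ‖a‖ < r) :
    CircleIntegrable (fun t => t ^ k * (logDeriv (fun t => (Z.map (fun b => t - b)).prod * u t) t))
      0 r ∧
    (∮ t in C(0, r), t ^ k * (logDeriv (fun t => (Z.map (fun b => t - b)).prod * u t) t)) =
      (2 * Real.pi * Complex.I : ℂ) * (Z.map (fun a => a ^ k)).sum := by
  have hsph : ∀ t : ℂ, t ∈ sphere (0 : ℂ) r → ‖t‖ = r := fun t ht => mem_sphere_zero_iff_norm.1 ht
  induction Z using Multiset.induction_on with
  | empty =>
    have he : (fun t : ℂ => ((0 : Multiset ℂ).map (fun b => t - b)).prod * u t) = u := by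
      funext t
      simp
    rw [he]
    have hd : DifferentiableOn ℂ (fun t => t ^ k * logDeriv u t) (ball 0 R) := by
      have h1 : DifferentiableOn ℂ (deriv u) (ball 0 R) := hud.deriv isOpen_ball
      have h2 : DifferentiableOn ℂ (fun t => deriv u t / u t) (ball 0 R) := h1.div hud hu0
      exact (differentiableOn_id.pow k).mul h2
    have hsub : closedBall (0 : ℂ) r ⊆ ball 0 R := closedBall_subset_ball hrR
    refine ⟨?_, ?_⟩
    · refine ContinuousOn.circleIntegrable hr.le (hd.continuousOn.mono ?_)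
      exact sphere_subset_closedBall.trans hsub
    · rw [Multiset.map_zero, Multiset.sum_zero, mul_zero]
      exact Complex.circleIntegral_eq_zero_of_differentiable_on_off_countable hr.le
        Set.countable_empty (hd.continuousOn.mono hsub)
        (fun z hz => hd.differentiableAt (isOpen_ball.mem_nhds
          (ball_subset_ball hrR.le hz.1)))
  | cons a Z ih =>
    obtain ⟨ih1, ih2⟩ := ih (fun b hb => hZ b (Multiset.mem_cons_of_mem hb))
    have ha : ‖a‖ < r := hZ a (Multiset.mem_cons_self a Z)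
    have hprod := fun t : ℂ => diffProd Z t
    have hlog : ∀ t ∈ sphere (0 : ℂ) r,
        t ^ k * logDeriv (fun t => ((a ::ₘ Z).map (fun b => t - b)).prod * u t) t =
        t ^ k / (t - a) + t ^ k * logDeriv (fun t => (Z.map (fun b => t - b)).prod * u t) t := by
      intro t ht
      have htn := hsph t ht
      have htR : t ∈ ball (0 : ℂ) R := by
        rw [mem_ball_zero_iff, htn]
        exact hrR
      have hta : t - a ≠ 0 := by
        intro h0
        rw [sub_eq_zero] at h0
        rw [← h0, htn] at ha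
        exact lt_irrefl _ ha
      have hP : (Z.map (fun b => t - b)).prod ≠ 0 := by
        intro h0
        obtain ⟨b, hb, hb0⟩ := Multiset.mem_map.1 (Multiset.prod_eq_zero_iff.1 h0)
        rw [sub_eq_zero] at hb0
        have hbr := hZ b (Multiset.mem_cons_of_mem hb)
        rw [← hb0, htn] at hbr
        exact lt_irrefl _ hbr
      have h1 : (fun t => ((a ::ₘ Z).map (fun b => t - b)).prod * u t) =
          fun t => (t - a) * ((Z.map (fun b => t - b)).prod * u t) := by
        funext t
        rw [Multiset.map_cons, Multiset.prod_cons, mul_assoc]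
      have hut := hud.differentiableAt (isOpen_ball.mem_nhds htR)
      rw [h1, logDeriv_mul (f := fun t => t - a)
        (g := fun t => (Z.map (fun b => t - b)).prod * u t) t hta
        (mul_ne_zero hP (hu0 t htR)) (by fun_prop) ((hprod t).mul hut), mul_add]
      congr 1
      rw [logDeriv_apply]
      have h2 : deriv (fun t : ℂ => t - a) t = 1 := by
        rw [deriv_sub_const]
        exact deriv_id t
      rw [h2, mul_one_div]
    have hcont : ContinuousOn (fun t : ℂ => t ^ k / (t - a)) (sphere 0 r) := by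
      refine ContinuousOn.div (by fun_prop) (by fun_prop) ?_
      intro t ht h0
      rw [sub_eq_zero] at h0
      have htn := hsph t ht
      rw [← h0, htn] at ha
      exact lt_irrefl _ ha
    have hci : CircleIntegrable (fun t : ℂ => t ^ k / (t - a)) 0 r :=
      hcont.circleIntegrable hr.le
    have hcauchy : (∮ t in C(0, r), t ^ k / (t - a)) = 2 * Real.pi * Complex.I * a ^ k :=
      Complex.circleIntegral_div_sub_of_differentiable_on_off_countable Set.countable_empty
        (mem_ball_zero_iff.2 ha) (by fun_prop) (fun z _ => by fun_prop)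
    refine ⟨?_, ?_⟩
    · have h3 := hci.add ih1
      refine (circleIntegrable_congr ?_).2 h3
      intro t ht
      rw [abs_of_nonneg hr.le] at ht
      exact hlog t ht
    · rw [circleIntegral.integral_congr hr.le hlog, circleIntegral.integral_add hci ih1, hcauchy,
        ih2, Multiset.map_cons, Multiset.sum_cons]
      ring

end FacAux

theorem tFac : S_Fac := by
  intro f r R hr hrR hf hz
  have hfin := FacAux.fin hr hrR hf hz
  obtain ⟨Z, u, hZ, hud, hu0, hfac⟩ := FacAux.fac _ f hf hfin rfl
  have hZr : ∀ a ∈ Z, ‖a‖ < r := by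
    intro a ha
    obtain ⟨haR, hfa⟩ := (hZ a).1 ha
    by_contra h
    exact hz a (not_lt.1 h) (mem_ball_zero_iff.1 haR) hfa
  refine ⟨Z, hZr, ?_, ?_⟩
  · intro t ht
    rw [hZ t]
    exact ⟨fun h => ⟨mem_ball_zero_iff.2 ht, h⟩, fun h => h.2⟩
  · intro k
    obtain ⟨-, h1⟩ := FacAux.int hr hrR hud hu0 k Z hZr
    have h2 : (∮ t in C(0, r), t ^ k * (deriv f t / f t)) =
        ∮ t in C(0, r), t ^ k * (logDeriv (fun t => (Z.map (fun b => t - b)).prod * u t) t) := by
      refine circleIntegral.integral_congr hr.le ?_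
      intro t ht
      have htR : t ∈ ball (0 : ℂ) R := by
        rw [mem_ball_zero_iff, mem_sphere_zero_iff_norm.1 ht]
        exact hrR
      have h3 : f =ᶠ[𝓝 t] fun t => (Z.map (fun b => t - b)).prod * u t := by
        filter_upwards [isOpen_ball.mem_nhds htR] with s hs
        exact hfac s hs
      change t ^ k * (deriv f t / f t) = t ^ k * logDeriv _ t
      rw [logDeriv_apply, h3.deriv_eq, h3.self_of_nhds]
    rw [h2, h1, inv_mul_cancel_left₀]
    simp [Real.pi_ne_zero, Complex.I_ne_zero]

end KP
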