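import Pool.Agent.Lib.KP.SpecW

/-!
# KP, package W, module GlobB: global branches on a convex set
-/

set_option autoImplicit false

open Set Filter Topology Metric

namespace KP

namespace GlobBAux

variable {k r : ℕ} {Ω : Set (Cn k)} {Zs : Cn k → Set ℂ}

/-- The covering space. -/
abbrev Ec {k : ℕ} (Ω : Set (Cn k)) (Zs : Cn k → Set ℂ) : Type :=
  {p : Ω × ℂ // p.2 ∈ Zs (p.1 : Cn k)}

/-- The projection. -/
def pr {k : ℕ} (Ω : Set (Cn k)) (Zs : Cn k → Set ℂ) : Ec Ω Zs → Ω := fun p => p.1.1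

theorem pr_cont : Continuous (pr Ω Zs) := continuous_fst.comp continuous_subtype_val

/-- `σ` is a system of local branches on `U`. -/
def Loc {k r : ℕ} (Ω : Set (Cn k)) (Zs : Cn k → Set ℂ) (w0 : Cn k) (ε : ℝ)
    (σ : Fin r → Cn k → ℂ) : Prop :=
  (∀ i, ContinuousOn (σ i) (ball w0 ε)) ∧ ∀ w ∈ ball w0 ε ∩ Ω,
    Function.Injective (fun i => σ i w) ∧ Zs w = range (fun i => σ i w)

theorem evenly {w0 : Cn k} {ε : ℝ} {σ : Fin r → Cn k → ℂ} (h : Loc Ω Zs w0 ε σ) (hε : 0 < ε)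
    (h0 : w0 ∈ Ω) : IsEvenlyCovered (pr Ω Zs) ⟨w0, h0⟩ (Fin r) := by
  classical
  obtain ⟨hc, hσ⟩ := h
  set U : Set Ω := {w | (w : Cn k) ∈ ball w0 ε} with hU
  have hUo : IsOpen U := isOpen_ball.preimage continuous_subtype_val
  have hpre : IsOpen (pr Ω Zs ⁻¹' U) := hUo.preimage pr_cont
  have hidx : ∀ e : pr Ω Zs ⁻¹' U, ∃ i, σ i (e.1.1.1 : Cn k) = e.1.1.2 := by
    intro e
    have h1 := (hσ (e.1.1.1 : Cn k) ⟨e.2, e.1.1.1.2⟩).2
    have h2 := e.1.2
    rw [h1] at h2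
    exact h2
  choose idx hidx' using hidx
  have hmem : ∀ x : U × Fin r, σ x.2 (x.1.1 : Cn k) ∈ Zs (x.1.1 : Cn k) := by
    intro x
    rw [(hσ (x.1.1 : Cn k) ⟨x.1.2, x.1.1.2⟩).2]
    exact ⟨x.2, rfl⟩
  have hval : ∀ i, Continuous fun e : pr Ω Zs ⁻¹' U => σ i (e.1.1.1 : Cn k) := fun i =>
    (hc i).comp_continuous
      (continuous_subtype_val.comp (pr_cont.comp continuous_subtype_val)) fun e => e.2
  have hidxc : Continuous idx := by
    rw [continuous_iff_isClosed]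
    intro s _
    have h1 : idx ⁻¹' s = ⋃ i ∈ s, {e : pr Ω Zs ⁻¹' U | σ i (e.1.1.1 : Cn k) = e.1.1.2} := by
      ext e
      simp only [mem_preimage, mem_iUnion, mem_ofPred_eq, exists_prop]
      constructor
      · intro h
        exact ⟨idx e, h, hidx' e⟩
      · rintro ⟨i, hi, h2⟩
        have h3 : i = idx e := (hσ (e.1.1.1 : Cn k) ⟨e.2, e.1.1.1.2⟩).1
          (h2.trans (hidx' e).symm)
        rwa [← h3]
    rw [h1]
    refine (Set.toFinite s).isClosed_biUnion fun i _ => ?_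
    exact isClosed_eq (hval i) (continuous_snd.comp
      (continuous_subtype_val.comp continuous_subtype_val))
  refine ⟨inferInstance, U, mem_ball_self hε, hUo, hpre, ?_⟩
  refine ⟨{
    toFun := fun e => (⟨pr Ω Zs e.1, e.2⟩, idx e)
    invFun := fun x => ⟨⟨(x.1.1, σ x.2 (x.1.1 : Cn k)), hmem x⟩, x.1.2⟩
    left_inv := ?_
    right_inv := ?_
    continuous_toFun := ?_
    continuous_invFun := ?_ }, fun e => rfl⟩
  · intro e
    apply Subtype.ext
    apply Subtype.ext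
    exact Prod.ext rfl (hidx' e)
  · intro x
    refine Prod.ext rfl ?_
    exact (hσ (x.1.1 : Cn k) ⟨x.1.2, x.1.1.2⟩).1 (hidx' _)
  · exact (Continuous.subtype_mk (pr_cont.comp continuous_subtype_val) _).prodMk hidxc
  · refine Continuous.subtype_mk (Continuous.subtype_mk (Continuous.prodMk ?_ ?_) _) _
    · exact continuous_subtype_val.comp continuous_fst
    · rw [continuous_prod_of_discrete_right]
      intro i
      exact (hc i).comp_continuous (continuous_subtype_val.comp continuous_subtype_val)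
        fun w => w.2

end GlobBAux

open GlobBAux in
theorem tGlobB : S_GlobB := by
  classical
  intro k r Ω Zs hconv hopen hne hloc
  have hLoc : ∀ w0 ∈ Ω, ∃ ε > 0, ∃ σ : Fin r → Cn k → ℂ,
      (∀ i, DifferentiableOn ℂ (σ i) (ball w0 ε)) ∧ Loc Ω Zs w0 ε σ := by
    intro w0 hw0
    obtain ⟨ε, hε, σ, h1, h2⟩ := hloc w0 hw0
    exact ⟨ε, hε, σ, h1, fun i => (h1 i).continuousOn, h2⟩
  have hcov : IsCoveringMap (pr Ω Zs) := by
    rintro ⟨w0, hw0⟩
    obtain ⟨ε, hε, σ, -, h2⟩ := hLoc w0 hw0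
    exact (evenly h2 hε hw0).to_isEvenlyCovered_preimage
  have hcontr : ContractibleSpace Ω := hconv.contractibleSpace hne
  have hsc : SimplyConnectedSpace Ω := inferInstance
  have hlpc : LocallyPathConnectedSpace Ω := hopen.locallyPathConnectedSpace
  obtain ⟨w0, hw0⟩ := hne
  obtain ⟨ε, hε, σ, -, hσ⟩ := hLoc w0 hw0
  have h0 := hσ.2 w0 ⟨mem_ball_self hε, hw0⟩
  have hmem : ∀ i, σ i w0 ∈ Zs w0 := by
    intro i
    rw [h0.2]
    exact ⟨i, rfl⟩
  -- the sections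
  have hsec : ∀ i : Fin r, ∃ F : C(Ω, Ec Ω Zs), F ⟨w0, hw0⟩ = ⟨(⟨w0, hw0⟩, σ i w0), hmem i⟩ ∧
      pr Ω Zs ∘ F = ContinuousMap.id Ω := by
    intro i
    obtain ⟨F, hF, -⟩ := hcov.existsUnique_continuousMap_lifts (ContinuousMap.id Ω) ⟨w0, hw0⟩
      ⟨(⟨w0, hw0⟩, σ i w0), hmem i⟩ rfl
    exact ⟨F, hF⟩
  choose F hF0 hF1 using hsec
  have hF1' : ∀ i (w : Ω), (F i w).1.1 = w := fun i w => congrFun (hF1 i) w
  set ρ : Fin r → Cn k → ℂ := fun i w => if h : w ∈ Ω then (F i ⟨w, h⟩).1.2 else 0 with hρ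
  have hρ1 : ∀ i (w : Cn k) (h : w ∈ Ω), ρ i w = (F i ⟨w, h⟩).1.2 := by
    intro i w h
    rw [hρ]
    simp only
    rw [dif_pos h]
  have hρZ : ∀ i, ∀ w ∈ Ω, ρ i w ∈ Zs w := by
    intro i w hw
    rw [hρ1 i w hw]
    have h1 := (F i ⟨w, hw⟩).2
    rw [hF1' i ⟨w, hw⟩] at h1
    exact h1
  have hρc : ∀ i, ContinuousOn (ρ i) Ω := by
    intro i
    rw [continuousOn_iff_continuous_domRestrict]
    have h1 : Ω.domRestrict (ρ i) = fun w => (F i w).1.2 := by
      funext w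
      exact hρ1 i w w.2
    rw [h1]
    exact continuous_snd.comp (continuous_subtype_val.comp (F i).continuous)
  have hinj : ∀ w ∈ Ω, Function.Injective fun i => ρ i w := by
    intro w hw i j hij
    simp only at hij
    rw [hρ1 i w hw, hρ1 j w hw] at hij
    have h1 : F i ⟨w, hw⟩ = F j ⟨w, hw⟩ :=
      Subtype.ext (Prod.ext ((hF1' i ⟨w, hw⟩).trans (hF1' j ⟨w, hw⟩).symm) hij)
    have h2 : (F i : Ω → Ec Ω Zs) = F j :=
      hcov.eq_of_comp_eq (F i).continuous (F j).continuous ((hF1 i).trans (hF1 j).symm) _ h1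
    have h3 := congrFun h2 ⟨w0, hw0⟩
    rw [hF0 i, hF0 j] at h3
    exact h0.1 (congrArg (fun e : Ec Ω Zs => e.1.2) h3)
  have hrange : ∀ w ∈ Ω, Zs w = range fun i => ρ i w := by
    intro w hw
    obtain ⟨ε', hε', τ, -, hτ⟩ := hLoc w hw
    have h1 := hτ.2 w ⟨mem_ball_self hε', hw⟩
    have h2 : ∀ i, ∃ j, τ j w = ρ i w := by
      intro i
      have h3 := hρZ i w hw
      rw [h1.2] at h3
      exact h3
    choose π hπ using h2
    have hπi : Function.Injective π := by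
      intro i j hij
      apply hinj w hw
      simp only
      rw [← hπ i, ← hπ j, hij]
    have hπs : Function.Surjective π := Finite.surjective_of_injective hπi
    rw [h1.2]
    ext t
    constructor
    · rintro ⟨j, rfl⟩
      obtain ⟨i, rfl⟩ := hπs j
      exact ⟨i, (hπ i).symm⟩
    · rintro ⟨i, rfl⟩
      exact ⟨π i, hπ i⟩
  refine ⟨ρ, fun i w hw => ?_, fun w hw => ⟨hinj w hw, hrange w hw⟩⟩
  obtain ⟨ε', hε', τ, hτd, hτ⟩ := hLoc w hw
  have h1 := hτ.2 w ⟨mem_ball_self hε', hw⟩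
  obtain ⟨j, hj⟩ : ∃ j, τ j w = ρ i w := by
    have h3 := hρZ i w hw
    rw [h1.2] at h3
    exact h3
  have hball : ball w ε' ∈ 𝓝 w := ball_mem_nhds w hε'
  have hρat : ContinuousAt (ρ i) w := (hρc i).continuousAt (hopen.mem_nhds hw)
  have hev : ∀ l, l ≠ j → ∀ᶠ w' in 𝓝 w, τ l w' ≠ ρ i w' := by
    intro l hl
    have h2 : ContinuousAt (τ l) w := (hτ.1 l).continuousAt hball
    have h3 : τ l w - ρ i w ≠ 0 := by
      intro h4
      apply hl
      apply h1.1
      simp only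
      rw [hj]
      exact sub_eq_zero.1 h4
    filter_upwards [(h2.sub hρat).eventually_ne h3] with w' hw' h4
    exact hw' (sub_eq_zero.2 h4)
  have hev' : ∀ᶠ w' in 𝓝 w, ∀ l, l ≠ j → τ l w' ≠ ρ i w' := by
    rw [Filter.eventually_all]
    intro l
    by_cases hl : l = j
    · exact Filter.Eventually.of_forall fun _ h => absurd hl h
    · filter_upwards [hev l hl] with w' h _
      exact h
  have heq : ρ i =ᶠ[𝓝 w] τ j := by
    filter_upwards [hev', hball, hopen.mem_nhds hw] with w' h2 h3 h4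
    have h5 := hρZ i w' h4
    rw [(hτ.2 w' ⟨h3, h4⟩).2] at h5
    obtain ⟨l, hl⟩ := h5
    by_cases hlj : l = j
    · rw [← hlj]
      exact hl.symm
    · exact absurd hl (h2 l hlj)
  exact ((heq.differentiableAt_iff).2 ((hτd j).differentiableAt hball)).differentiableWithinAt

end KP
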