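import Pool.Agent.Lib.KP.SpecW

/-!
# KP (MP_64edc4_ag), module W/Hank: Hankel determinants of power sums
-/

set_option autoImplicit false

open Set Filter Topology Metric

namespace KP

theorem tHank : S_Hank := by
  intro Z r
  have hM : ∀ i j : Fin r, (Z.map (fun a => a ^ ((i : ℕ) + (j : ℕ)))).sum =
      ∑ a ∈ Z.toFinset, (Z.count a : ℂ) * (a ^ (i : ℕ) * a ^ (j : ℕ)) := by
    intro i j
    rw [Finset.sum_multiset_map_count]
    refine Finset.sum_congr rfl fun a _ => ?_
    rw [nsmul_eq_mul, pow_add]
  constructor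
  · intro hr
    let e := Z.toFinset.equivFinOfCardEq hr
    let v : Fin r → ℂ := fun k => (e.symm k : ℂ)
    have hv : Function.Injective v := fun k l h => e.symm.injective (Subtype.ext h)
    have hdec : (Matrix.of fun (i j : Fin r) =>
        (Z.map (fun a => a ^ ((i : ℕ) + (j : ℕ)))).sum) =
        (Matrix.vandermonde v).transpose * Matrix.diagonal (fun k => (Z.count (v k) : ℂ)) *
          Matrix.vandermonde v := by
      ext i j
      rw [Matrix.of_apply, hM, Matrix.mul_apply]
      have h1 : ∑ a ∈ Z.toFinset, (Z.count a : ℂ) * (a ^ (i : ℕ) * a ^ (j : ℕ)) =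
          ∑ k : Fin r, (Z.count (v k) : ℂ) * (v k ^ (i : ℕ) * v k ^ (j : ℕ)) := by
        rw [← Finset.sum_coe_sort Z.toFinset
          (fun a => (Z.count a : ℂ) * (a ^ (i : ℕ) * a ^ (j : ℕ)))]
        exact (e.symm.sum_comp fun a : Z.toFinset =>
          (Z.count (a : ℂ) : ℂ) * ((a : ℂ) ^ (i : ℕ) * (a : ℂ) ^ (j : ℕ))).symm
      rw [h1]
      refine Finset.sum_congr rfl fun k _ => ?_
      rw [Matrix.mul_diagonal, Matrix.transpose_apply, Matrix.vandermonde_apply,
        Matrix.vandermonde_apply]
      ring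
    rw [hdec, Matrix.det_mul, Matrix.det_mul, Matrix.det_transpose, Matrix.det_diagonal]
    have hV : (Matrix.vandermonde v).det ≠ 0 := Matrix.det_vandermonde_ne_zero_iff.mpr hv
    refine mul_ne_zero (mul_ne_zero hV ?_) hV
    refine Finset.prod_ne_zero_iff.mpr fun k _ => ?_
    have : v k ∈ Z := Multiset.mem_toFinset.mp (e.symm k).2
    exact_mod_cast (Multiset.count_pos.mpr this).ne'
  · intro hr
    refine Matrix.exists_mulVec_eq_zero_iff.mp ?_
    let p : Polynomial ℂ := ∏ a ∈ Z.toFinset, (Polynomial.X - Polynomial.C a)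
    have hp : p.natDegree = Z.toFinset.card :=
      Polynomial.natDegree_finsetProd_X_sub_C_eq_card _ (fun a => a)
    have hmon : p.Monic := Polynomial.monic_prod_of_monic _ _ fun a _ => Polynomial.monic_X_sub_C a
    refine ⟨fun j => p.coeff j, ?_, ?_⟩
    · intro h
      have h1 := congrFun h ⟨Z.toFinset.card, hr⟩
      have h2 : p.coeff p.natDegree = 1 := hmon
      rw [hp] at h2
      simp only [Pi.zero_apply] at h1
      rw [h2] at h1
      exact one_ne_zero h1
    · ext i
      rw [Matrix.mulVec, dotProduct, Pi.zero_apply]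
      have h1 : ∀ j : Fin r, (Matrix.of fun (i j : Fin r) =>
          (Z.map (fun a => a ^ ((i : ℕ) + (j : ℕ)))).sum) i j * p.coeff j =
          ∑ a ∈ Z.toFinset, (Z.count a : ℂ) * a ^ (i : ℕ) * (p.coeff j * a ^ (j : ℕ)) := by
        intro j
        rw [Matrix.of_apply, hM, Finset.sum_mul]
        refine Finset.sum_congr rfl fun a _ => ?_
        ring
      rw [Finset.sum_congr rfl fun j _ => h1 j, Finset.sum_comm]
      refine Finset.sum_eq_zero fun a ha => ?_
      rw [← Finset.mul_sum, ← Finset.sum_range (fun j => p.coeff j * a ^ j),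
        ← Polynomial.eval_eq_sum_range' (by rw [hp]; exact hr)]
      have : p.eval a = 0 := by
        rw [Polynomial.eval_prod]
        exact Finset.prod_eq_zero ha (by simp)
      rw [this, mul_zero]

end KP
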