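import Pool.Agent.Lib.KP.SpecW

/-!
# KP (MP_64edc4_ag), module LLq: second derivatives of functions with Puiseux expansions
-/

set_option autoImplicit false

open Set Filter Topology Metric

namespace KP

namespace LLqAux

/-- The point `(p_0, p_1, p_2^(1/N))`. -/
noncomputable def pt (N : ℕ) (p : Fin 3 → ℝ) : Cn 3 :=
  e3 ![p 0, p 1] (p 2 ^ ((1 : ℝ) / (N : ℝ)))

lemma pt_mem (N : ℕ) (ε : ℝ) (hN : 1 ≤ N) (hε : 0 < ε) (p : Fin 3 → ℝ) (h0 : |p 0| < ε)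
    (h1 : |p 1| < ε) (h2 : 0 < p 2) (h3 : p 2 < ε ^ N) : pt N p ∈ ball (0 : Cn 3) ε := by
  have hN' : (0 : ℝ) < N := by exact_mod_cast hN
  rw [mem_ball_zero_iff, pi_norm_lt_iff hε]
  intro i
  fin_cases i
  · simpa [pt, e3] using h0
  · simpa [pt, e3] using h1
  · have h4 : p 2 ^ ((1 : ℝ) / (N : ℝ)) < ε := by
      have h5 := Real.rpow_lt_rpow h2.le h3 (by positivity : (0 : ℝ) < 1 / N)
      rwa [← Real.rpow_natCast, ← Real.rpow_mul hε.le, mul_one_div_cancel hN'.ne',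
        Real.rpow_one] at h5
    have h6 : 0 ≤ p 2 ^ ((1 : ℝ) / (N : ℝ)) := Real.rpow_nonneg h2.le _
    change ‖((p 2 ^ ((1 : ℝ) / (N : ℝ)) : ℝ) : ℂ)‖ < ε
    rw [Complex.norm_real, Real.norm_eq_abs, abs_of_nonneg h6]
    exact h4

lemma contDiffAt_rpow (b : ℝ) (p : Fin 3 → ℝ) (h2 : 0 < p 2) :
    ContDiffAt ℝ 2 (fun p : Fin 3 → ℝ => p 2 ^ b) p :=
  (contDiff_apply ℝ ℝ (2 : Fin 3)).contDiffAt.rpow_const_of_ne h2.ne'

lemma contDiffAt_pt (N : ℕ) (p : Fin 3 → ℝ) (h2 : 0 < p 2) : ContDiffAt ℝ 2 (pt N) p := by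
  rw [contDiffAt_pi]
  intro i
  fin_cases i
  · exact (Complex.ofRealCLM.contDiff.comp (contDiff_apply ℝ ℝ (0 : Fin 3))).contDiffAt
  · exact (Complex.ofRealCLM.contDiff.comp (contDiff_apply ℝ ℝ (1 : Fin 3))).contDiffAt
  · exact Complex.ofRealCLM.contDiff.contDiffAt.comp p (contDiffAt_rpow _ p h2)

lemma contDiffAt_qf (a : ℝ) (N : ℕ) (G : Cn 3 → ℂ) (p : Fin 3 → ℝ) (h2 : 0 < p 2)
    (hG : AnalyticAt ℂ G (pt N p)) : ContDiffAt ℝ 2 (qf a N G) p := by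
  have h1 : ContDiffAt ℝ 2 G (pt N p) := hG.contDiffAt.restrict_scalars ℝ
  have h3 : ContDiffAt ℝ 2 (fun q => G (pt N q)) p := h1.comp p (contDiffAt_pt N p h2)
  exact (contDiffAt_rpow a p h2).mul (Complex.reCLM.contDiff.contDiffAt.comp p h3)

end LLqAux

open LLqAux in
theorem tLLq (h1 : S_QD) : S_LLq := by
  intro a N G ε hN hε hG p hp0 hp1 hp2 hp3
  have hN' : (0 : ℝ) < N := by exact_mod_cast hN
  obtain ⟨hd, ht, hq⟩ := h1 a N G ε hN hε hG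
  refine ⟨contDiffAt_qf a N G p hp2 (Pool.Agent.Lib.Osgood.analyticOnNhd isOpen_ball hG _
    (pt_mem N ε hN hε p hp0 hp1 hp2 hp3)), fun u v => ?_⟩
  obtain ⟨-, -, q0⟩ := h1 a N (dG 0 G) ε hN hε (hd 0)
  obtain ⟨-, -, q1⟩ := h1 a N (dG 1 G) ε hN hε (hd 1)
  obtain ⟨-, -, q2⟩ := h1 (a - 1) N (tG a N G) ε hN hε ht
  obtain ⟨d0, e0⟩ := q0 p hp0 hp1 hp2 hp3
  obtain ⟨d1, e1⟩ := q1 p hp0 hp1 hp2 hp3
  obtain ⟨d2, e2⟩ := q2 p hp0 hp1 hp2 hp3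
  have hev : fderiv ℝ (qf a N G) =ᶠ[𝓝 p] fun q =>
      qf a N (dG 0 G) q • (ContinuousLinearMap.proj 0 : (Fin 3 → ℝ) →L[ℝ] ℝ) +
        qf a N (dG 1 G) q • (ContinuousLinearMap.proj 1 : (Fin 3 → ℝ) →L[ℝ] ℝ) +
        qf (a - 1) N (tG a N G) q • (ContinuousLinearMap.proj 2 : (Fin 3 → ℝ) →L[ℝ] ℝ) := by
    have c0 : ∀ᶠ q : Fin 3 → ℝ in 𝓝 p, |q 0| < ε :=
      (continuous_abs.comp (continuous_apply 0)).continuousAt.eventually_lt_const hp0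
    have c1 : ∀ᶠ q : Fin 3 → ℝ in 𝓝 p, |q 1| < ε :=
      (continuous_abs.comp (continuous_apply 1)).continuousAt.eventually_lt_const hp1
    have c2 : ∀ᶠ q : Fin 3 → ℝ in 𝓝 p, 0 < q 2 :=
      (continuous_apply 2).continuousAt.eventually_const_lt hp2
    have c3 : ∀ᶠ q : Fin 3 → ℝ in 𝓝 p, q 2 < ε ^ N :=
      (continuous_apply 2).continuousAt.eventually_lt_const hp3
    filter_upwards [c0, c1, c2, c3] with q k0 k1 k2 k3
    ext w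
    rw [(hq q k0 k1 k2 k3).2]
    simp only [add_apply, smul_apply, ContinuousLinearMap.proj_apply, smul_eq_mul]
    ring
  rw [hev.fderiv_eq]
  have hder : HasFDerivAt (fun q =>
      qf a N (dG 0 G) q • (ContinuousLinearMap.proj 0 : (Fin 3 → ℝ) →L[ℝ] ℝ) +
        qf a N (dG 1 G) q • (ContinuousLinearMap.proj 1 : (Fin 3 → ℝ) →L[ℝ] ℝ) +
        qf (a - 1) N (tG a N G) q • (ContinuousLinearMap.proj 2 : (Fin 3 → ℝ) →L[ℝ] ℝ))
      ((fderiv ℝ (qf a N (dG 0 G)) p).smulRight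
          (ContinuousLinearMap.proj 0 : (Fin 3 → ℝ) →L[ℝ] ℝ) +
        (fderiv ℝ (qf a N (dG 1 G)) p).smulRight
          (ContinuousLinearMap.proj 1 : (Fin 3 → ℝ) →L[ℝ] ℝ) +
        (fderiv ℝ (qf (a - 1) N (tG a N G)) p).smulRight
          (ContinuousLinearMap.proj 2 : (Fin 3 → ℝ) →L[ℝ] ℝ)) p := by
    have k0 := d0.hasFDerivAt.smul_const (ContinuousLinearMap.proj 0 : (Fin 3 → ℝ) →L[ℝ] ℝ)
    have k1 := d1.hasFDerivAt.smul_const (ContinuousLinearMap.proj 1 : (Fin 3 → ℝ) →L[ℝ] ℝ)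
    have k2 := d2.hasFDerivAt.smul_const (ContinuousLinearMap.proj 2 : (Fin 3 → ℝ) →L[ℝ] ℝ)
    exact (k0.add k1).add k2
  rw [hder.fderiv]
  simp only [add_apply, smul_apply, ContinuousLinearMap.proj_apply, smul_eq_mul,
    ContinuousLinearMap.smulRight_apply]
  rw [e0, e1, e2]
  ring

end KP
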