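import Pool.Agent.Lib.KP.SpecW

/-!
# KP (MP_64edc4_ag), W/LocB: local branches of the zeros
-/

set_option autoImplicit false

open Set Filter Topology Metric

namespace KP

namespace LocBAux

private theorem ext_mem {δ : ℝ} {w : Cn 3} {t : ℂ} (hw : ‖w‖ < δ) (ht : ‖t‖ < δ) :
    ext w t ∈ ball (0 : Cn 4) δ := by
  have hδ : 0 < δ := (norm_nonneg _).trans_lt ht
  rw [mem_ball_zero_iff, pi_norm_lt_iff hδ]
  have h := fun i => (norm_le_pi_norm w i).trans_lt hw
  intro i
  fin_cases i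
  · exact h 0
  · exact h 1
  · exact h 2
  · exact ht

private theorem ext_diff (w : Cn 3) (c t : ℂ) : DifferentiableAt ℂ (fun s => ext w (c + s)) t := by
  rw [differentiableAt_pi]
  intro i
  fin_cases i
  · exact differentiableAt_const _
  · exact differentiableAt_const _
  · exact differentiableAt_const _
  · exact (differentiableAt_const c).add differentiableAt_id

private theorem ext_cont : Continuous (fun p : Cn 3 × ℂ => ext p.1 p.2) := by
  refine continuous_pi fun i => ?_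
  fin_cases i
  · exact (continuous_apply (0 : Fin 3)).comp continuous_fst
  · exact (continuous_apply (1 : Fin 3)).comp continuous_fst
  · exact (continuous_apply (2 : Fin 3)).comp continuous_fst
  · exact continuous_snd

private theorem nz {H : Cn 4 → ℂ} {δ : ℝ} (hδ : 0 < δ) (hδ1 : δ ≤ 1) (hR : Reg H δ) {w : Cn 3}
    (hw : ‖w‖ < δ ^ 2 / 2) {t : ℂ} (ht : δ / 2 ≤ ‖t‖) (ht' : ‖t‖ < δ) : H (ext w t) ≠ 0 := by
  have hwδ : ‖w‖ < δ := by nlinarith
  refine hR.2 _ (ext_mem hwδ ht') ?_ ?_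
  · change t ≠ 0
    rintro rfl
    rw [norm_zero] at ht
    linarith
  · change ‖w 2‖ ≤ δ * ‖t‖
    have h1 := (norm_le_pi_norm w 2).trans hw.le
    nlinarith

/-- one disc: the power sums and the constancy of the number of zeros -/
private theorem disc (h1 : S_Fac) (h2 : S_PSh) {H : Cn 4 → ℂ} {δ : ℝ}
    (hR : Reg H δ) {w0 : Cn 3} {ε : ℝ} (hε : 0 < ε)
    (hball : ball w0 ε ⊆ ball 0 δ) (c : ℂ) {κ κ' : ℝ} (hκ : 0 < κ) (hκκ' : κ < κ')
    (hc : ‖c‖ + κ' < δ) (hc0 : H (ext w0 c) = 0)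
    (hann : ∀ w ∈ ball w0 ε, ∀ t : ℂ, κ ≤ ‖t‖ → ‖t‖ ≤ κ' → H (ext w (c + t)) ≠ 0) :
    ∃ (Z : Cn 3 → Multiset ℂ) (μ : ℕ) (P : Cn 3 → ℂ), 1 ≤ μ ∧ DifferentiableOn ℂ P (ball w0 ε) ∧
      ∀ w ∈ ball w0 ε, (Z w).card = μ ∧ P w = (Z w).sum ∧ (∀ a ∈ Z w, ‖a‖ < κ) ∧
        ∀ t : ℂ, ‖t‖ < κ' → (H (ext w (c + t)) = 0 ↔ t ∈ Z w) := by
  have hcδ : ∀ t : ℂ, ‖t‖ ≤ κ' → ‖c + t‖ < δ := fun t ht => (norm_add_le _ _).trans_lt (by linarith)
  have hwδ : ∀ w ∈ ball w0 ε, ‖w‖ < δ := fun w hw => mem_ball_zero_iff.1 (hball hw)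
  have hex : ∀ w : Cn 3, w ∈ ball w0 ε → ∃ Z : Multiset ℂ,
      (∀ a ∈ Z, ‖a‖ < κ) ∧ (∀ t : ℂ, ‖t‖ < κ' → (H (ext w (c + t)) = 0 ↔ t ∈ Z)) ∧
      ∀ k : ℕ, (2 * Real.pi * Complex.I : ℂ)⁻¹ * (∮ t in C(0, κ),
        t ^ k * (deriv (fun s => H (ext w (c + s))) t / H (ext w (c + t)))) =
        (Z.map (fun a => a ^ k)).sum := by
    intro w hw
    refine h1 (fun t => H (ext w (c + t))) κ κ' hκ hκκ' ?_
      (fun t ht ht' => hann w hw t ht ht'.le)
    intro t ht
    have ht' := mem_ball_zero_iff.1 ht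
    have h3 := hR.1.differentiableAt (isOpen_ball.mem_nhds
      (ext_mem (hwδ w hw) (hcδ t ht'.le)))
    exact (DifferentiableAt.comp t h3 (ext_diff w c t)).differentiableWithinAt
  choose! Z hZr hZ hZk using hex
  set P : ℕ → Cn 3 → ℂ := fun k w => (2 * Real.pi * Complex.I : ℂ)⁻¹ * (∮ t in C(0, κ),
        t ^ k * (deriv (fun s => H (ext w (c + s))) t / H (ext w (c + t)))) with hP
  have hPd : ∀ k, DifferentiableOn ℂ (P k) (ball w0 ε) := by
    intro k w hw
    have h4 := h2 H (ball 0 δ) isOpen_ball hR.1 w c κ hκ.le (by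
      intro τ hτ
      exact ⟨ext_mem (hwδ w hw) (hcδ τ (by rw [hτ]; exact hκκ'.le)),
        hann w hw τ (by rw [hτ]) (by rw [hτ]; exact hκκ'.le)⟩) k
    exact h4.differentiableWithinAt
  have hcard : ∀ w ∈ ball w0 ε, P 0 w = ((Z w).card : ℂ) := by
    intro w hw
    change (2 * Real.pi * Complex.I : ℂ)⁻¹ * _ = _
    rw [hZk w hw 0]
    simp
  have hconst : ∀ w ∈ ball w0 ε, ∀ w' ∈ ball w0 ε, (Z w).card ≤ (Z w').card := by
    intro w hw w' hw'
    by_contra hlt
    rw [not_le] at hlt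
    have hcont : ContinuousOn (fun w => (P 0 w).re) (ball w0 ε) :=
      Complex.continuous_re.comp_continuousOn (hPd 0).continuousOn
    have hiv := (convex_ball w0 ε).isPreconnected.intermediate_value hw' hw hcont
    have e1 : (P 0 w').re = ((Z w').card : ℝ) := by rw [hcard w' hw']; simp
    have e2 : (P 0 w).re = ((Z w).card : ℝ) := by rw [hcard w hw]; simp
    have hlt' : ((Z w').card : ℝ) + 1 ≤ ((Z w).card : ℝ) := by exact_mod_cast hlt
    have hmid : ((Z w').card : ℝ) + 1 / 2 ∈ Icc (P 0 w').re (P 0 w).re := by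
      rw [e1, e2]
      constructor <;> linarith
    obtain ⟨x, hx, hxe⟩ := hiv hmid
    have e3 : (P 0 x).re = ((Z x).card : ℝ) := by rw [hcard x hx]; simp
    have hxe' : ((Z x).card : ℝ) = ((Z w').card : ℝ) + 1 / 2 := by rw [← e3]; exact hxe
    have h5 : (2 * (Z x).card : ℝ) = 2 * (Z w').card + 1 := by linarith
    have h6 : 2 * (Z x).card = 2 * (Z w').card + 1 := by exact_mod_cast h5
    omega
  have hw0 : w0 ∈ ball w0 ε := mem_ball_self hε
  refine ⟨Z, (Z w0).card, P 1, ?_, hPd 1, ?_⟩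
  · have h0 : (0 : ℂ) ∈ Z w0 := (hZ w0 hw0 0 (by rw [norm_zero]; linarith)).1 (by
      rw [add_zero]; exact hc0)
    exact Multiset.card_pos_iff_exists_mem.2 ⟨0, h0⟩
  · intro w hw
    refine ⟨le_antisymm (hconst w hw w0 hw0) (hconst w0 hw0 w hw), ?_, hZr w hw, hZ w hw⟩
    change (2 * Real.pi * Complex.I : ℂ)⁻¹ * _ = _
    rw [hZk w hw 1]
    simp

end LocBAux

theorem tLocB (h1 : S_Fac) (h2 : S_PSh) : S_LocB := by
  classical
  intro H δ r W hδ hδ1 hR hWo hWs hWr w0 hw0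
  obtain ⟨hfin0, hcard0⟩ := hWr w0 hw0
  have hw0n : ‖w0‖ < δ ^ 2 / 2 := mem_ball_zero_iff.1 (hWs hw0)
  have hsub : ball (0 : Cn 3) (δ ^ 2 / 2) ⊆ ball 0 δ := ball_subset_ball (by nlinarith)
  -- enumeration of the zeros at `w0`
  have hF : Fintype (Zr H δ w0) := hfin0.fintype
  have hFc : Fintype.card (Zr H δ w0) = r := by
    rw [← hcard0, ← Nat.card_coe_set_eq, Nat.card_eq_fintype_card]
  let e : Fin r ≃ Zr H δ w0 := (Fintype.equivFinOfCardEq hFc).symm
  set τ : Fin r → ℂ := fun i => (e i : ℂ) with hτ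
  have hτinj : Function.Injective τ := Subtype.val_injective.comp e.injective
  have hτz : ∀ i, ‖τ i‖ < δ ∧ H (ext w0 (τ i)) = 0 := fun i => (e i).2
  have hτs : ∀ t : ℂ, ‖t‖ < δ → H (ext w0 t) = 0 → ∃ i, t = τ i := by
    intro t ht h0
    refine ⟨e.symm ⟨t, ht, h0⟩, ?_⟩
    simp only [hτ, Equiv.apply_symm_apply]
  -- the radius
  obtain ⟨κ', hκ'0, hκ'1, hκ'2⟩ : ∃ κ' : ℝ, 0 < κ' ∧ (∀ i, ‖τ i‖ + κ' < δ) ∧
      ∀ i j, i ≠ j → 2 * κ' < ‖τ i - τ j‖ := by
    have hev : ∀ᶠ x : ℝ in 𝓝[>] 0, (∀ i, ‖τ i‖ + x < δ) ∧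
        ∀ i j, i ≠ j → 2 * x < ‖τ i - τ j‖ := by
      refine (Filter.Eventually.and ?_ ?_)
      · rw [Filter.eventually_all]
        intro i
        have h3 : Tendsto (fun x : ℝ => ‖τ i‖ + x) (𝓝 0) (𝓝 (‖τ i‖ + 0)) :=
          (continuous_const.add continuous_id).tendsto 0
        rw [add_zero] at h3
        exact (h3.eventually (gt_mem_nhds (hτz i).1)).filter_mono nhdsWithin_le_nhds
      · rw [Filter.eventually_all]
        intro i
        rw [Filter.eventually_all]
        intro j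
        by_cases hij : i = j
        · exact Eventually.of_forall fun x h => absurd hij h
        · have h3 : Tendsto (fun x : ℝ => 2 * x) (𝓝 0) (𝓝 (2 * 0)) :=
            (continuous_const.mul continuous_id).tendsto 0
          rw [mul_zero] at h3
          have h4 : 0 < ‖τ i - τ j‖ := norm_pos_iff.2 (sub_ne_zero.2 fun h => hij (hτinj h))
          exact ((h3.eventually (gt_mem_nhds h4)).filter_mono nhdsWithin_le_nhds).mono
            fun x hx _ => hx
    obtain ⟨x, hx1, hx2⟩ := (hev.and self_mem_nhdsWithin).exists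
    exact ⟨x, hx2, hx1.1, hx1.2⟩
  -- the neighbourhood of `w0`
  have hann0 : ∀ i, ∀ t : ℂ, κ' / 2 ≤ ‖t‖ → ‖t‖ ≤ κ' → H (ext w0 (τ i + t)) ≠ 0 := by
    intro i t ht ht' h0
    have hn : ‖τ i + t‖ < δ := (norm_add_le _ _).trans_lt (by linarith [hκ'1 i])
    obtain ⟨j, hj⟩ := hτs _ hn h0
    by_cases hij : i = j
    · rw [← hij] at hj
      have h3 : t = 0 := by
        have : τ i + t = τ i + 0 := by rw [hj, add_zero]
        exact add_left_cancel this
      rw [h3, norm_zero] at ht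
      linarith
    · have h3 := hκ'2 i j hij
      have h4 : τ i - τ j = -t := by rw [← hj]; ring
      rw [h4, norm_neg] at h3
      linarith
  have hev : ∀ᶠ w in 𝓝 w0, w ∈ W ∧ ∀ i, ∀ t ∈ closedBall (0 : ℂ) κ' \ ball 0 (κ' / 2),
      H (ext w (τ i + t)) ≠ 0 := by
    refine Filter.Eventually.and (hWo.mem_nhds hw0) ?_
    rw [Filter.eventually_all]
    intro i
    have hK : IsCompact (closedBall (0 : ℂ) κ' \ ball 0 (κ' / 2)) :=
      (isCompact_closedBall (0 : ℂ) κ').diff isOpen_ball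
    refine hK.eventually_forall_of_forall_eventually (P := fun w t => H (ext w (τ i + t)) ≠ 0) ?_
    rintro t ⟨ht1, ht2⟩
    rw [mem_closedBall_zero_iff] at ht1
    rw [mem_ball_zero_iff, not_lt] at ht2
    have hn : ‖τ i + t‖ < δ := (norm_add_le _ _).trans_lt (by linarith [hκ'1 i])
    have h3 : ContinuousAt (fun p : Cn 3 × ℂ => H (ext p.1 (τ i + p.2))) (w0, t) := by
      have h4 : ContinuousAt H (ext w0 (τ i + t)) :=
        (hR.1.differentiableAt (isOpen_ball.mem_nhds (LocBAux.ext_mem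
          (mem_ball_zero_iff.1 (hsub (mem_ball_zero_iff.2 hw0n))) hn))).continuousAt
      have h5 : Continuous (fun p : Cn 3 × ℂ => ext p.1 (τ i + p.2)) :=
        LocBAux.ext_cont.comp (continuous_fst.prodMk (continuous_const.add continuous_snd))
      exact ContinuousAt.comp (f := fun p : Cn 3 × ℂ => ext p.1 (τ i + p.2)) (g := H) h4
        h5.continuousAt
    exact h3.eventually_ne (hann0 i t ht2 ht1)
  obtain ⟨ε, hε, hεs⟩ := Metric.mem_nhds_iff.1 hev
  have hεW : ball w0 ε ⊆ W := fun w hw => (hεs hw).1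
  have hεδ : ball w0 ε ⊆ ball 0 δ := fun w hw => hsub (hWs (hεW hw))
  have hdisc := fun i => LocBAux.disc h1 h2 hR hε hεδ (τ i) (κ := κ' / 2) (κ' := κ')
    (by linarith) (by linarith) (hκ'1 i) (hτz i).2 (fun w hw t ht ht' =>
      (hεs hw).2 i t ⟨mem_closedBall_zero_iff.2 ht', fun h => by
        rw [mem_ball_zero_iff] at h
        linarith⟩)
  choose Z μ P hμ hPd hZ using hdisc
  refine ⟨ε, hε, fun i w => τ i + P i w / μ i, hεW, ?_, ?_⟩
  · intro i
    simp only [div_eq_mul_inv]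
    exact (differentiableOn_const _).add ((hPd i).mul_const _)
  · intro w hw
    -- a zero in every disc
    have hb : ∀ i, ∃ b, b ∈ Z i w := by
      intro i
      obtain ⟨hc, -, -, -⟩ := hZ i w hw
      exact Multiset.card_pos_iff_exists_mem.1 (by rw [hc]; exact hμ i)
    choose b hb using hb
    have hbn : ∀ i, ∀ a ∈ Z i w, ‖a‖ < κ' / 2 := fun i => (hZ i w hw).2.2.1
    have hmem : ∀ i, ∀ a ∈ Z i w, τ i + a ∈ Zr H δ w := by
      intro i a ha
      have h3 := hbn i a ha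
      refine ⟨(norm_add_le _ _).trans_lt (by linarith [hκ'1 i]), ?_⟩
      exact ((hZ i w hw).2.2.2 a (by linarith)).2 ha
    have hdist : ∀ i j, ∀ a ∈ Z i w, ∀ a' ∈ Z j w, τ i + a = τ j + a' → i = j := by
      intro i j a ha a' ha' heq
      by_contra hij
      have h3 := hκ'2 i j hij
      have h4 : τ i - τ j = a' - a := by linear_combination heq
      rw [h4] at h3
      have h5 := (norm_sub_le a' a)
      have h6 := hbn i a ha
      have h7 := hbn j a' ha'
      linarith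
    have hinj : Function.Injective (fun i => τ i + b i) := fun i j h =>
      hdist i j _ (hb i) _ (hb j) h
    obtain ⟨hfin, hcard⟩ := hWr w (hεW hw)
    have hrange : range (fun i => τ i + b i) = Zr H δ w := by
      refine Set.eq_of_subset_of_ncard_le ?_ ?_ hfin
      · rintro _ ⟨i, rfl⟩
        exact hmem i _ (hb i)
      · rw [hcard, ← Set.image_univ, Set.ncard_image_of_injective _ hinj, Set.ncard_univ,
          Nat.card_eq_fintype_card, Fintype.card_fin]
    have hall : ∀ i, ∀ a ∈ Z i w, a = b i := by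
      intro i a ha
      have h3 := hmem i a ha
      rw [← hrange] at h3
      obtain ⟨j, hj⟩ := h3
      have hij := hdist j i _ (hb j) _ ha hj
      subst hij
      exact (add_left_cancel hj).symm
    have hval : ∀ i, τ i + P i w / μ i = τ i + b i := by
      intro i
      obtain ⟨hc, hP, -, -⟩ := hZ i w hw
      have h3 : Z i w = Multiset.replicate (μ i) (b i) :=
        Multiset.eq_replicate.2 ⟨hc, hall i⟩
      have h4 : (μ i : ℂ) ≠ 0 := by
        have := hμ i
        exact_mod_cast (by omega : μ i ≠ 0)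
      rw [hP, h3, Multiset.sum_replicate, nsmul_eq_mul, mul_div_cancel_left₀ _ h4]
    have hfun : (fun i => τ i + P i w / μ i) = fun i => τ i + b i := funext hval
    change Function.Injective (fun i => τ i + P i w / μ i) ∧
      Zr H δ w = range (fun i => τ i + P i w / μ i)
    rw [hfun]
    exact ⟨hinj, hrange.symm⟩

end KP
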