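import Pool.Agent.Lib.KP.SpecW

set_option autoImplicit false

open Set Filter Topology Metric

namespace KP

namespace LvGAux

/-- the linear map `z ↦ (Re z_0, Re z_1, Im z_0)` -/
noncomputable def Λl : Cn 2 →ₗ[ℝ] (Fin 3 → ℝ) where
  toFun z := ![(z 0).re, (z 1).re, (z 0).im]
  map_add' s t := by
    ext i
    fin_cases i <;> simp
  map_smul' a t := by
    ext i
    fin_cases i <;> simp

/-- the continuous linear map `z ↦ (Re z_0, Re z_1, Im z_0)` -/
noncomputable def Λ : Cn 2 →L[ℝ] (Fin 3 → ℝ) := LinearMap.toContinuousLinearMap Λl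

theorem Λ_apply (z : Cn 2) : Λ z = ![(z 0).re, (z 1).re, (z 0).im] := rfl

/-- `Im z_1` -/
noncomputable def Ml : Cn 2 →ₗ[ℝ] ℝ where
  toFun z := (z 1).im
  map_add' s t := by simp
  map_smul' a t := by simp

/-- `Im z_1` -/
noncomputable def M : Cn 2 →L[ℝ] ℝ := LinearMap.toContinuousLinearMap Ml

theorem M_apply (z : Cn 2) : M z = (z 1).im := rfl

theorem expand (D : (Fin 3 → ℝ) →L[ℝ] ℝ) (a b c : ℝ) :
    D ![a, b, c] = a * D (Pi.single 0 1) + b * D (Pi.single 1 1) + c * D (Pi.single 2 1) := by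
  have hw : (![a, b, c] : Fin 3 → ℝ) = a • (Pi.single 0 1 : Fin 3 → ℝ) +
      b • (Pi.single 1 1 : Fin 3 → ℝ) + c • (Pi.single 2 1 : Fin 3 → ℝ) := by
    ext i
    fin_cases i <;> simp
  rw [hw, map_add, map_add, map_smul, map_smul, map_smul, smul_eq_mul, smul_eq_mul, smul_eq_mul]

end LvGAux

open LvGAux in
/-- **LvG** -/
theorem tLvG : S_LvG := by
  intro g z p hg ρ v
  have hp : p = Λ z := rfl
  have hρ : ρ = fun z' => g (Λ z') - M z' := rfl
  have hgΛ : ContDiffAt ℝ 2 g (Λ z) := hg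
  have hev : ∀ᶠ z' in 𝓝 z, ContDiffAt ℝ 2 g (Λ z') :=
    Λ.continuous.continuousAt.eventually (hgΛ.eventually (by simp))
  have hder : ∀ᶠ z' in 𝓝 z, fderiv ℝ ρ z' = (fderiv ℝ g (Λ z')).comp Λ - M := by
    filter_upwards [hev] with z' hz'
    have h1 : HasFDerivAt g (fderiv ℝ g (Λ z')) (Λ z') :=
      (hz'.differentiableAt (by simp)).hasFDerivAt
    have h2 : HasFDerivAt (fun z' => g (Λ z') - M z') ((fderiv ℝ g (Λ z')).comp Λ - M) z' :=
      (h1.comp z' Λ.hasFDerivAt).sub M.hasFDerivAt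
    rw [hρ]
    exact h2.fderiv
  have hder0 : fderiv ℝ ρ z = (fderiv ℝ g p).comp Λ - M := hder.self_of_nhds
  have hsec : fderiv ℝ (fderiv ℝ ρ) z =
      ((ContinuousLinearMap.compL ℝ (Cn 2) (Fin 3 → ℝ) ℝ).flip Λ).comp
        ((fderiv ℝ (fderiv ℝ g) p).comp Λ) := by
    have h0 : fderiv ℝ ρ =ᶠ[𝓝 z] fun z' => (fderiv ℝ g (Λ z')).comp Λ - M := hder
    rw [h0.fderiv_eq]
    have h1 : HasFDerivAt (fderiv ℝ g) (fderiv ℝ (fderiv ℝ g) (Λ z)) (Λ z) := by
      have h2 : ContDiffAt ℝ 1 (fderiv ℝ g) (Λ z) := hgΛ.fderiv_right (by norm_num)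
      exact (h2.differentiableAt (by simp)).hasFDerivAt
    have h2 : HasFDerivAt (fun z' => fderiv ℝ g (Λ z'))
        ((fderiv ℝ (fderiv ℝ g) (Λ z)).comp Λ) z := h1.comp z Λ.hasFDerivAt
    have h3 : HasFDerivAt (fun z' => (fderiv ℝ g (Λ z')).comp Λ)
        (((ContinuousLinearMap.compL ℝ (Cn 2) (Fin 3 → ℝ) ℝ).flip Λ).comp
          ((fderiv ℝ (fderiv ℝ g) (Λ z)).comp Λ)) z :=
      (((ContinuousLinearMap.compL ℝ (Cn 2) (Fin 3 → ℝ) ℝ).flip Λ).hasFDerivAt.comp z h2)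
    exact (h3.sub_const M).fderiv
  have hD2 : ∀ w : Cn 2, D2 ρ z w = fderiv ℝ (fderiv ℝ g) p (Λ w) (Λ w) := by
    intro w
    show fderiv ℝ (fderiv ℝ ρ) z w w = _
    rw [hsec]
    rfl
  have hΛv : Λ v = ![1, k1 g p, 0] := by
    rw [Λ_apply]
    ext i
    fin_cases i <;> simp [v]
  have hΛIv : Λ (Complex.I • v) = ![0, -k2 g p, 1] := by
    rw [Λ_apply]
    ext i
    fin_cases i <;> simp [v]
  have hMv : M v = k2 g p := by
    rw [M_apply]
    simp [v]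
  have hMIv : M (Complex.I • v) = k1 g p := by
    rw [M_apply]
    simp [v]
  have hpos : (1 + fderiv ℝ g p (Pi.single 1 1) ^ 2) ≠ 0 := by positivity
  refine ⟨?_, ?_, ?_, ?_, ?_⟩
  · rw [hρ]
    exact (hgΛ.comp z Λ.contDiff.contDiffAt).sub M.contDiff.contDiffAt
  · intro h
    have h1 := congrArg (fun T : Cn 2 →L[ℝ] ℝ => T ![0, Complex.I]) (hder0.symm.trans h)
    have h2 : Λ (![0, Complex.I] : Cn 2) = 0 := by
      rw [Λ_apply]
      ext i
      fin_cases i <;> simp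
    have h3 : M (![0, Complex.I] : Cn 2) = 1 := by
      rw [M_apply]
      simp
    simp [h2, h3] at h1
  · rw [hder0]
    show fderiv ℝ g p (Λ v) - M v = 0
    rw [hΛv, hMv, expand]
    unfold k1 k2
    field_simp
    ring
  · rw [hder0]
    show fderiv ℝ g p (Λ (Complex.I • v)) - M (Complex.I • v) = 0
    rw [hΛIv, hMIv, expand]
    unfold k1 k2
    field_simp
    ring
  · show D2 ρ z v + D2 ρ z (Complex.I • v) = LL g p
    rw [hD2, hD2, hΛv, hΛIv]
    rfl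

end KP
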