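import Pool.Agent.Lib.KP.SpecW

/-!
# KP W/MoE: from a periodic function to a holomorphic function of the root
-/

set_option autoImplicit false

open Set Filter Topology Metric

namespace KP

namespace MoEAux

theorem isOpen_Lg (c : Cn 2) (ε1 : ℝ) : IsOpen (Lg c ε1) := by
  have h0 : IsOpen {w : Cn 3 | ‖w 0 - c 0‖ < ε1} := isOpen_lt (by fun_prop) continuous_const
  have h1 : IsOpen {w : Cn 3 | ‖w 1 - c 1‖ < ε1} := isOpen_lt (by fun_prop) continuous_const
  have h2 : IsOpen {w : Cn 3 | (w 2).re < Real.log ε1} :=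
    isOpen_lt (Complex.continuous_re.comp (continuous_apply 2)) continuous_const
  exact h0.inter (h1.inter h2)

/-- Periodicity with natural multiples. -/
theorem per_nat {c : Cn 2} {ε1 : ℝ} {N : ℕ} {ρ : Cn 3 → ℂ}
    (hper : ∀ w ∈ Lg c ε1, ρ ![w 0, w 1, w 2 + 2 * Real.pi * Complex.I * N] = ρ w)
    (a b : ℂ) (k : ℕ) : ∀ ζ : ℂ, (![a, b, ζ] : Cn 3) ∈ Lg c ε1 →
    ρ ![a, b, ζ + 2 * Real.pi * Complex.I * N * k] = ρ ![a, b, ζ] := by
  induction k with
  | zero => intro ζ _; simp
  | succ k ih =>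
    intro ζ hζ
    have h1 : (![a, b, ζ + 2 * Real.pi * Complex.I * N * k] : Cn 3) ∈ Lg c ε1 := by
      obtain ⟨h1, h2, h3⟩ := hζ
      refine ⟨h1, h2, ?_⟩
      have h4 : ((2 : ℂ) * Real.pi * Complex.I * N * k).re = 0 := by
        have : (2 : ℂ) * Real.pi * Complex.I * N * k
            = ((2 * Real.pi * N * k : ℝ) : ℂ) * Complex.I := by push_cast; ring
        rw [this, Complex.re_ofReal_mul, Complex.I_re, mul_zero]
      simp only [Matrix.cons_val, Complex.add_re, h4, add_zero] at h3 ⊢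
      exact h3
    have h2 := hper _ h1
    simp only [Matrix.cons_val] at h2
    rw [ih ζ hζ] at h2
    rw [← h2]
    congr 1
    push_cast
    ext i
    fin_cases i
    · rfl
    · rfl
    · simp only [Fin.reduceFinMk, Matrix.cons_val]
      ring

theorem per_int {c : Cn 2} {ε1 : ℝ} {N : ℕ} {ρ : Cn 3 → ℂ}
    (hper : ∀ w ∈ Lg c ε1, ρ ![w 0, w 1, w 2 + 2 * Real.pi * Complex.I * N] = ρ w)
    (a b : ℂ) (k : ℤ) (ζ : ℂ) (hζ : (![a, b, ζ] : Cn 3) ∈ Lg c ε1) :
    ρ ![a, b, ζ + 2 * Real.pi * Complex.I * N * k] = ρ ![a, b, ζ] := by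
  obtain ⟨n, rfl | rfl⟩ := k.eq_nat_or_neg
  · have := per_nat hper a b n ζ hζ
    simpa using this
  · have h1 : (![a, b, ζ + 2 * Real.pi * Complex.I * N * ((-(n : ℤ) : ℤ) : ℂ)] : Cn 3)
        ∈ Lg c ε1 := by
      obtain ⟨h1, h2, h3⟩ := hζ
      refine ⟨h1, h2, ?_⟩
      have h4 : ((2 : ℂ) * Real.pi * Complex.I * N * ((-(n : ℤ) : ℤ) : ℂ)).re = 0 := by
        have : (2 : ℂ) * Real.pi * Complex.I * N * ((-(n : ℤ) : ℤ) : ℂ)
            = ((-(2 * Real.pi * N * n) : ℝ) : ℂ) * Complex.I := by push_cast; ring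
        rw [this, Complex.re_ofReal_mul, Complex.I_re, mul_zero]
      simp only [Matrix.cons_val, Complex.add_re, h4, add_zero] at h3 ⊢
      exact h3
    have h2 := per_nat hper a b n _ h1
    rw [← h2]
    congr 1
    ext i
    fin_cases i
    · rfl
    · rfl
    · simp only [Fin.reduceFinMk, Matrix.cons_val]
      push_cast
      ring

end MoEAux

open MoEAux in
theorem tMoE (h1 : S_Rem) : S_MoE := by
  intro c ε1 C N ρ hε hε1 hN hρ hper hbd
  -- coordinates in the ball
  have hball : ∀ z ∈ ball (![c 0, c 1, 0] : Cn 3) ε1,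
      ‖z 0 - c 0‖ < ε1 ∧ ‖z 1 - c 1‖ < ε1 ∧ ‖z 2‖ < ε1 := by
    intro z hz
    rw [mem_ball, dist_eq_norm, pi_norm_lt_iff hε] at hz
    refine ⟨?_, ?_, ?_⟩
    · simpa using hz 0
    · simpa using hz 1
    · simpa using hz 2
  -- a point with third coordinate `N * l`, `exp l = z 2`, is in `Lg`
  have hLg : ∀ z ∈ ball (![c 0, c 1, 0] : Cn 3) ε1, z 2 ≠ 0 → ∀ l : ℂ, Complex.exp l = z 2 →
      (![z 0, z 1, N * l] : Cn 3) ∈ Lg c ε1 := by
    intro z hz hz2 l hl
    obtain ⟨a1, a2, a3⟩ := hball z hz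
    refine ⟨a1, a2, ?_⟩
    simp only [Matrix.cons_val]
    have h2 : ‖z 2‖ = Real.exp l.re := by rw [← hl, Complex.norm_exp]
    have h3 : l.re < Real.log ε1 := by
      rw [← Real.log_exp l.re, ← h2]
      exact Real.log_lt_log (norm_pos_iff.mpr hz2) a3
    have h4 : Real.log ε1 ≤ 0 := Real.log_nonpos hε.le hε1
    have h5 : ((N : ℂ) * l).re = N * l.re := by
      have : ((N : ℝ) : ℂ) * l = (N : ℂ) * l := by push_cast; rfl
      rw [← this, Complex.re_ofReal_mul]
    rw [h5]
    have h6 : (1 : ℝ) ≤ N := by exact_mod_cast hN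
    nlinarith
  -- differentiability of `ρ ![z 0, z 1, N * l z]`
  have hdiff : ∀ z ∈ ball (![c 0, c 1, 0] : Cn 3) ε1, z 2 ≠ 0 → ∀ l : Cn 3 → ℂ,
      Complex.exp (l z) = z 2 → DifferentiableAt ℂ l z →
      DifferentiableAt ℂ (fun y : Cn 3 => ρ ![y 0, y 1, N * l y]) z := by
    intro z hz hz2 l hl hld
    have h2 := hLg z hz hz2 (l z) hl
    have h3 : DifferentiableAt ℂ ρ ![z 0, z 1, N * l z] :=
      (hρ _ h2).differentiableAt ((isOpen_Lg c ε1).mem_nhds h2)
    have h4 : DifferentiableAt ℂ (fun y : Cn 3 => (![y 0, y 1, N * l y] : Cn 3)) z := by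
      rw [differentiableAt_pi]
      intro i
      fin_cases i
      · simp only [Fin.zero_eta, Matrix.cons_val_zero]
        fun_prop
      · simp only [Fin.mk_one, Matrix.cons_val_one, Matrix.cons_val_zero]
        fun_prop
      · simp only [Fin.reduceFinMk, Matrix.cons_val]
        exact hld.const_mul _
    exact DifferentiableAt.comp z h3 h4
  -- `T` is holomorphic
  have hT : ∀ z ∈ ball (![c 0, c 1, 0] : Cn 3) ε1, z 2 ≠ 0 →
      DifferentiableAt ℂ (fun y : Cn 3 => ρ ![y 0, y 1, N * Complex.log (y 2)]) z := by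
    intro z hz hz2
    by_cases hs : z 2 ∈ Complex.slitPlane
    · refine hdiff z hz hz2 (fun y => Complex.log (y 2)) (Complex.exp_log hz2) ?_
      have h2 : DifferentiableAt ℂ (fun y : Cn 3 => y 2) z := by fun_prop
      exact DifferentiableAt.clog h2 hs
    · have hs' : -z 2 ∈ Complex.slitPlane := by
        rw [Complex.mem_slitPlane_iff] at hs ⊢
        push Not at hs
        left
        have h3 : (z 2).re ≠ 0 := by
          intro h
          exact hz2 (Complex.ext h hs.2)
        rw [Complex.neg_re]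
        have := lt_of_le_of_ne hs.1 h3
        linarith
      have hexp : ∀ y : Cn 3, y 2 ≠ 0 →
          Complex.exp (Complex.log (-y 2) + Real.pi * Complex.I) = y 2 := by
        intro y hy
        rw [Complex.exp_add, Complex.exp_log (neg_ne_zero.mpr hy), Complex.exp_pi_mul_I]
        ring
      have h2 := hdiff z hz hz2 (fun y => Complex.log (-y 2) + Real.pi * Complex.I) (hexp z hz2) (by
        have h2 : DifferentiableAt ℂ (fun y : Cn 3 => -y 2) z := by fun_prop
        exact (DifferentiableAt.clog h2 hs').add_const _)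
      refine h2.congr_of_eventuallyEq ?_
      have hn : {y : Cn 3 | y 2 ≠ 0} ∈ 𝓝 z :=
        (isOpen_ne_fun (by fun_prop) continuous_const).mem_nhds hz2
      filter_upwards [hn, isOpen_ball.mem_nhds hz] with y hy hyb
      have h3 : Complex.exp (Complex.log (y 2))
          = Complex.exp (Complex.log (-y 2) + Real.pi * Complex.I) := by
        rw [Complex.exp_log hy, hexp y hy]
      obtain ⟨n, hn⟩ := Complex.exp_eq_exp_iff_exists_int.mp h3
      have h4 := hLg y hyb hy _ (hexp y hy)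
      have h5 := per_int hper (y 0) (y 1) n _ h4
      rw [← h5, hn]
      congr 1
      ext i
      fin_cases i
      · rfl
      · rfl
      · simp only [Fin.reduceFinMk, Matrix.cons_val]
        ring
  obtain ⟨G, hG, hGe⟩ := h1 3 2 ![c 0, c 1, 0] ε1
    (fun z => ρ ![z 0, z 1, N * Complex.log (z 2)] / z 2 ^ N) (by simp) hε
    (by
      rintro z ⟨hz, hz2⟩
      refine DifferentiableAt.differentiableWithinAt ?_
      have h3 : DifferentiableAt ℂ (fun y : Cn 3 => y 2 ^ N) z := by fun_prop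
      have h4 : (fun y : Cn 3 => y 2 ^ N) z ≠ 0 := pow_ne_zero _ hz2
      simp only [div_eq_mul_inv]
      exact (hT z hz hz2).fun_mul (h3.fun_inv h4))
    ⟨C, by
      intro z hz hz2
      have h2 := hbd _ (hLg z hz hz2 _ (Complex.exp_log hz2))
      simp only [Matrix.cons_val] at h2
      rw [Complex.exp_nat_mul, Complex.exp_log hz2] at h2
      rw [norm_div, div_le_iff₀ (norm_pos_iff.mpr (pow_ne_zero _ hz2))]
      exact h2⟩
  refine ⟨G, hG, fun z hz hz2 => ?_⟩
  rw [hGe z hz hz2, mul_div_cancel₀ _ (pow_ne_zero _ hz2)]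

end KP
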