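import Pool.Agent.Lib.KP.SpecW

set_option autoImplicit false

open Set Filter Topology Metric

namespace KP

namespace MoPAux

/-- The shift. -/
private noncomputable def T (w : Cn 3) : Cn 3 := ![w 0, w 1, w 2 + 2 * Real.pi * Complex.I]

/-- The iterated shift. -/
private noncomputable def S (n : ℕ) (w : Cn 3) : Cn 3 :=
  ![w 0, w 1, w 2 + 2 * Real.pi * Complex.I * n]

private lemma S_zero (w : Cn 3) : S 0 w = w := by
  ext i
  fin_cases i <;> simp [S]

private lemma S_succ (n : ℕ) (w : Cn 3) : S (n + 1) w = T (S n w) := by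
  ext i
  fin_cases i
  · simp [S, T]
  · simp [S, T]
  · simp [S, T]
    ring

private lemma convex_Lg (c : Cn 2) (ε1 : ℝ) : Convex ℝ (Lg c ε1) := by
  rintro x ⟨hx0, hx1, hx2⟩ y ⟨hy0, hy1, hy2⟩ a b ha hb hab
  refine ⟨?_, ?_, ?_⟩
  · have h := (convex_ball (c 0) ε1) (x := x 0) (by rw [mem_ball, dist_eq_norm]; exact hx0)
      (y := y 0) (by rw [mem_ball, dist_eq_norm]; exact hy0) ha hb hab
    rw [mem_ball, dist_eq_norm] at h
    exact h
  · have h := (convex_ball (c 1) ε1) (x := x 1) (by rw [mem_ball, dist_eq_norm]; exact hx1)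
      (y := y 1) (by rw [mem_ball, dist_eq_norm]; exact hy1) ha hb hab
    rw [mem_ball, dist_eq_norm] at h
    exact h
  · have h : ((a • x + b • y) 2).re = a * (x 2).re + b * (y 2).re := by
      simp
    rw [h]
    have h3 := (convex_Iio (𝕜 := ℝ) (Real.log ε1)) (x := (x 2).re) hx2 (y := (y 2).re) hy2 ha hb hab
    simpa using h3

private lemma T_mem {c : Cn 2} {ε1 : ℝ} {w : Cn 3} (hw : w ∈ Lg c ε1) : T w ∈ Lg c ε1 := by
  obtain ⟨h0, h1, h2⟩ := hw
  refine ⟨by simpa [T] using h0, by simpa [T] using h1, ?_⟩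
  simpa [T] using h2

private lemma S_mem {c : Cn 2} {ε1 : ℝ} {w : Cn 3} (hw : w ∈ Lg c ε1) (n : ℕ) :
    S n w ∈ Lg c ε1 := by
  induction n with
  | zero => rw [S_zero]; exact hw
  | succ n ih => rw [S_succ]; exact T_mem ih

private lemma continuous_T : Continuous T := by
  unfold T
  refine continuous_pi fun i => ?_
  fin_cases i
  · simpa using continuous_apply 0
  · simpa using continuous_apply 1
  · exact (continuous_apply 2).add continuous_const

end MoPAux

open MoPAux

theorem tMoP : S_MoP := by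
  intro r c ε1 Z ρ hε hρ hZ
  rcases (Lg c ε1).eq_empty_or_nonempty with hemp | ⟨w0, hw0⟩
  · refine ⟨1, le_refl 1, fun i w hw => ?_⟩
    rw [hemp] at hw
    exact absurd hw (notMem_empty w)
  have hTr : ∀ w ∈ Lg c ε1, range (fun i => ρ i (T w)) = range (fun i => ρ i w) := by
    intro w hw
    rw [← (hZ w hw).2, ← (hZ _ (T_mem hw)).2]
    have : Complex.exp (T w 2) = Complex.exp (w 2) := by
      simp only [T, Matrix.cons_val]
      rw [Complex.exp_add, Complex.exp_two_pi_mul_I, mul_one]
    rw [this]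
    simp [T]
  have hex : ∀ w ∈ Lg c ε1, ∀ i, ∃ j, ρ i (T w) = ρ j w := by
    intro w hw i
    have : ρ i (T w) ∈ range (fun i => ρ i w) := by
      rw [← hTr w hw]
      exact ⟨i, rfl⟩
    obtain ⟨j, hj⟩ := this
    exact ⟨j, hj.symm⟩
  classical
  let f : Fin r → Cn 3 → Fin r := fun i w =>
    if h : ∃ j, ρ i (T w) = ρ j w then h.choose else i
  have hf : ∀ i, ∀ w ∈ Lg c ε1, ρ i (T w) = ρ (f i w) w := by
    intro i w hw
    have h := hex w hw i
    simp only [f, dif_pos h]
    exact h.choose_spec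
  have hcont : ∀ i, ContinuousOn (f i) (Lg c ε1) := by
    intro i w hw
    have hev : ∀ᶠ w' in 𝓝[Lg c ε1] w, ∀ k, k ≠ f i w → ρ i (T w') - ρ k w' ≠ 0 := by
      rw [Filter.eventually_all]
      intro k
      by_cases hk : k = f i w
      · exact Filter.Eventually.of_forall fun w' h => absurd hk h
      · have h1 : ContinuousWithinAt (fun w' => ρ i (T w') - ρ k w') (Lg c ε1) w := by
          have ha : ContinuousWithinAt (fun w' => ρ i (T w')) (Lg c ε1) w :=
            ContinuousWithinAt.comp (t := Lg c ε1) ((hρ i).continuousOn _ (T_mem hw))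
              continuous_T.continuousWithinAt (fun x hx => T_mem hx)
          exact ha.sub ((hρ k).continuousOn w hw)
        have h2 : ρ i (T w) - ρ k w ≠ 0 := by
          rw [hf i w hw, sub_ne_zero]
          intro h
          exact hk ((hZ w hw).1 h).symm
        filter_upwards [h1.eventually_ne h2] with w' hw' _
        exact hw'
    have hev2 : ∀ᶠ w' in 𝓝[Lg c ε1] w, f i w' = f i w := by
      filter_upwards [hev, self_mem_nhdsWithin] with w' h1 h2
      by_contra h3
      refine h1 _ h3 ?_
      rw [hf i w' h2, sub_self]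
    exact (continuousWithinAt_const (b := f i w)).congr_of_eventuallyEq hev2 rfl
  have hpre : IsPreconnected (Lg c ε1) := (convex_Lg c ε1).isPreconnected
  have hconst : ∀ i, ∀ w ∈ Lg c ε1, f i w = f i w0 := by
    intro i w hw
    exact hpre.constant (hcont i) hw hw0
  have hinj : Function.Injective (fun i => f i w0) := by
    intro i i' h
    apply (hZ _ (T_mem hw0)).1
    change ρ i (T w0) = ρ i' (T w0)
    rw [hf i w0 hw0, hf i' w0 hw0]
    change f i w0 = f i' w0 at h
    rw [h]
  let e : Equiv.Perm (Fin r) := Equiv.ofBijective _ (Finite.injective_iff_bijective.1 hinj)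
  have he : ∀ i, ∀ w ∈ Lg c ε1, ρ i (T w) = ρ (e i) w := by
    intro i w hw
    rw [hf i w hw, hconst i w hw]
    rfl
  have hpow : ∀ n : ℕ, ∀ i, ∀ w ∈ Lg c ε1, ρ i (S n w) = ρ ((e ^ n) i) w := by
    intro n
    induction n with
    | zero => intro i w _; rw [S_zero]; simp
    | succ n ih =>
      intro i w hw
      rw [S_succ, he i _ (S_mem hw n), ih _ w hw, pow_succ]
      rfl
  refine ⟨orderOf e, orderOf_pos e, fun i w hw => ?_⟩
  have := hpow (orderOf e) i w hw
  rw [pow_orderOf_eq_one] at this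
  exact this

end KP
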