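import Pool.Agent.Lib.KP.SpecW

/-!
# KP (MP_64edc4_ag), module W/Ord: the order in the direction of the edge
-/

set_option autoImplicit false

open Set Filter Topology Metric

namespace KP

private theorem mem_ballC {n : ℕ} {δ : ℝ} (hδ : 0 < δ) (z : Cn n) :
    z ∈ ball (0 : Cn n) δ ↔ ∀ i, ‖z i‖ < δ := by
  rw [mem_ball_zero_iff, pi_norm_lt_iff hδ]

private theorem mem_ball4 {δ : ℝ} (hδ : 0 < δ) (a b c d : ℂ) :
    (![a, b, c, d] : Cn 4) ∈ ball (0 : Cn 4) δ ↔ ‖a‖ < δ ∧ ‖b‖ < δ ∧ ‖c‖ < δ ∧ ‖d‖ < δ := by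
  rw [mem_ballC hδ]
  constructor
  · intro h
    exact ⟨h 0, h 1, h 2, h 3⟩
  · rintro ⟨h0, h1, h2, h3⟩ i
    fin_cases i
    · exact h0
    · exact h1
    · exact h2
    · exact h3

/-- The polydisc. -/
private def PK (δ K : ℝ) : Set (Cn 4) := {z | ‖z 0‖ < δ ∧ ‖z 1‖ < δ ∧ ‖z 2‖ < K ∧ ‖z 3‖ < δ / K}

private theorem isOpen_PK (δ K : ℝ) : IsOpen (PK δ K) := by
  unfold PK
  have h : ∀ i : Fin 4, Continuous fun z : Cn 4 => ‖z i‖ := fun i => by fun_prop
  exact (isOpen_lt (h 0) continuous_const).inter ((isOpen_lt (h 1) continuous_const).inter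
    ((isOpen_lt (h 2) continuous_const).inter (isOpen_lt (h 3) continuous_const)))

private theorem stepA (hDiv : S_DivN) (H : Cn 4 → ℂ) (δ : ℝ) (hδ : 0 < δ)
    (hH : DifferentiableOn ℂ H (ball 0 δ)) (hnz : ∃ z ∈ ball (0 : Cn 4) δ, H z ≠ 0)
    (K : ℝ) (hK : 1 ≤ K) :
    ∃ (m : ℕ) (E : Cn 4 → ℂ), DifferentiableOn ℂ E (PK δ K) ∧
      (∀ z ∈ PK δ K, H ![z 0, z 1, z 3 * z 2, z 3] = z 3 ^ m * E z) ∧
      ∃ z : Cn 4, ‖z 0‖ < δ ∧ ‖z 1‖ < δ ∧ ‖z 2‖ < K ∧ z 3 = 0 ∧ E z ≠ 0 := by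
  have hK0 : 0 < K := by linarith
  have hKc : (K : ℂ) ≠ 0 := by exact_mod_cast hK0.ne'
  have hδc : (δ : ℂ) ≠ 0 := by exact_mod_cast hδ.ne'
  have nK : ‖(K : ℂ)‖ = K := by rw [Complex.norm_real, Real.norm_of_nonneg hK0.le]
  have nδ : ‖(δ : ℂ)‖ = δ := by rw [Complex.norm_real, Real.norm_of_nonneg hδ.le]
  let A : Cn 4 → Cn 4 := fun z => ![z 0, z 1, z 3 * z 2 / δ, z 3 / K]
  have hA : MapsTo A (ball 0 δ) (ball 0 δ) := by
    intro z hz
    rw [mem_ballC hδ] at hz
    refine (mem_ball4 hδ _ _ _ _).mpr ⟨hz 0, hz 1, ?_, ?_⟩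
    · rw [norm_div, norm_mul, nδ, div_lt_iff₀ hδ]
      nlinarith [hz 2, hz 3, norm_nonneg (z 2), norm_nonneg (z 3)]
    · rw [norm_div, nK, div_lt_iff₀ hK0]
      nlinarith [hz 3]
  have hAd : Differentiable ℂ A := by
    rw [differentiable_pi]
    intro i
    fin_cases i <;> simp [A] <;> fun_prop
  have hG : DifferentiableOn ℂ (fun z => H (A z)) (ball 0 δ) :=
    hH.comp hAd.differentiableOn hA
  have hGnz : ∃ z ∈ ball (0 : Cn 4) δ, H (A z) ≠ 0 := by
    by_contra hcon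
    push Not at hcon
    obtain ⟨z0, hz0, hz0'⟩ := hnz
    have han := Pool.Agent.Lib.Osgood.analyticOnNhd isOpen_ball hH
    let p : Cn 4 := ![0, 0, 0, ((δ / (2 * K) : ℝ) : ℂ)]
    have hq : 0 < δ / (2 * K) := by positivity
    have np : ‖((δ / (2 * K) : ℝ) : ℂ)‖ = δ / (2 * K) := by
      rw [Complex.norm_real, Real.norm_of_nonneg hq.le]
    have hlt : δ / (2 * K) < δ / K := by
      rw [div_lt_div_iff₀ (by positivity) hK0]
      nlinarith
    have hle : δ / K ≤ δ := by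
      rw [div_le_iff₀ hK0]
      nlinarith
    have hp : p ∈ ball (0 : Cn 4) δ := by
      refine (mem_ball4 hδ _ _ _ _).mpr ⟨by simpa using hδ, by simpa using hδ, by simpa using hδ, ?_⟩
      rw [np]
      linarith
    have hev : ∀ᶠ z in 𝓝 p, H z = 0 := by
      have hc : ∀ i : Fin 4, Continuous fun z : Cn 4 => ‖z i‖ := fun i => by fun_prop
      have e0 : ∀ᶠ z : Cn 4 in 𝓝 p, ‖z 0‖ < δ := (hc 0).continuousAt.eventually_lt
        continuousAt_const (by simpa [p] using hδ)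
      have e1 : ∀ᶠ z : Cn 4 in 𝓝 p, ‖z 1‖ < δ := (hc 1).continuousAt.eventually_lt
        continuousAt_const (by simpa [p] using hδ)
      have e2 : ∀ᶠ z : Cn 4 in 𝓝 p, ‖z 2‖ < K * ‖z 3‖ := (hc 2).continuousAt.eventually_lt
        (continuous_const.mul (hc 3)).continuousAt (by
          change ‖(0 : ℂ)‖ < K * ‖((δ / (2 * K) : ℝ) : ℂ)‖
          rw [np, norm_zero]
          positivity)
      have e3 : ∀ᶠ z : Cn 4 in 𝓝 p, ‖z 3‖ < δ / K := (hc 3).continuousAt.eventually_lt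
        continuousAt_const (by
          change ‖((δ / (2 * K) : ℝ) : ℂ)‖ < δ / K
          rw [np]
          exact hlt)
      have e4 : ∀ᶠ z : Cn 4 in 𝓝 p, 0 < ‖z 3‖ := continuousAt_const.eventually_lt
        (hc 3).continuousAt (by
          change 0 < ‖((δ / (2 * K) : ℝ) : ℂ)‖
          rw [np]
          exact hq)
      filter_upwards [e0, e1, e2, e3, e4] with z f0 f1 f2 f3 f4
      have hz3 : z 3 ≠ 0 := norm_pos_iff.mp f4
      have hw : (![z 0, z 1, δ * z 2 / (K * z 3), K * z 3] : Cn 4) ∈ ball (0 : Cn 4) δ := by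
        refine (mem_ball4 hδ _ _ _ _).mpr ⟨f0, f1, ?_, ?_⟩
        · rw [norm_div, norm_mul, norm_mul, nδ, nK, div_lt_iff₀ (by positivity)]
          nlinarith
        · rw [norm_mul, nK]
          rw [lt_div_iff₀ hK0] at f3
          linarith
      have h1 := hcon _ hw
      have h2 : A ![z 0, z 1, δ * z 2 / (K * z 3), K * z 3] = z := by
        funext i
        fin_cases i
        · simp [A]
        · simp [A]
        · simp [A]
          field_simp
        · simp [A]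
          field_simp
      rwa [h2] at h1
    exact hz0' (han.eqOn_zero_of_preconnected_of_eventuallyEq_zero
      (convex_ball _ _).isPreconnected hp hev hz0)
  obtain ⟨m, G', hG', hGm, z', hz', hz'3, hz'n⟩ := hDiv 4 3 0 δ _ rfl hG hGnz
  let B : Cn 4 → Cn 4 := fun z => ![z 0, z 1, δ * z 2 / K, K * z 3]
  have hB : MapsTo B (PK δ K) (ball 0 δ) := by
    rintro z ⟨h0, h1, h2, h3⟩
    refine (mem_ball4 hδ _ _ _ _).mpr ⟨h0, h1, ?_, ?_⟩
    · rw [norm_div, norm_mul, nδ, nK, div_lt_iff₀ hK0]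
      nlinarith
    · rw [norm_mul, nK]
      rw [lt_div_iff₀ hK0] at h3
      linarith
  have hBd : Differentiable ℂ B := by
    rw [differentiable_pi]
    intro i
    fin_cases i <;> simp [B] <;> fun_prop
  refine ⟨m, fun z => (K : ℂ) ^ m * G' (B z), ?_, ?_, ?_⟩
  · exact (hG'.comp hBd.differentiableOn hB).const_mul _
  · intro z hz
    have h1 := hGm (B z) (hB hz)
    have h2 : A (B z) = ![z 0, z 1, z 3 * z 2, z 3] := by
      funext i
      fin_cases i
      · simp [A, B]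
      · simp [A, B]
      · simp [A, B]
        field_simp
      · simp [A, B]
        field_simp
    have h3 : B z 3 = K * z 3 := by simp [B]
    rw [h2, h3, mul_pow] at h1
    rw [h1]
    ring
  · rw [mem_ballC hδ] at hz'
    refine ⟨![z' 0, z' 1, K * z' 2 / δ, 0], hz' 0, hz' 1, ?_, rfl, ?_⟩
    · change ‖(K : ℂ) * z' 2 / δ‖ < K
      rw [norm_div, norm_mul, nδ, nK, div_lt_iff₀ hδ]
      nlinarith [hz' 2]
    · have h1 : B ![z' 0, z' 1, K * z' 2 / δ, 0] = z' := by
        funext i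
        fin_cases i
        · simp [B]
        · simp [B]
        · simp [B]
          field_simp
        · simp [B, hz'3]
      dsimp only
      rw [h1]
      exact mul_ne_zero (pow_ne_zero _ hKc) hz'n

private theorem lim_lem {f g : ℂ → ℂ} (hf : ContinuousAt f 0) (hg : ContinuousAt g 0) {m n : ℕ}
    (hmn : m ≤ n) (h : ∀ᶠ t in 𝓝 (0 : ℂ), t ^ m * f t = t ^ n * g t) :
    f 0 = 0 ^ (n - m) * g 0 := by
  have h1 : ∀ᶠ t in 𝓝[≠] (0 : ℂ), t ^ (n - m) * g t = f t := by
    filter_upwards [mem_nhdsWithin_of_mem_nhds h, self_mem_nhdsWithin] with t ht ht0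
    have ht0' : t ≠ 0 := ht0
    have h2 : t ^ n = t ^ m * t ^ (n - m) := by rw [← pow_add, Nat.add_sub_cancel' hmn]
    have h3 : t ^ m * f t = t ^ m * (t ^ (n - m) * g t) := by
      rw [← mul_assoc, ← h2]
      exact ht
    exact (mul_left_cancel₀ (pow_ne_zero m ht0') h3).symm
  have h2 : Tendsto f (𝓝[≠] 0) (𝓝 (f 0)) := hf.tendsto.mono_left nhdsWithin_le_nhds
  have h3 : Tendsto (fun t : ℂ => t ^ (n - m) * g t) (𝓝[≠] 0) (𝓝 (0 ^ (n - m) * g 0)) := by
    refine Tendsto.mono_left ?_ nhdsWithin_le_nhds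
    exact ((continuous_pow (n - m)).tendsto' 0 _ rfl).mul hg.tendsto
  exact tendsto_nhds_unique h2 (h3.congr' h1)

theorem tOrd (hDiv : S_DivN) : S_Ord := by
  intro H δ hδ hδ1 hH hnz
  obtain ⟨m1, E1, hE1, hm1, z1, a0, a1, a2, a3, a4⟩ := stepA hDiv H δ hδ hH hnz 1 le_rfl
  refine ⟨m1, fun X => E1 ![X 0, X 1, z1 2, 0], ?_, ⟨![z1 0, z1 1], ?_, ?_⟩, ?_⟩
  · have hd : Differentiable ℂ fun X : Cn 2 => (![X 0, X 1, z1 2, 0] : Cn 4) := by
      rw [differentiable_pi]
      intro i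
      fin_cases i <;> simp <;> fun_prop
    refine hE1.comp hd.differentiableOn fun X hX => ?_
    rw [mem_ballC hδ] at hX
    exact ⟨hX 0, hX 1, a2, by
      change ‖(0 : ℂ)‖ < δ / 1
      rw [norm_zero]; positivity⟩
  · rw [mem_ballC hδ]
    intro i
    fin_cases i
    · exact a0
    · exact a1
  · have h1 : (![z1 0, z1 1, z1 2, 0] : Cn 4) = z1 := by
      funext i
      fin_cases i
      · rfl
      · rfl
      · rfl
      · exact a3.symm
    change E1 ![z1 0, z1 1, z1 2, 0] ≠ 0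
    rw [h1]
    exact a4
  · intro K hK
    have hK0 : 0 < K := by linarith
    obtain ⟨mK, EK, hEK, hmK, z2, b0, b1, b2, b3, b4⟩ := stepA hDiv H δ hδ hH hnz K hK
    -- comparison
    have hl : ∀ (a b c : ℂ), Continuous fun t : ℂ => (![a, b, c, t] : Cn 4) := by
      intro a b c
      refine continuous_pi fun i => ?_
      fin_cases i <;> simp <;> fun_prop
    have hc1 : ∀ a b c : ℂ, ‖a‖ < δ → ‖b‖ < δ → ‖c‖ < 1 →
        ContinuousAt (fun t : ℂ => E1 ![a, b, c, t]) 0 := by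
      intro a b c ha hb hc
      have h1 : ContinuousAt E1 ![a, b, c, 0] :=
        hE1.continuousOn.continuousAt ((isOpen_PK δ 1).mem_nhds ⟨ha, hb, hc, by
          change ‖(0 : ℂ)‖ < δ / 1
          rw [norm_zero]; positivity⟩)
      exact ContinuousAt.comp (f := fun t : ℂ => (![a, b, c, t] : Cn 4)) h1 (hl a b c).continuousAt
    have hcK : ∀ a b c : ℂ, ‖a‖ < δ → ‖b‖ < δ → ‖c‖ < K →
        ContinuousAt (fun t : ℂ => EK ![a, b, c, t]) 0 := by
      intro a b c ha hb hc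
      have h1 : ContinuousAt EK ![a, b, c, 0] :=
        hEK.continuousOn.continuousAt ((isOpen_PK δ K).mem_nhds ⟨ha, hb, hc, by
          change ‖(0 : ℂ)‖ < δ / K
          rw [norm_zero]; positivity⟩)
      exact ContinuousAt.comp (f := fun t : ℂ => (![a, b, c, t] : Cn 4)) h1 (hl a b c).continuousAt
    have hcmp : ∀ a b c : ℂ, ‖a‖ < δ → ‖b‖ < δ → ‖c‖ < 1 → ∀ᶠ t in 𝓝 (0 : ℂ),
        t ^ m1 * E1 ![a, b, c, t] = t ^ mK * EK ![a, b, c, t] := by
      intro a b c ha hb hc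
      have e1 : ∀ᶠ t in 𝓝 (0 : ℂ), ‖t‖ < δ / K :=
        continuous_norm.continuousAt.eventually_lt continuousAt_const
          (by rw [norm_zero]; positivity)
      filter_upwards [e1] with t ht
      have hle : δ / K ≤ δ / 1 := by
        rw [div_one, div_le_iff₀ hK0]
        nlinarith
      have h1 := hm1 ![a, b, c, t] ⟨ha, hb, hc, lt_of_lt_of_le ht hle⟩
      have h2 := hmK ![a, b, c, t] ⟨ha, hb, lt_of_lt_of_le hc hK, ht⟩
      exact h1.symm.trans h2
    have hmm : m1 = mK := by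
      rcases lt_trichotomy m1 mK with hlt | heq | hgt
      · exfalso
        have h1 := lim_lem (hc1 _ _ _ a0 a1 a2) (hcK _ _ _ a0 a1 (lt_of_lt_of_le a2 hK)) hlt.le
          (hcmp _ _ _ a0 a1 a2)
        rw [zero_pow (Nat.sub_ne_zero_of_lt hlt), zero_mul] at h1
        have h2 : (![z1 0, z1 1, z1 2, 0] : Cn 4) = z1 := by
          funext i
          fin_cases i
          · rfl
          · rfl
          · rfl
          · exact a3.symm
        rw [h2] at h1
        exact a4 h1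
      · exact heq
      · exfalso
        have h0 : ∀ c : ℂ, ‖c‖ < 1 → EK ![z2 0, z2 1, c, 0] = 0 := by
          intro c hc
          have h1 := lim_lem (hcK _ _ _ b0 b1 (lt_of_lt_of_le hc hK)) (hc1 _ _ _ b0 b1 hc) hgt.le
            ((hcmp _ _ _ b0 b1 hc).mono fun t ht => ht.symm)
          rw [zero_pow (Nat.sub_ne_zero_of_lt hgt), zero_mul] at h1
          exact h1
        have hd : Differentiable ℂ fun c : ℂ => (![z2 0, z2 1, c, 0] : Cn 4) := by
          rw [differentiable_pi]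
          intro i
          fin_cases i <;> simp
        have hdd : DifferentiableOn ℂ (fun c : ℂ => EK ![z2 0, z2 1, c, 0]) (ball 0 K) := by
          refine hEK.comp hd.differentiableOn fun c hc => ?_
          rw [mem_ball_zero_iff] at hc
          exact ⟨b0, b1, hc, by
            change ‖(0 : ℂ)‖ < δ / K
            rw [norm_zero]; positivity⟩
        have han : AnalyticOnNhd ℂ (fun c : ℂ => EK ![z2 0, z2 1, c, 0]) (ball 0 K) :=
          hdd.analyticOnNhd isOpen_ball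
        have hev : (fun c : ℂ => EK ![z2 0, z2 1, c, 0]) =ᶠ[𝓝 0] 0 := by
          filter_upwards [ball_mem_nhds (0 : ℂ) one_pos] with c hc
          exact h0 c (mem_ball_zero_iff.mp hc)
        have h3 := han.eqOn_zero_of_preconnected_of_eventuallyEq_zero
          (convex_ball _ _).isPreconnected (mem_ball_self hK0) hev
          (mem_ball_zero_iff.mpr b2 : z2 2 ∈ ball (0 : ℂ) K)
        have h2 : (![z2 0, z2 1, z2 2, 0] : Cn 4) = z2 := by
          funext i
          fin_cases i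
          · rfl
          · rfl
          · rfl
          · exact b3.symm
        simp only [Pi.zero_apply] at h3
        rw [h2] at h3
        exact b4 h3
    subst hmm
    refine ⟨EK, hEK, fun z h0 h1 h2 h3 => hmK z ⟨h0, h1, h2, h3⟩, fun X hX hne => ?_⟩
    rw [mem_ballC hδ] at hX
    refine ⟨z1 2, a2, ?_⟩
    have h1 := lim_lem (hc1 _ _ _ (hX 0) (hX 1) a2)
      (hcK _ _ _ (hX 0) (hX 1) (lt_of_lt_of_le a2 hK)) le_rfl (hcmp _ _ _ (hX 0) (hX 1) a2)
    rw [Nat.sub_self, pow_zero, one_mul] at h1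
    rw [← h1]
    exact hne

end KP
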