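import Pool.Agent.Lib.KP.SpecW

/-!
# KP (MP_64edc4_ag), module W/PSh: contour integrals with parameters
-/

set_option autoImplicit false

open Set Filter Topology Metric

namespace KP

private theorem ext_eq (w : Cn 3) (c s : ℂ) :
    ext w (c + s) = ext w c + s • (Pi.single 3 1 : Cn 4) := by
  funext i
  fin_cases i <;> simp [ext]

private theorem ext_diff (c : ℂ) : Differentiable ℂ fun w : Cn 3 => ext w c := by
  rw [differentiable_pi]
  intro i
  fin_cases i <;> simp [ext] <;> fun_prop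

private theorem ext_cont : Continuous fun p : Cn 3 × ℂ => ext p.1 p.2 := by
  refine continuous_pi fun i => ?_
  fin_cases i <;> simp [ext] <;> fun_prop

theorem tPSh : S_PSh := by
  intro H Ω hΩ hH w0 c κ hκ hz k
  have hΩ' : IsOpen {z | z ∈ Ω ∧ H z ≠ 0} := by
    have h1 := hH.continuousOn.isOpen_inter_preimage hΩ isOpen_compl_singleton (t := {(0 : ℂ)}ᶜ)
    exact h1
  have hf : DifferentiableOn ℂ (fun z => fderiv ℂ H z (Pi.single 3 1 : Cn 4) / H z)
      {z | z ∈ Ω ∧ H z ≠ 0} := by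
    have h1 : DifferentiableOn ℂ (fderiv ℂ H) {z | z ∈ Ω ∧ H z ≠ 0} :=
      (Pool.Agent.Lib.Osgood.differentiableOn_fderiv hΩ hH).mono fun z hz => hz.1
    have h2 : DifferentiableOn ℂ H {z | z ∈ Ω ∧ H z ≠ 0} := hH.mono fun z hz => hz.1
    have h3 : DifferentiableOn ℂ (fun z => fderiv ℂ H z (Pi.single 3 1 : Cn 4))
        {z | z ∈ Ω ∧ H z ≠ 0} := h1.clm_apply (differentiableOn_const _)
    have h4 : DifferentiableOn ℂ (fun z => (H z)⁻¹) {z | z ∈ Ω ∧ H z ≠ 0} :=
      h2.fun_inv fun z (hz : z ∈ Ω ∧ H z ≠ 0) => hz.2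
    have h5 := h3.fun_mul h4
    refine h5.congr fun z _ => ?_
    rw [div_eq_mul_inv]
  have hmem : ∀ s ∈ sphere (0 : ℂ) κ, ext w0 c + s • (Pi.single 3 1 : Cn 4) ∈
      {z | z ∈ Ω ∧ H z ≠ 0} := by
    intro s hs
    rw [← ext_eq]
    exact hz s (mem_sphere_zero_iff_norm.mp hs)
  have h1 := Pool.Agent.Lib.Osgood.differentiableAt_circleIntegral (k := fun τ : ℂ => τ ^ k)
    (c := fun τ : ℂ => τ • (Pi.single 3 1 : Cn 4)) (z := ext w0 c) hΩ' hf hκ
    (by fun_prop) (by fun_prop) hmem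
  have h2 := DifferentiableAt.comp w0 h1 (ext_diff c w0)
  refine (h2.const_mul (2 * Real.pi * Complex.I : ℂ)⁻¹).congr_of_eventuallyEq ?_
  have h3 : ∀ᶠ w in 𝓝 w0, ∀ τ ∈ sphere (0 : ℂ) κ, ext w (c + τ) ∈ {z | z ∈ Ω ∧ H z ≠ 0} := by
    refine (isCompact_sphere (0 : ℂ) κ).eventually_forall_of_forall_eventually fun τ hτ => ?_
    have hc : Continuous fun p : Cn 3 × ℂ => ext p.1 (c + p.2) :=
      ext_cont.comp (continuous_fst.prodMk (continuous_const.add continuous_snd))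
    refine hc.continuousAt.eventually (hΩ'.mem_nhds ?_)
    exact hz τ (mem_sphere_zero_iff_norm.mp hτ)
  filter_upwards [h3] with w hw
  rw [Function.comp_apply]
  congr 1
  refine circleIntegral.integral_congr hκ fun τ hτ => ?_
  have h4 := hw τ hτ
  rw [ext_eq] at h4
  have h5 : DifferentiableAt ℂ H (ext w c + τ • (Pi.single 3 1 : Cn 4)) :=
    (hH _ h4.1).differentiableAt (hΩ.mem_nhds h4.1)
  have h6 := (Pool.Agent.Lib.Osgood.deriv_line (Pi.single 3 1 : Cn 4) τ h5).deriv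
  have h7 : (fun s => H (ext w (c + s))) = fun s => H (ext w c + s • (Pi.single 3 1 : Cn 4)) := by
    funext s
    rw [ext_eq]
  rw [h7, h6, ext_eq, smul_eq_mul]

end KP
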