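import Pool.Agent.Lib.KP.SpecW

/-!
# KP (MP_64edc4_ag), block W: the tangent cone at a peak point (helper34)
-/

set_option autoImplicit false

open Set Filter Topology Metric

namespace KP

namespace PTAux

/-- The perturbation `Im`-linear function. -/
private noncomputable def hh (γ : Fin 2 → ℝ) (z : Cn 2) : ℂ :=
  -Complex.I * ((γ 0 : ℂ) * z 0 + (γ 1 : ℂ) * z 1)

private theorem hh_re (γ : Fin 2 → ℝ) (z : Cn 2) :
    (hh γ z).re = γ 0 * (z 0).im + γ 1 * (z 1).im := by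
  simp [hh]

private theorem hh_diff (γ : Fin 2 → ℝ) : DifferentiableOn ℂ (hh γ) univ := by
  rw [differentiableOn_univ]
  unfold hh
  fun_prop

private theorem cp_im (x y : Fin 2 → ℝ) (i : Fin 2) : (cp x y i).im = y i := by
  simp [cp]

private theorem norm_le_of {v : Cn 2} {i : Fin 2} : |(v i).im| ≤ ‖v‖ :=
  (Complex.abs_im_le_norm _).trans (norm_le_pi_norm v i)

private theorem cp_sub (c y : Fin 2 → ℝ) : cp c y - cp c 0 = cp 0 y := by
  ext i
  simp [cp]

private theorem cp_norm (y : Fin 2 → ℝ) : ‖cp 0 y‖ = ‖y‖ := by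
  have h1 : ∀ i, ‖cp 0 y i‖ = ‖y i‖ := by
    intro i
    simp [cp]
  rw [Pi.norm_def, Pi.norm_def]
  congr 1
  refine Finset.sup_congr rfl fun i _ => ?_
  ext
  exact h1 i

private theorem cp_real (c : Fin 2 → ℝ) : ‖cp c 0‖ = ‖c‖ := by
  have h1 : ∀ i, ‖cp c 0 i‖ = ‖c i‖ := by
    intro i
    simp [cp]
  rw [Pi.norm_def, Pi.norm_def]
  congr 1
  refine Finset.sup_congr rfl fun i _ => ?_
  ext
  exact h1 i

private theorem norm_le_sum (y : Fin 2 → ℝ) : ‖y‖ ≤ |y 0| + |y 1| := by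
  rw [pi_norm_le_iff_of_nonneg (by positivity)]
  intro i
  rw [Real.norm_eq_abs]
  fin_cases i
  · exact le_add_of_nonneg_right (abs_nonneg _)
  · exact le_add_of_nonneg_left (abs_nonneg _)

private theorem cp_decomp (y : Fin 2 → ℝ) :
    cp 0 y = y 0 • cp 0 ![1, 0] + y 1 • cp 0 ![0, 1] := by
  ext i
  fin_cases i
  · simp [cp]
  · simp [cp]

private theorem sgn_abs (t β : ℝ) : (if 0 ≤ t then β else -β) * t = β * |t| := by
  split_ifs with h
  · rw [abs_of_nonneg h]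
  · rw [abs_of_neg (not_le.1 h)]
    ring

private theorem sgn_le (t β : ℝ) (hβ : 0 ≤ β) : |(if 0 ≤ t then β else -β)| ≤ β := by
  split_ifs
  · rw [abs_of_nonneg hβ]
  · rw [abs_neg, abs_of_nonneg hβ]

/-- the main inequality -/
private theorem main (h1 : S_PkOf) (h3 : S_LvH) (h4 : S_D2A) (h5 : S_D2N) {A : Set (Cn 2)} {r : ℝ}
    (hA : IsOpen A) (hr : ∀ w ∈ ball (0 : Cn 2) r, w ∈ Pk A → ∀ i, (w i).im = 0)
    {C : Cn 2} (hC : ∀ i, (C i).im = 0) (hCcl : C ∈ closure A) {Φ : Cn 2 → ℝ} {η m r0 : ℝ}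
    (hη : 0 < η) (hm : 0 < m) (hr0 : 0 < r0)
    (hΦ : ∀ z ∈ closedBall C r0, ContDiffAt ℝ 2 Φ z ∧ ∀ v, m * nsq v ≤ Lv Φ z v)
    (hX : ∀ z ∈ closure A ∩ closedBall C r0, Φ z + η * nsq (z - C) ≤ Φ C)
    (hsub : closedBall C r0 ⊆ ball 0 r) (γ : Fin 2 → ℝ)
    (hγ : ∀ i, |γ i| ≤ η * r0 / 4) :
    ∀ z ∈ closure A ∩ closedBall C r0, Φ z + (hh γ z).re ≤ Φ C := by
  have hnsq : ∀ v : Cn 2, ‖v‖ ^ 2 ≤ nsq v := fun v => (h5 2 0 0 v).2.2.2.1
  have hcon : ContinuousOn (fun z => Φ z + (hh γ z).re) (closure A ∩ closedBall C r0) := by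
    intro z hz
    have e1 : ContinuousAt Φ z := (hΦ z hz.2).1.continuousAt
    have e2 : ContinuousAt (fun z => (hh γ z).re) z := by
      have : Continuous fun z : Cn 2 => (hh γ z).re := by
        unfold hh
        fun_prop
      exact this.continuousAt
    exact (e1.add e2).continuousWithinAt
  have hcomp : IsCompact (closure A ∩ closedBall C r0) :=
    (isCompact_closedBall C r0).inter_left isClosed_closure
  have hCX : C ∈ closure A ∩ closedBall C r0 := ⟨hCcl, mem_closedBall_self hr0.le⟩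
  obtain ⟨c', hc'X, hmax⟩ := hcomp.exists_isMaxOn ⟨C, hCX⟩ hcon
  have hmax' : ∀ z ∈ closure A ∩ closedBall C r0, Φ z + (hh γ z).re ≤ Φ c' + (hh γ c').re :=
    fun z hz => hmax hz
  have hC0 : (hh γ C).re = 0 := by
    rw [hh_re, hC, hC]
    ring
  have hge : Φ C ≤ Φ c' + (hh γ c').re := by
    have := hmax' C hCX
    rwa [hC0, add_zero] at this
  -- the maximum is not on the sphere
  have hdist : ‖c' - C‖ < r0 := by
    have e1 : ‖c' - C‖ ≤ r0 := by
      have := hc'X.2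
      rwa [mem_closedBall, dist_eq_norm] at this
    rcases e1.lt_or_eq with e2 | e2
    · exact e2
    · exfalso
      have e3 := hX c' hc'X
      have e4 := hnsq (c' - C)
      rw [e2] at e4
      have e5 : ∀ i, γ i * (c' i).im ≤ η * r0 / 4 * r0 := by
        intro i
        have e6 : (c' i).im = ((c' - C) i).im := by
          rw [Pi.sub_apply, Complex.sub_im, hC, sub_zero]
        have e7 : |(c' i).im| ≤ r0 := by
          rw [e6, ← e2]
          exact norm_le_of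
        calc γ i * (c' i).im ≤ |γ i * (c' i).im| := le_abs_self _
          _ = |γ i| * |(c' i).im| := abs_mul _ _
          _ ≤ η * r0 / 4 * r0 := mul_le_mul (hγ i) e7 (abs_nonneg _) (by positivity)
      have e8 := e5 0
      have e9 := e5 1
      rw [hh_re] at hge
      have e10 : η * r0 ^ 2 ≤ η * nsq (c' - C) := mul_le_mul_of_nonneg_left e4 hη.le
      have e11 : 0 < η * r0 ^ 2 := by positivity
      nlinarith
  have hpk : c' ∈ Pk A := by
    have e0 := h3 2 (hh γ) c' univ isOpen_univ (mem_univ _) (hh_diff γ)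
    have e1 : ContDiffAt ℝ 2 Φ c' := (hΦ c' hc'X.2).1
    refine h1 2 A (fun z => Φ z + (hh γ z).re) c' (by norm_num) hA (e1.add e0.1.1) ?_ hc'X.1 ?_
    · intro v hv
      have e2 : ∀ v, D2 (fun z => Φ z + (hh γ z).re) c' v =
          D2 Φ c' v + D2 (fun z => (hh γ z).re) c' v := by
        intro v
        have := h4 2 Φ (fun z => (hh γ z).re) c' e1 e0.1.1 1 1 v
        simpa using this
      have e3 : Lv (fun z => Φ z + (hh γ z).re) c' v = Lv Φ c' v := by
        have e4 := e0.1.2 v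
        unfold Lv at e4 ⊢
        rw [e2, e2]
        linarith
      rw [e3]
      have e5 := (hΦ c' hc'X.2).2 v
      have e6 : 0 < ‖v‖ := norm_pos_iff.2 hv
      have e7 := hnsq v
      have e8 : 0 < m * nsq v := mul_pos hm (lt_of_lt_of_le (by positivity) e7)
      exact e8.trans_le e5
    · have e2 : ball C r0 ∈ 𝓝 c' := isOpen_ball.mem_nhds (by
        rwa [mem_ball, dist_eq_norm])
      filter_upwards [e2] with z hz hzA
      exact hmax' z ⟨subset_closure hzA, ball_subset_closedBall hz⟩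
  have him := hr c' (hsub hc'X.2) hpk
  have hre0 : (hh γ c').re = 0 := by
    rw [hh_re, him, him]
    ring
  intro z hz
  have e1 := hmax' z hz
  rw [hre0, add_zero] at e1
  have e2 := hX c' hc'X
  have e3 : 0 ≤ nsq (c' - C) := le_trans (by positivity) (hnsq (c' - C))
  have e4 : 0 ≤ η * nsq (c' - C) := mul_nonneg hη.le e3
  linarith

end PTAux

open PTAux in
/-- **PT.** -/
theorem tPT (h1 : S_PkOf) (h2 : S_LvO) (h3 : S_LvH) (h4 : S_D2A) (h5 : S_D2N) : S_PT := by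
  intro A r hA hr c hc hcP
  obtain ⟨_, hcl, Φ, hΦ, hL, η, hη, hev⟩ := hcP
  obtain ⟨r1, hr1, m, hm, hm1⟩ := h2 2 Φ (cp c 0) hΦ hL
  obtain ⟨r2, hr2, hr2'⟩ := Metric.eventually_nhds_iff_ball.1 hev
  obtain ⟨C, hCd⟩ : ∃ C, C = cp c 0 := ⟨_, rfl⟩
  rw [← hCd] at hcl hΦ hL hm1 hr2'
  have hCim : ∀ i, (C i).im = 0 := fun i => by rw [hCd, cp_im]; rfl
  have hCn : ‖C‖ < r := by rw [hCd, cp_real]; exact hc
  obtain ⟨r0, hr0, hr01, hr02, hr03⟩ : ∃ r0 : ℝ, 0 < r0 ∧ r0 < r1 ∧ r0 < r2 ∧ r0 + ‖C‖ < r := by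
    refine ⟨min (min (r1 / 2) (r2 / 2)) ((r - ‖C‖) / 2), ?_, ?_, ?_, ?_⟩
    · exact lt_min (lt_min (by linarith) (by linarith)) (by linarith)
    · have := (min_le_left (min (r1 / 2) (r2 / 2)) ((r - ‖C‖) / 2)).trans (min_le_left _ _)
      linarith
    · have := (min_le_left (min (r1 / 2) (r2 / 2)) ((r - ‖C‖) / 2)).trans (min_le_right _ _)
      linarith
    · have := min_le_right (min (r1 / 2) (r2 / 2)) ((r - ‖C‖) / 2)
      linarith
  have hsub : closedBall C r0 ⊆ ball 0 r := by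
    intro z hz
    rw [mem_closedBall, dist_eq_norm] at hz
    rw [mem_ball, dist_zero_right]
    have : ‖z‖ ≤ ‖z - C‖ + ‖C‖ := by
      have := norm_add_le (z - C) C
      rwa [sub_add_cancel] at this
    linarith
  have hsub1 : ∀ z ∈ closedBall C r0, z ∈ ball C r1 := fun z hz =>
    closedBall_subset_ball hr01 hz
  have hsub2 : ∀ z ∈ closedBall C r0, z ∈ ball C r2 := fun z hz =>
    closedBall_subset_ball hr02 hz
  have hX : ∀ z ∈ closure A ∩ closedBall C r0, Φ z + η * nsq (z - C) ≤ Φ C := by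
    intro z hz
    have e1 : z ∈ closure (ball C r2 ∩ A) :=
      isOpen_ball.inter_closure ⟨hsub2 z hz.2, hz.1⟩
    have e2 : ContinuousAt (fun z => Φ z + η * nsq (z - C)) z := by
      have e3 : ContinuousAt Φ z := (hm1 z (hsub1 z hz.2)).1.continuousAt
      have e4 : ContinuousAt (fun z => nsq (z - C)) z := (h5 2 C z 0).1.continuousAt
      exact e3.add (continuousAt_const.mul e4)
    have e5 := ContinuousWithinAt.closure_le (f := fun z => Φ z + η * nsq (z - C))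
      (g := fun _ => Φ C) e1 e2.continuousWithinAt
      continuousWithinAt_const (fun y hy => hr2' y hy.1 hy.2)
    exact e5
  -- the derivative
  obtain ⟨L, hLd⟩ : ∃ L : Cn 2 →L[ℝ] ℝ, L = fderiv ℝ Φ C := ⟨_, rfl⟩
  have hder : HasFDerivAt Φ L C := by
    rw [hLd]
    exact (hΦ.differentiableAt (by norm_num)).hasFDerivAt
  obtain ⟨β0, hβ0⟩ : ∃ β0 : ℝ, β0 = η * r0 / 4 := ⟨_, rfl⟩
  have hβp : 0 < β0 := by rw [hβ0]; positivity
  have hlo := (hasFDerivAt_iff_isLittleO_nhds_zero.1 hder).def (show 0 < β0 / 2 by linarith)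
  obtain ⟨ρ1, hρ1, hρ1'⟩ := Metric.eventually_nhds_iff_ball.1 hlo
  refine ⟨![L (cp 0 ![1, 0]), L (cp 0 ![0, 1])], β0 / 2, min ρ1 r0, by linarith,
    lt_min hρ1 hr0, ?_⟩
  intro y hy hyA
  have hy1 : ‖y‖ < ρ1 := hy.trans_le (min_le_left _ _)
  have hy2 : ‖y‖ < r0 := hy.trans_le (min_le_right _ _)
  have hzC : cp c y - C = cp 0 y := by rw [hCd]; exact cp_sub c y
  have hz : cp c y ∈ closure A ∩ closedBall C r0 := by
    refine ⟨subset_closure hyA, ?_⟩
    rw [mem_closedBall, dist_eq_norm, hzC, cp_norm]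
    exact hy2.le
  have e1 := main h1 h3 h4 h5 hA hr hCim hcl hη hm hr0 (fun z hz => hm1 z (hsub1 z hz)) hX hsub
    (fun i => if 0 ≤ y i then β0 else -β0) (fun i => by
      rw [← hβ0]
      exact sgn_le _ _ hβp.le) (cp c y) hz
  rw [hh_re, cp_im, cp_im, sgn_abs, sgn_abs] at e1
  have e2 := hρ1' (cp 0 y) (by rw [mem_ball, dist_zero_right, cp_norm]; exact hy1)
  have e3 : C + cp 0 y = cp c y := by rw [← hzC]; abel
  rw [e3, cp_norm, Real.norm_eq_abs] at e2
  have e4 : L (cp 0 y) = y 0 * L (cp 0 ![1, 0]) + y 1 * L (cp 0 ![0, 1]) := by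
    rw [cp_decomp y, map_add, map_smul, map_smul, smul_eq_mul, smul_eq_mul]
  have e5 := norm_le_sum y
  have e6 := (abs_le.1 e2).1
  have e7 : β0 * ‖y‖ ≤ β0 * (|y 0| + |y 1|) := mul_le_mul_of_nonneg_left e5 hβp.le
  rw [e4] at e6
  simp only [Matrix.cons_val_zero, Matrix.cons_val_one]
  linarith

end KP
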