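import Pool.Agent.Lib.KP.SpecW

set_option autoImplicit false

open Set Filter Topology Metric

namespace KP

namespace PosDAux

theorem cp_re (x y : Fin 2 → ℝ) (i : Fin 2) : (cp x y i).re = x i := by
  simp [cp]

theorem cp_im (x y : Fin 2 → ℝ) (i : Fin 2) : (cp x y i).im = y i := by
  simp [cp]

theorem cp_eq (z : Cn 2) : cp (fun i => (z i).re) (fun i => (z i).im) = z := by
  ext i
  exact Complex.re_add_im (z i)

theorem re_le (z : Cn 2) : ‖(fun i => (z i).re : Fin 2 → ℝ)‖ ≤ ‖z‖ := by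
  rw [pi_norm_le_iff_of_nonneg (norm_nonneg _)]
  intro i
  exact (Complex.abs_re_le_norm (z i)).trans (norm_le_pi_norm z i)

theorem im_le (z : Cn 2) : ‖(fun i => (z i).im : Fin 2 → ℝ)‖ ≤ ‖z‖ := by
  rw [pi_norm_le_iff_of_nonneg (norm_nonneg _)]
  intro i
  exact (Complex.abs_im_le_norm (z i)).trans (norm_le_pi_norm z i)

theorem key {A : Set (Cn 2)} {m : ℕ} {F : Fin m → Cn 4 → ℂ} {δ : ℝ} (h : Std A m F δ) (ρ : ℝ)
    (hρ : 0 < ρ) : ∃ x y : Fin 2 → ℝ, ‖x‖ < ρ ∧ ‖y‖ < ρ ∧ y 0 ≠ 0 ∧ cp x y ∈ A := by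
  have hδ := h.df.hδ
  have h0 : (0 : Cn 2) ∈ closure A := h.pk0.2.1
  obtain ⟨z, hzA, hz⟩ := Metric.mem_closure_iff.1 h0 (min ρ δ) (lt_min hρ hδ)
  rw [dist_zero_left] at hz
  have hz1 := hz.trans_le (min_le_left _ _)
  have hz2 := hz.trans_le (min_le_right _ _)
  set x : Fin 2 → ℝ := fun i => (z i).re with hx
  set y : Fin 2 → ℝ := fun i => (z i).im with hy
  have hzxy : cp x y = z := cp_eq z
  have hxn : ‖x‖ ≤ ‖z‖ := re_le z
  have hyn : ‖y‖ ≤ ‖z‖ := im_le z
  by_cases h1 : y 0 = 0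
  · exfalso
    by_cases h2 : y 1 = 0
    · obtain ⟨ε, hε, hball⟩ := Metric.isOpen_iff.1 h.opn z hzA
      set t : ℝ := min ε δ / 2 with ht
      have ht0 : 0 < t := by positivity
      have ht1 : t < ε := by
        have := min_le_left ε δ
        linarith
      have ht2 : t < δ := by
        have := min_le_right ε δ
        linarith
      have h3 : cp x ![0, t] ∈ A := by
        apply hball
        rw [mem_ball, dist_eq_norm, ← hzxy, pi_norm_lt_iff hε]
        intro i
        fin_cases i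
        · simp [cp, h1, hε]
        · simp [cp, h2, abs_of_pos ht0, ht1]
      refine h.vx x ![0, t] (hxn.trans_lt hz2) ?_ ?_ ?_ h3
      · rw [pi_norm_lt_iff hδ]
        intro i
        fin_cases i
        · simp [hδ]
        · simp [abs_of_pos ht0, ht2]
      · simpa using ht0.ne'
      · simp only [Matrix.cons_val_zero, abs_zero]
        positivity
    · refine h.vx x y (hxn.trans_lt hz2) (hyn.trans_lt hz2) h2 ?_ (by rw [hzxy]; exact hzA)
      rw [h1, abs_zero]
      positivity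
  · exact ⟨x, y, hxn.trans_lt hz1, hyn.trans_lt hz1, h1, by rw [hzxy]; exact hzA⟩

end PosDAux

open PosDAux in
/-- **PosD** -/
theorem tPosD : S_PosD := by
  intro A m F δ h
  by_cases hp : Pos A
  · exact Or.inl hp
  right
  unfold Pos at hp
  push Not at hp
  obtain ⟨ρ0, hρ0, hp⟩ := hp
  intro ρ hρ
  obtain ⟨x, y, hx, hy, hy0, hA⟩ := key h (min ρ ρ0) (lt_min hρ hρ0)
  refine ⟨-x, -y, ?_, ?_, ?_, mem_univ _, ?_⟩
  · rw [norm_neg]
    exact hx.trans_le (min_le_left _ _)
  · rw [norm_neg]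
    exact hy.trans_le (min_le_left _ _)
  · have h1 : ¬ (0 < y 0) := fun h1 =>
      hp x y (hx.trans_le (min_le_right _ _)) (hy.trans_le (min_le_right _ _)) h1 hA
    have h2 : y 0 < 0 := lt_of_le_of_ne (not_lt.1 h1) hy0
    simpa using h2
  · have h1 : ng.psi (cp (-x) (-y)) = cp x y := by
      show -(cp (-x) (-y)) = cp x y
      ext i
      simp [cp]
      ring
    rw [h1]
    exact hA

end KP
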