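import Pool.Agent.Lib.KP.SpecW

/-!
# KP (MP_64edc4_ag), W/Puis: Puiseux expansions with parameters at generic points
-/

set_option autoImplicit false

open Set Filter Topology Metric

namespace KP

namespace PuisAux

/-- `(w 0, w 1, exp (w 2))` -/
private noncomputable def E3 (w : Cn 3) : Cn 3 := ![w 0, w 1, Complex.exp (w 2)]

private theorem mem_ball3 (z : Cn 3) (a b c : ℂ) {ε : ℝ} (hε : 0 < ε) :
    z ∈ ball (![a, b, c] : Cn 3) ε ↔ ‖z 0 - a‖ < ε ∧ ‖z 1 - b‖ < ε ∧ ‖z 2 - c‖ < ε := by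
  rw [mem_ball, dist_eq_norm, pi_norm_lt_iff hε]
  constructor
  · intro h
    exact ⟨h 0, h 1, h 2⟩
  · rintro ⟨h0, h1, h2⟩ i
    fin_cases i
    · exact h0
    · exact h1
    · exact h2

private theorem mem_zero3 (z : Cn 3) {ε : ℝ} (hε : 0 < ε) :
    z ∈ ball (0 : Cn 3) ε ↔ ‖z 0‖ < ε ∧ ‖z 1‖ < ε ∧ ‖z 2‖ < ε := by
  rw [mem_ball_zero_iff, pi_norm_lt_iff hε]
  constructor
  · intro h
    exact ⟨h 0, h 1, h 2⟩
  · rintro ⟨h0, h1, h2⟩ i
    fin_cases i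
    · exact h0
    · exact h1
    · exact h2

private theorem ext_mem {δ : ℝ} {w : Cn 3} {t : ℂ} (hw : ‖w‖ < δ) (ht : ‖t‖ < δ) :
    ext w t ∈ ball (0 : Cn 4) δ := by
  have hδ : 0 < δ := (norm_nonneg _).trans_lt ht
  rw [mem_ball_zero_iff, pi_norm_lt_iff hδ]
  have h := fun i => (norm_le_pi_norm w i).trans_lt hw
  intro i
  fin_cases i
  · exact h 0
  · exact h 1
  · exact h 2
  · exact ht

private theorem E3_diff : Differentiable ℂ E3 := by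
  rw [differentiable_pi]
  intro i
  fin_cases i
  · exact differentiable_apply (0 : Fin 3)
  · exact differentiable_apply (1 : Fin 3)
  · exact (differentiable_apply (2 : Fin 3)).cexp

private theorem Lg_open (c : Cn 2) (ε1 : ℝ) : IsOpen (Lg c ε1) := by
  unfold Lg
  have h0 : Continuous fun w : Cn 3 => ‖w 0 - c 0‖ := by fun_prop
  have h1 : Continuous fun w : Cn 3 => ‖w 1 - c 1‖ := by fun_prop
  have h2 : Continuous fun w : Cn 3 => (w 2).re := Complex.continuous_re.comp (by fun_prop)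
  exact (isOpen_lt h0 continuous_const).inter ((isOpen_lt h1 continuous_const).inter
    (isOpen_lt h2 continuous_const))

private theorem Lg_convex (c : Cn 2) (ε1 : ℝ) : Convex ℝ (Lg c ε1) := by
  have key : ∀ (i : Fin 3) (a : ℂ), Convex ℝ {w : Cn 3 | ‖w i - a‖ < ε1} := by
    intro i a
    have h : {w : Cn 3 | ‖w i - a‖ < ε1} =
        (LinearMap.proj i : Cn 3 →ₗ[ℝ] ℂ) ⁻¹' ball a ε1 := by
      ext w
      simp [mem_ball, dist_eq_norm]
    rw [h]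
    exact (convex_ball a ε1).linear_preimage _
  have h2 : Convex ℝ {w : Cn 3 | (w 2).re < Real.log ε1} := by
    have h : {w : Cn 3 | (w 2).re < Real.log ε1} =
        (Complex.reLm.comp (LinearMap.proj 2 : Cn 3 →ₗ[ℝ] ℂ)) ⁻¹' Iio (Real.log ε1) := by
      ext w
      simp
    rw [h]
    exact (convex_Iio _).linear_preimage _
  exact (key 0 (c 0)).inter ((key 1 (c 1)).inter h2)

private theorem E3_maps (c : Cn 2) {ε1 : ℝ} (hε : 0 < ε1) {w : Cn 3} (hw : w ∈ Lg c ε1) :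
    E3 w ∈ ball (![c 0, c 1, 0] : Cn 3) ε1 ∩ {w | w 2 ≠ 0} := by
  obtain ⟨h0, h1, h2⟩ := hw
  refine ⟨(mem_ball3 _ _ _ _ hε).2 ⟨h0, h1, ?_⟩, Complex.exp_ne_zero _⟩
  change ‖Complex.exp (w 2) - 0‖ < ε1
  rw [sub_zero, Complex.norm_exp]
  exact (Real.lt_log_iff_exp_lt hε).1 h2

private theorem log_mem (c : Cn 2) {ε1 : ℝ} (hε : 0 < ε1) (hε1 : ε1 ≤ 1) {N : ℕ} (hN : 1 ≤ N)
    {z : Cn 3} (hz : z ∈ ball (![c 0, c 1, 0] : Cn 3) ε1) (h2 : z 2 ≠ 0) :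
    (![z 0, z 1, N * Complex.log (z 2)] : Cn 3) ∈ Lg c ε1 := by
  obtain ⟨h0, h1, h3⟩ := (mem_ball3 _ _ _ _ hε).1 hz
  rw [sub_zero] at h3
  refine ⟨h0, h1, ?_⟩
  change ((N : ℂ) * Complex.log (z 2)).re < Real.log ε1
  have h4 : ((N : ℂ) * Complex.log (z 2)).re = N * Real.log ‖z 2‖ := by
    rw [Complex.mul_re, Complex.natCast_re, Complex.natCast_im, Complex.log_re]
    ring
  rw [h4]
  have h5 : 0 < ‖z 2‖ := norm_pos_iff.2 h2
  have h6 : Real.log ‖z 2‖ < Real.log ε1 := Real.log_lt_log h5 h3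
  have h7 : Real.log ε1 ≤ 0 := Real.log_nonpos hε.le hε1
  have h8 : (1 : ℝ) ≤ N := by exact_mod_cast hN
  nlinarith

private theorem exp_log {N : ℕ} {a : ℂ} (ha : a ≠ 0) :
    Complex.exp (N * Complex.log a) = a ^ N := by
  rw [Complex.exp_nat_mul, Complex.exp_log ha]

/-- A zero is bounded by the third coordinate. -/
private theorem zr_bd {H : Cn 4 → ℂ} {δ : ℝ} (hδ : 0 < δ) (hR : Reg H δ) {w : Cn 3}
    (hw : ‖w‖ < δ) {t : ℂ} (ht : t ∈ Zr H δ w) : ‖t‖ ≤ 1 / δ * ‖w 2‖ := by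
  obtain ⟨h1, h2⟩ := ht
  by_cases h0 : t = 0
  · rw [h0, norm_zero]
    positivity
  have h3 : ¬ ‖w 2‖ ≤ δ * ‖t‖ := fun h => hR.2 _ (ext_mem hw h1) h0 h h2
  push Not at h3
  rw [div_mul_eq_mul_div, one_mul, le_div_iff₀ hδ]
  linarith

end PuisAux

open PuisAux in
theorem tPuis (h1 : S_Disc) (h2 : S_LocB) (h3 : S_GlobB) (h4 : S_MoP) (h5 : S_MoE)
    (h6 : S_DivN) : S_Puis := by
  intro H δ hδ hδ1 hR
  obtain ⟨r, D, hD, hDne, hr⟩ := h1 H δ hδ hδ1 hR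
  have hδ' : 0 < δ ^ 2 / 2 := by positivity
  have hδδ : δ ^ 2 / 2 ≤ δ := by nlinarith
  obtain ⟨κ, D', hD', hDD, z0, hz0, hz02, hz0D⟩ := h6 3 2 0 (δ ^ 2 / 2) D rfl hD hDne
  have hpt : ∀ X ∈ ball (0 : Cn 2) (δ ^ 2 / 2), (![X 0, X 1, 0] : Cn 3) ∈ ball 0 (δ ^ 2 / 2) := by
    intro X hX
    rw [mem_ball_zero_iff, pi_norm_lt_iff hδ'] at hX
    refine (mem_zero3 _ hδ').2 ⟨hX 0, hX 1, ?_⟩
    change ‖(0 : ℂ)‖ < _
    rwa [norm_zero]
  have hemb : Differentiable ℂ fun X : Cn 2 => (![X 0, X 1, 0] : Cn 3) := by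
    rw [differentiable_pi]
    intro i
    fin_cases i
    · exact differentiable_apply (0 : Fin 2)
    · exact differentiable_apply (1 : Fin 2)
    · exact differentiable_const _
  refine ⟨δ ^ 2 / 2, fun X => D' ![X 0, X 1, 0], hδ', hδδ, ?_, ?_, ?_⟩
  · exact hD'.comp hemb.differentiableOn hpt
  · refine ⟨![z0 0, z0 1], ?_, ?_⟩
    · obtain ⟨a0, a1, -⟩ := (mem_zero3 _ hδ').1 hz0
      rw [mem_ball_zero_iff, pi_norm_lt_iff hδ']
      intro i
      fin_cases i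
      · exact a0
      · exact a1
    · have : (![(![z0 0, z0 1] : Cn 2) 0, (![z0 0, z0 1] : Cn 2) 1, 0] : Cn 3) = z0 := by
        ext i
        fin_cases i
        · rfl
        · rfl
        · exact hz02.symm
      change D' ![(![z0 0, z0 1] : Cn 2) 0, (![z0 0, z0 1] : Cn 2) 1, 0] ≠ 0
      rw [this]
      exact hz0D
  intro c hc hc0
  -- the radius
  obtain ⟨ε1, hε, hε1, hball, hne⟩ : ∃ ε1 : ℝ, 0 < ε1 ∧ ε1 ≤ 1 ∧
      ball (![c 0, c 1, 0] : Cn 3) ε1 ⊆ ball 0 (δ ^ 2 / 2) ∧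
      ∀ z ∈ ball (![c 0, c 1, 0] : Cn 3) ε1, D' z ≠ 0 := by
    have hp := hpt c hc
    have hcont : ContinuousAt D' ![c 0, c 1, 0] :=
      hD'.continuousOn.continuousAt (isOpen_ball.mem_nhds hp)
    have h7 : ∀ᶠ z in 𝓝 (![c 0, c 1, 0] : Cn 3), D' z ≠ 0 := hcont.eventually_ne hc0
    obtain ⟨e, he, hes⟩ := Metric.eventually_nhds_iff_ball.1
      (h7.and (isOpen_ball.mem_nhds hp : ∀ᶠ z in 𝓝 (![c 0, c 1, 0] : Cn 3),
        z ∈ ball (0 : Cn 3) (δ ^ 2 / 2)))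
    refine ⟨min e 1, lt_min he one_pos, min_le_right _ _, fun z hz => ?_, fun z hz => ?_⟩
    · exact (hes z (ball_subset_ball (min_le_left _ _) hz)).2
    · exact (hes z (ball_subset_ball (min_le_left _ _) hz)).1
  obtain ⟨W, hWd⟩ : ∃ W : Set (Cn 3), W = ball (![c 0, c 1, 0] : Cn 3) ε1 ∩ {w | w 2 ≠ 0} :=
    ⟨_, rfl⟩
  have hWo : IsOpen W := by
    rw [hWd]
    exact isOpen_ball.inter (isOpen_ne_fun (by fun_prop) continuous_const)
  have hWs : W ⊆ ball 0 (δ ^ 2 / 2) := by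
    rw [hWd]
    exact inter_subset_left.trans hball
  have hWr : ∀ w ∈ W, (Zr H δ w).Finite ∧ (Zr H δ w).ncard = r := by
    intro w hw
    have hwb := hWs hw
    rw [hWd] at hw
    refine ⟨(hr w hwb).1, (hr w hwb).2.2 ?_⟩
    rw [hDD w hwb]
    exact mul_ne_zero (pow_ne_zero _ hw.2) (hne w hw.1)
  have hloc := h2 H δ r W hδ hδ1 hR hWo hWs hWr
  have hEW : ∀ w ∈ Lg c ε1, E3 w ∈ W := fun w hw => by rw [hWd]; exact E3_maps c hε hw
  -- global branches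
  obtain ⟨ρ, hρ, hρZ⟩ := h3 3 r (Lg c ε1) (fun w => Zr H δ (E3 w)) (Lg_convex c ε1) (Lg_open c ε1)
    ⟨![c 0, c 1, ((Real.log ε1 - 1 : ℝ) : ℂ)], by
      refine ⟨?_, ?_, ?_⟩
      · change ‖c 0 - c 0‖ < ε1
        rwa [sub_self, norm_zero]
      · change ‖c 1 - c 1‖ < ε1
        rwa [sub_self, norm_zero]
      · change ((Real.log ε1 - 1 : ℝ) : ℂ).re < Real.log ε1
        rw [Complex.ofReal_re]
        linarith⟩ (by
    intro w0 hw0
    obtain ⟨e, he, ρ', hbe, hρ', hZ'⟩ := hloc (E3 w0) (hEW w0 hw0)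
    have hct : ContinuousAt E3 w0 := E3_diff.continuous.continuousAt
    obtain ⟨e', he', hee⟩ := Metric.continuousAt_iff.1 hct e he
    refine ⟨e', he', fun i w => ρ' i (E3 w), fun i => ?_, fun w hw => ?_⟩
    · exact (hρ' i).comp E3_diff.differentiableOn fun w hw => hee hw
    · exact hZ' (E3 w) (hee hw.1))
  obtain ⟨N, hN, hper⟩ := h4 r c ε1 (Zr H δ) ρ hε hρ (fun w hw => hρZ w hw)
  have hbd : ∀ i, ∀ w ∈ Lg c ε1, ‖ρ i w‖ ≤ 1 / δ * ‖Complex.exp (w 2)‖ := by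
    intro i w hw
    have h7 : ρ i w ∈ Zr H δ (E3 w) := by
      rw [(hρZ w hw).2]
      exact ⟨i, rfl⟩
    have h8 := hWs (hEW w hw)
    rw [mem_ball_zero_iff] at h8
    exact zr_bd hδ hR (h8.trans_le hδδ) h7
  choose G hG hGρ using fun i => h5 c ε1 (1 / δ) N (ρ i) hε hε1 hN (hρ i) (hper i) (hbd i)
  refine ⟨r, N, G, ε1, hN, hε, hG, fun z hz hz2 => ?_⟩
  have hw := log_mem c hε hε1 hN hz hz2
  obtain ⟨g1, g2⟩ := hρZ _ hw
  have hE : E3 ![z 0, z 1, N * Complex.log (z 2)] = ![z 0, z 1, z 2 ^ N] := by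
    unfold E3
    ext i
    fin_cases i
    · rfl
    · rfl
    · exact exp_log hz2
  constructor
  · intro i j hij
    refine g1 ?_
    change ρ i ![z 0, z 1, N * Complex.log (z 2)] = ρ j ![z 0, z 1, N * Complex.log (z 2)]
    have hij' : G i z = G j z := hij
    rw [← hGρ i z hz hz2, ← hGρ j z hz hz2, hij']
  · rw [← hE]
    refine g2.trans ?_
    congr 1
    funext i
    exact (hGρ i z hz hz2).symm

end KP
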