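import Pool.Agent.Lib.KP.SpecW

/-!
# KP (MP_64edc4_ag), module QD: derivatives of functions with Puiseux expansions
-/

set_option autoImplicit false

open Set Filter Topology Metric

namespace KP

namespace QDAux

/-- The point `(p_0, p_1, p_2^(1/N))`. -/
noncomputable def pt (N : ℕ) (p : Fin 3 → ℝ) : Cn 3 :=
  e3 ![p 0, p 1] (p 2 ^ ((1 : ℝ) / (N : ℝ)))

lemma pt_mem (N : ℕ) (ε : ℝ) (hN : 1 ≤ N) (hε : 0 < ε) (p : Fin 3 → ℝ) (h0 : |p 0| < ε)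
    (h1 : |p 1| < ε) (h2 : 0 < p 2) (h3 : p 2 < ε ^ N) : pt N p ∈ ball (0 : Cn 3) ε := by
  have hN' : (0 : ℝ) < N := by exact_mod_cast hN
  rw [mem_ball_zero_iff, pi_norm_lt_iff hε]
  intro i
  fin_cases i
  · simpa [pt, e3] using h0
  · simpa [pt, e3] using h1
  · have h4 : p 2 ^ ((1 : ℝ) / (N : ℝ)) < ε := by
      have h5 := Real.rpow_lt_rpow h2.le h3 (by positivity : (0 : ℝ) < 1 / N)
      rwa [← Real.rpow_natCast, ← Real.rpow_mul hε.le, mul_one_div_cancel hN'.ne',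
        Real.rpow_one] at h5
    have h6 : 0 ≤ p 2 ^ ((1 : ℝ) / (N : ℝ)) := Real.rpow_nonneg h2.le _
    change ‖((p 2 ^ ((1 : ℝ) / (N : ℝ)) : ℝ) : ℂ)‖ < ε
    rw [Complex.norm_real, Real.norm_eq_abs, abs_of_nonneg h6]
    exact h4

/-- The derivative of `pt`. -/
noncomputable def ptD (N : ℕ) (p : Fin 3 → ℝ) : (Fin 3 → ℝ) →L[ℝ] Cn 3 :=
  ContinuousLinearMap.pi ![Complex.ofRealCLM.comp (ContinuousLinearMap.proj 0),
    Complex.ofRealCLM.comp (ContinuousLinearMap.proj 1),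
    Complex.ofRealCLM.comp
      ((((1 : ℝ) / (N : ℝ)) * p 2 ^ ((1 : ℝ) / (N : ℝ) - 1)) •
        (ContinuousLinearMap.proj 2 : (Fin 3 → ℝ) →L[ℝ] ℝ))]

lemma hasFDerivAt_rpow (b : ℝ) (p : Fin 3 → ℝ) (h2 : 0 < p 2) :
    HasFDerivAt (fun p : Fin 3 → ℝ => p 2 ^ b)
      ((b * p 2 ^ (b - 1)) • (ContinuousLinearMap.proj 2 : (Fin 3 → ℝ) →L[ℝ] ℝ)) p := by
  have h1 : HasFDerivAt (fun p : Fin 3 → ℝ => p 2)
      (ContinuousLinearMap.proj 2 : (Fin 3 → ℝ) →L[ℝ] ℝ) p := hasFDerivAt_apply 2 p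
  have h3 := (Real.hasDerivAt_rpow_const (x := p 2) (p := b) (Or.inl h2.ne')).comp_hasFDerivAt p h1
  exact h3

lemma hasFDerivAt_pt (N : ℕ) (p : Fin 3 → ℝ) (h2 : 0 < p 2) :
    HasFDerivAt (pt N) (ptD N p) p := by
  rw [hasFDerivAt_pi']
  intro i
  fin_cases i
  · have h1 : HasFDerivAt (fun p : Fin 3 → ℝ => ((p 0 : ℝ) : ℂ))
        (Complex.ofRealCLM.comp (ContinuousLinearMap.proj 0 : (Fin 3 → ℝ) →L[ℝ] ℝ)) p :=
      Complex.ofRealCLM.hasFDerivAt.comp p (hasFDerivAt_apply 0 p)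
    exact h1
  · have h1 : HasFDerivAt (fun p : Fin 3 → ℝ => ((p 1 : ℝ) : ℂ))
        (Complex.ofRealCLM.comp (ContinuousLinearMap.proj 1 : (Fin 3 → ℝ) →L[ℝ] ℝ)) p :=
      Complex.ofRealCLM.hasFDerivAt.comp p (hasFDerivAt_apply 1 p)
    exact h1
  · have h1 := Complex.ofRealCLM.hasFDerivAt.comp p
      (hasFDerivAt_rpow ((1 : ℝ) / (N : ℝ)) p h2)
    exact h1

lemma ptD_apply (N : ℕ) (p v : Fin 3 → ℝ) : ptD N p v =
    (v 0 : ℂ) • (Pi.single 0 1 : Cn 3) + (v 1 : ℂ) • (Pi.single 1 1 : Cn 3) +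
      ((((1 : ℝ) / (N : ℝ)) * p 2 ^ ((1 : ℝ) / (N : ℝ) - 1) * v 2 : ℝ) : ℂ) •
        (Pi.single 2 1 : Cn 3) := by
  ext i
  fin_cases i
  · simp [ptD]
  · simp [ptD]
  · simp [ptD]

lemma hasFDerivAt_qf (a : ℝ) (N : ℕ) (G : Cn 3 → ℂ) (p : Fin 3 → ℝ) (h2 : 0 < p 2)
    (hG : DifferentiableAt ℂ G (pt N p)) :
    HasFDerivAt (qf a N G)
      (p 2 ^ a • (Complex.reCLM.comp (((fderiv ℂ G (pt N p)).restrictScalars ℝ).comp (ptD N p))) +
        (G (pt N p)).re • ((a * p 2 ^ (a - 1)) •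
          (ContinuousLinearMap.proj 2 : (Fin 3 → ℝ) →L[ℝ] ℝ))) p := by
  have h1 : HasFDerivAt (fun q => (G (pt N q)).re)
      (Complex.reCLM.comp (((fderiv ℂ G (pt N p)).restrictScalars ℝ).comp (ptD N p))) p :=
    Complex.reCLM.hasFDerivAt.comp p
      ((hG.hasFDerivAt.restrictScalars ℝ).comp p (hasFDerivAt_pt N p h2))
  exact (hasFDerivAt_rpow a p h2).mul h1

end QDAux

open QDAux in
theorem tQD : S_QD := by
  intro a N G ε hN hε hG
  have hN' : (0 : ℝ) < N := by exact_mod_cast hN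
  have hd : ∀ j, DifferentiableOn ℂ (dG j G) (ball 0 ε) := by
    intro j
    exact (Pool.Agent.Lib.Osgood.differentiableOn_fderiv isOpen_ball hG).clm_apply
      (differentiableOn_const _)
  have h2c : Differentiable ℂ (fun z : Cn 3 => z 2 / (N : ℂ)) := by fun_prop
  refine ⟨hd, ?_, ?_⟩
  · exact (hG.const_mul _).add (h2c.differentiableOn.mul (hd 2))
  · intro p h0 h1 h2 h3
    have hp := pt_mem N ε hN hε p h0 h1 h2 h3
    have hGp : DifferentiableAt ℂ G (pt N p) := hG.differentiableAt (isOpen_ball.mem_nhds hp)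
    have hq := hasFDerivAt_qf a N G p h2 hGp
    refine ⟨hq.differentiableAt, fun v => ?_⟩
    rw [hq.fderiv]
    have e1 : fderiv ℂ G (pt N p) (ptD N p v) = (v 0 : ℂ) * dG 0 G (pt N p) +
        (v 1 : ℂ) * dG 1 G (pt N p) +
        ((((1 : ℝ) / (N : ℝ)) * p 2 ^ ((1 : ℝ) / (N : ℝ) - 1) * v 2 : ℝ) : ℂ) *
          dG 2 G (pt N p) := by
      rw [ptD_apply, map_add, map_add, map_smul, map_smul, map_smul]
      rfl
    have e2 : (fderiv ℂ G (pt N p) (ptD N p v)).re = v 0 * (dG 0 G (pt N p)).re +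
        v 1 * (dG 1 G (pt N p)).re +
        (((1 : ℝ) / (N : ℝ)) * p 2 ^ ((1 : ℝ) / (N : ℝ) - 1) * v 2) *
          (dG 2 G (pt N p)).re := by
      rw [e1]
      simp only [Complex.add_re, Complex.re_ofReal_mul]
    have e3' : (pt N p) 2 = ((p 2 ^ ((1 : ℝ) / (N : ℝ)) : ℝ) : ℂ) := rfl
    have e4 : (tG a N G (pt N p)).re = a * (G (pt N p)).re +
        p 2 ^ ((1 : ℝ) / (N : ℝ)) / N * (dG 2 G (pt N p)).re := by
      have : tG a N G (pt N p) = ((a : ℝ) : ℂ) * G (pt N p) +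
          ((p 2 ^ ((1 : ℝ) / (N : ℝ)) / (N : ℝ) : ℝ) : ℂ) * dG 2 G (pt N p) := by
        simp only [tG]
        rw [e3']
        push_cast
        ring
      rw [this]
      simp only [Complex.add_re, Complex.re_ofReal_mul]
    have e5 : p 2 ^ a * p 2 ^ ((1 : ℝ) / (N : ℝ) - 1) =
        p 2 ^ (a - 1) * p 2 ^ ((1 : ℝ) / (N : ℝ)) := by
      rw [← Real.rpow_add h2, ← Real.rpow_add h2]
      congr 1
      ring
    change p 2 ^ a * (fderiv ℂ G (pt N p) (ptD N p v)).re +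
        (G (pt N p)).re * ((a * p 2 ^ (a - 1)) * v 2) =
      v 0 * (p 2 ^ a * (dG 0 G (pt N p)).re) + v 1 * (p 2 ^ a * (dG 1 G (pt N p)).re) +
        v 2 * (p 2 ^ (a - 1) * (tG a N G (pt N p)).re)
    rw [e2, e4]
    linear_combination ((dG 2 G (pt N p)).re * v 2 / N) * e5

end KP
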