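import Pool.Agent.Lib.KP.SpecW

set_option autoImplicit false

open Set Filter Topology Metric

namespace KP

theorem tRId : S_RId := by
  intro n F δ hF hr z hz
  rw [mem_ball_zero_iff] at hz
  have hδ : 0 < δ := (norm_nonneg z).trans_lt hz
  let L : ℂ → Cn n := fun ζ i => ((z i).re : ℂ) + ζ * ((z i).im : ℂ)
  have hLd : Differentiable ℂ L := by
    rw [differentiable_pi]
    intro i
    fun_prop
  have hCo : IsOpen (L ⁻¹' ball 0 δ) := isOpen_ball.preimage hLd.continuous
  have hCc : Convex ℝ (L ⁻¹' ball 0 δ) := by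
    intro a ha b hb s t hs ht hst
    rw [mem_preimage] at ha hb ⊢
    have h1 : L (s • a + t • b) = s • L a + t • L b := by
      funext i
      simp only [L, Pi.add_apply, Pi.smul_apply, Complex.real_smul]
      have h2 : (s : ℂ) + (t : ℂ) = 1 := by
        rw [← Complex.ofReal_add, hst, Complex.ofReal_one]
      linear_combination - ((z i).re : ℂ) * h2
    rw [h1]
    exact convex_ball (0 : Cn n) δ ha hb hs ht hst
  have hre : ∀ i, |(z i).re| ≤ ‖z‖ := fun i => (Complex.abs_re_le_norm _).trans (norm_le_pi_norm z i)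
  have h0 : (0 : ℂ) ∈ L ⁻¹' ball 0 δ := by
    rw [mem_preimage, mem_ball_zero_iff, pi_norm_lt_iff hδ]
    intro i
    simp only [L, zero_mul, add_zero, Complex.norm_real, Real.norm_eq_abs]
    exact (hre i).trans_lt hz
  have hI : Complex.I ∈ L ⁻¹' ball 0 δ := by
    rw [mem_preimage, mem_ball_zero_iff]
    have : L Complex.I = z := by
      funext i
      simp only [L]
      rw [mul_comm]
      exact Complex.re_add_im (z i)
    rw [this]
    exact hz
  have hg : DifferentiableOn ℂ (fun ζ => F (L ζ)) (L ⁻¹' ball 0 δ) :=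
    hF.comp hLd.differentiableOn (fun _ h => h)
  have hga := hg.analyticOnNhd hCo
  have hfr : ∃ᶠ ζ in 𝓝[≠] (0 : ℂ), (fun ζ => F (L ζ)) ζ = 0 := by
    have h1 : Tendsto (fun t : ℝ => (t : ℂ)) (𝓝[≠] 0) (𝓝[≠] 0) := by
      refine tendsto_nhdsWithin_of_tendsto_nhds_of_eventually_within _ ?_ ?_
      · have := Complex.continuous_ofReal.tendsto (0 : ℝ)
        rw [Complex.ofReal_zero] at this
        exact this.mono_left nhdsWithin_le_nhds
      · filter_upwards [self_mem_nhdsWithin] with t ht
        rw [mem_compl_iff, mem_singleton_iff] at ht ⊢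
        rwa [Complex.ofReal_eq_zero]
    have h2 : ∀ᶠ t : ℝ in 𝓝[≠] 0, (fun ζ => F (L ζ)) (t : ℂ) = 0 := by
      have h3 : ∀ᶠ ζ in 𝓝[≠] (0 : ℂ), ζ ∈ L ⁻¹' ball 0 δ :=
        nhdsWithin_le_nhds (hCo.mem_nhds h0)
      filter_upwards [h1.eventually h3] with t ht
      have h4 : L (t : ℂ) = fun i => (((z i).re + t * (z i).im : ℝ) : ℂ) := by
        funext i
        simp [L]
      show F (L (t : ℂ)) = 0
      rw [mem_preimage, mem_ball_zero_iff] at ht
      rw [h4] at ht ⊢
      refine hr (fun i => (z i).re + t * (z i).im) ?_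
      rw [pi_norm_lt_iff hδ] at ht ⊢
      intro i
      have := ht i
      rwa [Complex.norm_real] at this
    exact h1.frequently h2.frequently
  have h := hga.eqOn_zero_of_preconnected_of_frequently_eq_zero hCc.isPreconnected h0 hfr hI
  have h5 : F (L Complex.I) = 0 := h
  have h6 : L Complex.I = z := by
    funext i
    simp only [L]
    rw [mul_comm]
    exact Complex.re_add_im (z i)
  rw [h6] at h5
  exact h5

end KP
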