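import Pool.Agent.Lib.KP.SpecW

set_option autoImplicit false

open Set Filter Topology Metric

namespace KP

namespace RSAux

theorem e3_mem {x : Fin 2 → ℝ} {σ ε : ℝ} (hx : ‖x‖ < ε) (h0 : 0 ≤ σ) (hσ : σ < ε) :
    e3 x σ ∈ ball (0 : Cn 3) ε := by
  have hε : 0 < ε := h0.trans_lt hσ
  rw [mem_ball_zero_iff, pi_norm_lt_iff hε]
  have hx' := (pi_norm_lt_iff hε).1 hx
  intro i
  fin_cases i
  · simpa [e3] using hx' 0
  · simpa [e3] using hx' 1
  · simpa [e3, abs_of_nonneg h0] using hσ

theorem e3_cont (x : Fin 2 → ℝ) : Continuous (fun σ : ℝ => e3 x σ) := by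
  refine continuous_pi fun i => ?_
  fin_cases i
  · exact continuous_const
  · exact continuous_const
  · exact Complex.continuous_ofReal

theorem em_lt {x y : Fin 2 → ℝ} {δ : ℝ} (hx : ‖x‖ < δ) (hy : ‖y‖ < δ) :
    em x y ∈ ball (0 : Cn 4) δ := by
  have hδ : 0 < δ := (norm_nonneg x).trans_lt hx
  rw [mem_ball_zero_iff, pi_norm_lt_iff hδ]
  have hx' := (pi_norm_lt_iff hδ).1 hx
  have hy' := (pi_norm_lt_iff hδ).1 hy
  intro i
  fin_cases i
  · simpa [em] using hx' 0
  · simpa [em] using hx' 1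
  · simpa [em] using hy' 0
  · simpa [em] using hy' 1

theorem em_cont : Continuous (fun z : Cn 2 => em (fun i => (z i).re) (fun i => (z i).im)) := by
  refine continuous_pi fun i => ?_
  fin_cases i
  · exact Complex.continuous_ofReal.comp (Complex.continuous_re.comp (continuous_apply 0))
  · exact Complex.continuous_ofReal.comp (Complex.continuous_re.comp (continuous_apply 1))
  · exact Complex.continuous_ofReal.comp (Complex.continuous_im.comp (continuous_apply 0))
  · exact Complex.continuous_ofReal.comp (Complex.continuous_im.comp (continuous_apply 1))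

theorem cp_eq (z : Cn 2) : cp (fun i => (z i).re) (fun i => (z i).im) = z := by
  ext i
  exact Complex.re_add_im (z i)

theorem cp_re (x y : Fin 2 → ℝ) : (fun i => (cp x y i).re) = x := by
  ext i
  simp [cp]

theorem cp_im (x y : Fin 2 → ℝ) : (fun i => (cp x y i).im) = y := by
  ext i
  simp [cp]

/-- at a point where no function vanishes the set has no boundary -/
theorem no_fr {A : Set (Cn 2)} {m : ℕ} {F : Fin m → Cn 4 → ℂ} {δ : ℝ} (h : Def A m F δ)
    {x y : Fin 2 → ℝ} (hx : ‖x‖ < δ) (hy : ‖y‖ < δ) (hk : ∀ k, F k (em x y) ≠ 0) :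
    cp x y ∉ frontier A := by
  set z0 : Cn 2 := cp x y with hz0
  have e1 : (fun i => (z0 i).re) = x := cp_re x y
  have e2 : (fun i => (z0 i).im) = y := cp_im x y
  have h1 : ∀ᶠ z in 𝓝 z0, ‖(fun i => (z i).re : Fin 2 → ℝ)‖ < δ := by
    have hc : ContinuousAt (fun z : Cn 2 => ‖(fun i => (z i).re : Fin 2 → ℝ)‖) z0 := by
      refine Continuous.continuousAt ?_
      refine continuous_norm.comp (continuous_pi fun i => ?_)
      exact Complex.continuous_re.comp (continuous_apply i)
    refine hc.eventually_lt_const ?_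
    beta_reduce
    rw [e1]
    exact hx
  have h2 : ∀ᶠ z in 𝓝 z0, ‖(fun i => (z i).im : Fin 2 → ℝ)‖ < δ := by
    have hc : ContinuousAt (fun z : Cn 2 => ‖(fun i => (z i).im : Fin 2 → ℝ)‖) z0 := by
      refine Continuous.continuousAt ?_
      refine continuous_norm.comp (continuous_pi fun i => ?_)
      exact Complex.continuous_im.comp (continuous_apply i)
    refine hc.eventually_lt_const ?_
    beta_reduce
    rw [e2]
    exact hy
  have h3 : ∀ k, ∀ᶠ z in 𝓝 z0, SignType.sign
      (F k (em (fun i => (z i).re) (fun i => (z i).im))).re = SignType.sign (F k (em x y)).re := by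
    intro k
    have hre : (F k (em x y)).re ≠ 0 := by
      intro h4
      exact hk k (Complex.ext h4 (h.real k x y hx hy))
    have hc : ContinuousAt (fun z : Cn 2 =>
        (F k (em (fun i => (z i).re) (fun i => (z i).im))).re) z0 := by
      have hF : ContinuousAt (F k) (em (fun i => (z0 i).re) (fun i => (z0 i).im)) := by
        rw [e1, e2]
        exact (h.hol k).continuousOn.continuousAt (isOpen_ball.mem_nhds (em_lt hx hy))
      exact Complex.continuous_re.continuousAt.comp
        (ContinuousAt.comp (f := fun z : Cn 2 => em (fun i => (z i).re) (fun i => (z i).im))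
          hF em_cont.continuousAt)
    rcases lt_or_gt_of_ne hre with h4 | h4
    · have h5 : ∀ᶠ z in 𝓝 z0, (F k (em (fun i => (z i).re) (fun i => (z i).im))).re < 0 := by
        refine hc.eventually_lt_const ?_
        beta_reduce
        rw [e1, e2]
        exact h4
      filter_upwards [h5] with z hz
      rw [sign_neg hz, sign_neg h4]
    · have h5 : ∀ᶠ z in 𝓝 z0, 0 < (F k (em (fun i => (z i).re) (fun i => (z i).im))).re := by
        refine hc.eventually_const_lt ?_
        beta_reduce
        rw [e1, e2]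
        exact h4
      filter_upwards [h5] with z hz
      rw [sign_pos hz, sign_pos h4]
  have h4 : ∀ᶠ z in 𝓝 z0, (z ∈ A ↔ z0 ∈ A) := by
    filter_upwards [h1, h2, eventually_all.2 h3] with z a1 a2 a3
    have h5 := h.sgn _ _ x y a1 a2 hx hy a3
    rwa [cp_eq] at h5
  intro hfr
  by_cases hA : z0 ∈ A
  · have h5 : z0 ∈ interior A := by
      rw [mem_interior_iff_mem_nhds]
      filter_upwards [h4] with z hz
      exact hz.2 hA
    exact hfr.2 h5
  · have h5 : z0 ∈ closure A := hfr.1
    rw [mem_closure_iff_frequently] at h5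
    exact h5 (h4.mono fun z hz hzA => hA (hz.1 hzA))

end RSAux

open RSAux in
/-- **RS** -/
theorem tRS (h1 : S_RSa) (h2 : S_RSw) : S_RS := by
  classical
  intro A m F δ r N G ε h
  have hδ := h.wal.std.df.hδ
  have hδ1 := h.wal.std.df.hδ1
  have hεδ := h.wal.hεδ
  have hN := h.wal.hN
  have hε := h.wal.hε
  set J : Finset (Fin r) := Finset.univ.filter (fun i => ∀ (x : Fin 2 → ℝ) (σ : ℝ), ‖x‖ < ε →
    0 < σ → σ < ε → (G i (e3 x σ)).im = 0) with hJ
  set g : Fin J.card → Fin r := fun a => ((J.equivFin.symm a : J) : Fin r) with hg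
  have hgJ : ∀ a, ∀ (x : Fin 2 → ℝ) (σ : ℝ), ‖x‖ < ε →
      0 < σ → σ < ε → (G (g a) (e3 x σ)).im = 0 := fun a =>
    (Finset.mem_filter.1 (J.equivFin.symm a).2).2
  have hsurj : ∀ i ∈ J, ∃ a, g a = i := by
    intro i hi
    refine ⟨J.equivFin ⟨i, hi⟩, ?_⟩
    show ((J.equivFin.symm (J.equivFin ⟨i, hi⟩) : J) : Fin r) = i
    rw [Equiv.symm_apply_apply]
  have hinj : ∀ a b, a ≠ b → g a ≠ g b := by
    intro a b hab h3
    exact hab (J.equivFin.symm.injective (Subtype.ext h3))
  have hε'0 : 0 < min ε (δ ^ 2) := lt_min hε (by positivity)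
  have hsub : ball (0 : Cn 3) (min ε (δ ^ 2)) ⊆ ball 0 ε := ball_subset_ball (min_le_left _ _)
  refine ⟨J.card, fun a => G (g a), min ε (δ ^ 2), ?_⟩
  refine ⟨h.wal.std.opn, hN, hε'0, min_le_right _ _, hδ, hδ1, ?_, ?_, ?_, ?_, ?_, ?_, ?_⟩
  · intro a
    exact (h.wal.hG (g a)).mono hsub
  · intro a z hz
    exact h.wal.bdd (g a) z (hsub hz)
  · intro a x σ hx h0 hσ
    have hx' := hx.trans_le (min_le_left ε (δ ^ 2))
    have hσ' := hσ.trans_le (min_le_left ε (δ ^ 2))
    rcases h0.eq_or_lt with h3 | h3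
    · -- the limit
      subst h3
      have hc : ContinuousAt (fun σ : ℝ => (G (g a) (e3 x σ)).im) 0 := by
        have h4 : ContinuousAt (G (g a)) (e3 x 0) :=
          (h.wal.hG (g a)).continuousOn.continuousAt
            (isOpen_ball.mem_nhds (e3_mem hx' le_rfl hσ'))
        exact Complex.continuous_im.continuousAt.comp
          (ContinuousAt.comp (f := fun σ : ℝ => e3 x σ) h4 (e3_cont x).continuousAt)
      have h5 : Tendsto (fun σ : ℝ => (G (g a) (e3 x σ)).im) (𝓝[>] 0)
          (𝓝 (G (g a) (e3 x 0)).im) := hc.tendsto.mono_left nhdsWithin_le_nhds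
      have h6 : Tendsto (fun σ : ℝ => (G (g a) (e3 x σ)).im) (𝓝[>] 0) (𝓝 0) := by
        refine tendsto_const_nhds.congr' ?_
        filter_upwards [Ioo_mem_nhdsGT hε] with s hs
        exact (hgJ a x s hx' hs.1 hs.2).symm
      exact tendsto_nhds_unique h5 h6
    · exact hgJ a x σ hx' h3 hσ'
  · intro a b hab
    obtain ⟨q, E, hE, hE0, hEe⟩ := h.dif (g a) (g b) (hinj a b hab)
    exact ⟨q, E, hE.mono hsub, fun z hz => hE0 z (hsub hz), fun z hz => hEe z (hsub hz)⟩
  · intro a
    rcases h2 A m F δ r N G ε h (g a) (hgJ a) with h3 | h3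
    · left
      intro x σ hx h0 hσ
      exact h3 x σ (hx.trans_le (min_le_left _ _)) h0 (hσ.trans_le (min_le_left _ _))
    · right
      intro x σ hx h0 hσ
      exact h3 x σ (hx.trans_le (min_le_left _ _)) h0 (hσ.trans_le (min_le_left _ _))
  · intro x σ t hx h0 hσ ht hfr
    have hx' := hx.trans_le (min_le_left ε (δ ^ 2))
    have hσ' := hσ.trans_le (min_le_left ε (δ ^ 2))
    have hy : ‖(![σ ^ N, t] : Fin 2 → ℝ)‖ < δ := by
      rw [pi_norm_lt_iff hδ]
      intro j
      fin_cases j
      · have h6 : σ ^ N ≤ σ := pow_le_of_le_one h0.le (by linarith) (by omega)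
        have h7 : |σ ^ N| < δ := by
          rw [abs_of_pos (pow_pos h0 N)]
          linarith
        simpa using h7
      · simpa using ht
    have hσ0 : (e3 x σ) 2 = ((σ : ℝ) : ℂ) := rfl
    have hem : em x ![σ ^ N, t] = ![(e3 x σ) 0, (e3 x σ) 1, (e3 x σ) 2 ^ N, (t : ℂ)] := by
      ext j
      fin_cases j
      · rfl
      · rfl
      · show (((![σ ^ N, t] : Fin 2 → ℝ) 0 : ℝ) : ℂ) = (e3 x σ) 2 ^ N
        rw [hσ0, ← Complex.ofReal_pow]
        rfl
      · rfl
    by_cases hk : ∀ k, F k (em x ![σ ^ N, t]) ≠ 0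
    · exact absurd hfr (no_fr h.wal.std.df (hx'.trans_le hεδ) hy hk)
    · push Not at hk
      rw [hem] at hk
      have hz := e3_mem hx' h0.le hσ'
      have hz2 : (e3 x σ) 2 ≠ 0 := by
        rw [hσ0]
        exact_mod_cast h0.ne'
      obtain ⟨i, hi⟩ := (h.wal.zer (e3 x σ) hz hz2 (t : ℂ) (by simpa using ht)).1 hk
      rw [hσ0, ← Complex.ofReal_pow] at hi
      have him : (G i (e3 x σ)).im = 0 := by
        have h3 := congrArg Complex.im hi
        rw [Complex.ofReal_im, Complex.im_ofReal_mul] at h3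
        exact (mul_eq_zero.1 h3.symm).resolve_left (pow_pos h0 N).ne'
      have hiJ : i ∈ J := by
        refine Finset.mem_filter.2 ⟨Finset.mem_univ _, ?_⟩
        rcases h1 A m F δ r N G ε h.wal i with h3 | h3
        · exact h3
        · exact absurd him (h3 x σ hx' h0 hσ')
      obtain ⟨a, ha⟩ := hsurj i hiJ
      refine ⟨a, ?_⟩
      show t = σ ^ N * (G (g a) (e3 x σ)).re
      rw [ha]
      have h3 := congrArg Complex.re hi
      rw [Complex.ofReal_re, Complex.re_ofReal_mul] at h3
      exact h3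
  · exact h.wal.std.vx

end KP
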