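import Pool.Agent.Lib.KP.SpecW

/-!
# KP W/RSa: real or nonreal walls (helper57)
-/

set_option autoImplicit false

open Set Filter Topology Metric

namespace KP

namespace RSaAux

theorem star_mem {n : ℕ} {δ : ℝ} {z : Cn n} (hz : z ∈ ball (0 : Cn n) δ) : star z ∈ ball (0 : Cn n) δ := by
  rw [mem_ball_zero_iff] at hz ⊢
  rwa [norm_star]

theorem conj_F (h1 : S_RId) {A : Set (Cn 2)} {m : ℕ} {F : Fin m → Cn 4 → ℂ} {δ : ℝ}
    (hD : Def A m F δ) (k : Fin m) {z : Cn 4} (hz : z ∈ ball (0 : Cn 4) δ) :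
    F k (star z) = star (F k z) := by
  have hδ := hD.hδ
  have hF := hD.hol k
  have hd : DifferentiableOn ℂ (fun z => star (F k (star z)) - F k z) (ball 0 δ) := by
    refine DifferentiableOn.sub ?_ hF
    intro w hw
    have h2 : DifferentiableAt ℂ (F k) (star w) :=
      (hF _ (star_mem hw)).differentiableAt (isOpen_ball.mem_nhds (star_mem hw))
    have h3 := h2.star_star
    rw [star_star] at h3
    exact h3.differentiableWithinAt
  have h4 := h1 4 _ δ hd (by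
    intro x hx
    have hx1 := (pi_norm_lt_iff hδ).1 hx
    have e1 : (fun i => ((x i : ℝ) : ℂ)) = em ![x 0, x 1] ![x 2, x 3] := by
      ext i
      fin_cases i <;> rfl
    have e2 : star (em ![x 0, x 1] ![x 2, x 3]) = em ![x 0, x 1] ![x 2, x 3] := by
      rw [← e1]
      ext i
      show star ((x i : ℝ) : ℂ) = _
      exact Complex.conj_ofReal _
    have hr := hD.real k ![x 0, x 1] ![x 2, x 3] (by
      rw [pi_norm_lt_iff hδ]
      intro i
      fin_cases i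
      · exact hx1 0
      · exact hx1 1) (by
      rw [pi_norm_lt_iff hδ]
      intro i
      fin_cases i
      · exact hx1 2
      · exact hx1 3)
    show star (F k (star fun i => ((x i : ℝ) : ℂ))) - F k (fun i => ((x i : ℝ) : ℂ)) = 0
    rw [e1, e2]
    have e3 : star (F k (em ![x 0, x 1] ![x 2, x 3])) = F k (em ![x 0, x 1] ![x 2, x 3]) :=
      Complex.conj_eq_iff_im.2 hr
    rw [e3, sub_self]) z hz
  have h5 : star (F k (star z)) = F k z := sub_eq_zero.1 h4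
  rw [← h5, star_star]

theorem e3_mem {ε : ℝ} (hε : 0 < ε) {x : Fin 2 → ℝ} {σ : ℝ} (hx : ‖x‖ < ε) (h0 : 0 < σ) (hσ : σ < ε) :
    e3 x σ ∈ ball (0 : Cn 3) ε := by
  rw [mem_ball_zero_iff, pi_norm_lt_iff hε]
  have h1 := (pi_norm_lt_iff hε).1 hx
  intro i
  fin_cases i
  · show ‖((x 0 : ℝ) : ℂ)‖ < ε
    rw [Complex.norm_real]
    exact h1 0
  · show ‖((x 1 : ℝ) : ℂ)‖ < ε
    rw [Complex.norm_real]
    exact h1 1
  · show ‖((σ : ℝ) : ℂ)‖ < ε
    rw [Complex.norm_real, Real.norm_of_nonneg h0.le]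
    exact hσ

theorem continuous_e3 : Continuous fun p : (Fin 2 → ℝ) × ℝ => e3 p.1 p.2 := by
  refine continuous_pi fun i => ?_
  fin_cases i
  · exact Complex.continuous_ofReal.comp ((continuous_apply 0).comp continuous_fst)
  · exact Complex.continuous_ofReal.comp ((continuous_apply 1).comp continuous_fst)
  · exact Complex.continuous_ofReal.comp continuous_snd

/-- the conjugate of a branch at a real point is a branch -/
theorem conj_branch (h1 : S_RId) {A : Set (Cn 2)} {m : ℕ} {F : Fin m → Cn 4 → ℂ} {δ : ℝ} {r N : ℕ}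
    {G : Fin r → Cn 3 → ℂ} {ε : ℝ} (hW : Wal A m F δ r N G ε) (i : Fin r) {x : Fin 2 → ℝ} {σ : ℝ}
    (hx : ‖x‖ < ε) (h0 : 0 < σ) (hσ : σ < ε) : ∃ j, star (G i (e3 x σ)) = G j (e3 x σ) := by
  have hε := hW.hε
  have hz := e3_mem hε hx h0 hσ
  have hσ0 : ((σ : ℝ) : ℂ) ≠ 0 := Complex.ofReal_ne_zero.2 h0.ne'
  have hz2 : e3 x σ 2 ≠ 0 := hσ0
  have hb := hW.bdd i _ hz
  obtain ⟨k, hk⟩ := (hW.zer _ hz hz2 _ hb).2 ⟨i, rfl⟩
  set t : ℂ := e3 x σ 2 ^ N * G i (e3 x σ) with ht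
  have hδ := hW.std.df.hδ
  have hp : (![e3 x σ 0, e3 x σ 1, e3 x σ 2 ^ N, t] : Cn 4) ∈ ball (0 : Cn 4) δ := by
    rw [mem_ball_zero_iff, pi_norm_lt_iff hε] at hz
    rw [mem_ball_zero_iff, pi_norm_lt_iff hδ]
    intro l
    fin_cases l
    · exact (hz 0).trans_le hW.hεδ
    · exact (hz 1).trans_le hW.hεδ
    · show ‖e3 x σ 2 ^ N‖ < δ
      rw [norm_pow]
      have h3 : ‖e3 x σ 2‖ ≤ 1 := ((hz 2).trans_le (hW.hεδ.trans hW.std.df.hδ1)).le
      have h4 : ‖e3 x σ 2‖ ^ N ≤ ‖e3 x σ 2‖ := pow_le_of_le_one (norm_nonneg _) h3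
        (by have := hW.hN; omega)
      exact (h4.trans_lt (hz 2)).trans_le hW.hεδ
    · exact hb
  have hc := conj_F h1 hW.std.df k hp
  rw [hk, star_zero] at hc
  have hs : ∀ l, star (e3 x σ l) = e3 x σ l := by
    intro l
    fin_cases l
    · exact Complex.conj_ofReal _
    · exact Complex.conj_ofReal _
    · exact Complex.conj_ofReal _
  have e : star (![e3 x σ 0, e3 x σ 1, e3 x σ 2 ^ N, t] : Cn 4) =
      ![e3 x σ 0, e3 x σ 1, e3 x σ 2 ^ N, star t] := by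
    ext l
    fin_cases l
    · exact hs 0
    · exact hs 1
    · show star (e3 x σ 2 ^ N) = e3 x σ 2 ^ N
      rw [star_pow, hs]
    · rfl
  rw [e] at hc
  obtain ⟨j, hj⟩ := (hW.zer _ hz hz2 (star t) (by rwa [norm_star])).1 ⟨k, hc⟩
  refine ⟨j, ?_⟩
  rw [ht, star_mul', star_pow, hs] at hj
  exact mul_left_cancel₀ (pow_ne_zero N hz2) hj

end RSaAux

open RSaAux

theorem tRSa (h1 : S_RId) : S_RSa := by
  intro A m F δ r N G ε hW i
  have hε := hW.hε
  set P : Set ((Fin 2 → ℝ) × ℝ) := ball (0 : Fin 2 → ℝ) ε ×ˢ Ioo (0 : ℝ) ε with hP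
  have hPo : IsOpen P := isOpen_ball.prod isOpen_Ioo
  have hPc : IsPreconnected P := ((convex_ball _ _).prod (convex_Ioo _ _)).isPreconnected
  have hmem : ∀ p ∈ P, e3 p.1 p.2 ∈ ball (0 : Cn 3) ε := by
    intro p hp
    exact e3_mem hε (mem_ball_zero_iff.1 hp.1) hp.2.1 hp.2.2
  have hG : ∀ j, ContinuousOn (fun p : (Fin 2 → ℝ) × ℝ => G j (e3 p.1 p.2)) P := fun j =>
    (hW.hG j).continuousOn.comp continuous_e3.continuousOn hmem
  -- the two open sets
  set U1 : Set ((Fin 2 → ℝ) × ℝ) := P ∩ {p | (G i (e3 p.1 p.2)).im ≠ 0} with hU1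
  set U2 : Set ((Fin 2 → ℝ) × ℝ) := P ∩ {p | ∀ j, j ≠ i → star (G i (e3 p.1 p.2)) ≠ G j (e3 p.1 p.2)}
    with hU2
  have ho1 : IsOpen U1 := by
    have h2 : ContinuousOn (fun p : (Fin 2 → ℝ) × ℝ => (G i (e3 p.1 p.2)).im) P :=
      Complex.continuous_im.comp_continuousOn (hG i)
    exact h2.isOpen_inter_preimage hPo isOpen_ne
  have ho2 : IsOpen U2 := by
    have e : U2 = P ∩ ⋂ j, {p | p ∈ P ∧ (j ≠ i → star (G i (e3 p.1 p.2)) - G j (e3 p.1 p.2) ≠ 0)} := by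
      ext p
      simp only [hU2, mem_inter_iff, mem_ofPred_eq, mem_iInter, sub_ne_zero]
      constructor
      · rintro ⟨h2, h3⟩
        exact ⟨h2, fun j => ⟨h2, h3 j⟩⟩
      · rintro ⟨h2, h3⟩
        exact ⟨h2, fun j => (h3 j).2⟩
    rw [e]
    refine hPo.inter (isOpen_iInter_of_finite fun j => ?_)
    by_cases hj : j = i
    · have e2 : {p : (Fin 2 → ℝ) × ℝ | p ∈ P ∧ (j ≠ i → star (G i (e3 p.1 p.2)) -
          G j (e3 p.1 p.2) ≠ 0)} = P := by
        ext p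
        exact ⟨fun h => h.1, fun h => ⟨h, fun h' => absurd hj h'⟩⟩
      rw [e2]
      exact hPo
    · have e2 : {p : (Fin 2 → ℝ) × ℝ | p ∈ P ∧ (j ≠ i → star (G i (e3 p.1 p.2)) -
          G j (e3 p.1 p.2) ≠ 0)} = P ∩ (fun p : (Fin 2 → ℝ) × ℝ => star (G i (e3 p.1 p.2)) -
          G j (e3 p.1 p.2)) ⁻¹' {w | w ≠ 0} := by
        ext p
        exact ⟨fun h => ⟨h.1, h.2 hj⟩, fun h => ⟨h.1, fun _ => h.2⟩⟩
      rw [e2]
      exact ((continuous_star.comp_continuousOn (hG i)).sub (hG j)).isOpen_inter_preimage hPo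
        isOpen_ne
  have hdis : Disjoint U1 U2 := by
    rw [Set.disjoint_left]
    rintro p ⟨hp, hp1⟩ ⟨-, hp2⟩
    obtain ⟨j, hj⟩ := conj_branch h1 hW i (mem_ball_zero_iff.1 hp.1) hp.2.1 hp.2.2
    by_cases hji : j = i
    · rw [hji] at hj
      exact hp1 (Complex.conj_eq_iff_im.1 hj)
    · exact hp2 j hji hj
  have hcov : P ⊆ U1 ∪ U2 := by
    intro p hp
    by_cases h2 : (G i (e3 p.1 p.2)).im = 0
    · right
      refine ⟨hp, fun j hj h3 => hj ?_⟩
      have h4 : star (G i (e3 p.1 p.2)) = G i (e3 p.1 p.2) := Complex.conj_eq_iff_im.2 h2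
      rw [h4] at h3
      have h5 : e3 p.1 p.2 2 ≠ 0 := Complex.ofReal_ne_zero.2 hp.2.1.ne'
      exact (hW.inj _ (hmem p hp) h5 h3).symm
    · exact Or.inl ⟨hp, h2⟩
  rcases hPc.subset_or_subset ho1 ho2 hdis hcov with h | h
  · right
    intro x σ hx h0 hσ
    exact (h (show (x, σ) ∈ P from ⟨mem_ball_zero_iff.2 hx, h0, hσ⟩)).2
  · left
    intro x σ hx h0 hσ
    obtain ⟨-, h2⟩ := h (show (x, σ) ∈ P from ⟨mem_ball_zero_iff.2 hx, h0, hσ⟩)
    obtain ⟨j, hj⟩ := conj_branch h1 hW i hx h0 hσ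
    by_cases hji : j = i
    · rw [hji] at hj
      exact Complex.conj_eq_iff_im.1 hj
    · exact absurd hj (h2 j hji)

end KP
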