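import Pool.Agent.Lib.KP.SpecW

set_option autoImplicit false

open Set Filter Topology Metric

namespace KP

namespace RSwAux

/-- the sign of a continuous function without zeros is constant -/
theorem sign_const {X : Type} [TopologicalSpace X] {D : Set X} (hD : IsPreconnected D) {f : X → ℝ}
    (hf : ContinuousOn f D) (h0 : ∀ p ∈ D, f p ≠ 0) {p p' : X} (hp : p ∈ D) (hp' : p' ∈ D) :
    SignType.sign (f p) = SignType.sign (f p') := by
  rcases lt_or_gt_of_ne (h0 p hp) with h1 | h1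
  · rcases lt_or_gt_of_ne (h0 p' hp') with h2 | h2
    · rw [sign_neg h1, sign_neg h2]
    · obtain ⟨q, hq, hq0⟩ := hD.intermediate_value hp hp' hf ⟨h1.le, h2.le⟩
      exact absurd hq0 (h0 q hq)
  · rcases lt_or_gt_of_ne (h0 p' hp') with h2 | h2
    · obtain ⟨q, hq, hq0⟩ := hD.intermediate_value hp' hp hf ⟨h2.le, h1.le⟩
      exact absurd hq0 (h0 q hq)
    · rw [sign_pos h1, sign_pos h2]

theorem e3_mem {x : Fin 2 → ℝ} {σ ε : ℝ} (hx : ‖x‖ < ε) (h0 : 0 ≤ σ) (hσ : σ < ε) :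
    e3 x σ ∈ ball (0 : Cn 3) ε := by
  have hε : 0 < ε := h0.trans_lt hσ
  rw [mem_ball_zero_iff, pi_norm_lt_iff hε]
  have hx' := (pi_norm_lt_iff hε).1 hx
  intro i
  fin_cases i
  · simpa [e3] using hx' 0
  · simpa [e3] using hx' 1
  · simpa [e3, abs_of_nonneg h0] using hσ

theorem e3_cont : Continuous (fun p : (Fin 2 → ℝ) × ℝ => e3 p.1 p.2) := by
  refine continuous_pi fun i => ?_
  fin_cases i
  · exact Complex.continuous_ofReal.comp ((continuous_apply 0).comp continuous_fst)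
  · exact Complex.continuous_ofReal.comp ((continuous_apply 1).comp continuous_fst)
  · exact Complex.continuous_ofReal.comp continuous_snd

end RSwAux

open RSwAux in
/-- **RSw** -/
theorem tRSw : S_RSw := by
  intro A m F δ r N G ε h i hreal
  have hδ := h.wal.std.df.hδ
  have hδ1 := h.wal.std.df.hδ1
  have hεδ := h.wal.hεδ
  have hN := h.wal.hN
  set D : Set ((Fin 2 → ℝ) × ℝ) := ball 0 ε ×ˢ Ioo 0 ε with hD
  have hDc : IsPreconnected D := ((convex_ball _ _).prod (convex_Ioo _ _)).isPreconnected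
  have memD : ∀ p ∈ D, ‖p.1‖ < ε ∧ 0 < p.2 ∧ p.2 < ε := by
    rintro ⟨x, σ⟩ ⟨h1, h2⟩
    exact ⟨mem_ball_zero_iff.1 h1, h2.1, h2.2⟩
  -- the point on the wall
  have hem : ∀ p ∈ D, em p.1 ![p.2 ^ N, p.2 ^ N * (G i (e3 p.1 p.2)).re] =
      ![(e3 p.1 p.2) 0, (e3 p.1 p.2) 1, (e3 p.1 p.2) 2 ^ N,
        (e3 p.1 p.2) 2 ^ N * G i (e3 p.1 p.2)] := by
    intro p hp
    obtain ⟨h1, h2, h3⟩ := memD p hp
    have h4 := hreal p.1 p.2 h1 h2 h3
    have h5 : (((G i (e3 p.1 p.2)).re : ℝ) : ℂ) = G i (e3 p.1 p.2) := by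
      apply Complex.ext
      · simp
      · simp [h4]
    ext j
    fin_cases j
    · simp [em, e3]
    · simp [em, e3]
    · simp [em, e3]
    · simp [em, e3]
      left
      exact h5
  have hy : ∀ p ∈ D, ‖(![p.2 ^ N, p.2 ^ N * (G i (e3 p.1 p.2)).re] : Fin 2 → ℝ)‖ < δ := by
    intro p hp
    obtain ⟨h1, h2, h3⟩ := memD p hp
    have h4 := hreal p.1 p.2 h1 h2 h3
    have h5 := h.wal.bdd i (e3 p.1 p.2) (e3_mem h1 h2.le h3)
    rw [pi_norm_lt_iff hδ]
    intro j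
    fin_cases j
    · have h6 : p.2 ^ N ≤ p.2 := pow_le_of_le_one h2.le (by linarith) (by omega)
      have h7 : |p.2 ^ N| < δ := by
        rw [abs_of_pos (pow_pos h2 N)]
        linarith
      simpa using h7
    · have h6 : ‖(e3 p.1 p.2) 2 ^ N * G i (e3 p.1 p.2)‖ =
          |p.2 ^ N * (G i (e3 p.1 p.2)).re| := by
        have h7 : (e3 p.1 p.2) 2 ^ N * G i (e3 p.1 p.2) =
            ((p.2 ^ N * (G i (e3 p.1 p.2)).re : ℝ) : ℂ) := by
          have h8 : (e3 p.1 p.2) 2 = ((p.2 : ℝ) : ℂ) := rfl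
          rw [h8, ← Complex.ofReal_pow]
          apply Complex.ext
          · rw [Complex.re_ofReal_mul, Complex.ofReal_re]
          · rw [Complex.im_ofReal_mul, Complex.ofReal_im, h4, mul_zero]
        rw [h7, Complex.norm_real, Real.norm_eq_abs]
      rw [h6] at h5
      exact h5
  have hx : ∀ p ∈ D, ‖p.1‖ < δ := fun p hp => (memD p hp).1.trans_le hεδ
  have hsg : ∀ k, ∀ p ∈ D, ∀ p' ∈ D,
      SignType.sign (F k (em p.1 ![p.2 ^ N, p.2 ^ N * (G i (e3 p.1 p.2)).re])).re =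
      SignType.sign (F k (em p'.1 ![p'.2 ^ N, p'.2 ^ N * (G i (e3 p'.1 p'.2)).re])).re := by
    intro k p hp p' hp'
    rcases h.sgw k i with h1 | ⟨q, E, hE, hE0, hEF⟩
    · obtain ⟨a1, a2, a3⟩ := memD p hp
      obtain ⟨b1, b2, b3⟩ := memD p' hp'
      rw [hem p hp, hem p' hp', h1 _ (e3_mem a1 a2.le a3), h1 _ (e3_mem b1 b2.le b3)]
    · have hval : ∀ p ∈ D, F k (em p.1 ![p.2 ^ N, p.2 ^ N * (G i (e3 p.1 p.2)).re]) =
          ((p.2 ^ q : ℝ) : ℂ) * E (e3 p.1 p.2) := by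
        intro p hp
        obtain ⟨a1, a2, a3⟩ := memD p hp
        rw [hem p hp, hEF _ (e3_mem a1 a2.le a3)]
        simp [e3]
      have hre : ∀ p ∈ D, (F k (em p.1 ![p.2 ^ N, p.2 ^ N * (G i (e3 p.1 p.2)).re])).re =
          p.2 ^ q * (E (e3 p.1 p.2)).re := by
        intro p hp
        rw [hval p hp, Complex.re_ofReal_mul]
      have hnz : ∀ p ∈ D, p.2 ^ q * (E (e3 p.1 p.2)).re ≠ 0 := by
        intro p hp
        obtain ⟨a1, a2, a3⟩ := memD p hp
        have h2 := h.wal.std.df.real k p.1 _ (hx p hp) (hy p hp)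
        rw [hval p hp, Complex.im_ofReal_mul] at h2
        have h3 : (E (e3 p.1 p.2)).im = 0 := (mul_eq_zero.1 h2).resolve_left (pow_pos a2 q).ne'
        refine mul_ne_zero (pow_pos a2 q).ne' fun h4 => ?_
        exact hE0 _ (e3_mem a1 a2.le a3) (Complex.ext h4 h3)
      rw [hre p hp, hre p' hp']
      refine sign_const hDc (f := fun p => p.2 ^ q * (E (e3 p.1 p.2)).re) ?_ hnz hp hp'
      refine ContinuousOn.mul (continuous_snd.pow q).continuousOn ?_
      refine Complex.continuous_re.comp_continuousOn ?_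
      refine hE.continuousOn.comp e3_cont.continuousOn ?_
      intro p hp
      obtain ⟨a1, a2, a3⟩ := memD p hp
      exact e3_mem a1 a2.le a3
  have hiff : ∀ p ∈ D, ∀ p' ∈ D,
      (cp p.1 ![p.2 ^ N, p.2 ^ N * (G i (e3 p.1 p.2)).re] ∈ A ↔
      cp p'.1 ![p'.2 ^ N, p'.2 ^ N * (G i (e3 p'.1 p'.2)).re] ∈ A) := by
    intro p hp p' hp'
    exact h.wal.std.df.sgn _ _ _ _ (hx p hp) (hy p hp) (hx p' hp') (hy p' hp')
      fun k => hsg k p hp p' hp'
  by_cases hex : ∃ p ∈ D, cp p.1 ![p.2 ^ N, p.2 ^ N * (G i (e3 p.1 p.2)).re] ∈ A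
  · left
    obtain ⟨p, hp, hpA⟩ := hex
    intro x σ h1 h2 h3
    exact (hiff p hp (x, σ) ⟨mem_ball_zero_iff.2 h1, h2, h3⟩).1 hpA
  · right
    intro x σ h1 h2 h3 h4
    exact hex ⟨(x, σ), ⟨mem_ball_zero_iff.2 h1, h2, h3⟩, h4⟩

end KP
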