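import Pool.Agent.Lib.KP.SpecW

set_option autoImplicit false

open Set Filter Topology Metric

namespace KP

namespace RemAux

/-- Cauchy's formula with a removable singularity. -/
theorem cauchy_rem {g : ℂ → ℂ} {R s C : ℝ} (hs : 0 < s) (hsR : s < R)
    (hg : DifferentiableOn ℂ g (ball 0 R \ {0})) (hC : ∀ ζ ∈ ball (0 : ℂ) R, ζ ≠ 0 → ‖g ζ‖ ≤ C)
    {w : ℂ} (hw : w ≠ 0) (hws : ‖w‖ < s) :
    (2 * Real.pi * Complex.I : ℂ)⁻¹ * (∮ ζ in C(0, s), g ζ / (ζ - w)) = g w := by
  have hR : 0 < R := hs.trans hsR
  have hb : BddAbove (norm ∘ g '' (ball (0 : ℂ) R \ {0})) := by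
    refine ⟨C, ?_⟩
    rintro _ ⟨ζ, hζ, rfl⟩
    exact hC ζ hζ.1 (by simpa using hζ.2)
  have h1 := Complex.differentiableOn_update_limUnder_of_bddAbove (f := g) (c := 0)
    (ball_mem_nhds 0 hR) hg hb
  set g' : ℂ → ℂ := Function.update g 0 (limUnder (𝓝[≠] 0) g) with hg'
  have h2 : DifferentiableOn ℂ g' (closedBall 0 s) := h1.mono (closedBall_subset_ball hsR)
  have h3 := h2.circleIntegral_sub_inv_smul (w := w) (by simpa using hws)
  have h4 : (∮ ζ in C(0, s), g ζ / (ζ - w)) = ∮ ζ in C(0, s), (ζ - w)⁻¹ • g' ζ := by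
    refine circleIntegral.integral_congr hs.le ?_
    intro ζ hζ
    have : ζ ≠ 0 := by
      rintro rfl
      simp at hζ
      exact hs.ne' hζ.symm
    simp only [hg', Function.update_of_ne this, smul_eq_mul, div_eq_mul_inv, mul_comm]
  rw [h4, h3, hg', Function.update_of_ne hw, smul_eq_mul, ← mul_assoc, inv_mul_cancel₀, one_mul]
  simp [Real.pi_ne_zero]

theorem upd_add {k : ℕ} (i : Fin k) (z : Cn k) (s : ℂ) :
    (Function.update z i 0 : Cn k) + (Pi.single i s : Cn k) = Function.update z i s := by
  ext j
  by_cases hj : j = i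
  · subst hj; simp
  · simp [Function.update_of_ne hj, Pi.single_eq_of_ne hj]

theorem cont_single {k : ℕ} (i : Fin k) : Continuous (fun s : ℂ => (Pi.single i s : Cn k)) := by
  have : (fun s : ℂ => (Pi.single i s : Cn k)) = fun s : ℂ => s • (Pi.single i (1 : ℂ) : Cn k) := by
    funext s
    ext j
    by_cases hj : j = i
    · subst hj; simp
    · simp [Pi.single_eq_of_ne hj]
  rw [this]
  fun_prop

end RemAux

open RemAux in
theorem tRem : S_Rem := by
  classical
  intro k i c ρ G hci hρ hG ⟨C, hC⟩
  have hs : 0 < ρ / 2 := by positivity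
  have hupd : ∀ z ∈ ball c ρ, ∀ ζ : ℂ, ‖ζ‖ < ρ → Function.update z i ζ ∈ ball c ρ := by
    intro z hz ζ hζ
    rw [mem_ball, dist_pi_lt_iff hρ] at hz ⊢
    intro j
    by_cases hj : j = i
    · subst hj
      simpa [hci] using hζ
    · rw [Function.update_of_ne hj]
      exact hz j
  have hzi : ∀ z ∈ ball c ρ, ‖z i‖ < ρ := by
    intro z hz
    rw [mem_ball, dist_pi_lt_iff hρ] at hz
    simpa [hci] using hz i
  let J : Cn k → ℂ := fun z => (2 * Real.pi * Complex.I : ℂ)⁻¹ *
    (∮ ζ in C(0, ρ / 2), G (Function.update z i ζ) / (ζ - z i))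
  have hJ : ∀ z ∈ ball c ρ, z i ≠ 0 → ‖z i‖ < ρ / 2 → J z = G z := by
    intro z hz h0 hlt
    have := cauchy_rem (g := fun ζ => G (Function.update z i ζ)) (R := ρ) (s := ρ / 2) (C := C)
      hs (by linarith) ?_ ?_ (w := z i) h0 hlt
    · simpa [J] using this
    · intro ζ hζ
      have hζ0 : ζ ≠ 0 := by simpa using hζ.2
      have h1 : Function.update z i ζ ∈ ball c ρ ∩ {z | z i ≠ 0} :=
        ⟨hupd z hz ζ (by simpa using hζ.1), by simpa using hζ0⟩
      have hopen : IsOpen (ball c ρ ∩ {z : Cn k | z i ≠ 0}) :=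
        isOpen_ball.inter (isOpen_ne_fun (continuous_apply i) continuous_const)
      have h2 : DifferentiableAt ℂ G (Function.update z i ζ) :=
        (hG _ h1).differentiableAt (hopen.mem_nhds h1)
      have h3 : DifferentiableAt ℂ (fun ζ : ℂ => Function.update z i ζ) ζ :=
        (hasDerivAt_update z i ζ).differentiableAt
      exact (h2.comp ζ h3).differentiableWithinAt
    · intro ζ hζ h0
      exact hC _ (hupd z hz ζ (by simpa using hζ)) (by simpa using h0)
  -- the integral is differentiable where `z i = 0`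
  have hJd : ∀ z ∈ ball c ρ, ‖z i‖ < ρ / 2 → DifferentiableAt ℂ J z := by
    intro z hz hlt
    let U : Set (Cn k × ℂ) := {p | p.1 ∈ ball c ρ ∧ p.1 i ≠ 0 ∧ p.1 i - p.2 ≠ 0}
    have hU : IsOpen U := by
      refine (isOpen_ball.preimage continuous_fst).inter (IsOpen.inter ?_ ?_)
      · exact isOpen_ne_fun ((continuous_apply i).comp continuous_fst) continuous_const
      · exact isOpen_ne_fun (((continuous_apply i).comp continuous_fst).sub continuous_snd)
          continuous_const
    let f : Cn k × ℂ → ℂ := fun p => G p.1 / (p.1 i - p.2)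
    have hf : DifferentiableOn ℂ f U := by
      intro p hp
      have hopen : IsOpen (ball c ρ ∩ {z : Cn k | z i ≠ 0}) :=
        isOpen_ball.inter (isOpen_ne_fun (continuous_apply i) continuous_const)
      have h2 : DifferentiableAt ℂ G p.1 :=
        (hG _ ⟨hp.1, hp.2.1⟩).differentiableAt (hopen.mem_nhds ⟨hp.1, hp.2.1⟩)
      have h3 : DifferentiableAt ℂ (fun p : Cn k × ℂ => G p.1) p := h2.comp p differentiableAt_fst
      have h4 : DifferentiableAt ℂ (fun p : Cn k × ℂ => p.1 i - p.2) p := by fun_prop
      have h6 : DifferentiableAt ℂ (fun q : Cn k × ℂ => (q.1 i - q.2)⁻¹) p :=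
        DifferentiableAt.inv h4 hp.2.2
      have h5 : DifferentiableAt ℂ (fun q : Cn k × ℂ => G q.1 * (q.1 i - q.2)⁻¹) p :=
        DifferentiableAt.mul h3 h6
      simpa only [f, div_eq_mul_inv] using h5.differentiableWithinAt
    have key := Pool.Agent.Lib.Osgood.differentiableAt_circleIntegral hU hf (ρ := ρ / 2) hs.le
      (k := fun _ => (1 : ℂ)) continuousOn_const
      (c := fun s => ((Pi.single i s : Cn k), (0 : ℂ)))
      ((cont_single i).prodMk continuous_const).continuousOn
      (z := ((Function.update z i 0 : Cn k), z i))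
      (by
        intro s hs'
        have hs0 : ‖s‖ = ρ / 2 := by simpa using hs'
        have e1 := upd_add i z s
        refine ⟨?_, ?_, ?_⟩
        · change (Function.update z i 0 : Cn k) + (Pi.single i s : Cn k) ∈ ball c ρ
          rw [e1]
          exact hupd z hz s (by linarith)
        · change ((Function.update z i 0 : Cn k) + (Pi.single i s : Cn k)) i ≠ 0
          rw [e1, Function.update_self]
          intro h
          rw [h, norm_zero] at hs0
          linarith
        · change ((Function.update z i 0 : Cn k) + (Pi.single i s : Cn k)) i - (z i + 0) ≠ 0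
          rw [e1, Function.update_self, add_zero, sub_ne_zero]
          intro h
          rw [h] at hs0
          linarith)
    have hmap : DifferentiableAt ℂ (fun z : Cn k => ((Function.update z i 0 : Cn k), z i)) z := by
      refine DifferentiableAt.prodMk ?_ (by fun_prop)
      rw [differentiableAt_pi]
      intro j
      by_cases hj : j = i
      · subst hj
        simp
      · simp only [Function.update_of_ne hj]
        fun_prop
    have hcomp := DifferentiableAt.comp z key hmap
    have hJe : J = fun z => (2 * Real.pi * Complex.I : ℂ)⁻¹ * (((fun u : Cn k × ℂ => ∮ s in C(0, ρ / 2),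
        (1 : ℂ) • f (u + ((Pi.single i s : Cn k), (0 : ℂ)))) ∘
        (fun z : Cn k => ((Function.update z i 0 : Cn k), z i))) z) := by
      funext z'
      simp only [J, Function.comp]
      congr 1
      refine circleIntegral.integral_congr hs.le ?_
      intro s _
      have e1 := upd_add i z' s
      change _ = (1 : ℂ) • (G ((Function.update z' i 0 : Cn k) + (Pi.single i s : Cn k)) /
        (((Function.update z' i 0 : Cn k) + (Pi.single i s : Cn k)) i - (z' i + 0)))
      rw [e1, Function.update_self, add_zero, one_smul]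
    rw [hJe]
    exact hcomp.const_mul _
  refine ⟨fun z => if z i = 0 then J z else G z, ?_, fun z hz h0 => if_neg h0⟩
  intro z hz
  refine DifferentiableAt.differentiableWithinAt ?_
  by_cases h0 : z i = 0
  · have h1 := hJd z hz (by rw [h0, norm_zero]; exact hs)
    refine h1.congr_of_eventuallyEq ?_
    have hopen : IsOpen (ball c ρ ∩ {z : Cn k | ‖z i‖ < ρ / 2}) :=
      isOpen_ball.inter (isOpen_lt (continuous_apply i).norm continuous_const)
    filter_upwards [hopen.mem_nhds ⟨hz, by simp [h0, hs]⟩] with y hy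
    by_cases hy0 : y i = 0
    · simp [hy0]
    · simp only [hy0, if_false]
      exact (hJ y hy.1 hy0 hy.2).symm
  · have hopen : IsOpen (ball c ρ ∩ {z : Cn k | z i ≠ 0}) :=
      isOpen_ball.inter (isOpen_ne_fun (continuous_apply i) continuous_const)
    have h1 : DifferentiableAt ℂ G z := (hG _ ⟨hz, h0⟩).differentiableAt (hopen.mem_nhds ⟨hz, h0⟩)
    refine h1.congr_of_eventuallyEq ?_
    filter_upwards [hopen.mem_nhds ⟨hz, h0⟩] with y hy
    simp only [if_neg hy.2]

end KP
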