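import Pool.Agent.Lib.KP.SpecW

/-!
# KP (MP_64edc4_ag), W/StA: choice of the centre and of the direction
-/

set_option autoImplicit false

open Set Filter Topology Metric

namespace KP

namespace StAAux

theorem prod_diff {n m : ℕ} (F : Fin m → Cn n → ℂ) {U : Set (Cn n)}
    (hol : ∀ k, DifferentiableOn ℂ (F k) U) (s : Finset (Fin m)) :
    DifferentiableOn ℂ (fun z => ∏ k ∈ s, F k z) U := by
  classical
  induction s using Finset.induction_on with
  | empty => simpa using differentiableOn_const (1 : ℂ)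
  | insert k s hk ih =>
    simp only [Finset.prod_insert hk]
    exact (hol k).mul ih

/-- Finitely many not identically zero holomorphic functions on a ball have a common point where
none of them vanishes. -/
theorem common {n m : ℕ} (F : Fin m → Cn n → ℂ) {δ : ℝ} (hδ : 0 < δ)
    (hol : ∀ k, DifferentiableOn ℂ (F k) (ball 0 δ))
    (nz : ∀ k, ∃ z ∈ ball (0 : Cn n) δ, F k z ≠ 0) (s : Finset (Fin m)) :
    ∃ z ∈ ball (0 : Cn n) δ, ∀ k ∈ s, F k z ≠ 0 := by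
  classical
  induction s using Finset.induction_on with
  | empty => exact ⟨0, mem_ball_self hδ, fun k hk => absurd hk (Finset.notMem_empty k)⟩
  | insert k s hk ih =>
    obtain ⟨z, hz, hs⟩ := ih
    have hb : ∀ᶠ z' in 𝓝 z, z' ∈ ball (0 : Cn n) δ := isOpen_ball.mem_nhds hz
    have h1 : ∀ᶠ z' in 𝓝 z, ∀ j ∈ s, F j z' ≠ 0 := by
      rw [Filter.eventually_all_finset]
      intro j hj
      exact ((hol j).continuousOn.continuousAt hb).eventually_ne (hs j hj)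
    by_contra hcon
    push Not at hcon
    have h2 : F k =ᶠ[𝓝 z] 0 := by
      filter_upwards [hb, h1] with z' h3 h4
      obtain ⟨j, hj, h5⟩ := hcon z' h3
      rcases Finset.mem_insert.mp hj with rfl | hj
      · exact h5
      · exact absurd h5 (h4 j hj)
    have h3 : AnalyticOnNhd ℂ (F k) (ball 0 δ) := Pool.Agent.Lib.Osgood.analyticOnNhd isOpen_ball (hol k)
    have h4 := h3.eqOn_zero_of_preconnected_of_eventuallyEq_zero
      (convex_ball _ _).isPreconnected hz h2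
    obtain ⟨z', hz', h5⟩ := nz k
    exact h5 (h4 hz')

/-- A real number in the interval where the holomorphic function does not vanish. -/
theorem realpt {g : ℂ → ℂ} {K a b : ℝ} (hg : DifferentiableOn ℂ g (ball 0 K))
    (hnz : ∃ s ∈ ball (0 : ℂ) K, g s ≠ 0) (hab : a < b) (ha : |a| < K) (hb : |b| < K) :
    ∃ σ ∈ Ioo a b, g (σ : ℂ) ≠ 0 := by
  by_contra hcon
  push Not at hcon
  obtain ⟨σ, hσ⟩ : ∃ σ, σ ∈ Ioo a b := ⟨(a + b) / 2, by constructor <;> linarith⟩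
  have hσK : |σ| < K := by
    rw [abs_lt] at ha hb ⊢
    constructor <;> linarith [hσ.1, hσ.2]
  have hmem : (σ : ℂ) ∈ ball (0 : ℂ) K := by
    rw [mem_ball_zero_iff, Complex.norm_real, Real.norm_eq_abs]
    exact hσK
  have h3 : AnalyticOnNhd ℂ g (ball 0 K) := hg.analyticOnNhd isOpen_ball
  have hfreq : ∃ᶠ z in 𝓝[≠] (σ : ℂ), g z = 0 := by
    have h4 : Tendsto (fun x : ℝ => (x : ℂ)) (𝓝[≠] σ) (𝓝[≠] (σ : ℂ)) := by
      refine tendsto_nhdsWithin_iff.mpr ⟨?_, ?_⟩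
      · exact (Complex.continuous_ofReal.tendsto σ).mono_left nhdsWithin_le_nhds
      · filter_upwards [self_mem_nhdsWithin] with x hx
        simpa using hx
    refine h4.frequently ?_
    refine Eventually.frequently ?_
    filter_upwards [mem_nhdsWithin_of_mem_nhds (isOpen_Ioo.mem_nhds hσ)] with x hx
    exact hcon x hx
  have h5 := h3.eqOn_zero_of_preconnected_of_frequently_eq_zero
    (convex_ball _ _).isPreconnected hmem hfreq
  obtain ⟨s, hs, hgs⟩ := hnz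
  exact hgs (h5 hs)

end StAAux

open StAAux in
theorem tStA (h1 : S_DefE) (h2 : S_Ord) (h3 : S_PT) (h4 : S_DirS) (h5 : S_PkD) : S_StA := by
  intro A r hr hA hSg hPk hreal
  obtain ⟨m, F, δ, hδr, hdf⟩ := h1 A r hr hSg
  obtain ⟨z0, hz0, hz0'⟩ := common F hdf.hδ hdf.hol hdf.nz Finset.univ
  have hH : DifferentiableOn ℂ (fun z => ∏ k, F k z) (ball (0 : Cn 4) δ) :=
    prod_diff F hdf.hol _
  obtain ⟨m', h, hh, hhnz, hE⟩ := h2 _ δ hdf.hδ hdf.hδ1 hH
    ⟨z0, hz0, Finset.prod_ne_zero_iff.mpr fun k hk => hz0' k hk⟩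
  obtain ⟨c', hc'Pk, hc', hhc'⟩ := h5 2 A hA 0 hPk h δ hdf.hδ hh hhnz (min r δ)
    (lt_min hr hdf.hδ)
  rw [mem_ball_zero_iff] at hc'
  have him := hreal c' (mem_ball_zero_iff.mpr (hc'.trans_le (min_le_left _ _))) hc'Pk
  obtain ⟨c, hc⟩ : ∃ c : Fin 2 → ℝ, c = fun i => (c' i).re := ⟨_, rfl⟩
  have hcc : ∀ i, (c i : ℂ) = c' i := by
    intro i
    rw [hc]
    exact Complex.ext (by simp) (by simp [him i])
  have hcp : cp c 0 = c' := by
    ext i
    simp [cp, hcc]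
  have hcn : ‖c‖ < min r δ := by
    refine lt_of_le_of_lt ((pi_norm_le_iff_of_nonneg (norm_nonneg _)).mpr fun i => ?_) hc'
    rw [hc]
    exact (Complex.abs_re_le_norm _).trans (norm_le_pi_norm c' i)
  have hcr : ‖c‖ < r := hcn.trans_le (min_le_left _ _)
  have hcδ : ‖c‖ < δ := hcn.trans_le (min_le_right _ _)
  have hpk : cp c 0 ∈ Pk A := by rw [hcp]; exact hc'Pk
  obtain ⟨b, β, ρ, hβ, hρ, hpt⟩ := h3 A r hA hreal c hcr hpk
  obtain ⟨σ1, σ2, hσ12, hdir⟩ := h4 b β hβ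
  obtain ⟨K, hK⟩ : ∃ K : ℝ, K = 1 + |σ1| + |σ2| := ⟨_, rfl⟩
  have hK1 : 1 ≤ K := by
    rw [hK]
    linarith [abs_nonneg σ1, abs_nonneg σ2]
  have hK0 : 0 < K := by linarith
  obtain ⟨E, hEd, hEH, hEnz⟩ := hE K hK1
  have hΩo : IsOpen {z : Cn 4 | ‖z 0‖ < δ ∧ ‖z 1‖ < δ ∧ ‖z 2‖ < K ∧ ‖z 3‖ < δ / K} := by
    have c0 : Continuous fun z : Cn 4 => ‖z 0‖ := by fun_prop
    have c1 : Continuous fun z : Cn 4 => ‖z 1‖ := by fun_prop
    have c2 : Continuous fun z : Cn 4 => ‖z 2‖ := by fun_prop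
    have c3 : Continuous fun z : Cn 4 => ‖z 3‖ := by fun_prop
    exact (isOpen_lt c0 continuous_const).inter ((isOpen_lt c1 continuous_const).inter
      ((isOpen_lt c2 continuous_const).inter (isOpen_lt c3 continuous_const)))
  have hci : ∀ i, ‖(c i : ℂ)‖ < δ := by
    intro i
    rw [Complex.norm_real]
    exact lt_of_le_of_lt (norm_le_pi_norm c i) hcδ
  have hδK : 0 < δ / K := div_pos hdf.hδ hK0
  have hmemΩ : ∀ s : ℂ, ‖s‖ < K → (![(c 0 : ℂ), (c 1 : ℂ), s, 0] : Cn 4) ∈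
      {z : Cn 4 | ‖z 0‖ < δ ∧ ‖z 1‖ < δ ∧ ‖z 2‖ < K ∧ ‖z 3‖ < δ / K} := by
    intro s hs
    refine ⟨hci 0, hci 1, hs, ?_⟩
    change ‖(0 : ℂ)‖ < δ / K
    rwa [norm_zero]
  -- the real direction
  obtain ⟨σ, hσ, hEσ⟩ : ∃ σ ∈ Ioo σ1 σ2, E ![(c 0 : ℂ), (c 1 : ℂ), (σ : ℂ), 0] ≠ 0 := by
    refine realpt (g := fun s => E ![(c 0 : ℂ), (c 1 : ℂ), s, 0]) (K := K) ?_ ?_ hσ12 ?_ ?_
    · refine DifferentiableOn.comp hEd ?_ ?_
      · refine Differentiable.differentiableOn ?_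
        rw [differentiable_pi]
        intro i
        fin_cases i
        · exact differentiable_const _
        · exact differentiable_const _
        · exact differentiable_id
        · exact differentiable_const _
      · intro s hs
        exact hmemΩ s (mem_ball_zero_iff.mp hs)
    · obtain ⟨s, hs, hEs⟩ := hEnz c' (mem_ball_zero_iff.mpr (hc'.trans_le (min_le_right _ _))) hhc'
      refine ⟨s, mem_ball_zero_iff.mpr (hs.trans_le hK1), ?_⟩
      change E ![(c 0 : ℂ), (c 1 : ℂ), s, 0] ≠ 0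
      rw [hcc, hcc]
      exact hEs
    · rw [hK]
      linarith [abs_nonneg σ1, abs_nonneg σ2]
    · rw [hK]
      linarith [abs_nonneg σ1, abs_nonneg σ2]
  have hσK : |σ| < K := by
    have e1 := abs_le.mp (le_refl |σ1|)
    have e2 := abs_le.mp (le_refl |σ2|)
    rw [abs_lt, hK]
    constructor <;> linarith [hσ.1, hσ.2, abs_nonneg σ1, abs_nonneg σ2]
  refine ⟨c, σ, m, F, δ, hdf, hcr, hcδ, hpk, ?_, ?_⟩
  · -- the cone
    have hp0 : (![(c 0 : ℂ), (c 1 : ℂ), (σ : ℂ), 0] : Cn 4) ∈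
        {z : Cn 4 | ‖z 0‖ < δ ∧ ‖z 1‖ < δ ∧ ‖z 2‖ < K ∧ ‖z 3‖ < δ / K} :=
      hmemΩ _ (by rw [Complex.norm_real]; exact hσK)
    have hev : ∀ᶠ u in 𝓝 (![(c 0 : ℂ), (c 1 : ℂ), (σ : ℂ), 0] : Cn 4),
        u ∈ {z : Cn 4 | ‖z 0‖ < δ ∧ ‖z 1‖ < δ ∧ ‖z 2‖ < K ∧ ‖z 3‖ < δ / K} ∧ E u ≠ 0 :=
      (hΩo.eventually_mem hp0).and
        ((hEd.continuousOn.continuousAt (hΩo.mem_nhds hp0)).eventually_ne hEσ)
    obtain ⟨κ0, hκ0, hκ⟩ := Metric.eventually_nhds_iff_ball.mp hev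
    have hσ0 : 0 ≤ |σ| := abs_nonneg σ
    refine ⟨κ0 / (2 * (1 + |σ|)), by positivity, fun z hz hz3 hz23 k hk => ?_⟩
    obtain ⟨κ, hκdef⟩ : ∃ κ : ℝ, κ = κ0 / (2 * (1 + |σ|)) := ⟨_, rfl⟩
    rw [← hκdef] at hz hz23
    have hκ1 : κ * (1 + |σ|) < κ0 := by
      rw [hκdef, div_mul_eq_mul_div, div_lt_iff₀ (by positivity)]
      nlinarith
    have hκpos : 0 < κ := by rw [hκdef]; positivity
    have hκ2 : κ < κ0 := by nlinarith
    rw [mem_ball_zero_iff] at hz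
    have hzi : ∀ i, ‖z i‖ < κ := fun i => lt_of_le_of_lt (norm_le_pi_norm z i) hz
    obtain ⟨u, hu⟩ : ∃ u : Cn 4, u = ![(c 0 : ℂ) + z 0 + σ * z 1, (c 1 : ℂ) + z 1,
      σ + z 2 / z 3, z 3] := ⟨_, rfl⟩
    have hub : u ∈ ball (![(c 0 : ℂ), (c 1 : ℂ), (σ : ℂ), 0] : Cn 4) κ0 := by
      rw [mem_ball, dist_eq_norm, pi_norm_lt_iff hκ0, hu]
      intro i
      fin_cases i
      · change ‖(c 0 : ℂ) + z 0 + σ * z 1 - c 0‖ < κ0
        have e1 : (c 0 : ℂ) + z 0 + σ * z 1 - c 0 = z 0 + σ * z 1 := by ring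
        rw [e1]
        calc ‖z 0 + σ * z 1‖ ≤ ‖z 0‖ + |σ| * ‖z 1‖ := by
              refine (norm_add_le _ _).trans ?_
              rw [norm_mul, Complex.norm_real, Real.norm_eq_abs]
          _ ≤ κ + |σ| * κ := add_le_add (hzi 0).le
              (mul_le_mul_of_nonneg_left (hzi 1).le hσ0)
          _ = κ * (1 + |σ|) := by ring
          _ < κ0 := hκ1
      · change ‖(c 1 : ℂ) + z 1 - c 1‖ < κ0
        rw [add_sub_cancel_left]
        exact (hzi 1).trans hκ2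
      · change ‖(σ : ℂ) + z 2 / z 3 - σ‖ < κ0
        rw [add_sub_cancel_left, norm_div]
        refine lt_of_le_of_lt ?_ hκ2
        rw [div_le_iff₀ (norm_pos_iff.mpr hz3)]
        exact hz23
      · change ‖z 3 - 0‖ < κ0
        rw [sub_zero]
        exact (hzi 3).trans hκ2
    obtain ⟨⟨m0, m1, m2, m3⟩, hEu⟩ := hκ u hub
    have e2 := hEH u m0 m1 m2 m3
    have e3' : (![u 0, u 1, u 3 * u 2, u 3] : Cn 4) = T4 c σ z := by
      rw [hu]
      ext i
      fin_cases i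
      · rfl
      · rfl
      · change z 3 * (σ + z 2 / z 3) = z 2 + σ * z 3
        field_simp
        ring
      · rfl
    rw [e3'] at e2
    have e4 : ∏ k, F k (T4 c σ z) = 0 := Finset.prod_eq_zero (Finset.mem_univ k) hk
    rw [e4] at e2
    have e5 : u 3 = z 3 := by rw [hu]; rfl
    rw [e5] at e2
    exact mul_ne_zero (pow_ne_zero _ hz3) hEu e2.symm
  · -- the axis
    have hM : 0 < max 1 |σ| := lt_of_lt_of_le one_pos (le_max_left _ _)
    refine ⟨ρ / max 1 |σ|, div_pos hρ hM, fun t ht0 htκ hmem => ?_⟩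
    rw [lt_div_iff₀ hM] at htκ
    have hta : 0 < |t| := abs_pos.mpr ht0
    have hyn : ‖(![t * σ, t] : Fin 2 → ℝ)‖ < ρ := by
      rw [pi_norm_lt_iff hρ]
      intro i
      fin_cases i
      · change |t * σ| < ρ
        rw [abs_mul]
        exact lt_of_le_of_lt (mul_le_mul_of_nonneg_left (le_max_right 1 |σ|) hta.le) htκ
      · change |t| < ρ
        refine lt_of_le_of_lt ?_ htκ
        nlinarith [le_max_left 1 |σ|]
    have h6 := hpt _ hyn hmem
    have h7 : |t| * max 1 |σ| ≤ ‖(![t * σ, t] : Fin 2 → ℝ)‖ := by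
      have n0 : |t * σ| ≤ ‖(![t * σ, t] : Fin 2 → ℝ)‖ := norm_le_pi_norm (![t * σ, t] : Fin 2 → ℝ) 0
      have n1 : |t| ≤ ‖(![t * σ, t] : Fin 2 → ℝ)‖ := norm_le_pi_norm (![t * σ, t] : Fin 2 → ℝ) 1
      rw [abs_mul] at n0
      rcases max_choice 1 |σ| with hmx | hmx
      · rw [hmx, mul_one]
        exact n1
      · rw [hmx]
        exact n0
    have h8 := hdir σ hσ
    have h9 : -(b 0 * (t * σ) + b 1 * t) ≤ |t| * |b 0 * σ + b 1| := by
      rw [← abs_mul]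
      refine le_trans (le_of_eq ?_) (neg_le_abs _)
      ring
    have h10 : β * ‖(![t * σ, t] : Fin 2 → ℝ)‖ ≤ -(b 0 * (t * σ) + b 1 * t) := h6
    have h11 := mul_le_mul_of_nonneg_left h7 hβ.le
    have h12 := mul_lt_mul_of_pos_left h8 hta
    nlinarith

end KP
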