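import Pool.Agent.Lib.KP.SpecW

/-!
# KP W/StB: standard position (helper57)
-/

set_option autoImplicit false

open Set Filter Topology Metric

namespace KP

namespace StBAux

theorem em_mem {x y : Fin 2 → ℝ} {δ : ℝ} (hδ : 0 < δ) (hx : ‖x‖ < δ) (hy : ‖y‖ < δ) :
    em x y ∈ ball (0 : Cn 4) δ := by
  rw [mem_ball_zero_iff, pi_norm_lt_iff hδ]
  have h1 := (pi_norm_lt_iff hδ).1 hx
  have h2 := (pi_norm_lt_iff hδ).1 hy
  intro i
  fin_cases i
  · show ‖((x 0 : ℝ) : ℂ)‖ < δ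
    rw [Complex.norm_real]
    exact h1 0
  · show ‖((x 1 : ℝ) : ℂ)‖ < δ
    rw [Complex.norm_real]
    exact h1 1
  · show ‖((y 0 : ℝ) : ℂ)‖ < δ
    rw [Complex.norm_real]
    exact h2 0
  · show ‖((y 1 : ℝ) : ℂ)‖ < δ
    rw [Complex.norm_real]
    exact h2 1

/-- a continuous function without zeros on `[0, 1]` has a constant sign -/
theorem sign_eq {g : ℝ → ℝ} (hg : ContinuousOn g (Icc 0 1)) (h0 : ∀ s ∈ Icc (0 : ℝ) 1, g s ≠ 0) :
    SignType.sign (g 0) = SignType.sign (g 1) := by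
  have m0 : (0 : ℝ) ∈ Icc (0 : ℝ) 1 := by simp
  have m1 : (1 : ℝ) ∈ Icc (0 : ℝ) 1 := by simp
  rcases lt_or_gt_of_ne (h0 0 m0) with h | h <;> rcases lt_or_gt_of_ne (h0 1 m1) with h' | h'
  · rw [sign_neg h, sign_neg h']
  · exfalso
    obtain ⟨s, hs, hs0⟩ := intermediate_value_Icc zero_le_one hg ⟨h.le, h'.le⟩
    exact h0 s hs hs0
  · exfalso
    obtain ⟨s, hs, hs0⟩ := intermediate_value_Icc' zero_le_one hg ⟨h'.le, h.le⟩
    exact h0 s hs hs0
  · rw [sign_pos h, sign_pos h']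

theorem continuous_em : Continuous fun p : (Fin 2 → ℝ) × (Fin 2 → ℝ) => em p.1 p.2 := by
  refine continuous_pi fun i => ?_
  fin_cases i
  · exact Complex.continuous_ofReal.comp ((continuous_apply 0).comp continuous_fst)
  · exact Complex.continuous_ofReal.comp ((continuous_apply 1).comp continuous_fst)
  · exact Complex.continuous_ofReal.comp ((continuous_apply 0).comp continuous_snd)
  · exact Complex.continuous_ofReal.comp ((continuous_apply 1).comp continuous_snd)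

/-- membership is constant in the double cone -/
theorem cone_const {A : Set (Cn 2)} {m : ℕ} {F : Fin m → Cn 4 → ℂ} {δ : ℝ} (hD : Def A m F δ)
    (hr : ∀ z ∈ ball (0 : Cn 4) δ, z 3 ≠ 0 → ‖z 2‖ ≤ δ * ‖z 3‖ → ∀ k, F k z ≠ 0)
    {x y : Fin 2 → ℝ} (hx : ‖x‖ < δ) (hy : ‖y‖ < δ) (h1 : y 1 ≠ 0) (h0 : |y 0| ≤ δ * |y 1|) :
    (cp x y ∈ A ↔ cp 0 ![0, y 1] ∈ A) := by
  have hδ := hD.hδ
  have hy' : ‖(![0, y 1] : Fin 2 → ℝ)‖ < δ := by
    rw [pi_norm_lt_iff hδ] at hy ⊢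
    intro i
    fin_cases i
    · show ‖(0 : ℝ)‖ < δ
      rw [norm_zero]
      exact hδ
    · exact hy 1
  have hz' : ‖(0 : Fin 2 → ℝ)‖ < δ := by
    rw [norm_zero]
    exact hδ
  have hns : ∀ s ∈ Icc (0 : ℝ) 1, ‖(s • x : Fin 2 → ℝ)‖ < δ ∧
      ‖(![s * y 0, y 1] : Fin 2 → ℝ)‖ < δ := by
    intro s hs
    constructor
    · rw [norm_smul, Real.norm_of_nonneg hs.1]
      exact lt_of_le_of_lt (mul_le_of_le_one_left (norm_nonneg _) hs.2) hx
    · rw [pi_norm_lt_iff hδ] at hy ⊢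
      intro i
      fin_cases i
      · show ‖s * y 0‖ < δ
        rw [norm_mul, Real.norm_of_nonneg hs.1]
        exact lt_of_le_of_lt (mul_le_of_le_one_left (norm_nonneg _) hs.2) (hy 0)
      · exact hy 1
  refine hD.sgn x y 0 ![0, y 1] hx hy hz' hy' fun k => ?_
  have hcont : Continuous fun s : ℝ => em (s • x) ![s * y 0, y 1] := by
    have hc1 : Continuous fun s : ℝ => s • x := continuous_id.smul continuous_const
    have hc2 : Continuous fun s : ℝ => (![s * y 0, y 1] : Fin 2 → ℝ) := by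
      refine continuous_pi fun i => ?_
      fin_cases i
      · exact continuous_id.mul continuous_const
      · exact continuous_const
    exact continuous_em.comp (hc1.prodMk hc2)
  have hmem : ∀ s ∈ Icc (0 : ℝ) 1, em (s • x) ![s * y 0, y 1] ∈ ball (0 : Cn 4) δ :=
    fun s hs => em_mem hδ (hns s hs).1 (hns s hs).2
  have hg : ContinuousOn (fun s : ℝ => (F k (em (s • x) ![s * y 0, y 1])).re) (Icc 0 1) :=
    Complex.continuous_re.comp_continuousOn
      ((hD.hol k).continuousOn.comp hcont.continuousOn hmem)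
  have hne : ∀ s ∈ Icc (0 : ℝ) 1, (F k (em (s • x) ![s * y 0, y 1])).re ≠ 0 := by
    intro s hs h
    refine hr _ (hmem s hs) ?_ ?_ k ?_
    · show ((y 1 : ℝ) : ℂ) ≠ 0
      exact Complex.ofReal_ne_zero.2 h1
    · show ‖((s * y 0 : ℝ) : ℂ)‖ ≤ δ * ‖((y 1 : ℝ) : ℂ)‖
      rw [Complex.norm_real, Complex.norm_real, Real.norm_eq_abs, Real.norm_eq_abs, abs_mul,
        abs_of_nonneg hs.1]
      exact (mul_le_of_le_one_left (abs_nonneg _) hs.2).trans h0
    · exact Complex.ext h (hD.real k _ _ (hns s hs).1 (hns s hs).2)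
  have h := sign_eq hg hne
  simp only [one_smul, one_mul, zero_smul, zero_mul] at h
  have hyy : (![y 0, y 1] : Fin 2 → ℝ) = y := by
    ext i
    fin_cases i <;> rfl
  rw [hyy] at h
  exact h.symm

theorem continuous_psi (c : Fin 2 → ℝ) (σ : ℝ) : Continuous (sh c σ).psi := by
  have h := (sh c σ).hpsi
  exact continuousOn_univ.1 h.continuousOn

theorem psi_zero (c : Fin 2 → ℝ) (σ : ℝ) : (sh c σ).psi 0 = cp c 0 := by
  ext i
  fin_cases i
  · simp [sh, cp]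
  · simp [sh, cp]

theorem norm_cp (c : Fin 2 → ℝ) {r : ℝ} (hr : 0 < r) (hc : ‖c‖ < r) : cp c 0 ∈ ball (0 : Cn 2) r := by
  rw [mem_ball_zero_iff, pi_norm_lt_iff hr]
  intro i
  have h : cp c 0 i = ((c i : ℝ) : ℂ) := by simp [cp]
  rw [h, Complex.norm_real]
  exact (pi_norm_lt_iff hr).1 hc i

theorem isOpen_pre {A : Set (Cn 2)} (hA : IsOpen A) (c : Fin 2 → ℝ) (σ : ℝ) :
    IsOpen ((sh c σ).pre A) := by
  have h : (sh c σ).pre A = (sh c σ).psi ⁻¹' A := by
    ext w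
    exact ⟨fun h => h.2, fun h => ⟨mem_univ _, h⟩⟩
  rw [h]
  exact hA.preimage (continuous_psi c σ)

theorem im_zero {c : Fin 2 → ℝ} {σ : ℝ} {w : Cn 2} (h : ∀ i, ((sh c σ).psi w i).im = 0) :
    ∀ i, (w i).im = 0 := by
  have h0 : ((c 0 : ℂ) + w 0 + σ * w 1).im = 0 := h 0
  have h1 : ((c 1 : ℂ) + w 1).im = 0 := h 1
  simp only [Complex.add_im, Complex.ofReal_im, zero_add, Complex.mul_im, Complex.ofReal_re,
    zero_mul, add_zero] at h0 h1
  rw [h1, mul_zero, add_zero] at h0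
  intro i
  fin_cases i
  · exact h0
  · exact h1

end StBAux

open StBAux

theorem tStB (h1 : S_DefT) (h2 : S_PkC) : S_StB := by
  intro A r hr hA hR c σ m F δ hS
  obtain ⟨κ1, hκ1, hcone⟩ := hS.cone
  obtain ⟨κ2, hκ2, haxis⟩ := hS.axis
  have hball : (sh c σ).psi ⁻¹' ball 0 r ∈ 𝓝 (0 : Cn 2) := by
    refine (continuous_psi c σ).continuousAt.preimage_mem_nhds ?_
    rw [psi_zero]
    exact isOpen_ball.mem_nhds (norm_cp c hr hS.cr)
  obtain ⟨δ1, hδ1, hball⟩ := Metric.mem_nhds_iff.1 hball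
  obtain ⟨δ', hδ', hle, -, hDef⟩ := h1 A m F δ hS.df c σ hS.cδ (min δ1 (min κ1 κ2))
    (lt_min hδ1 (lt_min hκ1 hκ2))
  have hD := hDef δ' hδ' le_rfl
  have le1 : δ' ≤ δ1 := hle.trans (min_le_left _ _)
  have le2 : δ' ≤ κ1 := hle.trans ((min_le_right _ _).trans (min_le_left _ _))
  have le3 : δ' ≤ κ2 := hle.trans ((min_le_right _ _).trans (min_le_right _ _))
  have hmaps : MapsTo (sh c σ).psi (ball 0 δ') (ball 0 r) :=
    fun w hw => hball (ball_subset_ball le1 hw)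
  have hreg : ∀ z ∈ ball (0 : Cn 4) δ', z 3 ≠ 0 → ‖z 2‖ ≤ δ' * ‖z 3‖ → ∀ k, F k (T4 c σ z) ≠ 0 := by
    intro z hz h3 hz2
    exact hcone z (ball_subset_ball le2 hz) h3
      (hz2.trans (mul_le_mul_of_nonneg_right le2 (norm_nonneg _)))
  refine ⟨δ', hδ', hmaps, ?_⟩
  refine ⟨isOpen_pre hA c σ, ?_, ?_, hD, hreg, ?_⟩
  · rw [h2 2 A (sh c σ) hA 0 (mem_univ _), psi_zero]
    exact hS.pk
  · intro w hw hpk
    rw [h2 2 A (sh c σ) hA w (mem_univ _)] at hpk
    exact im_zero (hR _ (hmaps hw) hpk)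
  · intro x y hx hy hy1 hy0 hmem
    rw [cone_const hD hreg hx hy hy1 hy0] at hmem
    have h3 : (sh c σ).psi (cp 0 ![0, y 1]) = cp c ![y 1 * σ, y 1] := by
      ext i
      fin_cases i
      · simp [sh, cp]
        ring
      · simp [sh, cp]
    have h4 : (sh c σ).psi (cp 0 ![0, y 1]) ∈ A := hmem.2
    rw [h3] at h4
    refine haxis (y 1) hy1 ?_ h4
    have h5 := (pi_norm_lt_iff hδ').1 hy 1
    exact lt_of_lt_of_le h5 le3

end KP
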