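import Pool.Agent.Lib.KP.W.StB

/-!
# KP W/StdT: translation of a standard position (helper57)
-/

set_option autoImplicit false

open Set Filter Topology Metric

namespace KP

open StBAux

theorem tStdT (h1 : S_DefT) (h2 : S_PkC) : S_StdT := by
  intro A m F δ hS c hc hpk
  have hδ := hS.df.hδ
  obtain ⟨δ', hδ', hle, hT, hDef⟩ := h1 A m F δ hS.df c 0 hc (δ - ‖c‖) (by linarith)
  refine ⟨δ', hδ', hT, fun δ'' hδ'' hle' => ?_⟩
  have hle1 : δ'' ≤ δ - ‖c‖ := hle'.trans hle
  have hle2 : δ'' ≤ δ := by linarith [norm_nonneg c]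
  have hpsi : ∀ w : Cn 2, (sh c 0).psi w = cp c 0 + w := by
    intro w
    ext i
    fin_cases i
    · simp [sh, cp]
    · simp [sh, cp]
  have hcp : ∀ x y : Fin 2 → ℝ, (sh c 0).psi (cp x y) = cp (c + x) y := by
    intro x y
    ext i
    fin_cases i
    · simp [sh, cp]
      ring
    · simp [sh, cp]
      ring
  have hcn : ‖cp c 0‖ ≤ ‖c‖ := by
    rw [pi_norm_le_iff_of_nonneg (norm_nonneg _)]
    intro i
    have h : cp c 0 i = ((c i : ℝ) : ℂ) := by simp [cp]
    rw [h, Complex.norm_real]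
    exact norm_le_pi_norm c i
  refine ⟨isOpen_pre hS.opn c 0, ?_, ?_, hDef δ'' hδ'' hle', ?_, ?_⟩
  · rw [h2 2 A (sh c 0) hS.opn 0 (mem_univ _), psi_zero]
    exact hpk
  · intro w hw hpkw
    rw [h2 2 A (sh c 0) hS.opn w (mem_univ _)] at hpkw
    refine im_zero (hS.pkR _ ?_ hpkw)
    rw [mem_ball_zero_iff] at hw ⊢
    rw [hpsi]
    have := norm_add_le (cp c 0) w
    linarith
  · intro z hz h3 hz2 k
    have e3 : T4 c 0 z 3 = z 3 := rfl
    have e2 : T4 c 0 z 2 = z 2 := by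
      show z 2 + ((0 : ℝ) : ℂ) * z 3 = z 2
      simp
    refine hS.reg _ (hT z (ball_subset_ball hle' hz)) (by rwa [e3]) ?_ k
    rw [e2, e3]
    exact hz2.trans (mul_le_mul_of_nonneg_right hle2 (norm_nonneg _))
  · intro x y hx hy hy1 hy0 hmem
    have h4 : (sh c 0).psi (cp x y) ∈ A := hmem.2
    rw [hcp] at h4
    refine hS.vx (c + x) y ?_ (hy.trans_le hle2) hy1 (hy0.trans
      (mul_le_mul_of_nonneg_right hle2 (abs_nonneg _))) h4
    have := norm_add_le c x
    linarith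

end KP
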