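import Pool.Agent.Lib.KP.SpecW

/-!
# KP (MP_64edc4_ag), W/TDw: a band with different slopes is a corner
-/

set_option autoImplicit false

open Set Filter Topology Metric

namespace KP

namespace TDwAux

/-- The linear coordinates of the corner. -/
noncomputable def ps (a b : ℝ) (w : Cn 2) : Cn 2 :=
  ![(w 0 + w 1) / ((b - a : ℝ) : ℂ), (b * w 0 + a * w 1) / ((b - a : ℝ) : ℂ)]

/-- The inverse. -/
noncomputable def pp (a b : ℝ) (z : Cn 2) : Cn 2 := ![z 1 - a * z 0, b * z 0 - z 1]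

theorem ps_diff (a b : ℝ) : Differentiable ℂ (ps a b) := by
  rw [differentiable_pi]
  intro i
  fin_cases i
  · change Differentiable ℂ fun w : Cn 2 => (w 0 + w 1) / ((b - a : ℝ) : ℂ)
    fun_prop
  · change Differentiable ℂ fun w : Cn 2 => (b * w 0 + a * w 1) / ((b - a : ℝ) : ℂ)
    fun_prop

theorem pp_diff (a b : ℝ) : Differentiable ℂ (pp a b) := by
  rw [differentiable_pi]
  intro i
  fin_cases i
  · change Differentiable ℂ fun z : Cn 2 => z 1 - a * z 0
    fun_prop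
  · change Differentiable ℂ fun z : Cn 2 => b * z 0 - z 1
    fun_prop

theorem pp_ps {a b : ℝ} (h : b - a ≠ 0) (w : Cn 2) : pp a b (ps a b w) = w := by
  have h' : ((b - a : ℝ) : ℂ) ≠ 0 := Complex.ofReal_ne_zero.mpr h
  have h2 : (b : ℂ) - a ≠ 0 := by simpa using h'
  ext i
  fin_cases i
  · simp [pp, ps]
    field_simp
    ring
  · simp [pp, ps]
    field_simp
    ring

theorem ps_pp {a b : ℝ} (h : b - a ≠ 0) (z : Cn 2) : ps a b (pp a b z) = z := by
  have h' : ((b - a : ℝ) : ℂ) ≠ 0 := Complex.ofReal_ne_zero.mpr h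
  have h2 : (b : ℂ) - a ≠ 0 := by simpa using h'
  ext i
  fin_cases i
  · simp [pp, ps]
    field_simp
  · simp [pp, ps]
    field_simp
    ring

theorem ps_zero (a b : ℝ) : ps a b 0 = 0 := by
  ext i
  fin_cases i <;> simp [ps]

/-- The chart. -/
noncomputable def ch (a b : ℝ) (h : b - a ≠ 0) (s : ℝ) : Chart (univ : Set (Cn 2)) 2 where
  W := ps a b ⁻¹' ball 0 s
  O := ball 0 s
  psi := ps a b
  pi := pp a b
  hW := isOpen_ball.preimage (ps_diff a b).continuous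
  hO := isOpen_ball
  hpsi := (ps_diff a b).differentiableOn
  hpi := (pp_diff a b).differentiableOn
  img := by
    ext z
    constructor
    · rintro ⟨w, hw, rfl⟩
      exact ⟨mem_univ _, hw⟩
    · rintro ⟨-, hz⟩
      exact ⟨pp a b z, by rw [mem_preimage, ps_pp h]; exact hz, ps_pp h z⟩
  left := fun w _ => pp_ps h w

theorem e3_zero : e3 0 0 = 0 := by
  unfold e3
  ext i
  fin_cases i <;> simp

theorem w3_cont {N : ℕ} (hN : 1 ≤ N) : Continuous (w3 N) := by
  have hN0 : (0 : ℝ) < N := by exact_mod_cast hN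
  unfold w3 e3
  refine continuous_pi fun i => ?_
  fin_cases i
  · change Continuous fun z : Cn 2 => (((z 0).re : ℝ) : ℂ)
    fun_prop
  · change Continuous fun z : Cn 2 => (((z 1).re : ℝ) : ℂ)
    fun_prop
  · have h1 : Continuous fun z : Cn 2 => (z 0).im := by fun_prop
    have h2 : Continuous fun z : Cn 2 => (z 0).im ^ ((1 : ℝ) / (N : ℝ)) :=
      h1.rpow_const fun _ => Or.inr (by positivity)
    exact Complex.continuous_ofReal.comp h2

theorem w3_zero {N : ℕ} (hN : 1 ≤ N) : w3 N 0 = 0 := by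
  have hN0 : (0 : ℝ) < N := by exact_mod_cast hN
  have : ((0 : Cn 2) 0).im ^ ((1 : ℝ) / (N : ℝ)) = 0 := by
    simp only [Pi.zero_apply, Complex.zero_im]
    exact Real.zero_rpow (by positivity)
  unfold w3
  rw [this]
  convert e3_zero using 2
  ext i
  simp

theorem near {N : ℕ} (hN : 1 ≤ N) {g : Cn 3 → ℂ} {ε : ℝ} (hε : 0 < ε)
    (hg : DifferentiableOn ℂ g (ball 0 ε)) (a b : ℝ) {δ : ℝ} (hδ : 0 < δ) :
    ∀ᶠ w in 𝓝 (0 : Cn 2), |(g (w3 N (ps a b w))).re - (g 0).re| < δ := by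
  have h1 : ContinuousAt g 0 := hg.continuousOn.continuousAt (ball_mem_nhds 0 hε)
  have h2 : Tendsto (fun w : Cn 2 => w3 N (ps a b w)) (𝓝 0) (𝓝 0) := by
    have := ((w3_cont hN).comp (ps_diff a b).continuous).tendsto 0
    rw [Function.comp_apply, ps_zero, w3_zero hN] at this
    exact this
  have h3 : Tendsto (fun w : Cn 2 => (g (w3 N (ps a b w))).re) (𝓝 0) (𝓝 (g 0).re) :=
    (Complex.continuous_re.tendsto _).comp (h1.tendsto.comp h2)
  exact (Metric.tendsto_nhds.mp h3) δ hδ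

theorem slopes {ga gb : Cn 3 → ℂ} {ε : ℝ} (hε : 0 < ε)
    (ha : DifferentiableOn ℂ ga (ball 0 ε)) (hb : DifferentiableOn ℂ gb (ball 0 ε))
    (ra : ∀ (x : Fin 2 → ℝ) (σ : ℝ), ‖x‖ < ε → 0 ≤ σ → σ < ε → (ga (e3 x σ)).im = 0)
    (rb : ∀ (x : Fin 2 → ℝ) (σ : ℝ), ‖x‖ < ε → 0 ≤ σ → σ < ε → (gb (e3 x σ)).im = 0)
    (lt : ∀ (x : Fin 2 → ℝ) (σ : ℝ), ‖x‖ < ε → 0 < σ → σ < ε →
      (ga (e3 x σ)).re < (gb (e3 x σ)).re) (hne : ga 0 ≠ gb 0) : (ga 0).re < (gb 0).re := by
  have h0 : ‖(0 : Fin 2 → ℝ)‖ < ε := by rwa [norm_zero]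
  have i1 := ra 0 0 h0 le_rfl hε
  have i2 := rb 0 0 h0 le_rfl hε
  rw [e3_zero] at i1 i2
  have hc : Tendsto (fun σ : ℝ => e3 0 σ) (𝓝[>] 0) (𝓝 0) := by
    have h1 : Continuous fun σ : ℝ => e3 0 σ := by
      unfold e3
      refine continuous_pi fun i => ?_
      fin_cases i
      · simpa using continuous_const
      · simpa using continuous_const
      · simpa using Complex.continuous_ofReal
    have h2 := h1.tendsto 0
    rw [e3_zero] at h2
    exact h2.mono_left nhdsWithin_le_nhds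
  have t1 : Tendsto (fun σ : ℝ => (ga (e3 0 σ)).re) (𝓝[>] 0) (𝓝 (ga 0).re) :=
    (Complex.continuous_re.tendsto _).comp
      ((ha.continuousOn.continuousAt (ball_mem_nhds 0 hε)).tendsto.comp hc)
  have t2 : Tendsto (fun σ : ℝ => (gb (e3 0 σ)).re) (𝓝[>] 0) (𝓝 (gb 0).re) :=
    (Complex.continuous_re.tendsto _).comp
      ((hb.continuousOn.continuousAt (ball_mem_nhds 0 hε)).tendsto.comp hc)
  have hle : (ga 0).re ≤ (gb 0).re := by
    refine le_of_tendsto_of_tendsto t1 t2 ?_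
    filter_upwards [self_mem_nhdsWithin, mem_nhdsWithin_of_mem_nhds (Iio_mem_nhds hε)]
      with σ h1 h2
    exact (lt 0 σ h0 h1 h2).le
  refine lt_of_le_of_ne hle fun h => hne (Complex.ext h (i1.trans i2.symm))

end TDwAux

open TDwAux in
theorem tTDw : S_TDw := by
  intro A N ga gb ε hB hne r0 hr0
  have hlt := slopes hB.hε hB.ha hB.hb hB.ra hB.rb hB.lt hne
  obtain ⟨a, ha⟩ : ∃ a : ℝ, a = (ga 0).re := ⟨_, rfl⟩
  obtain ⟨b, hb⟩ : ∃ b : ℝ, b = (gb 0).re := ⟨_, rfl⟩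
  rw [← ha, ← hb] at hlt
  have hΔ : 0 < b - a := sub_pos.mpr hlt
  obtain ⟨ρ, hρ, hcomp⟩ := hB.comp
  obtain ⟨s, hs⟩ : ∃ s : ℝ, s = min (min r0 ρ) (min ε (ε ^ N)) := ⟨_, rfl⟩
  have hs0 : 0 < s := by
    rw [hs]
    exact lt_min (lt_min hr0 hρ) (lt_min hB.hε (pow_pos hB.hε N))
  have hsr : s ≤ r0 := by rw [hs]; exact (min_le_left _ _).trans (min_le_left _ _)
  have hsρ : s ≤ ρ := by rw [hs]; exact (min_le_left _ _).trans (min_le_right _ _)
  have hsε : s ≤ ε := by rw [hs]; exact (min_le_right _ _).trans (min_le_left _ _)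
  have hsN : s ≤ ε ^ N := by rw [hs]; exact (min_le_right _ _).trans (min_le_right _ _)
  have hW : ps a b ⁻¹' ball 0 s ∈ 𝓝 (0 : Cn 2) := by
    refine (isOpen_ball.preimage (ps_diff a b).continuous).mem_nhds ?_
    rw [mem_preimage, ps_zero]
    exact mem_ball_self hs0
  obtain ⟨ρ', hρ', hsub⟩ := Metric.mem_nhds_iff.mp hW
  refine ⟨ch a b hΔ.ne' s, (ch a b hΔ.ne' s).pre (Bd N ga gb ε) ∩ ball 0 ρ', ρ', ?_, ?_, ?_, hρ',
    hsub, ?_, ?_, ?_, Or.inr (Or.inl ?_)⟩
  · intro w hw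
    exact ball_subset_ball hsr hw
  · change (0 : Cn 2) ∈ ps a b ⁻¹' ball 0 s
    rw [mem_preimage, ps_zero]
    exact mem_ball_self hs0
  · change ps a b 0 ∉ A
    rw [ps_zero]
    exact hB.zero
  · rintro w ⟨⟨h1, h2⟩, h3⟩
    exact ⟨⟨h1, hB.sub h2⟩, h3⟩
  · have h1 : (ch a b hΔ.ne' s).pre (Bd N ga gb ε) =
        (ps a b ⁻¹' ball 0 s) ∩ ps a b ⁻¹' Bd N ga gb ε := rfl
    rw [h1]
    exact ((isOpen_ball.preimage (ps_diff a b).continuous).inter
      (hB.bopn.preimage (ps_diff a b).continuous)).inter isOpen_ball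
  · have h1 : ((ch a b hΔ.ne' s).pre A ∩ ball 0 ρ') \
        ((ch a b hΔ.ne' s).pre (Bd N ga gb ε) ∩ ball 0 ρ') =
        ball 0 ρ' ∩ ps a b ⁻¹' ((A ∩ ball 0 ρ) \ Bd N ga gb ε) := by
      ext w
      constructor
      · rintro ⟨⟨⟨h1, h2⟩, h3⟩, h4⟩
        exact ⟨h3, ⟨h2, ball_subset_ball hsρ h1⟩, fun h5 => h4 ⟨⟨h1, h5⟩, h3⟩⟩
      · rintro ⟨h3, ⟨h2, -⟩, h5⟩
        exact ⟨⟨⟨hsub h3, h2⟩, h3⟩, fun h6 => h5 h6.1.2⟩
    rw [h1]
    exact isOpen_ball.inter (hcomp.preimage (ps_diff a b).continuous)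
  · intro η hη
    have hn1 := near hB.hN hB.hε hB.ha a b (mul_pos hη hΔ)
    have hn2 := near hB.hN hB.hε hB.hb a b (mul_pos hη hΔ)
    rw [← ha] at hn1
    rw [← hb] at hn2
    obtain ⟨ρ2, hρ2, hnn⟩ := Metric.eventually_nhds_iff_ball.mp (hn1.and hn2)
    refine ⟨min ρ' ρ2, lt_min hρ' hρ2, fun w hw => ?_⟩
    have hw' : w ∈ ball (0 : Cn 2) ρ' := ball_subset_ball (min_le_left _ _) hw
    obtain ⟨c1, c2⟩ := hnn w (ball_subset_ball (min_le_right _ _) hw)
    have hz : ps a b w ∈ ball (0 : Cn 2) s := hsub hw'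
    have e0 : (w 0).im = (ps a b w 1).im - a * (ps a b w 0).im := by
      have h1 := congrFun (pp_ps hΔ.ne' w) 0
      have h2 : pp a b (ps a b w) 0 = ps a b w 1 - a * ps a b w 0 := rfl
      rw [← h1, h2, Complex.sub_im, Complex.im_ofReal_mul]
    have e1 : (w 1).im = b * (ps a b w 0).im - (ps a b w 1).im := by
      have h1 := congrFun (pp_ps hΔ.ne' w) 1
      have h2 : pp a b (ps a b w) 1 = b * ps a b w 0 - ps a b w 1 := rfl
      rw [← h1, h2, Complex.sub_im, Complex.im_ofReal_mul]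
    rw [abs_lt] at c1 c2
    constructor
    · rintro ⟨⟨-, -, k1, -, k2, k3⟩, -⟩
      change 0 < (ps a b w 0).im at k1
      change (ps a b w 0).im * (ga (w3 N (ps a b w))).re < (ps a b w 1).im at k2
      change (ps a b w 1).im < (ps a b w 0).im * (gb (w3 N (ps a b w))).re at k3
      have k4 : η * (b - a) * (ps a b w 0).im ≤ η * (|(w 0).im| + |(w 1).im|) := by
        have h1 : (b - a) * (ps a b w 0).im = (w 0).im + (w 1).im := by rw [e0, e1]; ring
        rw [mul_assoc, h1]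
        exact mul_le_mul_of_nonneg_left (add_le_add (le_abs_self _) (le_abs_self _)) hη.le
      constructor
      · have h2 := mul_lt_mul_of_pos_left c1.1 k1
        nlinarith
      · have h2 := mul_lt_mul_of_pos_left c2.2 k1
        nlinarith
    · intro h1 h2
      have hS : 0 ≤ η * (|(w 0).im| + |(w 1).im|) := by positivity
      have p0 : 0 < (w 0).im := lt_of_le_of_lt hS h1
      have p1 : 0 < (w 1).im := lt_of_le_of_lt hS h2
      rw [abs_of_pos p0, abs_of_pos p1] at h1 h2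
      have h3 : (b - a) * (ps a b w 0).im = (w 0).im + (w 1).im := by rw [e0, e1]; ring
      have hy0 : 0 < (ps a b w 0).im := by
        by_contra h
        have h4 : (b - a) * (ps a b w 0).im ≤ 0 :=
          mul_nonpos_of_nonneg_of_nonpos hΔ.le (not_lt.mp h)
        linarith
      rw [← h3, e0] at h1
      rw [← h3, e1] at h2
      have hzi : ∀ i, ‖ps a b w i‖ < s := fun i =>
        lt_of_le_of_lt (norm_le_pi_norm _ i) (mem_ball_zero_iff.mp hz)
      refine ⟨⟨hz, fun i => ?_, hy0, ?_, ?_, ?_⟩, hw'⟩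
      · exact lt_of_le_of_lt (Complex.abs_re_le_norm _) ((hzi i).trans_le hsε)
      · exact lt_of_le_of_lt ((le_abs_self _).trans (Complex.abs_im_le_norm _))
          ((hzi 0).trans_le hsN)
      · change (ps a b w 0).im * (ga (w3 N (ps a b w))).re < (ps a b w 1).im
        have h5 := mul_lt_mul_of_pos_left c1.2 hy0
        nlinarith
      · change (ps a b w 1).im < (ps a b w 0).im * (gb (w3 N (ps a b w))).re
        have h5 := mul_lt_mul_of_pos_left c2.1 hy0
        nlinarith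

end KP
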