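import Pool.Agent.Lib.KP.SpecW

/-!
# KP (MP_64edc4_ag), TRa: the totally real case (assembly)
-/

set_option autoImplicit false

open Set Filter Topology Metric

namespace KP

private theorem tra_sh (c : Fin 2 → ℝ) (R : ℝ) (hR : 0 < R) (hc : ‖c‖ < R) :
    MapsTo (sh c 0).psi (ball (0 : Cn 2) R) (ball (0 : Cn 2) (2 * R)) := by
  intro w hw
  rw [mem_ball_zero_iff] at hw
  rw [mem_ball_zero_iff, pi_norm_lt_iff (by positivity)]
  intro i
  have h1 : ‖c i‖ < R := (norm_le_pi_norm c i).trans_lt hc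
  have h2 : ‖w i‖ < R := (norm_le_pi_norm w i).trans_lt hw
  have h3 : (sh c 0).psi w i = (c i : ℂ) + w i := by
    fin_cases i
    · simp [sh]
    · simp [sh]
  rw [h3]
  calc ‖(c i : ℂ) + w i‖ ≤ ‖(c i : ℂ)‖ + ‖w i‖ := norm_add_le _ _
    _ < R + R := by
        rw [Complex.norm_real]
        exact add_lt_add h1 h2
    _ = 2 * R := by ring

private theorem tra_band (hTDw : S_TDw) (hCusp : S_Cusp) (hWPt : S_WPt) {B : Set (Cn 2)} {N : ℕ}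
    {ga gb : Cn 3 → ℂ} {ε : ℝ} (hB : Band B N ga gb ε) (r0 : ℝ) (hr0 : 0 < r0) : LT P2 B r0 := by
  by_cases h : ga 0 = gb 0
  · obtain ⟨q, E, hE, hE0, hq⟩ := hB.dist
    have h0 : (0 : Cn 3) ∈ ball (0 : Cn 3) ε := mem_ball_self hB.hε
    have hq1 : 1 ≤ q := by
      rcases Nat.eq_zero_or_pos q with h1 | h1
      · exfalso
        have h2 := hq 0 h0
        rw [h1, h, sub_self, pow_zero, one_mul] at h2
        exact hE0 0 h0 h2.symm
      · exact h1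
    obtain ⟨s1, hs1, hs⟩ := hWPt B N ga gb ε hB r0 hr0
    obtain ⟨s, hs0, hs2, hs3⟩ := hCusp N q ga gb E ε hB.hN hq1 hB.hε hB.ha hB.hb hE (hE0 0 h0)
      hB.ra hB.rb hq s1 hs1
    exact hs s hs0 hs2 hs3
  · exact hTDw B N ga gb ε hB h r0 hr0

/-- `TRa`: the totally real case. -/
theorem tTRa : S_TRa := by
  intro hStA hStB hW1 hW2 hWR hPosD hRS hExt hTDw hCusp hWPt hLTE A r hr hA hS hpk hreal
  obtain ⟨c0, σ, m, F, δ, hD⟩ := hStA A r hr hA hS hpk hreal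
  obtain ⟨δ1, hδ1, hmap, hStd⟩ := hStB A r hr hA hreal c0 σ m F δ hD
  refine hLTE 2 P2 A (sh c0 σ) r δ1 (fun w _ => mem_univ w) hmap ?_
  obtain ⟨R, hR⟩ : ∃ R, R = δ1 / 2 := ⟨_, rfl⟩
  have hR0 : 0 < R := by rw [hR]; positivity
  obtain ⟨c1, hc1, -, δ2, k, N, G, ε, hwal⟩ := hW1 _ m _ δ1 hStd R hR0
  have hmap1 := tra_sh c1 R hR0 hc1
  rw [show 2 * R = δ1 by rw [hR]; ring] at hmap1
  refine hLTE 2 P2 _ (sh c1 0) δ1 R (fun w _ => mem_univ w) hmap1 ?_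
  obtain ⟨T, hT⟩ : ∃ T, T = R / 2 := ⟨_, rfl⟩
  have hT0 : 0 < T := by rw [hT]; positivity
  obtain ⟨c2, hc2, -, δ3, ε3, G3, hwal2⟩ := hW2 _ m _ δ2 k N G ε hwal T hT0
  have hmap2 := tra_sh c2 T hT0 hc2
  rw [show 2 * T = R by rw [hT]; ring] at hmap2
  refine hLTE 2 P2 _ (sh c2 0) R T (fun w _ => mem_univ w) hmap2 ?_
  have claim : ∀ (B : Set (Cn 2)) (F' : Fin m → Cn 4 → ℂ) (G' : Fin k → Cn 3 → ℂ),
      Wal2 B m F' δ3 k N G' ε3 → Pos B → LT P2 B T := by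
    intro B F' G' hw hpos
    obtain ⟨k', G'', ε', hWl⟩ := hRS B m F' δ3 k N G' ε3 hw
    obtain ⟨a, b, hBand⟩ := hExt B k' N G'' ε' δ3 hWl hpos
    exact tra_band hTDw hCusp hWPt hBand T hT0
  rcases hPosD _ m _ δ3 hwal2.wal.std with hpos | hpos
  · exact claim _ _ _ hwal2 hpos
  · obtain ⟨F', G', hw⟩ := hWR _ m _ δ3 k N G3 ε3 hwal2
    refine hLTE 2 P2 _ ng T T (fun w _ => mem_univ w) ?_ (claim _ F' G' hw hpos)
    intro w hw
    rw [mem_ball_zero_iff] at hw ⊢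
    change ‖-w‖ < T
    rwa [norm_neg]

end KP
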