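import Pool.Agent.Lib.KP.SpecW

/-!
# KP W/W1: first generic choice (helper57)
-/

set_option autoImplicit false

open Set Filter Topology Metric

namespace KP

namespace W1Aux

/-- the translation vector in `ℂ³` -/
noncomputable def c3 (c : Fin 2 → ℝ) : Cn 3 := ![(c 0 : ℂ), (c 1 : ℂ), 0]

theorem shift_mem {c : Fin 2 → ℝ} {ε ε' : ℝ} (h : ε' ≤ ε) {z : Cn 3} (hz : z ∈ ball (0 : Cn 3) ε') :
    z + c3 c ∈ ball (c3 c) ε := by
  rw [mem_ball, dist_eq_norm, add_sub_cancel_right]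
  rw [mem_ball_zero_iff] at hz
  exact hz.trans_le h

theorem diff_shift {c : Fin 2 → ℝ} {G : Cn 3 → ℂ} {ε ε' : ℝ} (h : ε' ≤ ε)
    (hG : DifferentiableOn ℂ G (ball (c3 c) ε)) :
    DifferentiableOn ℂ (fun z => G (z + c3 c)) (ball 0 ε') := by
  refine hG.comp (t := ball (c3 c) ε) ?_ (fun z hz => shift_mem h hz)
  exact (differentiable_id.add_const _).differentiableOn

theorem diff_prod {ι : Type} (s : Finset ι) {k : ℕ} (F : ι → Cn k → ℂ) {U : Set (Cn k)}
    (h : ∀ i, DifferentiableOn ℂ (F i) U) : DifferentiableOn ℂ (fun z => ∏ i ∈ s, F i z) U := by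
  classical
  induction s using Finset.induction_on with
  | empty => simp
  | insert a s ha ih =>
    have h1 : (fun z => ∏ i ∈ insert a s, F i z) = fun z => F a z * ∏ i ∈ s, F i z := by
      funext z
      rw [Finset.prod_insert ha]
    rw [h1]
    exact (h a).mul ih

/-- a real point -/
theorem real_pt {w : Cn 2} (h : ∀ i, (w i).im = 0) : ∃ c : Fin 2 → ℝ, cp c 0 = w := by
  refine ⟨fun i => (w i).re, ?_⟩
  ext i
  have h1 : cp (fun i => (w i).re) 0 i = (((w i).re : ℝ) : ℂ) := by simp [cp]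
  rw [h1]
  exact Complex.ext (by simp) (by simp [h i])

theorem norm_le_cp (c : Fin 2 → ℝ) : ‖c‖ ≤ ‖cp c 0‖ := by
  rw [pi_norm_le_iff_of_nonneg (norm_nonneg _)]
  intro i
  have h : cp c 0 i = ((c i : ℝ) : ℂ) := by simp [cp]
  have h2 := norm_le_pi_norm (cp c 0) i
  rw [h, Complex.norm_real] at h2
  exact h2

theorem T4_eq (c : Fin 2 → ℝ) (z : Cn 3) (s t : ℂ) :
    T4 c 0 ![z 0, z 1, s, t] = ext ![(z + c3 c) 0, (z + c3 c) 1, s] t := by
  ext i
  fin_cases i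
  · simp [T4, ext, c3, add_comm]
  · simp [T4, ext, c3, add_comm]
  · simp [T4, ext]
  · simp [T4, ext]

end W1Aux

open W1Aux

theorem tW1 (h1 : S_Puis) (h2 : S_PkD) (h3 : S_StdT) : S_W1 := by
  intro A m F δ hS ρ hρ
  have hδ := hS.df.hδ
  set H : Cn 4 → ℂ := fun z => ∏ k, F k z with hH
  have hReg : Reg H δ := by
    constructor
    · exact diff_prod Finset.univ F fun k => hS.df.hol k
    · intro z hz h3 hz2
      exact Finset.prod_ne_zero_iff.2 fun k _ => hS.reg z hz h3 hz2 k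
  obtain ⟨δ1, h, hδ1, hδ1', hh, ⟨X, hX, hXh⟩, hP⟩ := h1 H δ hδ hS.df.hδ1 hReg
  obtain ⟨c', hc'P, hc'b, hc'h⟩ := h2 2 A hS.opn 0 hS.pk0 h δ1 hδ1 hh ⟨X, hX, hXh⟩
    (min ρ δ1) (lt_min hρ hδ1)
  rw [mem_ball_zero_iff] at hc'b
  have hc'δ1 : ‖c'‖ < δ1 := hc'b.trans_le (min_le_right _ _)
  have hreal := hS.pkR c' (by rw [mem_ball_zero_iff]; exact hc'δ1.trans_le hδ1') hc'P
  obtain ⟨c, rfl⟩ := real_pt hreal
  have hcn := norm_le_cp c
  obtain ⟨r, N, G, ε, hN, hε, hG, hz⟩ := hP (cp c 0) (by rw [mem_ball_zero_iff]; exact hc'δ1) hc'h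
  have hc3 : (![(cp c 0) 0, (cp c 0) 1, 0] : Cn 3) = c3 c := by
    ext i
    fin_cases i
    · simp [cp, c3]
    · simp [cp, c3]
    · simp [c3]
  rw [hc3] at hG hz
  obtain ⟨δT, hδT, -, hStd⟩ := h3 A m F δ hS c (by linarith) hc'P
  set δ' := min δT δ with hδ'
  have hδ'0 : 0 < δ' := lt_min hδT hδ
  have hS' := hStd δ' hδ'0 (min_le_left _ _)
  -- the choice of the radius
  have hcont : ∀ i, ∀ᶠ z in 𝓝 (0 : Cn 3), ‖z 2 ^ N * G i (z + c3 c)‖ < δ' := by
    intro i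
    have hc : ContinuousAt (fun z : Cn 3 => z 2 ^ N * G i (z + c3 c)) 0 := by
      refine ContinuousAt.mul ?_ ?_
      · exact ((continuous_apply 2).pow N).continuousAt
      · exact ((diff_shift le_rfl (hG i)).continuousOn.continuousAt
          (ball_mem_nhds _ hε))
    have h5 : ‖(fun z : Cn 3 => z 2 ^ N * G i (z + c3 c)) 0‖ < δ' := by
      have h6 : ((0 : Cn 3) 2) ^ N = 0 := by
        rw [Pi.zero_apply]
        exact zero_pow (by omega)
      show ‖((0 : Cn 3) 2) ^ N * _‖ < δ'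
      rw [h6, zero_mul, norm_zero]
      exact hδ'0
    exact hc.norm.eventually_lt continuousAt_const h5
  obtain ⟨ε1, hε1, hball⟩ := Metric.eventually_nhds_iff_ball.1 (eventually_all.2 hcont)
  set ε' := min ε1 (min ε δ') with hε'
  have le1 : ε' ≤ ε1 := min_le_left _ _
  have le2 : ε' ≤ ε := (min_le_right _ _).trans (min_le_left _ _)
  have le3 : ε' ≤ δ' := (min_le_right _ _).trans (min_le_right _ _)
  refine ⟨c, ?_, hc'P, δ', r, N, fun i z => G i (z + c3 c), ε', ?_⟩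
  · exact hcn.trans_lt (hc'b.trans_le (min_le_left _ _))
  refine ⟨hS', hN, lt_min hε1 (lt_min hε hδ'0), le3, fun i => diff_shift le2 (hG i), ?_, ?_, ?_⟩
  · intro i z hz'
    exact hball z (ball_subset_ball le1 hz') i
  · intro z hz' hz2
    refine (hz (z + c3 c) (shift_mem le2 hz') ?_).1
    show z 2 + 0 ≠ 0
    rwa [add_zero]
  · intro z hz' hz2 t ht
    have e2 : (z + c3 c) 2 = z 2 := by
      show z 2 + 0 = z 2
      rw [add_zero]
    have h5 := (hz (z + c3 c) (shift_mem le2 hz') (by rwa [e2])).2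
    rw [e2] at h5
    have h6 : (∃ k, F k (T4 c 0 ![z 0, z 1, z 2 ^ N, t]) = 0) ↔
        t ∈ Zr H δ ![(z + c3 c) 0, (z + c3 c) 1, z 2 ^ N] := by
      rw [T4_eq]
      constructor
      · rintro ⟨k, hk⟩
        exact ⟨ht.trans_le (min_le_right _ _), Finset.prod_eq_zero (Finset.mem_univ k) hk⟩
      · rintro ⟨-, hk⟩
        obtain ⟨k, -, hk⟩ := Finset.prod_eq_zero_iff.1 hk
        exact ⟨k, hk⟩
    rw [h6, h5]
    constructor
    · rintro ⟨i, hi⟩
      exact ⟨i, hi.symm⟩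
    · rintro ⟨i, hi⟩
      exact ⟨i, hi.symm⟩

end KP
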