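import Pool.Agent.Lib.KP.W.W1

/-!
# KP W/W2: second generic choice (helper57)
-/

set_option autoImplicit false

open Set Filter Topology Metric

namespace KP

open W1Aux

namespace W2Aux

theorem mul_nz {k : ℕ} {ε : ℝ} {f g : Cn k → ℂ} (hf : DifferentiableOn ℂ f (ball 0 ε))
    (hg : DifferentiableOn ℂ g (ball 0 ε)) (hf0 : ∃ z ∈ ball (0 : Cn k) ε, f z ≠ 0)
    (hg0 : ∃ z ∈ ball (0 : Cn k) ε, g z ≠ 0) : ∃ z ∈ ball (0 : Cn k) ε, f z * g z ≠ 0 := by
  by_contra hcon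
  push Not at hcon
  obtain ⟨z0, hz0, hgz⟩ := hg0
  have h1 : ∀ᶠ z in 𝓝 z0, g z ≠ 0 :=
    (hg.continuousOn.continuousAt (isOpen_ball.mem_nhds hz0)).eventually_ne hgz
  have h2 : f =ᶠ[𝓝 z0] 0 := by
    filter_upwards [h1, isOpen_ball.mem_nhds hz0] with z hz hz'
    exact (mul_eq_zero.1 (hcon z hz')).resolve_right hz
  have h3 := (Pool.Agent.Lib.Osgood.analyticOnNhd isOpen_ball hf).eqOn_zero_of_preconnected_of_eventuallyEq_zero
    (convex_ball (0 : Cn k) ε).isPreconnected hz0 h2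
  obtain ⟨z1, hz1, hfz⟩ := hf0
  exact hfz (h3 hz1)

theorem prod_nz {ι : Type} (s : Finset ι) {k : ℕ} {ε : ℝ} (hε : 0 < ε) (F : ι → Cn k → ℂ)
    (hF : ∀ i, DifferentiableOn ℂ (F i) (ball 0 ε)) (h : ∀ i, ∃ z ∈ ball (0 : Cn k) ε, F i z ≠ 0) :
    ∃ z ∈ ball (0 : Cn k) ε, ∏ i ∈ s, F i z ≠ 0 := by
  classical
  induction s using Finset.induction_on with
  | empty => exact ⟨0, mem_ball_self hε, by simp⟩
  | insert a s ha ih =>
    obtain ⟨z, hz, h1⟩ := mul_nz (hF a) (diff_prod s F hF) (h a) ih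
    exact ⟨z, hz, by rwa [Finset.prod_insert ha]⟩

theorem inner_mem {N : ℕ} (hN : 1 ≤ N) {ε δ : ℝ} (hε : 0 < ε) (hεδ : ε ≤ δ) (hδ1 : δ ≤ 1) {z : Cn 3}
    (hz : z ∈ ball (0 : Cn 3) ε) {t : ℂ} (ht : ‖t‖ < δ) :
    (![z 0, z 1, z 2 ^ N, t] : Cn 4) ∈ ball (0 : Cn 4) δ := by
  rw [mem_ball_zero_iff, pi_norm_lt_iff hε] at hz
  rw [mem_ball_zero_iff, pi_norm_lt_iff (hε.trans_le hεδ)]
  intro i
  fin_cases i
  · exact (hz 0).trans_le hεδ
  · exact (hz 1).trans_le hεδ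
  · show ‖z 2 ^ N‖ < δ
    rw [norm_pow]
    have h1 : ‖z 2‖ ≤ 1 := ((hz 2).trans_le (hεδ.trans hδ1)).le
    have h2 : ‖z 2‖ ^ N ≤ ‖z 2‖ := pow_le_of_le_one (norm_nonneg _) h1 (by omega)
    exact (h2.trans_lt (hz 2)).trans_le hεδ
  · exact ht

theorem inner_diff {N : ℕ} {U : Set (Cn 3)} {G : Cn 3 → ℂ} (hG : DifferentiableOn ℂ G U) :
    DifferentiableOn ℂ (fun z : Cn 3 => (![z 0, z 1, z 2 ^ N, z 2 ^ N * G z] : Cn 4)) U := by
  rw [differentiableOn_pi]
  intro i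
  fin_cases i
  · exact (differentiable_apply 0).differentiableOn
  · exact (differentiable_apply 1).differentiableOn
  · exact ((differentiable_apply 2).pow N).differentiableOn
  · exact ((differentiable_apply 2).pow N).differentiableOn.mul hG

end W2Aux

open W2Aux

theorem tW2 (h1 : S_DivN) (h2 : S_PkD) (h3 : S_StdT) : S_W2 := by
  classical
  intro A m F δ r N G ε hW ρ hρ
  have hS := hW.std
  have hδ := hS.df.hδ
  have hε := hW.hε
  have hεδ := hW.hεδ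
  -- the functions
  let φ : Fin m → Fin r → Cn 3 → ℂ := fun k i z => F k ![z 0, z 1, z 2 ^ N, z 2 ^ N * G i z]
  have hφ : ∀ k i, DifferentiableOn ℂ (φ k i) (ball 0 ε) := by
    intro k i
    exact (hS.df.hol k).comp (inner_diff (hW.hG i))
      (fun z hz => inner_mem hW.hN hε hεδ hS.df.hδ1 hz (hW.bdd i z hz))
  have hpt : (![0, 0, ((ε / 2 : ℝ) : ℂ)] : Cn 3) ∈ ball (0 : Cn 3) ε := by
    rw [mem_ball_zero_iff, pi_norm_lt_iff hε]
    intro i
    fin_cases i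
    · show ‖(0 : ℂ)‖ < ε
      rwa [norm_zero]
    · show ‖(0 : ℂ)‖ < ε
      rwa [norm_zero]
    · show ‖((ε / 2 : ℝ) : ℂ)‖ < ε
      rw [Complex.norm_real, Real.norm_of_nonneg (by linarith)]
      linarith
  have hpt2 : (![0, 0, ((ε / 2 : ℝ) : ℂ)] : Cn 3) 2 ≠ 0 := by
    show ((ε / 2 : ℝ) : ℂ) ≠ 0
    exact Complex.ofReal_ne_zero.2 (by linarith)
  have hA : ∀ i j, ∃ (q : ℕ) (E : Cn 3 → ℂ), DifferentiableOn ℂ E (ball 0 ε) ∧
      (∃ z ∈ ball (0 : Cn 3) ε, z 2 = 0 ∧ E z ≠ 0) ∧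
      (i ≠ j → ∀ z ∈ ball (0 : Cn 3) ε, G i z - G j z = z 2 ^ q * E z) := by
    intro i j
    by_cases hij : i = j
    · exact ⟨0, fun _ => 1, differentiableOn_const 1, ⟨0, mem_ball_self hε, rfl, one_ne_zero⟩,
        fun h => absurd hij h⟩
    · obtain ⟨q, E, hE, hq, hz⟩ := h1 3 2 0 ε (fun z => G i z - G j z) rfl
        ((hW.hG i).sub (hW.hG j)) ⟨_, hpt, fun h => hij (hW.inj _ hpt hpt2 (sub_eq_zero.1 h))⟩
      exact ⟨q, E, hE, hz, fun _ => hq⟩
  have hB : ∀ k i, ∃ (q : ℕ) (E : Cn 3 → ℂ), DifferentiableOn ℂ E (ball 0 ε) ∧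
      (∃ z ∈ ball (0 : Cn 3) ε, z 2 = 0 ∧ E z ≠ 0) ∧
      ((∀ z ∈ ball (0 : Cn 3) ε, φ k i z = 0) ∨ ∀ z ∈ ball (0 : Cn 3) ε, φ k i z = z 2 ^ q * E z) := by
    intro k i
    by_cases hz : ∀ z ∈ ball (0 : Cn 3) ε, φ k i z = 0
    · exact ⟨0, fun _ => 1, differentiableOn_const 1, ⟨0, mem_ball_self hε, rfl, one_ne_zero⟩,
        Or.inl hz⟩
    · push Not at hz
      obtain ⟨q, E, hE, hq, hz⟩ := h1 3 2 0 ε (φ k i) rfl (hφ k i) hz
      exact ⟨q, E, hE, hz, Or.inr hq⟩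
  choose qa Ea hEa hEa0 hqa using hA
  choose qb Eb hEb hEb0 hqb using hB
  -- the product of the restrictions to `z 2 = 0`
  let EE : (Fin r × Fin r) ⊕ (Fin m × Fin r) → Cn 3 → ℂ :=
    Sum.elim (fun p => Ea p.1 p.2) (fun p => Eb p.1 p.2)
  have hEE : ∀ a, DifferentiableOn ℂ (EE a) (ball 0 ε) := by
    rintro (p | p)
    · exact hEa p.1 p.2
    · exact hEb p.1 p.2
  have hEE0 : ∀ a, ∃ z ∈ ball (0 : Cn 3) ε, z 2 = 0 ∧ EE a z ≠ 0 := by
    rintro (p | p)
    · exact hEa0 p.1 p.2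
    · exact hEb0 p.1 p.2
  let em2 : Cn 2 → Cn 3 := fun X => ![X 0, X 1, 0]
  have hem2 : ∀ X ∈ ball (0 : Cn 2) ε, em2 X ∈ ball (0 : Cn 3) ε := by
    intro X hX
    rw [mem_ball_zero_iff, pi_norm_lt_iff hε] at hX ⊢
    intro i
    fin_cases i
    · exact hX 0
    · exact hX 1
    · show ‖(0 : ℂ)‖ < ε
      rwa [norm_zero]
  have hem2d : Differentiable ℂ em2 := by
    rw [differentiable_pi]
    intro i
    fin_cases i
    · exact differentiable_apply 0
    · exact differentiable_apply 1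
    · exact differentiable_const _
  let f : (Fin r × Fin r) ⊕ (Fin m × Fin r) → Cn 2 → ℂ := fun a X => EE a (em2 X)
  have hf : ∀ a, DifferentiableOn ℂ (f a) (ball 0 ε) :=
    fun a => (hEE a).comp hem2d.differentiableOn hem2
  have hf0 : ∀ a, ∃ X ∈ ball (0 : Cn 2) ε, f a X ≠ 0 := by
    intro a
    obtain ⟨z, hz, hz2, hne⟩ := hEE0 a
    refine ⟨![z 0, z 1], ?_, ?_⟩
    · rw [mem_ball_zero_iff, pi_norm_lt_iff hε] at hz ⊢
      intro i
      fin_cases i
      · exact hz 0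
      · exact hz 1
    · have h5 : em2 ![z 0, z 1] = z := by
        ext i
        fin_cases i
        · rfl
        · rfl
        · exact hz2.symm
      show EE a (em2 ![z 0, z 1]) ≠ 0
      rwa [h5]
  obtain ⟨c', hc'P, hc'b, hc'h⟩ := h2 2 A hS.opn 0 hS.pk0 (fun X => ∏ a, f a X) ε hε
    (diff_prod Finset.univ f hf) (prod_nz Finset.univ hε f hf hf0) (min ρ (ε / 2))
    (lt_min hρ (by linarith))
  rw [mem_ball_zero_iff] at hc'b
  have hc'2 : ‖c'‖ < ε / 2 := hc'b.trans_le (min_le_right _ _)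
  have hreal := hS.pkR c' (by rw [mem_ball_zero_iff]; linarith) hc'P
  obtain ⟨c, rfl⟩ := real_pt hreal
  have hcn := norm_le_cp c
  have hc3e : em2 (cp c 0) = c3 c := by
    ext i
    fin_cases i
    · simp [em2, cp, c3]
    · simp [em2, cp, c3]
    · simp [em2, c3]
  have hEc : ∀ a, EE a (c3 c) ≠ 0 := by
    intro a
    have h5 := (Finset.prod_ne_zero_iff.1 hc'h) a (Finset.mem_univ a)
    rwa [← hc3e]
  have hc3n : ‖c3 c‖ < ε / 2 := by
    rw [← hc3e, pi_norm_lt_iff (by linarith)]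
    have h5 := (pi_norm_lt_iff (by linarith : (0 : ℝ) < ε / 2)).1 hc'2
    intro i
    fin_cases i
    · exact h5 0
    · exact h5 1
    · show ‖(0 : ℂ)‖ < ε / 2
      rw [norm_zero]
      linarith
  obtain ⟨δT, hδT, -, hStd⟩ := h3 A m F δ hS c (by linarith) hc'P
  set δ' := min δT δ with hδ'
  have hδ'0 : 0 < δ' := lt_min hδT hδ
  have hS' := hStd δ' hδ'0 (min_le_left _ _)
  have hc3m : c3 c ∈ ball (0 : Cn 3) ε := by
    rw [mem_ball_zero_iff]
    linarith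
  have hsh : ContinuousAt (fun z : Cn 3 => z + c3 c) 0 :=
    (continuous_id.add continuous_const).continuousAt
  -- the choice of the radius
  have hcont : ∀ i, ∀ᶠ z in 𝓝 (0 : Cn 3), ‖z 2 ^ N * G i (z + c3 c)‖ < δ' := by
    intro i
    have hc : ContinuousAt (fun z : Cn 3 => z 2 ^ N * G i (z + c3 c)) 0 := by
      refine ContinuousAt.mul ?_ ?_
      · exact ((continuous_apply 2).pow N).continuousAt
      · refine ContinuousAt.comp (g := G i) ?_ hsh
        rw [zero_add]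
        exact (hW.hG i).continuousOn.continuousAt (isOpen_ball.mem_nhds hc3m)
    have h5 : ‖(fun z : Cn 3 => z 2 ^ N * G i (z + c3 c)) 0‖ < δ' := by
      have h6 : ((0 : Cn 3) 2) ^ N = 0 := by
        rw [Pi.zero_apply]
        exact zero_pow (by have := hW.hN; omega)
      show ‖((0 : Cn 3) 2) ^ N * _‖ < δ'
      rw [h6, zero_mul, norm_zero]
      exact hδ'0
    exact hc.norm.eventually_lt continuousAt_const h5
  have hcont2 : ∀ a, ∀ᶠ z in 𝓝 (0 : Cn 3), EE a (z + c3 c) ≠ 0 := by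
    intro a
    have hc : ContinuousAt (fun z : Cn 3 => EE a (z + c3 c)) 0 := by
      refine ContinuousAt.comp (g := EE a) ?_ hsh
      rw [zero_add]
      exact (hEE a).continuousOn.continuousAt (isOpen_ball.mem_nhds hc3m)
    refine hc.eventually_ne ?_
    show EE a (0 + c3 c) ≠ 0
    rw [zero_add]
    exact hEc a
  obtain ⟨ε1, hε1, hball⟩ := Metric.eventually_nhds_iff_ball.1
    ((eventually_all.2 hcont).and (eventually_all.2 hcont2))
  set ε' := min ε1 (min (ε / 2) δ') with hε'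
  have hε'0 : 0 < ε' := lt_min hε1 (lt_min (by linarith) hδ'0)
  have le1 : ε' ≤ ε1 := min_le_left _ _
  have le2 : ε' ≤ ε / 2 := (min_le_right _ _).trans (min_le_left _ _)
  have le3 : ε' ≤ δ' := (min_le_right _ _).trans (min_le_right _ _)
  have hmem : ∀ z ∈ ball (0 : Cn 3) ε', z + c3 c ∈ ball (0 : Cn 3) ε := by
    intro z hz
    rw [mem_ball_zero_iff] at hz ⊢
    have := norm_add_le z (c3 c)
    linarith
  have hdsh : ∀ g : Cn 3 → ℂ, DifferentiableOn ℂ g (ball 0 ε) →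
      DifferentiableOn ℂ (fun z => g (z + c3 c)) (ball 0 ε') := by
    intro g hg
    exact hg.comp (differentiable_id.add_const _).differentiableOn hmem
  have e2 : ∀ z : Cn 3, (z + c3 c) 2 = z 2 := by
    intro z
    show z 2 + 0 = z 2
    rw [add_zero]
  have hT4 : ∀ (z : Cn 3) (t : ℂ), T4 c 0 ![z 0, z 1, z 2 ^ N, t] =
      ![(z + c3 c) 0, (z + c3 c) 1, (z + c3 c) 2 ^ N, t] := by
    intro z t
    rw [T4_eq, e2]
    rfl
  refine ⟨c, hcn.trans_lt (hc'b.trans_le (min_le_left _ _)), hc'P, δ', ε',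
    fun i z => G i (z + c3 c), ⟨?_, ?_, ?_⟩⟩
  · refine ⟨hS', hW.hN, hε'0, le3, fun i => hdsh _ (hW.hG i), ?_, ?_, ?_⟩
    · intro i z hz
      exact (hball z (ball_subset_ball le1 hz)).1 i
    · intro z hz hz2
      exact hW.inj (z + c3 c) (hmem z hz) (by rwa [e2])
    · intro z hz hz2 t ht
      have h5 := hW.zer (z + c3 c) (hmem z hz) (by rwa [e2]) t (ht.trans_le (min_le_right _ _))
      rw [← hT4] at h5
      rw [e2] at h5
      exact h5
  · intro i j hij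
    refine ⟨qa i j, fun z => Ea i j (z + c3 c), hdsh _ (hEa i j), ?_, ?_⟩
    · intro z hz
      exact (hball z (ball_subset_ball le1 hz)).2 (Sum.inl (i, j))
    · intro z hz
      have h5 := hqa i j hij (z + c3 c) (hmem z hz)
      rw [e2] at h5
      exact h5
  · intro k i
    have hval : ∀ z : Cn 3, F k (T4 c 0 ![z 0, z 1, z 2 ^ N, z 2 ^ N * G i (z + c3 c)]) =
        φ k i (z + c3 c) := by
      intro z
      rw [hT4]
      show _ = F k ![(z + c3 c) 0, (z + c3 c) 1, (z + c3 c) 2 ^ N, (z + c3 c) 2 ^ N * G i (z + c3 c)]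
      rw [e2]
    rcases hqb k i with h5 | h5
    · left
      intro z hz
      exact (hval z).trans (h5 _ (hmem z hz))
    · right
      refine ⟨qb k i, fun z => Eb k i (z + c3 c), hdsh _ (hEb k i), ?_, ?_⟩
      · intro z hz
        exact (hball z (ball_subset_ball le1 hz)).2 (Sum.inr (k, i))
      · intro z hz
        have h6 := h5 (z + c3 c) (hmem z hz)
        rw [e2] at h6
        exact (hval z).trans h6

end KP
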