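import Pool.Agent.Lib.KP.SpecW

set_option autoImplicit false

open Set Filter Topology Metric

namespace KP

namespace WP0Aux

/-- The preimage of an open set under a chart is open. -/
theorem isOpen_pre {N n : ℕ} {V : Set (Cn N)} (e : Chart V n) {U : Set (Cn N)} (hU : IsOpen U) :
    IsOpen (e.pre U) :=
  e.hpsi.continuousOn.isOpen_inter_preimage e.hW hU

/-- A small ball around a point of a ball. -/
theorem ball_sub {n : ℕ} {p : Cn n} {r s : ℝ} (h : r ≤ s - ‖p‖) : ball p r ⊆ ball (0 : Cn n) s := by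
  intro z hz
  rw [mem_ball, dist_eq_norm] at hz
  rw [mem_ball, dist_zero_right]
  calc ‖z‖ = ‖(z - p) + p‖ := by rw [sub_add_cancel]
    _ ≤ ‖z - p‖ + ‖p‖ := norm_add_le _ _
    _ < s := by linarith

end WP0Aux

open WP0Aux in
theorem tWP0 (h1 : S_NF2) : S_WP0 := by
  intro A R0 p ρ r0 ρ0 v hR0 hRA hopen hpA hp0 hp1 hρ hρp hdρ hev hv hIv hLv
  rw [mem_ball, dist_zero_right] at hp0 hp1
  obtain ⟨r, hr⟩ : ∃ r, r = min (r0 - ‖p‖) (ρ0 - ‖p‖) := ⟨_, rfl⟩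
  have hr0 : 0 < r := by
    rw [hr]
    exact lt_min (by linarith) (by linarith)
  have hb0 : ball p r ⊆ ball (0 : Cn 2) r0 := ball_sub (hr ▸ min_le_left _ _)
  have hb1 : ball p r ⊆ ball (0 : Cn 2) ρ0 := ball_sub (hr ▸ min_le_right _ _)
  obtain ⟨e, ρ', hmap, h0W, he0, hρ', hbW, hA2, hB2⟩ := h1 R0 p ρ r v hr0 hρ hρp hdρ hev hv hIv hLv
  refine ⟨e, e.pre R0 ∩ ball 0 ρ', ρ', fun w hw => hb0 (hmap hw), h0W, he0 ▸ hpA, hρ', hbW, ?_, ?_,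
    ?_, ?_⟩
  · rintro w ⟨⟨hw, hw'⟩, hwb⟩
    exact ⟨⟨hw, hRA hw'⟩, hwb⟩
  · exact (isOpen_pre e hR0).inter isOpen_ball
  · have h2 : (e.pre A ∩ ball 0 ρ') \ (e.pre R0 ∩ ball 0 ρ') =
        e.pre ((A ∩ ball 0 ρ0) \ R0) ∩ ball 0 ρ' := by
      ext w
      constructor
      · rintro ⟨⟨⟨hw, hwA⟩, hwb⟩, hn⟩
        exact ⟨⟨hw, ⟨hwA, hb1 (hmap hw)⟩, fun h => hn ⟨⟨hw, h⟩, hwb⟩⟩, hwb⟩
      · rintro ⟨⟨hw, ⟨hwA, -⟩, hwR⟩, hwb⟩
        exact ⟨⟨⟨hw, hwA⟩, hwb⟩, fun h => hwR h.1.2⟩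
    rw [h2]
    exact (isOpen_pre e hopen).inter isOpen_ball
  · rcases lt_or_gt_of_ne hLv with h | h
    · exact Or.inr (Or.inr (hB2 h))
    · exact Or.inl (hA2 h)

end KP
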