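import Pool.Agent.Lib.KP.SpecW

/-!
# KP (MP_64edc4_ag), WPt: a point of a wall with Levi form different from zero
-/

set_option autoImplicit false

open Set Filter Topology Metric

namespace KP

private theorem wpt_Lv_neg (Φ : Cn 2 → ℝ) (c v : Cn 2) :
    Lv (fun z => -Φ z) c v = -Lv Φ c v := by
  have h : fderiv ℝ (fun z => -Φ z) = fun z => -fderiv ℝ Φ z := by
    funext z
    exact fderiv_fun_neg
  simp only [Lv, D2, h]
  rw [fderiv_fun_neg]
  simp only [neg_apply]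
  ring

private theorem wpt_qf (N : ℕ) (g : Cn 3 → ℂ) (z : Cn 2) :
    qf 1 N g ![(z 0).re, (z 1).re, (z 0).im] = (z 0).im * (g (w3 N z)).re := by
  have h : qf 1 N g ![(z 0).re, (z 1).re, (z 0).im] = (z 0).im ^ (1 : ℝ) * (g (w3 N z)).re := rfl
  rw [h, Real.rpow_one]

private theorem wpt_qf0 (N : ℕ) (g : Cn 3 → ℂ) (s : ℝ) :
    qf 1 N g ![0, 0, s] = s * (g (e3 0 (s ^ ((1 : ℝ) / (N : ℝ))))).re := by
  have h : qf 1 N g ![0, 0, s] = s ^ (1 : ℝ) * (g (e3 0 (s ^ ((1 : ℝ) / (N : ℝ))))).re := rfl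
  rw [h, Real.rpow_one]

private theorem wpt_cp (s t : ℝ) :
    ((cp 0 ![s, t]) 0).re = 0 ∧ ((cp 0 ![s, t]) 1).re = 0 ∧ ((cp 0 ![s, t]) 0).im = s ∧
      ((cp 0 ![s, t]) 1).im = t := by
  simp [cp]

private theorem wpt_norm (s t : ℝ) (hs : 0 < s) (R : ℝ) (h1 : s < R) (h2 : |t| < R) :
    cp 0 ![s, t] ∈ ball (0 : Cn 2) R := by
  rw [mem_ball_zero_iff, pi_norm_lt_iff (hs.trans h1)]
  intro i
  fin_cases i
  · simp [cp, abs_of_pos hs, h1]
  · simp [cp, h2]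

/-- `WPt`. -/
theorem tWPt (h1 : S_WP0) (h2 : S_LvG) (h3 : S_LLq) (_h4 : S_D2A) : S_WPt := by
  intro A N ga gb ε hB r0 hr0
  obtain ⟨ρ0, hρ0, hcomp⟩ := hB.comp
  have hb : ∀ g : Cn 3 → ℂ, DifferentiableOn ℂ g (ball 0 ε) → ∃ κ > 0, ∃ M > 0,
      ∀ z ∈ ball (0 : Cn 3) κ, ‖g z‖ ≤ M := by
    intro g hg
    have hc : ContinuousAt g 0 :=
      hg.continuousOn.continuousAt (isOpen_ball.mem_nhds (mem_ball_self hB.hε))
    have h4 : ∀ᶠ z in 𝓝 (0 : Cn 3), ‖g z‖ < ‖g 0‖ + 1 :=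
      hc.norm.eventually (gt_mem_nhds (by linarith))
    obtain ⟨κ, hκ, h5⟩ := Metric.eventually_nhds_iff_ball.1 h4
    exact ⟨κ, hκ, ‖g 0‖ + 1, by positivity, fun z hz => (h5 z hz).le⟩
  obtain ⟨κa, hκa, Ma, hMa, hMa'⟩ := hb ga hB.ha
  obtain ⟨κb, hκb, Mb, hMb, hMb'⟩ := hb gb hB.hb
  have hε := hB.hε
  have hN := hB.hN
  have hN0 : (N : ℝ) ≠ 0 := by
    have : (0 : ℝ) < N := by exact_mod_cast hN
    exact this.ne'
  obtain ⟨κ, hκ⟩ : ∃ κ, κ = min ε (min κa κb) := ⟨_, rfl⟩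
  have hκ0 : 0 < κ := by rw [hκ]; positivity
  have hκε : κ ≤ ε := by rw [hκ]; exact min_le_left _ _
  have hκa' : κ ≤ κa := by rw [hκ]; exact (min_le_right _ _).trans (min_le_left _ _)
  have hκb' : κ ≤ κb := by rw [hκ]; exact (min_le_right _ _).trans (min_le_right _ _)
  obtain ⟨R, hR⟩ : ∃ R, R = min r0 ρ0 := ⟨_, rfl⟩
  have hR0 : 0 < R := by rw [hR]; positivity
  refine ⟨min (κ ^ N) (R / (1 + Ma + Mb)), by positivity, ?_⟩
  intro s hs hs1 hLL
  have hsκ : s < κ ^ N := hs1.trans_le (min_le_left _ _)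
  have hsR : s < R / (1 + Ma + Mb) := hs1.trans_le (min_le_right _ _)
  have hsR' : s * (1 + Ma + Mb) < R := by
    rwa [lt_div_iff₀ (by positivity)] at hsR
  obtain ⟨σ, hσ⟩ : ∃ σ, σ = s ^ ((1 : ℝ) / (N : ℝ)) := ⟨_, rfl⟩
  have hσ0 : 0 < σ := by rw [hσ]; positivity
  have hσN : σ ^ N = s := by
    rw [hσ, ← Real.rpow_natCast, ← Real.rpow_mul hs.le, one_div, inv_mul_cancel₀ hN0,
      Real.rpow_one]
  have hσκ : σ < κ := by
    by_contra h
    push Not at h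
    have h5 : κ ^ N ≤ σ ^ N := pow_le_pow_left₀ hκ0.le h N
    rw [hσN] at h5
    linarith
  have hσε : σ < ε := hσκ.trans_le hκε
  have hsε : s < ε ^ N := hsκ.trans_le (pow_le_pow_left₀ hκ0.le hκε N)
  have hx0 : ‖(0 : Fin 2 → ℝ)‖ < ε := by rw [norm_zero]; exact hε
  have he3 : e3 0 σ ∈ ball (0 : Cn 3) κ := by
    rw [mem_ball_zero_iff, pi_norm_lt_iff hκ0]
    intro i
    fin_cases i
    · simp [e3, hκ0]
    · simp [e3, hκ0]
    · simp [e3, abs_of_pos hσ0, hσκ]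
  -- the point on the wall
  have hpt : ∀ (g : Cn 3 → ℂ) (M : ℝ), 0 < M → M ≤ Ma + Mb → ‖g (e3 0 σ)‖ ≤ M → ∀ R' : ℝ, R ≤ R' →
      cp 0 ![s, s * (g (e3 0 σ)).re] ∈ ball (0 : Cn 2) R' := by
    intro g M hM hM' hg R' hR'
    refine wpt_norm s _ hs R' (by nlinarith) ?_
    rw [abs_mul, abs_of_pos hs]
    have h5 : |(g (e3 0 σ)).re| ≤ M := (Complex.abs_re_le_norm _).trans hg
    have h6 : s * |(g (e3 0 σ)).re| ≤ s * (Ma + Mb) := mul_le_mul_of_nonneg_left (h5.trans hM') hs.le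
    nlinarith
  -- the defining functions
  have key : ∀ g : Cn 3 → ℂ, DifferentiableOn ℂ g (ball 0 ε) → ∀ t : ℝ,
      ContDiffAt ℝ 2 (fun z : Cn 2 => qf 1 N g ![(z 0).re, (z 1).re, (z 0).im] - (z 1).im)
        (cp 0 ![s, t]) ∧
      fderiv ℝ (fun z : Cn 2 => qf 1 N g ![(z 0).re, (z 1).re, (z 0).im] - (z 1).im)
        (cp 0 ![s, t]) ≠ 0 ∧ ∃ v : Cn 2,
      fderiv ℝ (fun z : Cn 2 => qf 1 N g ![(z 0).re, (z 1).re, (z 0).im] - (z 1).im)
        (cp 0 ![s, t]) v = 0 ∧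
      fderiv ℝ (fun z : Cn 2 => qf 1 N g ![(z 0).re, (z 1).re, (z 0).im] - (z 1).im)
        (cp 0 ![s, t]) (Complex.I • v) = 0 ∧
      Lv (fun z : Cn 2 => qf 1 N g ![(z 0).re, (z 1).re, (z 0).im] - (z 1).im)
        (cp 0 ![s, t]) v = LL (qf 1 N g) ![0, 0, s] := by
    intro g hg t
    obtain ⟨c1, c2, c3, c4⟩ := wpt_cp s t
    have h5 := h2 (qf 1 N g) (cp 0 ![s, t])
    simp only [c1, c2, c3] at h5
    obtain ⟨h6, h7, h8, h9, h10⟩ := h5 (h3 1 N g ε hN hε hg ![0, 0, s] (by simpa using hε)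
      (by simpa using hε) (by simpa using hs) (by simpa using hsε)).1
    exact ⟨h6, h7, _, h8, h9, h10⟩
  have hval : ∀ g : Cn 3 → ℂ, ∀ t : ℝ,
      (fun z : Cn 2 => qf 1 N g ![(z 0).re, (z 1).re, (z 0).im] - (z 1).im) (cp 0 ![s, t]) =
        s * (g (e3 0 σ)).re - t := by
    intro g t
    obtain ⟨c1, c2, c3, c4⟩ := wpt_cp s t
    simp only [c1, c2, c3, c4]
    rw [wpt_qf0, ← hσ]
  -- membership in the band near the point
  have hmem : ∀ t : ℝ, ∀ᶠ z in 𝓝 (cp 0 ![s, t]), (z ∈ Bd N ga gb ε ↔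
      (qf 1 N ga ![(z 0).re, (z 1).re, (z 0).im] - (z 1).im < 0 ∧
        0 < qf 1 N gb ![(z 0).re, (z 1).re, (z 0).im] - (z 1).im)) := by
    intro t
    obtain ⟨c1, c2, c3, c4⟩ := wpt_cp s t
    have e1 : ∀ i, ∀ᶠ z : Cn 2 in 𝓝 (cp 0 ![s, t]), |(z i).re| < ε := by
      intro i
      have hc : ContinuousAt (fun z : Cn 2 => |(z i).re|) (cp 0 ![s, t]) :=
        (Complex.continuous_re.comp (continuous_apply i)).abs.continuousAt
      refine hc.eventually (gt_mem_nhds ?_)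
      fin_cases i
      · change |((cp 0 ![s, t]) 0).re| < ε
        rw [c1, abs_zero]; exact hε
      · change |((cp 0 ![s, t]) 1).re| < ε
        rw [c2, abs_zero]; exact hε
    have e2 : ∀ᶠ z : Cn 2 in 𝓝 (cp 0 ![s, t]), 0 < (z 0).im := by
      have hc : ContinuousAt (fun z : Cn 2 => (z 0).im) (cp 0 ![s, t]) :=
        (Complex.continuous_im.comp (continuous_apply 0)).continuousAt
      refine hc.eventually (lt_mem_nhds ?_)
      change 0 < ((cp 0 ![s, t]) 0).im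
      rw [c3]; exact hs
    have e3' : ∀ᶠ z : Cn 2 in 𝓝 (cp 0 ![s, t]), (z 0).im < ε ^ N := by
      have hc : ContinuousAt (fun z : Cn 2 => (z 0).im) (cp 0 ![s, t]) :=
        (Complex.continuous_im.comp (continuous_apply 0)).continuousAt
      refine hc.eventually (gt_mem_nhds ?_)
      change ((cp 0 ![s, t]) 0).im < ε ^ N
      rw [c3]; exact hsε
    filter_upwards [e1 0, e1 1, e2, e3'] with z g1 g2 g3 g4
    rw [wpt_qf, wpt_qf]
    constructor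
    · rintro ⟨-, -, -, h5, h6⟩
      exact ⟨by linarith, by linarith⟩
    · rintro ⟨h5, h6⟩
      refine ⟨?_, g3, g4, by linarith, by linarith⟩
      intro i
      fin_cases i
      · exact g1
      · exact g2
  have hlt := hB.lt 0 σ hx0 hσ0 hσε
  have hR1 : R ≤ r0 := by rw [hR]; exact min_le_left _ _
  have hR2 : R ≤ ρ0 := by rw [hR]; exact min_le_right _ _
  rcases hLL with hLL | hLL
  · -- the wall `a`
    have hga : ‖ga (e3 0 σ)‖ ≤ Ma := hMa' _ (ball_subset_ball hκa' he3)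
    obtain ⟨k1, k2, v, k3, k4, k5⟩ := key ga hB.ha (s * (ga (e3 0 σ)).re)
    have hnA : cp 0 ![s, s * (ga (e3 0 σ)).re] ∉ A := by
      have := hB.wa 0 σ hx0 hσ0 hσε
      rwa [hσN] at this
    refine h1 A (Bd N ga gb ε) _ _ r0 ρ0 v hB.bopn hB.sub hcomp hnA
      (hpt ga Ma hMa (by linarith) hga r0 hR1) (hpt ga Ma hMa (by linarith) hga ρ0 hR2)
      k1 ?_ k2 ?_ k3 k4 (by rw [k5]; exact hLL)
    · exact (hval ga _).trans (by ring)
    · have hc : ContinuousAt (fun z : Cn 2 => qf 1 N gb ![(z 0).re, (z 1).re, (z 0).im] - (z 1).im)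
          (cp 0 ![s, s * (ga (e3 0 σ)).re]) := (key gb hB.hb _).1.continuousAt
      have h5 : ∀ᶠ z : Cn 2 in 𝓝 (cp 0 ![s, s * (ga (e3 0 σ)).re]),
          0 < qf 1 N gb ![(z 0).re, (z 1).re, (z 0).im] - (z 1).im := by
        refine hc.eventually (lt_mem_nhds ?_)
        rw [hval]
        have := mul_lt_mul_of_pos_left hlt hs
        linarith
      filter_upwards [hmem _, h5] with z h6 h7
      rw [h6]
      exact ⟨fun h => h.1, fun h => ⟨h, h7⟩⟩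
  · -- the wall `b`
    have hgb : ‖gb (e3 0 σ)‖ ≤ Mb := hMb' _ (ball_subset_ball hκb' he3)
    obtain ⟨k1, k2, v, k3, k4, k5⟩ := key gb hB.hb (s * (gb (e3 0 σ)).re)
    have hnA : cp 0 ![s, s * (gb (e3 0 σ)).re] ∉ A := by
      have := hB.wb 0 σ hx0 hσ0 hσε
      rwa [hσN] at this
    refine h1 A (Bd N ga gb ε) _
      (fun z => -(qf 1 N gb ![(z 0).re, (z 1).re, (z 0).im] - (z 1).im)) r0 ρ0 v hB.bopn hB.sub
      hcomp hnA (hpt gb Mb hMb (by linarith) hgb r0 hR1) (hpt gb Mb hMb (by linarith) hgb ρ0 hR2)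
      k1.neg ?_ ?_ ?_ ?_ ?_ ?_
    · have := hval gb (s * (gb (e3 0 σ)).re)
      simp only at this ⊢
      rw [this]; ring
    · rw [fderiv_fun_neg]
      exact neg_ne_zero.2 k2
    · have hc : ContinuousAt (fun z : Cn 2 => qf 1 N ga ![(z 0).re, (z 1).re, (z 0).im] - (z 1).im)
          (cp 0 ![s, s * (gb (e3 0 σ)).re]) := (key ga hB.ha _).1.continuousAt
      have h5 : ∀ᶠ z : Cn 2 in 𝓝 (cp 0 ![s, s * (gb (e3 0 σ)).re]),
          qf 1 N ga ![(z 0).re, (z 1).re, (z 0).im] - (z 1).im < 0 := by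
        refine hc.eventually (gt_mem_nhds ?_)
        rw [hval]
        have := mul_lt_mul_of_pos_left hlt hs
        linarith
      filter_upwards [hmem _, h5] with z h6 h7
      rw [h6]
      exact ⟨fun h => by linarith [h.2], fun h => ⟨h7, by linarith⟩⟩
    · rw [fderiv_fun_neg, neg_apply, k3, neg_zero]
    · rw [fderiv_fun_neg, neg_apply, k4, neg_zero]
    · rw [wpt_Lv_neg, k5]
      exact neg_ne_zero.2 hLL

end KP
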