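import Pool.Agent.Lib.KP.SpecW

/-!
# KP W/WR: reflection of the wall data (helper57)
-/

set_option autoImplicit false

open Set Filter Topology Metric

namespace KP

namespace WRAux

theorem neg_em (x y : Fin 2 → ℝ) : -em x y = em (-x) (-y) := by
  ext i
  fin_cases i <;> simp [em]

theorem neg_cp (x y : Fin 2 → ℝ) : -cp x y = cp (-x) (-y) := by
  ext i
  simp [cp]
  ring

theorem neg_mem {n : ℕ} {δ : ℝ} {z : Cn n} (hz : z ∈ ball (0 : Cn n) δ) : -z ∈ ball (0 : Cn n) δ := by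
  rw [mem_ball_zero_iff] at hz ⊢
  rwa [norm_neg]

theorem def_neg {A : Set (Cn 2)} {m : ℕ} {F : Fin m → Cn 4 → ℂ} {δ : ℝ} (h : Def A m F δ) :
    Def (ng.pre A) m (fun k z => F k (-z)) δ where
  hδ := h.hδ
  hδ1 := h.hδ1
  hol := fun k => (h.hol k).comp differentiable_id.neg.differentiableOn (fun z hz => neg_mem hz)
  real := fun k x y hx hy => by
    show (F k (-em x y)).im = 0
    rw [neg_em]
    exact h.real k _ _ (by rwa [norm_neg]) (by rwa [norm_neg])
  nz := fun k => by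
    obtain ⟨z, hz, h1⟩ := h.nz k
    refine ⟨-z, neg_mem hz, ?_⟩
    show F k (-(-z)) ≠ 0
    rwa [neg_neg]
  sgn := fun x y x' y' hx hy hx' hy' hs => by
    have e : ∀ a b : Fin 2 → ℝ, cp a b ∈ ng.pre A ↔ cp (-a) (-b) ∈ A := by
      intro a b
      rw [← neg_cp]
      exact ⟨fun h => h.2, fun h => ⟨mem_univ _, h⟩⟩
    rw [e, e]
    refine h.sgn _ _ _ _ (by rwa [norm_neg]) (by rwa [norm_neg]) (by rwa [norm_neg])
      (by rwa [norm_neg]) fun k => ?_
    rw [← neg_em, ← neg_em]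
    exact hs k

theorem std_neg (hP : S_PkC) {A : Set (Cn 2)} {m : ℕ} {F : Fin m → Cn 4 → ℂ} {δ : ℝ}
    (h : Std A m F δ) : Std (ng.pre A) m (fun k z => F k (-z)) δ where
  opn := by
    have e : ng.pre A = (fun w : Cn 2 => -w) ⁻¹' A := by
      ext w
      exact ⟨fun h => h.2, fun h => ⟨mem_univ _, h⟩⟩
    rw [e]
    exact h.opn.preimage continuous_neg
  pk0 := by
    rw [hP 2 A ng h.opn 0 (mem_univ _)]
    have e : ng.psi 0 = 0 := neg_zero
    rw [e]
    exact h.pk0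
  pkR := fun w hw hp i => by
    rw [hP 2 A ng h.opn w (mem_univ _)] at hp
    have h1 : ((-w) i).im = 0 := h.pkR (-w) (neg_mem hw) hp i
    rw [Pi.neg_apply, Complex.neg_im, neg_eq_zero] at h1
    exact h1
  df := def_neg h.df
  reg := fun z hz h3 h2 k => by
    refine h.reg (-z) (neg_mem hz) ?_ ?_ k
    · rw [Pi.neg_apply]
      exact neg_ne_zero.2 h3
    · rw [Pi.neg_apply, Pi.neg_apply, norm_neg, norm_neg]
      exact h2
  vx := fun x y hx hy h1 h0 hmem => by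
    have h4 : -cp x y ∈ A := hmem.2
    rw [neg_cp] at h4
    refine h.vx (-x) (-y) (by rwa [norm_neg]) (by rwa [norm_neg]) ?_ ?_ h4
    · rw [Pi.neg_apply]
      exact neg_ne_zero.2 h1
    · rw [Pi.neg_apply, Pi.neg_apply, abs_neg, abs_neg]
      exact h0

theorem exists_root {N : ℕ} (hN : 1 ≤ N) : ∃ ω : ℂ, ω ^ N = -1 ∧ ‖ω‖ = 1 := by
  refine ⟨Complex.exp (((Real.pi / N : ℝ) : ℂ) * Complex.I), ?_, Complex.norm_exp_ofReal_mul_I _⟩
  rw [← Complex.exp_nat_mul]
  have h1 : (N : ℂ) * (((Real.pi / N : ℝ) : ℂ) * Complex.I) = Real.pi * Complex.I := by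
    have h2 : (N : ℂ) ≠ 0 := Nat.cast_ne_zero.2 (by omega)
    push_cast
    field_simp
  rw [h1, Complex.exp_pi_mul_I]

/-- the map `z ↦ (-z_0, -z_1, ω z_2)` -/
def J (ω : ℂ) (z : Cn 3) : Cn 3 := ![-z 0, -z 1, ω * z 2]

theorem J_mem {ω : ℂ} (hω : ‖ω‖ = 1) {ε : ℝ} {z : Cn 3} (hε : 0 < ε) (hz : z ∈ ball (0 : Cn 3) ε) :
    J ω z ∈ ball (0 : Cn 3) ε := by
  rw [mem_ball_zero_iff, pi_norm_lt_iff hε] at hz ⊢
  intro i
  fin_cases i
  · show ‖-z 0‖ < ε
    rw [norm_neg]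
    exact hz 0
  · show ‖-z 1‖ < ε
    rw [norm_neg]
    exact hz 1
  · show ‖ω * z 2‖ < ε
    rw [norm_mul, hω, one_mul]
    exact hz 2

theorem J_diff (ω : ℂ) : Differentiable ℂ (J ω) := by
  rw [differentiable_pi]
  intro i
  fin_cases i
  · exact (differentiable_apply 0).neg
  · exact (differentiable_apply 1).neg
  · exact (differentiable_const _).mul (differentiable_apply 2)

end WRAux

open WRAux

theorem tWR (h1 : S_PkC) : S_WR := by
  intro A m F δ r N G ε hW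
  obtain ⟨ω, hωN, hω⟩ := exists_root hW.wal.hN
  have hω0 : ω ≠ 0 := by
    intro h
    rw [h, norm_zero] at hω
    exact zero_ne_one hω
  have hε := hW.wal.hε
  have hJ : ∀ z ∈ ball (0 : Cn 3) ε, J ω z ∈ ball (0 : Cn 3) ε := fun z hz => J_mem hω hε hz
  have hpow : ∀ z : Cn 3, (J ω z) 2 ^ N = -z 2 ^ N := by
    intro z
    show (ω * z 2) ^ N = -z 2 ^ N
    rw [mul_pow, hωN]
    ring
  have hd : ∀ g : Cn 3 → ℂ, DifferentiableOn ℂ g (ball 0 ε) →
      DifferentiableOn ℂ (fun z => g (J ω z)) (ball 0 ε) :=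
    fun g hg => hg.comp (J_diff ω).differentiableOn hJ
  have hneg : ∀ (z : Cn 3) (t : ℂ), -(![z 0, z 1, z 2 ^ N, t] : Cn 4) =
      ![(J ω z) 0, (J ω z) 1, (J ω z) 2 ^ N, -t] := by
    intro z t
    rw [hpow]
    ext i
    fin_cases i <;> simp [J]
  refine ⟨fun k z => F k (-z), fun i z => G i (J ω z), ⟨?_, ?_, ?_⟩⟩
  · refine ⟨std_neg h1 hW.wal.std, hW.wal.hN, hε, hW.wal.hεδ, fun i => hd _ (hW.wal.hG i), ?_, ?_, ?_⟩
    · intro i z hz
      have h2 := hW.wal.bdd i (J ω z) (hJ z hz)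
      rw [hpow, neg_mul, norm_neg] at h2
      exact h2
    · intro z hz hz2
      exact hW.wal.inj (J ω z) (hJ z hz) (mul_ne_zero hω0 hz2)
    · intro z hz hz2 t ht
      have h2 := hW.wal.zer (J ω z) (hJ z hz) (mul_ne_zero hω0 hz2) (-t) (by rwa [norm_neg])
      rw [← hneg, hpow] at h2
      refine h2.trans ?_
      constructor
      · rintro ⟨i, hi⟩
        exact ⟨i, by rw [neg_mul, neg_inj] at hi; exact hi⟩
      · rintro ⟨i, hi⟩
        exact ⟨i, by rw [neg_mul, neg_inj]; exact hi⟩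
  · intro i j hij
    obtain ⟨q, E, hE, hE0, hq⟩ := hW.dif i j hij
    refine ⟨q, fun z => ω ^ q * E (J ω z), (hd E hE).const_mul _, ?_, ?_⟩
    · intro z hz
      exact mul_ne_zero (pow_ne_zero q hω0) (hE0 _ (hJ z hz))
    · intro z hz
      have h2 := hq (J ω z) (hJ z hz)
      show G i (J ω z) - G j (J ω z) = _
      rw [h2]
      show (ω * z 2) ^ q * _ = _
      ring
  · intro k i
    have hval : ∀ z : Cn 3, F k (-(![z 0, z 1, z 2 ^ N, z 2 ^ N * G i (J ω z)] : Cn 4)) =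
        F k ![(J ω z) 0, (J ω z) 1, (J ω z) 2 ^ N, (J ω z) 2 ^ N * G i (J ω z)] := by
      intro z
      rw [hneg, hpow, neg_mul]
    rcases hW.sgw k i with h2 | ⟨q, E, hE, hE0, hq⟩
    · left
      intro z hz
      exact (hval z).trans (h2 _ (hJ z hz))
    · right
      refine ⟨q, fun z => ω ^ q * E (J ω z), (hd E hE).const_mul _, ?_, ?_⟩
      · intro z hz
        exact mul_ne_zero (pow_ne_zero q hω0) (hE0 _ (hJ z hz))
      · intro z hz
        refine (hval z).trans ?_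
        rw [hq _ (hJ z hz)]
        show (ω * z 2) ^ q * _ = _
        ring

end KP
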